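import Pool.Agent.H426R3.SQ.Defs

set_option autoImplicit false

/-! # Task C1e: counting solutions of `(a + t p) ^ 2 + s p ≡ 0` (adapted from C1 of helper90 and
Par) -/

namespace Pool.Agent.H426R3.SQ

open Finset

lemma C1e_congr (u : ℤ) (p : ℕ) (x y : ℤ) (h : (p : ℤ) ∣ x - y) :
    (p : ℤ) ∣ x ^ 2 + u ↔ (p : ℤ) ∣ y ^ 2 + u := by
  refine dvd_iff_dvd_of_dvd_sub ?_
  have e : x ^ 2 + u - (y ^ 2 + u) = (x - y) * (x + y) := by ring
  rw [e]
  exact Dvd.dvd.mul_right h _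


theorem C1e_count_ap (A B : ℤ) (hAB : A ≤ B) (q : ℕ) (hq : 1 ≤ q) (r : ℤ) :
    |(((Finset.Ioc A B).filter (fun x => (q : ℤ) ∣ x - r)).card : ℝ) - ((B : ℝ) - A) / q| ≤ 1 := by
  have hq' : (0 : ℤ) < q := by exact_mod_cast hq
  have h1 := Int.Ioc_filter_modEq_card A B hq' r
  have h2 : (Finset.Ioc A B).filter (fun x => (q : ℤ) ∣ x - r) =
      (Finset.Ioc A B).filter (fun x => x ≡ r [ZMOD (q : ℤ)]) := by
    apply Finset.filter_congr
    intro x _
    rw [Int.modEq_iff_dvd, dvd_sub_comm]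
  rw [h2]
  set a : ℚ := ((A : ℚ) - r) / ((q : ℤ) : ℚ) with ha
  set b : ℚ := ((B : ℚ) - r) / ((q : ℤ) : ℚ) with hb
  have hab : a ≤ b := by
    rw [ha, hb]
    apply div_le_div_of_nonneg_right
    · have : (A : ℚ) ≤ B := by exact_mod_cast hAB
      linarith
    · positivity
  have h3 : ⌊a⌋ ≤ ⌊b⌋ := Int.floor_mono hab
  have h4 : (((Finset.Ioc A B).filter (fun x => x ≡ r [ZMOD (q : ℤ)])).card : ℤ) = ⌊b⌋ - ⌊a⌋ := by
    rw [h1, max_eq_left (by omega)]
  have h5 : (((Finset.Ioc A B).filter (fun x => x ≡ r [ZMOD (q : ℤ)])).card : ℝ) =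
      (⌊b⌋ : ℝ) - (⌊a⌋ : ℝ) := by exact_mod_cast h4
  rw [h5]
  have h6 : ((B : ℝ) - A) / q = (b : ℝ) - (a : ℝ) := by
    rw [ha, hb]
    push_cast
    rw [← sub_div]
    ring
  rw [h6]
  have a1 : ((⌊a⌋ : ℤ) : ℝ) ≤ (a : ℝ) := by exact_mod_cast Int.floor_le a
  have a2 : (a : ℝ) < (⌊a⌋ : ℝ) + 1 := by exact_mod_cast Int.lt_floor_add_one a
  have b1 : ((⌊b⌋ : ℤ) : ℝ) ≤ (b : ℝ) := by exact_mod_cast Int.floor_le b
  have b2 : (b : ℝ) < (⌊b⌋ : ℝ) + 1 := by exact_mod_cast Int.lt_floor_add_one b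
  rw [abs_le]
  constructor <;> linarith

/-- counting in residue classes -/
theorem C1e_count (A B : ℤ) (hAB : A ≤ B) (W : ℕ) (hW : 1 ≤ W) (r : ℤ)
    (T : Finset ℕ) (hT : ∀ p ∈ T, p.Prime ∧ ¬ p ∣ W) (t s : ℕ → ℤ) :
    |(((Finset.Ioc A B).filter (fun a : ℤ => (W : ℤ) ∣ a - r ∧
        ∀ p ∈ T, (p : ℤ) ∣ (a + t p) ^ 2 + s p)).card : ℝ) -
      ((B : ℝ) - A) / W * ∏ p ∈ T, (rho (s p) p : ℝ) / (p : ℝ)| ≤ ∏ p ∈ T, (rho (s p) p : ℝ) := by
  induction T using Finset.induction_on generalizing W r with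
  | empty =>
    have h := C1e_count_ap A B hAB W hW r
    simpa using h
  | insert p T hpT ih =>
    obtain ⟨hp, hpW⟩ := hT p (Finset.mem_insert_self p T)
    have hp0 : (0 : ℤ) < (p : ℤ) := by exact_mod_cast hp.pos
    have hpR : (0 : ℝ) < (p : ℝ) := by exact_mod_cast hp.pos
    have hWR : (0 : ℝ) < (W : ℝ) := by exact_mod_cast hW
    obtain ⟨Z, hZ⟩ : ∃ Z, Z = (Finset.range p).filter (fun x : ℕ => (p : ℤ) ∣ (x : ℤ) ^ 2 + s p) :=
      ⟨_, rfl⟩
    have hZc : Z.card = rho (s p) p := by rw [hZ]; rfl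
    have hcop : IsCoprime (W : ℤ) (p : ℤ) := by
      rw [Nat.isCoprime_iff_coprime]
      exact (Nat.Coprime.symm ((Nat.Prime.coprime_iff_not_dvd hp).2 hpW))
    -- the classes
    have hcrt : ∀ c : ℕ, ∃ rc : ℤ, (W : ℤ) ∣ rc - r ∧ (p : ℤ) ∣ rc - ((c : ℤ) - t p) := by
      intro c
      obtain ⟨u, v, huv⟩ := hcop
      refine ⟨r * (v * p) + ((c : ℤ) - t p) * (u * W), ?_, ?_⟩
      · refine ⟨u * (((c : ℤ) - t p) - r), ?_⟩
        have : v * (p : ℤ) = 1 - u * W := by linarith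
        rw [this]; ring
      · refine ⟨v * (r - ((c : ℤ) - t p)), ?_⟩
        have : u * (W : ℤ) = 1 - v * p := by linarith
        rw [this]; ring
    choose rc hrc1 hrc2 using hcrt
    obtain ⟨F, hF⟩ : ∃ F, F = (Finset.Ioc A B).filter (fun a : ℤ => (W : ℤ) ∣ a - r ∧
        ∀ q ∈ insert p T, (q : ℤ) ∣ (a + t q) ^ 2 + s q) := ⟨_, rfl⟩
    have hfib : F.card = ∑ c ∈ Z, ((Finset.Ioc A B).filter (fun a : ℤ =>
        ((W * p : ℕ) : ℤ) ∣ a - rc c ∧ ∀ q ∈ T, (q : ℤ) ∣ (a + t q) ^ 2 + s q)).card := by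
      have hmod : ∀ a : ℤ, (((a % (p : ℤ)).toNat : ℕ) : ℤ) = a % (p : ℤ) :=
        fun a => Int.toNat_of_nonneg (Int.emod_nonneg _ hp0.ne')
      have hdvd : ∀ a : ℤ, (p : ℤ) ∣ a - ((a % (p : ℤ)).toNat : ℕ) := by
        intro a
        rw [hmod]
        exact Int.dvd_self_sub_emod
      have hmaps : Set.MapsTo (fun a : ℤ => ((a + t p) % (p : ℤ)).toNat) (F : Set ℤ)
          (Z : Set ℕ) := by
        intro a ha
        rw [Finset.mem_coe, hF, Finset.mem_filter] at ha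
        rw [Finset.mem_coe, hZ, Finset.mem_filter, Finset.mem_range]
        constructor
        · have h1 := Int.emod_lt_of_pos (a + t p) hp0
          have h2 := hmod (a + t p)
          show ((a + t p) % (p : ℤ)).toNat < p
          omega
        · have h3 := ha.2.2 p (Finset.mem_insert_self p T)
          exact (C1e_congr (s p) p _ _ (hdvd (a + t p))).1 h3
      rw [Finset.card_eq_sum_card_fiberwise hmaps]
      refine Finset.sum_congr rfl (fun c hc => ?_)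
      congr 1
      rw [hZ, Finset.mem_filter, Finset.mem_range] at hc
      ext a
      rw [hF, Finset.mem_filter, Finset.mem_filter, Finset.mem_filter]
      constructor
      · rintro ⟨⟨h1, h2, h3⟩, h4⟩
        refine ⟨h1, ?_, fun q hq => h3 q (Finset.mem_insert_of_mem hq)⟩
        have h5 := hdvd (a + t p)
        rw [h4] at h5
        have h6 : (p : ℤ) ∣ a - rc c := by
          have := dvd_sub h5 (hrc2 c)
          have e : a + t p - (c : ℤ) - (rc c - ((c : ℤ) - t p)) = a - rc c := by ring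
          rwa [e] at this
        have h7 : (W : ℤ) ∣ a - rc c := by
          have := dvd_sub h2 (hrc1 c)
          have e : a - r - (rc c - r) = a - rc c := by ring
          rwa [e] at this
        push_cast
        exact hcop.mul_dvd h7 h6
      · rintro ⟨h1, h2, h3⟩
        push_cast at h2
        have h7 : (W : ℤ) ∣ a - rc c := (Dvd.intro _ rfl).trans h2
        have h6 : (p : ℤ) ∣ a - rc c := (Dvd.intro_left _ rfl).trans h2
        have h5 : (p : ℤ) ∣ a + t p - (c : ℤ) := by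
          have := dvd_add h6 (hrc2 c)
          have e : a - rc c + (rc c - ((c : ℤ) - t p)) = a + t p - (c : ℤ) := by ring
          rwa [e] at this
        refine ⟨⟨h1, ?_, ?_⟩, ?_⟩
        · have := dvd_add h7 (hrc1 c)
          have e : a - rc c + (rc c - r) = a - r := by ring
          rwa [e] at this
        · intro q hq
          rcases Finset.mem_insert.1 hq with rfl | hq
          · exact (C1e_congr (s q) q _ _ h5).2 hc.2
          · exact h3 q hq
        · have h8 : (a + t p) % (p : ℤ) = c := by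
            have h10 : (a + t p) % (p : ℤ) = (c : ℤ) % (p : ℤ) :=
              ((Int.modEq_iff_dvd.2 h5).symm)
            rw [h10]
            exact Int.emod_eq_of_lt (by omega) (by exact_mod_cast hc.1)
          show ((a + t p) % (p : ℤ)).toNat = c
          rw [h8]
          simp
    rw [← hF, hfib]
    have hWp : 1 ≤ W * p := Nat.mul_pos hW hp.pos
    have hT' : ∀ q ∈ T, q.Prime ∧ ¬ q ∣ W * p := by
      intro q hq
      obtain ⟨h1, h2⟩ := hT q (Finset.mem_insert_of_mem hq)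
      refine ⟨h1, fun h => ?_⟩
      rcases (Nat.Prime.dvd_mul h1).1 h with h | h
      · exact h2 h
      · have := (Nat.prime_dvd_prime_iff_eq h1 hp).1 h
        exact hpT (this ▸ hq)
    have hbd := fun c => ih (W * p) hWp (rc c) hT'
    rw [Finset.prod_insert hpT, Finset.prod_insert hpT]
    push_cast
    have e1 : ∑ c ∈ Z, (((Finset.Ioc A B).filter (fun a : ℤ =>
        ((W : ℤ) * p) ∣ a - rc c ∧ ∀ q ∈ T, (q : ℤ) ∣ (a + t q) ^ 2 + s q)).card : ℝ) -
        ((B : ℝ) - A) / W * ((rho (s p) p : ℝ) / p * ∏ q ∈ T, (rho (s q) q : ℝ) / (q : ℝ)) =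
        ∑ c ∈ Z, ((((Finset.Ioc A B).filter (fun a : ℤ =>
        ((W * p : ℕ) : ℤ) ∣ a - rc c ∧ ∀ q ∈ T, (q : ℤ) ∣ (a + t q) ^ 2 + s q)).card : ℝ) -
        ((B : ℝ) - A) / (W * p : ℕ) * ∏ q ∈ T, (rho (s q) q : ℝ) / (q : ℝ)) := by
      rw [Finset.sum_sub_distrib, Finset.sum_const, hZc, nsmul_eq_mul]
      push_cast
      congr 1
      field_simp
    rw [e1]
    calc _ ≤ ∑ c ∈ Z, |((((Finset.Ioc A B).filter (fun a : ℤ =>
        ((W * p : ℕ) : ℤ) ∣ a - rc c ∧ ∀ q ∈ T, (q : ℤ) ∣ (a + t q) ^ 2 + s q)).card : ℝ) -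
        ((B : ℝ) - A) / (W * p : ℕ) * ∏ q ∈ T, (rho (s q) q : ℝ) / (q : ℝ))| :=
          Finset.abs_sum_le_sum_abs _ _
      _ ≤ ∑ c ∈ Z, ∏ q ∈ T, (rho (s q) q : ℝ) := Finset.sum_le_sum (fun c _ => hbd c)
      _ = (rho (s p) p : ℝ) * ∏ q ∈ T, (rho (s q) q : ℝ) := by
          rw [Finset.sum_const, hZc, nsmul_eq_mul]

open scoped Classical in
/-- counting in residue classes, with a shift for every prime -/
theorem count_sq_shift (A B : ℤ) (hAB : A ≤ B) (W : ℕ) (hW : 1 ≤ W) (r : ℤ)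
    (T : Finset ℕ) (hT : ∀ p ∈ T, p.Prime ∧ ¬ p ∣ W) (t s : ℕ → ℤ) :
    |(((Finset.Ioc A B).filter (fun a : ℤ => (W : ℤ) ∣ a - r ∧
        ∀ p ∈ T, (p : ℤ) ∣ (a + t p) ^ 2 + s p)).card : ℝ) -
      ((B : ℝ) - A) / W * ∏ p ∈ T, (rho (s p) p : ℝ) / (p : ℝ)| ≤
        ∏ p ∈ T, (rho (s p) p : ℝ) := by
  convert C1e_count A B hAB W hW r T hT t s

end Pool.Agent.H426R3.SQ
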