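import Pool.Agent.H426R3.SQ.Defs
import Pool.Agent.H256R2.SC.G1

set_option autoImplicit false

/-! # Task C1: counting solutions of `a ^ 2 + s p ≡ 0`

Proof by helper90 (C1.lean); this copy imports `H256R2.SC.G1` instead of `H256R2.SC.Par`. -/

namespace Pool.Agent.H426R3.SQ

open Finset

lemma C1_congr (u : ℤ) (p : ℕ) (x y : ℤ) (h : (p : ℤ) ∣ x - y) :
    (p : ℤ) ∣ x ^ 2 + u ↔ (p : ℤ) ∣ y ^ 2 + u := by
  refine dvd_iff_dvd_of_dvd_sub ?_
  have e : x ^ 2 + u - (y ^ 2 + u) = (x - y) * (x + y) := by ring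
  rw [e]
  exact Dvd.dvd.mul_right h _

theorem rho_le_two (u : ℤ) (p : ℕ) (hp : p.Prime) : rho u p ≤ 2 := by
  classical
  unfold rho
  rcases Finset.eq_empty_or_nonempty
    ((Finset.range p).filter (fun x : ℕ => (p : ℤ) ∣ (x : ℤ) ^ 2 + u)) with h | ⟨x, hx⟩
  · rw [h]; simp
  · have hsub : (Finset.range p).filter (fun x : ℕ => (p : ℤ) ∣ (x : ℤ) ^ 2 + u) ⊆
        {x, p - x} := by
      intro y hy
      rw [Finset.mem_filter, Finset.mem_range] at hx hy
      rw [Finset.mem_insert, Finset.mem_singleton]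
      have h1 : (p : ℤ) ∣ ((y : ℤ) - x) * ((y : ℤ) + x) := by
        have h2 := dvd_sub hy.2 hx.2
        have e : (y : ℤ) ^ 2 + u - ((x : ℤ) ^ 2 + u) = ((y : ℤ) - x) * ((y : ℤ) + x) := by ring
        rwa [e] at h2
      have hpp : Prime (p : ℤ) := Nat.prime_iff_prime_int.1 hp
      rcases hpp.dvd_or_dvd h1 with h2 | h2
      · left
        have h3 : ((y : ℤ) - x) = 0 := by
          apply Int.eq_zero_of_abs_lt_dvd h2
          rw [abs_lt]
          constructor <;> omega
        omega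
      · obtain ⟨k, hk⟩ := h2
        have hk0 : 0 ≤ k := by
          by_contra hneg
          push Not at hneg
          have : (p : ℤ) * k < 0 := mul_neg_of_pos_of_neg (by exact_mod_cast hp.pos) hneg
          omega
        have hk2 : k < 2 := by
          by_contra hge
          push Not at hge
          have : (p : ℤ) * 2 ≤ (p : ℤ) * k :=
            mul_le_mul_of_nonneg_left hge (by positivity)
          omega
        have hk3 : k = 0 ∨ k = 1 := by omega
        rcases hk3 with rfl | rfl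
        · left; omega
        · right; omega
    exact (Finset.card_le_card hsub).trans Finset.card_le_two

/-- counting in residue classes -/
theorem count_sq (A B : ℤ) (hAB : A ≤ B) (W : ℕ) (hW : 1 ≤ W) (r : ℤ)
    (T : Finset ℕ) (hT : ∀ p ∈ T, p.Prime ∧ ¬ p ∣ W) (s : ℕ → ℤ) :
    |(((Finset.Ioc A B).filter (fun a : ℤ => (W : ℤ) ∣ a - r ∧
        ∀ p ∈ T, (p : ℤ) ∣ a ^ 2 + s p)).card : ℝ) -
      ((B : ℝ) - A) / W * ∏ p ∈ T, (rho (s p) p : ℝ) / (p : ℝ)| ≤ ∏ p ∈ T, (rho (s p) p : ℝ) := by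
  induction T using Finset.induction_on generalizing W r with
  | empty =>
    have h := Pool.Agent.H256R2.SC.LG.count_Ioc A B hAB W hW r
    simpa using h
  | insert p T hpT ih =>
    obtain ⟨hp, hpW⟩ := hT p (Finset.mem_insert_self p T)
    have hp0 : (0 : ℤ) < (p : ℤ) := by exact_mod_cast hp.pos
    have hpR : (0 : ℝ) < (p : ℝ) := by exact_mod_cast hp.pos
    have hWR : (0 : ℝ) < (W : ℝ) := by exact_mod_cast hW
    obtain ⟨Z, hZ⟩ : ∃ Z, Z = (Finset.range p).filter (fun x : ℕ => (p : ℤ) ∣ (x : ℤ) ^ 2 + s p) :=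
      ⟨_, rfl⟩
    have hZc : Z.card = rho (s p) p := by rw [hZ]; rfl
    have hcop : IsCoprime (W : ℤ) (p : ℤ) := by
      rw [Nat.isCoprime_iff_coprime]
      exact (Nat.Coprime.symm ((Nat.Prime.coprime_iff_not_dvd hp).2 hpW))
    -- the classes
    have hcrt : ∀ c : ℕ, ∃ rc : ℤ, (W : ℤ) ∣ rc - r ∧ (p : ℤ) ∣ rc - (c : ℤ) := by
      intro c
      obtain ⟨u, v, huv⟩ := hcop
      refine ⟨r * (v * p) + (c : ℤ) * (u * W), ?_, ?_⟩
      · refine ⟨u * ((c : ℤ) - r), ?_⟩
        have : v * (p : ℤ) = 1 - u * W := by linarith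
        rw [this]; ring
      · refine ⟨v * (r - (c : ℤ)), ?_⟩
        have : u * (W : ℤ) = 1 - v * p := by linarith
        rw [this]; ring
    choose rc hrc1 hrc2 using hcrt
    obtain ⟨F, hF⟩ : ∃ F, F = (Finset.Ioc A B).filter (fun a : ℤ => (W : ℤ) ∣ a - r ∧
        ∀ q ∈ insert p T, (q : ℤ) ∣ a ^ 2 + s q) := ⟨_, rfl⟩
    have hfib : F.card = ∑ c ∈ Z, ((Finset.Ioc A B).filter (fun a : ℤ =>
        ((W * p : ℕ) : ℤ) ∣ a - rc c ∧ ∀ q ∈ T, (q : ℤ) ∣ a ^ 2 + s q)).card := by
      have hmod : ∀ a : ℤ, (((a % (p : ℤ)).toNat : ℕ) : ℤ) = a % (p : ℤ) :=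
        fun a => Int.toNat_of_nonneg (Int.emod_nonneg _ hp0.ne')
      have hdvd : ∀ a : ℤ, (p : ℤ) ∣ a - ((a % (p : ℤ)).toNat : ℕ) := by
        intro a
        rw [hmod]
        exact Int.dvd_self_sub_emod
      have hmaps : Set.MapsTo (fun a : ℤ => (a % (p : ℤ)).toNat) (F : Set ℤ)
          (Z : Set ℕ) := by
        intro a ha
        rw [Finset.mem_coe, hF, Finset.mem_filter] at ha
        rw [Finset.mem_coe, hZ, Finset.mem_filter, Finset.mem_range]
        constructor
        · have h1 := Int.emod_lt_of_pos a hp0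
          have h2 := hmod a
          show (a % (p : ℤ)).toNat < p
          omega
        · have h3 := ha.2.2 p (Finset.mem_insert_self p T)
          exact (C1_congr (s p) p _ _ (hdvd a)).1 h3
      rw [Finset.card_eq_sum_card_fiberwise hmaps]
      refine Finset.sum_congr rfl (fun c hc => ?_)
      congr 1
      rw [hZ, Finset.mem_filter, Finset.mem_range] at hc
      ext a
      rw [hF, Finset.mem_filter, Finset.mem_filter, Finset.mem_filter]
      constructor
      · rintro ⟨⟨h1, h2, h3⟩, h4⟩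
        refine ⟨h1, ?_, fun q hq => h3 q (Finset.mem_insert_of_mem hq)⟩
        have h5 := hdvd a
        rw [h4] at h5
        have h6 : (p : ℤ) ∣ a - rc c := by
          have := dvd_sub h5 (hrc2 c)
          have e : a - (c : ℤ) - (rc c - (c : ℤ)) = a - rc c := by ring
          rwa [e] at this
        have h7 : (W : ℤ) ∣ a - rc c := by
          have := dvd_sub h2 (hrc1 c)
          have e : a - r - (rc c - r) = a - rc c := by ring
          rwa [e] at this
        push_cast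
        exact hcop.mul_dvd h7 h6
      · rintro ⟨h1, h2, h3⟩
        push_cast at h2
        have h7 : (W : ℤ) ∣ a - rc c := (Dvd.intro _ rfl).trans h2
        have h6 : (p : ℤ) ∣ a - rc c := (Dvd.intro_left _ rfl).trans h2
        have h5 : (p : ℤ) ∣ a - (c : ℤ) := by
          have := dvd_add h6 (hrc2 c)
          have e : a - rc c + (rc c - (c : ℤ)) = a - (c : ℤ) := by ring
          rwa [e] at this
        refine ⟨⟨h1, ?_, ?_⟩, ?_⟩
        · have := dvd_add h7 (hrc1 c)
          have e : a - rc c + (rc c - r) = a - r := by ring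
          rwa [e] at this
        · intro q hq
          rcases Finset.mem_insert.1 hq with rfl | hq
          · exact (C1_congr (s q) q _ _ h5).2 hc.2
          · exact h3 q hq
        · have h8 : a % (p : ℤ) = c := by
            have h10 : a % (p : ℤ) = (c : ℤ) % (p : ℤ) :=
              ((Int.modEq_iff_dvd.2 h5).symm)
            rw [h10]
            exact Int.emod_eq_of_lt (by omega) (by exact_mod_cast hc.1)
          show (a % (p : ℤ)).toNat = c
          rw [h8]
          simp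
    rw [← hF, hfib]
    have hWp : 1 ≤ W * p := Nat.mul_pos hW hp.pos
    have hT' : ∀ q ∈ T, q.Prime ∧ ¬ q ∣ W * p := by
      intro q hq
      obtain ⟨h1, h2⟩ := hT q (Finset.mem_insert_of_mem hq)
      refine ⟨h1, fun h => ?_⟩
      rcases (Nat.Prime.dvd_mul h1).1 h with h | h
      · exact h2 h
      · have := (Nat.prime_dvd_prime_iff_eq h1 hp).1 h
        exact hpT (this ▸ hq)
    have hbd := fun c => ih (W * p) hWp (rc c) hT'
    rw [Finset.prod_insert hpT, Finset.prod_insert hpT]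
    push_cast
    have e1 : ∑ c ∈ Z, (((Finset.Ioc A B).filter (fun a : ℤ =>
        ((W : ℤ) * p) ∣ a - rc c ∧ ∀ q ∈ T, (q : ℤ) ∣ a ^ 2 + s q)).card : ℝ) -
        ((B : ℝ) - A) / W * ((rho (s p) p : ℝ) / p * ∏ q ∈ T, (rho (s q) q : ℝ) / (q : ℝ)) =
        ∑ c ∈ Z, ((((Finset.Ioc A B).filter (fun a : ℤ =>
        ((W * p : ℕ) : ℤ) ∣ a - rc c ∧ ∀ q ∈ T, (q : ℤ) ∣ a ^ 2 + s q)).card : ℝ) -
        ((B : ℝ) - A) / (W * p : ℕ) * ∏ q ∈ T, (rho (s q) q : ℝ) / (q : ℝ)) := by
      rw [Finset.sum_sub_distrib, Finset.sum_const, hZc, nsmul_eq_mul]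
      push_cast
      congr 1
      field_simp
    rw [e1]
    calc _ ≤ ∑ c ∈ Z, |((((Finset.Ioc A B).filter (fun a : ℤ =>
        ((W * p : ℕ) : ℤ) ∣ a - rc c ∧ ∀ q ∈ T, (q : ℤ) ∣ a ^ 2 + s q)).card : ℝ) -
        ((B : ℝ) - A) / (W * p : ℕ) * ∏ q ∈ T, (rho (s q) q : ℝ) / (q : ℝ))| :=
          Finset.abs_sum_le_sum_abs _ _
      _ ≤ ∑ c ∈ Z, ∏ q ∈ T, (rho (s q) q : ℝ) := Finset.sum_le_sum (fun c _ => hbd c)
      _ = (rho (s p) p : ℝ) * ∏ q ∈ T, (rho (s q) q : ℝ) := by
          rw [Finset.sum_const, hZc, nsmul_eq_mul]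


end Pool.Agent.H426R3.SQ
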