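import Pool.Agent.H256R2.SC.Basic

set_option autoImplicit false

/-! # The covering sieve with colour dependent densities: definitions (helper426)

As in `Pool.Agent.H256R2.SC.Defs` (helper256), but the probability `g i k` that the prime `i` kills
the shift `k` may depend on `k` (and may vanish), and every colour has its own profile `h k`. -/

namespace Pool.Agent.H426R3.SQ

open Finset Pool.Agent.H256R2.SC

variable {n : ℕ} {κ : Type} [Fintype κ] [DecidableEq κ]

/-- model probability of a colour: the colour `k` has probability `g k` -/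
noncomputable def wtc (g : κ → ℝ) (c : Option κ) : ℝ :=
  match c with
  | none => 1 - ∑ k, g k
  | some k => g k

/-- `1` at `none`, `g k` at the colour `k` -/
noncomputable def nuc1 (g : κ → ℝ) (c : Option κ) : ℝ :=
  match c with
  | none => 1
  | some k => g k

/-- local basis functions: `1` and `1[c = k] - g k` -/
noncomputable def psic1 (g : κ → ℝ) (a c : Option κ) : ℝ :=
  match a with
  | none => 1
  | some k => (if c = some k then 1 else 0) - g k

/-- expectation in the independent model -/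
noncomputable def EEc (g : Fin n → κ → ℝ) (F : Col n κ → ℝ) : ℝ :=
  ∑ x : Col n κ, (∏ i, wtc (g i) (x i)) * F x

/-- basis functions -/
noncomputable def psic (g : Fin n → κ → ℝ) (D x : Col n κ) : ℝ := ∏ i, psic1 (g i) (D i) (x i)

/-- linear combinations of the basis functions -/
noncomputable def VVc (g : Fin n → κ → ℝ) (y : Col n κ → ℝ) (x : Col n κ) : ℝ :=
  ∑ D, y D * psic g D x

/-- product of the `g i (D i)` over the support of `D` -/
noncomputable def nuc (g : Fin n → κ → ℝ) (D : Col n κ) : ℝ := ∏ i, nuc1 (g i) (D i)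

/-- coherent coefficients -/
noncomputable def yyc (h : κ → Finset (Fin n) → ℝ) (D : Col n κ) : ℝ := ∏ k, al (h k) (fib D k)

/-- truncated coherent coefficients -/
noncomputable def yTc (p : Fin n → ℝ) (h : κ → Finset (Fin n) → ℝ) (Q : ℝ) (D : Col n κ) : ℝ :=
  if qq p D ≤ Q then yyc h D else 0

/-- total mass -/
noncomputable def Zc (g : Fin n → κ → ℝ) (h : κ → Finset (Fin n) → ℝ) : ℝ :=
  ∑ D : Col n κ, (yyc h D) ^ 2 * nuc g D

/-- reduced coefficients on the event that the colour `k` does not occur -/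
noncomputable def redc (g : Fin n → κ → ℝ) (y : Col n κ → ℝ) (k : κ) (D' : Col n κ) : ℝ :=
  ∑ D with er k D = D', y D * ∏ i ∈ fib D k, (-(g i k))

/-- local weights for the moment bound -/
noncomputable def betc (g : κ → ℝ) (t : ℝ) (k₀ : κ) (c : Option κ) : ℝ :=
  match c with
  | none => 1 + 3 * t * g k₀
  | some l => if l = k₀ then (1 + 3 * t) * g l else g l

/-- hypotheses on the profiles `h k` -/
structure Hypc (p : Fin n → ℝ) (g : Fin n → κ → ℝ) (h : κ → Finset (Fin n) → ℝ) (z K : ℝ) :
    Prop where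
  p1 : ∀ i, 1 < p i
  g0 : ∀ i k, 0 ≤ g i k
  z1 : 1 < z
  K0 : 0 ≤ K
  h0 : ∀ k s, 0 ≤ h k s
  h1 : ∀ k s, h k s ≤ 1
  anti : ∀ k s t, s.Nonempty → s ⊆ t → h k t ≤ h k s
  supp : ∀ k s, h k s ≠ 0 → ∏ i ∈ s, p i ≤ z
  sum1 : ∀ k, ∑ s : Finset (Fin n) with s.Nonempty, h k s * ∏ i ∈ s, g i k = 1
  cost : ∀ k, ∑ s : Finset (Fin n) with s.Nonempty,
    (h k s) ^ 2 * (∏ i ∈ s, g i k) * Real.log (∏ i ∈ s, p i) ≤ K

/-- sieving primes: `y < p ≤ z`, `p ∉ B` -/
noncomputable def SP (y z : ℝ) (B : Finset ℕ) : Finset ℕ :=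
  (Finset.Icc 1 ⌊z⌋₊).filter (fun p => p.Prime ∧ y < (p : ℝ) ∧ p ∉ B)

/-- number of solutions of `x ^ 2 + u ≡ 0` modulo `p` -/
def rho (u : ℤ) (p : ℕ) : ℕ := ((Finset.range p).filter (fun x : ℕ => (p : ℤ) ∣ (x : ℤ) ^ 2 + u)).card

/-- upper end of the small primes in Rankin's choice -/
noncomputable def zR (y : ℝ) : ℝ :=
  Real.exp (Real.log y * Real.log (Real.log (Real.log y)) / (10 * Real.log (Real.log y)))

/-- the record function of helper256 -/
noncomputable def ff (X : ℝ) : ℝ :=
  Real.log X * (Real.log (Real.log X)) ^ 2 * Real.log (Real.log (Real.log (Real.log X))) /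
    (Real.log (Real.log (Real.log X))) ^ 2

end Pool.Agent.H426R3.SQ
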