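import Pool.Agent.H426R3.SQ.Defs

set_option autoImplicit false

/-! # Task E3: the event that the colour `k` does not occur (colour dependent densities) -/

namespace Pool.Agent.H426R3.SQ

open Finset Pool.Agent.H256R2.SC

namespace TE3

variable {κ : Type} [Fintype κ] [DecidableEq κ]

lemma sum_cons {n : ℕ} (F : Col (n + 1) κ → ℝ) :
    ∑ x : Col (n + 1) κ, F x =
      ∑ c : Option κ, ∑ x : Col n κ, F (Fin.cons c x : Fin (n + 1) → Option κ) := by
  rw [← (Fin.consEquiv (fun _ : Fin (n + 1) => Option κ)).sum_comp, Fintype.sum_prod_type]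
  rfl

lemma EE_cons {n : ℕ} (g : Fin (n + 1) → κ → ℝ) (F : Col (n + 1) κ → ℝ) :
    EEc g F = ∑ c : Option κ, wtc (g 0) c *
      EEc (fun i => g i.succ) (fun x : Col n κ => F (Fin.cons c x : Fin (n + 1) → Option κ)) := by
  unfold EEc
  rw [sum_cons]
  apply Finset.sum_congr rfl
  intro c _
  rw [Finset.mul_sum]
  apply Finset.sum_congr rfl
  intro x _
  rw [Fin.prod_univ_succ]
  simp only [Fin.cons_zero, Fin.cons_succ]
  ring

lemma VV_cons {n : ℕ} (g : Fin (n + 1) → κ → ℝ) (y : Col (n + 1) κ → ℝ) (c : Option κ)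
    (x : Col n κ) :
    VVc g y (Fin.cons c x : Fin (n + 1) → Option κ) =
      VVc (fun i => g i.succ) (fun D : Col n κ => ∑ a : Option κ, psic1 (g 0) a c *
        y (Fin.cons a D : Fin (n + 1) → Option κ)) x := by
  unfold VVc psic
  rw [sum_cons, Finset.sum_comm]
  apply Finset.sum_congr rfl
  intro D _
  rw [Finset.sum_mul]
  apply Finset.sum_congr rfl
  intro a _
  rw [Fin.prod_univ_succ]
  simp only [Fin.cons_zero, Fin.cons_succ]
  ring

lemma EE_mul_left {n : ℕ} (g : Fin n → κ → ℝ) (r : ℝ) (F : Col n κ → ℝ) :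
    EEc g (fun x => r * F x) = r * EEc g F := by
  unfold EEc
  rw [Finset.mul_sum]
  apply Finset.sum_congr rfl
  intro x _
  ring

lemma swap_sum {n : ℕ} (A : Option κ → ℝ) (B : Col n κ → ℝ) (Y : Option κ → Col n κ → ℝ) :
    ∑ c : Option κ, A c * ∑ D : Col n κ, B D * (Y c D) ^ 2 =
      ∑ D : Col n κ, B D * ∑ c : Option κ, A c * (Y c D) ^ 2 := by
  simp only [Finset.mul_sum]
  rw [Finset.sum_comm]
  apply Finset.sum_congr rfl
  intro D _
  apply Finset.sum_congr rfl
  intro c _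
  ring

lemma beta_cons {n : ℕ} (β : Fin (n + 1) → Option κ → ℝ) (y : Col (n + 1) κ → ℝ) :
    ∑ D : Col (n + 1) κ, (∏ i, β i (D i)) * (y D) ^ 2 =
      ∑ D : Col n κ, (∏ i, β i.succ (D i)) * ∑ a : Option κ, β 0 a *
        (y (Fin.cons a D : Fin (n + 1) → Option κ)) ^ 2 := by
  rw [sum_cons, Finset.sum_comm]
  apply Finset.sum_congr rfl
  intro D _
  rw [Finset.mul_sum]
  apply Finset.sum_congr rfl
  intro a _
  rw [Fin.prod_univ_succ]
  simp only [Fin.cons_zero, Fin.cons_succ]
  ring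

theorem t_upper {n : ℕ} (g : Fin n → κ → ℝ) (β : Fin n → Option κ → ℝ)
    (hw : ∀ i (c : Option κ), 0 ≤ wtc (g i) c) (hβ : ∀ i c, 0 ≤ β i c)
    (hloc : ∀ i (Y : Option κ → ℝ),
      ∑ c, wtc (g i) c * (∑ a, psic1 (g i) a c * Y a) ^ 2 ≤ ∑ a, β i a * (Y a) ^ 2)
    (y : Col n κ → ℝ) :
    EEc g (fun x => (VVc g y x) ^ 2) ≤ ∑ D, (∏ i, β i (D i)) * (y D) ^ 2 := by
  induction n with
  | zero =>
    unfold EEc VVc psic
    simp
  | succ n ih =>
    have h1 : ∀ c : Option κ,
        EEc (fun i => g i.succ) (fun x : Col n κ =>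
            (VVc g y (Fin.cons c x : Fin (n + 1) → Option κ)) ^ 2) ≤
        ∑ D : Col n κ, (∏ i, β i.succ (D i)) *
          (∑ a : Option κ, psic1 (g 0) a c * y (Fin.cons a D : Fin (n + 1) → Option κ)) ^ 2 := by
      intro c
      have h2 : (fun x : Col n κ =>
            (VVc g y (Fin.cons c x : Fin (n + 1) → Option κ)) ^ 2) =
          (fun x : Col n κ =>
            (VVc (fun i => g i.succ) (fun D : Col n κ => ∑ a : Option κ, psic1 (g 0) a c *
              y (Fin.cons a D : Fin (n + 1) → Option κ)) x) ^ 2) := by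
        funext x
        rw [VV_cons]
      rw [h2]
      exact ih (fun i => g i.succ) (fun i => β i.succ)
        (fun i c => hw i.succ c) (fun i c => hβ i.succ c)
        (fun i Y => hloc i.succ Y) _
    rw [EE_cons]
    calc _ ≤ ∑ c : Option κ, wtc (g 0) c * ∑ D : Col n κ, (∏ i, β i.succ (D i)) *
          (∑ a : Option κ, psic1 (g 0) a c * y (Fin.cons a D : Fin (n + 1) → Option κ)) ^ 2 := by
          apply Finset.sum_le_sum
          intro c _
          exact mul_le_mul_of_nonneg_left (h1 c) (hw 0 c)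
      _ = ∑ D : Col n κ, (∏ i, β i.succ (D i)) * ∑ c : Option κ, wtc (g 0) c *
          (∑ a : Option κ, psic1 (g 0) a c * y (Fin.cons a D : Fin (n + 1) → Option κ)) ^ 2 :=
          swap_sum (fun c => wtc (g 0) c) (fun D : Col n κ => ∏ i, β i.succ (D i))
            (fun c D => ∑ a : Option κ, psic1 (g 0) a c * y (Fin.cons a D : Fin (n + 1) → Option κ))
      _ ≤ ∑ D : Col n κ, (∏ i, β i.succ (D i)) * ∑ a : Option κ, β 0 a *
          (y (Fin.cons a D : Fin (n + 1) → Option κ)) ^ 2 := by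
          apply Finset.sum_le_sum
          intro D _
          apply mul_le_mul_of_nonneg_left _ (Finset.prod_nonneg (fun i _ => hβ i.succ _))
          exact hloc 0 (fun a => y (Fin.cons a D : Fin (n + 1) → Option κ))
      _ = _ := (beta_cons β y).symm

theorem loc_upper (g : κ → ℝ) (Y : Option κ → ℝ) :
    ∑ c, wtc g c * (∑ a, psic1 g a c * Y a) ^ 2 ≤ ∑ a, nuc1 g a * (Y a) ^ 2 := by
  set S : ℝ := ∑ k : κ, g k * Y (some k) with hS
  set A : ℝ := Y none - S with hA
  have h0 : (∑ a, psic1 g a none * Y a) = A := by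
    rw [Fintype.sum_option]
    simp only [psic1, one_mul, reduceCtorEq, if_false, zero_sub]
    rw [hA, hS, sub_eq_add_neg, ← Finset.sum_neg_distrib]
    congr 1
    refine Finset.sum_congr rfl fun k _ => ?_
    ring
  have h1 : ∀ l : κ, (∑ a, psic1 g a (some l) * Y a) = A + Y (some l) := by
    intro l
    rw [Fintype.sum_option]
    simp only [psic1, one_mul, Option.some.injEq]
    have h2 : ∑ k : κ, ((if l = k then (1 : ℝ) else 0) - g k) * Y (some k) = Y (some l) - S := by
      rw [hS]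
      simp_rw [sub_mul]
      rw [Finset.sum_sub_distrib]
      congr 1
      simp
    rw [h2, hA]
    ring
  rw [Fintype.sum_option (fun c => wtc g c * (∑ a, psic1 g a c * Y a) ^ 2),
    Fintype.sum_option (fun a => nuc1 g a * (Y a) ^ 2), h0]
  simp_rw [h1]
  simp only [wtc, nuc1]
  have h3 : ∑ l : κ, g l * (A + Y (some l)) ^ 2 =
      (∑ l : κ, g l) * A ^ 2 + 2 * A * S + ∑ l : κ, g l * (Y (some l)) ^ 2 := by
    have : ∀ l : κ, g l * (A + Y (some l)) ^ 2 =
        g l * A ^ 2 + 2 * A * (g l * Y (some l)) + g l * (Y (some l)) ^ 2 := by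
      intro l; ring
    simp_rw [this]
    rw [Finset.sum_add_distrib, Finset.sum_add_distrib, ← Finset.sum_mul, ← Finset.mul_sum, ← hS]
  rw [h3]
  have h4 : (1 - ∑ l : κ, g l) * A ^ 2 + ((∑ l : κ, g l) * A ^ 2 +
      2 * A * S + ∑ l : κ, g l * (Y (some l)) ^ 2) =
      1 * Y none ^ 2 + ∑ l : κ, g l * (Y (some l)) ^ 2 - S ^ 2 := by
    rw [hA]; ring
  rw [h4]
  nlinarith [sq_nonneg S]

end TE3

variable {n : ℕ} {κ : Type} [Fintype κ] [DecidableEq κ]

theorem psic_er (g : Fin n → κ → ℝ) (k : κ) (x : Col n κ) (hx : ∀ i, x i ≠ some k) (D : Col n κ) :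
    psic g D x = (∏ i ∈ fib D k, (-(g i k))) * psic g (er k D) x := by
  unfold psic fib er
  rw [Finset.prod_filter, ← Finset.prod_mul_distrib]
  refine Finset.prod_congr rfl fun i _ => ?_
  by_cases h : D i = some k
  · rw [if_pos h, if_pos h, h]
    simp only [psic1]
    rw [if_neg (hx i)]
    ring
  · rw [if_neg h, if_neg h, one_mul]

theorem VV_red_c (g : Fin n → κ → ℝ) (y : Col n κ → ℝ) (k : κ) (x : Col n κ)
    (hx : ∀ i, x i ≠ some k) : VVc g y x = VVc g (redc g y k) x := by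
  unfold VVc redc
  have h1 : ∀ D' : Col n κ, (∑ D with er k D = D', y D * ∏ i ∈ fib D k, (-(g i k))) * psic g D' x =
      ∑ D with er k D = D', y D * psic g D x := by
    intro D'
    rw [Finset.sum_mul]
    refine Finset.sum_congr rfl fun D hD => ?_
    rw [Finset.mem_filter] at hD
    rw [psic_er g k x hx D, hD.2]
    ring
  simp_rw [h1]
  rw [Finset.sum_fiberwise]

theorem rough_bound_c (g : Fin n → κ → ℝ) (hg : ∀ i k, 0 ≤ g i k)
    (hw : ∀ i (c : Option κ), 0 ≤ wtc (g i) c) (y : Col n κ → ℝ) (k : κ) :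
    EEc g (fun x => (if ∀ i, x i ≠ some k then 1 else 0) * (VVc g y x) ^ 2) ≤
      ∑ D, nuc g D * (redc g y k D) ^ 2 := by
  have hT : EEc g (fun x => (VVc g (redc g y k) x) ^ 2) ≤
      ∑ D, (∏ i, nuc1 (g i) (D i)) * (redc g y k D) ^ 2 := by
    refine TE3.t_upper g (fun i c => nuc1 (g i) c) hw ?_ ?_ _
    · intro i c
      cases c
      · simp [nuc1]
      · simpa [nuc1] using hg i _
    · intro i Y
      exact TE3.loc_upper (g i) Y
  refine le_trans ?_ hT
  unfold EEc
  refine Finset.sum_le_sum fun x _ => ?_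
  refine mul_le_mul_of_nonneg_left ?_ (Finset.prod_nonneg fun i _ => hw i (x i))
  beta_reduce
  by_cases hx : ∀ i, x i ≠ some k
  · rw [if_pos hx, VV_red_c g y k x hx, one_mul]
  · rw [if_neg hx, zero_mul]
    positivity

end Pool.Agent.H426R3.SQ
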