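import Pool.Agent.H426R3.SQ.Defs
import Pool.Agent.H256R2.SC.D

set_option autoImplicit false
set_option linter.unusedSectionVars false

/-! # Task E4: size of the reduced coefficients -/

namespace Pool.Agent.H426R3.SQ

open Finset Pool.Agent.H256R2.SC Pool.Agent.H256R2.SC.DD

variable {n : ℕ} {κ : Type} [Fintype κ] [DecidableEq κ]

namespace E4x

/-- hypotheses for one colour -/
structure Hk (p g : Fin n → ℝ) (h : Finset (Fin n) → ℝ) (z : ℝ) : Prop where
  p1 : ∀ i, 1 < p i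
  g0 : ∀ i, 0 ≤ g i
  z1 : 1 < z
  h0 : ∀ s, 0 ≤ h s
  h1 : ∀ s, h s ≤ 1
  anti : ∀ s t, s.Nonempty → s ⊆ t → h t ≤ h s
  supp : ∀ s, h s ≠ 0 → ∏ i ∈ s, p i ≤ z
  sum1 : ∑ s : Finset (Fin n) with s.Nonempty, h s * ∏ i ∈ s, g i = 1

theorem toHk {p : Fin n → ℝ} {g : Fin n → κ → ℝ} {h : κ → Finset (Fin n) → ℝ} {z K : ℝ}
    (H : Hypc p g h z K) (k : κ) : Hk p (fun i => g i k) (h k) z :=
  ⟨H.p1, fun i => H.g0 i k, H.z1, H.h0 k, H.h1 k, H.anti k, H.supp k, H.sum1 k⟩

theorem yyc_ins (h : κ → Finset (Fin n) → ℝ) {k : κ} {s : Finset (Fin n)} {D : Col n κ}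
    (hD : D ∈ avoid n k) (hs : s ⊆ free D) :
    yyc h (ins k s D) = al (h k) s * yyc h D := by
  unfold yyc
  rw [prod_fib_ins (fun l => al (h l)) hD hs,
    ← Finset.mul_prod_erase univ (fun l => al (h l) (fib D l)) (Finset.mem_univ k)]
  rw [fib_eq_empty hD]
  have h1 : al (h k) (∅ : Finset (Fin n)) = 1 := by simp [al]
  rw [h1, one_mul]

theorem redc_eq (p : Fin n → ℝ) (g : Fin n → κ → ℝ) (h : κ → Finset (Fin n) → ℝ) (Q : ℝ) (k : κ)
    (D : Col n κ) (hD : D ∈ avoid n k) :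
    redc g (yTc p h Q) k D = yyc h D * RR p (fun i => g i k) (h k) Q D := by
  unfold redc RR
  rw [sum_fiber k D hD, Finset.mul_sum]
  refine Finset.sum_congr rfl fun s hs => ?_
  rw [Finset.mem_powerset] at hs
  unfold yTc
  rw [qq_ins p hs, fib_ins_self hD, yyc_ins h hD hs]
  split_ifs
  · ring
  · ring

theorem redc_zero (p : Fin n → ℝ) (g : Fin n → κ → ℝ) (h : κ → Finset (Fin n) → ℝ) (Q : ℝ) (k : κ)
    (D : Col n κ) (hD : D ∉ avoid n k) : redc g (yTc p h Q) k D = 0 := by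
  unfold redc
  exact sum_fiber_empty k D hD _

theorem prod_nuc1 (g : Fin n → κ → ℝ) (hg : ∀ i k, 0 ≤ g i k) (D : Col n κ) : 0 ≤ nuc g D := by
  unfold nuc
  refine Finset.prod_nonneg fun i _ => ?_
  cases hD : D i with
  | none => simp [nuc1]
  | some k => simpa [nuc1] using hg i k

/-- sum over the sets containing `i` -/
theorem sum_mem {p g : Fin n → ℝ} {h : Finset (Fin n) → ℝ} {z : ℝ} (H : Hk p g h z)
    (i : Fin n) : ∑ s : Finset (Fin n) with i ∈ s, h s * ∏ j ∈ s, g j ≤ 2 * g i := by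
  have hG : ∀ s : Finset (Fin n), 0 ≤ ∏ j ∈ s, g j := fun s =>
    Finset.prod_nonneg fun j _ => (H.g0 j)
  have h1 : ∑ s : Finset (Fin n) with i ∈ s, h s * ∏ j ∈ s, g j =
      ∑ s : Finset (Fin n) with i ∉ s, h (insert i s) * (g i * ∏ j ∈ s, g j) := by
    refine Finset.sum_bij' (fun s _ => s.erase i) (fun s _ => insert i s) ?_ ?_ ?_ ?_ ?_
    · intro s _; simp
    · intro s _; simp
    · intro s hs
      rw [Finset.mem_filter] at hs
      exact Finset.insert_erase hs.2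
    · intro s hs
      rw [Finset.mem_filter] at hs
      exact Finset.erase_insert hs.2
    · intro s hs
      rw [Finset.mem_filter] at hs
      rw [Finset.insert_erase hs.2, Finset.mul_prod_erase s g hs.2]
  have h2 : ∀ s : Finset (Fin n), h (insert i s) * (g i * ∏ j ∈ s, g j) ≤
      g i * (if s.Nonempty then h s * ∏ j ∈ s, g j else 1) := by
    intro s
    by_cases hs : s.Nonempty
    · rw [if_pos hs]
      have := H.anti s (insert i s) hs (Finset.subset_insert i s)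
      have h3 := mul_le_mul_of_nonneg_right this (mul_nonneg (H.g0 i) (hG s))
      nlinarith [h3]
    · rw [if_neg hs, Finset.not_nonempty_iff_eq_empty.1 hs]
      simp only [Finset.prod_empty, mul_one]
      have := mul_le_mul_of_nonneg_right (H.h1 (insert i ∅)) (H.g0 i)
      linarith
  rw [h1]
  calc ∑ s : Finset (Fin n) with i ∉ s, h (insert i s) * (g i * ∏ j ∈ s, g j)
      ≤ ∑ s : Finset (Fin n) with i ∉ s, g i * (if s.Nonempty then h s * ∏ j ∈ s, g j else 1) :=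
        Finset.sum_le_sum fun s _ => h2 s
    _ ≤ ∑ s : Finset (Fin n), g i * (if s.Nonempty then h s * ∏ j ∈ s, g j else 1) := by
        refine Finset.sum_le_sum_of_subset_of_nonneg (Finset.filter_subset _ _) fun s _ _ => ?_
        refine mul_nonneg (H.g0 i) ?_
        split_ifs
        · exact mul_nonneg (H.h0 s) (hG s)
        · exact zero_le_one
    _ = g i * ((∑ s : Finset (Fin n) with s.Nonempty, h s * ∏ j ∈ s, g j) + 1) := by
        rw [← Finset.mul_sum, Finset.sum_ite]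
        congr 2
        have : (univ.filter (fun s : Finset (Fin n) => ¬ s.Nonempty)) = {∅} := by
          ext s; simp [Finset.not_nonempty_iff_eq_empty]
        rw [this]; simp
    _ = 2 * g i := by rw [H.sum1]; ring

theorem qq_pos {p g : Fin n → ℝ} {h : Finset (Fin n) → ℝ} {z : ℝ} (H : Hk p g h z)
    (D : Col n κ) : 1 ≤ qq p D := by
  unfold qq
  rw [prod_nu1]
  calc (1 : ℝ) = ∏ i ∈ supp D, (1 : ℝ) := by simp
    _ ≤ ∏ i ∈ supp D, p i := Finset.prod_le_prod (fun _ _ => zero_le_one) fun i _ => (H.p1 i).le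

theorem prod_ge_one {p g : Fin n → ℝ} {h : Finset (Fin n) → ℝ} {z : ℝ} (H : Hk p g h z)
    (s : Finset (Fin n)) : 1 ≤ ∏ i ∈ s, p i := by
  calc (1 : ℝ) = ∏ i ∈ s, (1 : ℝ) := by simp
    _ ≤ ∏ i ∈ s, p i := Finset.prod_le_prod (fun _ _ => zero_le_one) fun i _ => (H.p1 i).le

theorem RR_big {p g : Fin n → ℝ} {h : Finset (Fin n) → ℝ} {z : ℝ} (H : Hk p g h z) (Q : ℝ)
    (D : Col n κ) (hQ : Q < qq p D) : RR p g h Q D = 0 := by
  unfold RR
  refine Finset.sum_eq_zero fun s _ => ?_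
  rw [if_neg]
  have h1 := prod_ge_one H s
  have h2 := qq_pos H D
  nlinarith

theorem RR_le_one {p g : Fin n → ℝ} {h : Finset (Fin n) → ℝ} {z : ℝ} (H : Hk p g h z) (Q : ℝ)
    (D : Col n κ) : 0 ≤ RR p g h Q D ∧ RR p g h Q D ≤ 1 := by
  have hG : ∀ s : Finset (Fin n), 0 ≤ ∏ j ∈ s, g j := fun s =>
    Finset.prod_nonneg fun j _ => (H.g0 j)
  by_cases hQ : qq p D ≤ Q
  · rw [RR_eq p g h Q D hQ]
    have h1 : 0 ≤ ∑ s ∈ (free D).powerset with s.Nonempty ∧ (∏ i ∈ s, p i) * qq p D ≤ Q,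
        h s * ∏ i ∈ s, g i := Finset.sum_nonneg fun s _ => mul_nonneg (H.h0 s) (hG s)
    have h2 : ∑ s ∈ (free D).powerset with s.Nonempty ∧ (∏ i ∈ s, p i) * qq p D ≤ Q,
        h s * ∏ i ∈ s, g i ≤ ∑ s : Finset (Fin n) with s.Nonempty, h s * ∏ i ∈ s, g i := by
      refine Finset.sum_le_sum_of_subset_of_nonneg ?_ fun s _ _ => mul_nonneg (H.h0 s) (hG s)
      intro s hs
      rw [Finset.mem_filter] at hs
      exact Finset.mem_filter.2 ⟨Finset.mem_univ _, hs.2.1⟩
    rw [H.sum1] at h2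
    constructor <;> linarith
  · rw [RR_big H Q D (not_le.1 hQ)]
    norm_num

theorem RR_le_delta {p g : Fin n → ℝ} {h : Finset (Fin n) → ℝ} {z : ℝ} (H : Hk p g h z)
    (Q : ℝ) (D : Col n κ) (hQ : qq p D ≤ Q / z) :
    RR p g h Q D ≤ 2 * ∑ i with D i ≠ none, g i := by
  have hG : ∀ s : Finset (Fin n), 0 ≤ ∏ j ∈ s, g j := fun s =>
    Finset.prod_nonneg fun j _ => (H.g0 j)
  have hz0 : 0 < z := by linarith [H.z1]
  have hqz : qq p D * z ≤ Q := (le_div_iff₀ hz0).1 hQ
  have hq1 := qq_pos H D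
  have hQ' : qq p D ≤ Q := by nlinarith [H.z1]
  rw [RR_eq p g h Q D hQ']
  -- the truncation is void
  have h1 : ∑ s ∈ (free D).powerset with s.Nonempty ∧ (∏ i ∈ s, p i) * qq p D ≤ Q,
        h s * ∏ i ∈ s, g i = ∑ s ∈ (free D).powerset with s.Nonempty, h s * ∏ i ∈ s, g i := by
    refine Finset.sum_subset ?_ ?_
    · intro s hs
      rw [Finset.mem_filter] at hs ⊢
      exact ⟨hs.1, hs.2.1⟩
    · intro s hs hs'
      rw [Finset.mem_filter] at hs hs'
      by_cases h0 : h s = 0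
      · rw [h0, zero_mul]
      · exfalso
        apply hs'
        refine ⟨hs.1, hs.2, ?_⟩
        have h2 := H.supp s h0
        calc (∏ i ∈ s, p i) * qq p D ≤ z * qq p D :=
              mul_le_mul_of_nonneg_right h2 (by linarith)
          _ ≤ Q := by linarith
  rw [h1]
  -- sets meeting the support
  have h3 : 1 = ∑ s ∈ (free D).powerset with s.Nonempty, h s * ∏ i ∈ s, g i +
      ∑ s : Finset (Fin n) with ¬ s ⊆ free D, h s * ∏ i ∈ s, g i := by
    rw [← H.sum1, ← Finset.sum_filter_add_sum_filter_not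
      (univ.filter (fun s : Finset (Fin n) => s.Nonempty)) (fun s => s ⊆ free D)]
    congr 1
    · refine Finset.sum_congr ?_ fun _ _ => rfl
      ext s
      simp only [Finset.mem_filter, Finset.mem_univ, true_and, Finset.mem_powerset]
      exact and_comm
    · refine Finset.sum_congr ?_ fun _ _ => rfl
      ext s
      simp only [Finset.mem_filter, Finset.mem_univ, true_and]
      constructor
      · exact fun h => h.2
      · intro h
        refine ⟨?_, h⟩
        rw [Finset.nonempty_iff_ne_empty]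
        rintro rfl
        exact h (Finset.empty_subset _)
  have h4 : ∑ s : Finset (Fin n) with ¬ s ⊆ free D, h s * ∏ i ∈ s, g i ≤
      ∑ i with D i ≠ none, ∑ s : Finset (Fin n) with i ∈ s, h s * ∏ j ∈ s, g j := by
    have h5 : ∀ i : Fin n, ∑ s : Finset (Fin n) with i ∈ s, h s * ∏ j ∈ s, g j =
        ∑ s : Finset (Fin n), if i ∈ s then h s * ∏ j ∈ s, g j else 0 := fun i =>
      Finset.sum_filter _ _
    simp_rw [h5]
    rw [Finset.sum_comm, Finset.sum_filter]
    refine Finset.sum_le_sum fun s _ => ?_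
    have hnn : ∀ i ∈ univ.filter (fun i => D i ≠ none),
        0 ≤ (if i ∈ s then h s * ∏ j ∈ s, g j else 0) := by
      intro i _
      split_ifs
      · exact mul_nonneg (H.h0 s) (hG s)
      · exact le_rfl
    by_cases hs : s ⊆ free D
    · rw [if_neg (not_not.2 hs)]
      exact Finset.sum_nonneg hnn
    · rw [if_pos hs]
      rw [Finset.not_subset] at hs
      obtain ⟨i, his, hi⟩ := hs
      have hi' : i ∈ univ.filter (fun i => D i ≠ none) := by
        rw [Finset.mem_filter]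
        exact ⟨Finset.mem_univ _, fun h => hi (mem_free.2 h)⟩
      calc h s * ∏ j ∈ s, g j = (if i ∈ s then h s * ∏ j ∈ s, g j else 0) := by rw [if_pos his]
        _ ≤ _ := Finset.single_le_sum hnn hi'
  have h6 : ∑ i with D i ≠ none, ∑ s : Finset (Fin n) with i ∈ s, h s * ∏ j ∈ s, g j ≤
      ∑ i with D i ≠ none, 2 * g i := Finset.sum_le_sum fun i _ => sum_mem H i
  rw [Finset.mul_sum]
  linarith


end E4x

open E4x in
theorem red_yT_c {p : Fin n → ℝ} {g : Fin n → κ → ℝ} {h : κ → Finset (Fin n) → ℝ} {z K : ℝ}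
    (H : Hypc p g h z K) (Q δ : ℝ) (hQ : 0 < Q) (k : κ)
    (hδ : ∀ D : Col n κ, qq p D ≤ Q → 2 * ∑ i with D i ≠ none, g i k ≤ δ) :
    ∑ D : Col n κ, nuc g D * (redc g (yTc p h Q) k D) ^ 2 ≤
      δ ^ 2 * Zc g h + ∑ D : Col n κ with Q / z < qq p D, (yyc h D) ^ 2 * nuc g D := by
  have hz0 : 0 < z := by linarith [H.z1]
  have hnu : ∀ D : Col n κ, 0 ≤ nuc g D := prod_nuc1 g H.g0
  unfold Zc
  rw [Finset.mul_sum, Finset.sum_filter, ← Finset.sum_add_distrib]
  refine Finset.sum_le_sum fun D _ => ?_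
  have hy : 0 ≤ (yyc h D) ^ 2 * nuc g D := mul_nonneg (sq_nonneg _) (hnu D)
  by_cases hD : D ∈ avoid n k
  · rw [redc_eq p g h Q k D hD]
    obtain ⟨hR0, hR1⟩ := E4x.RR_le_one (toHk H k) Q D
    by_cases hq : Q / z < qq p D
    · rw [if_pos hq]
      have h1 : (RR p (fun i => g i k) (h k) Q D) ^ 2 ≤ 1 := by nlinarith
      have h2 : 0 ≤ δ ^ 2 * ((yyc h D) ^ 2 * nuc g D) := mul_nonneg (sq_nonneg _) hy
      calc nuc g D * (yyc h D * RR p (fun i => g i k) (h k) Q D) ^ 2 =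
            ((yyc h D) ^ 2 * nuc g D) * (RR p (fun i => g i k) (h k) Q D) ^ 2 := by
            ring
        _ ≤ ((yyc h D) ^ 2 * nuc g D) * 1 := mul_le_mul_of_nonneg_left h1 hy
        _ ≤ _ := by linarith
    · rw [if_neg hq, add_zero]
      have h3 := E4x.RR_le_delta (toHk H k) Q D (not_lt.1 hq)
      have hqQ : qq p D ≤ Q := (not_lt.1 hq).trans (div_le_self hQ.le H.z1.le)
      have h4 := h3.trans (hδ D hqQ)
      have h5 : (RR p (fun i => g i k) (h k) Q D) ^ 2 ≤ δ ^ 2 := pow_le_pow_left₀ hR0 h4 2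
      calc nuc g D * (yyc h D * RR p (fun i => g i k) (h k) Q D) ^ 2 =
            (RR p (fun i => g i k) (h k) Q D) ^ 2 * ((yyc h D) ^ 2 * nuc g D) := by
            ring
        _ ≤ δ ^ 2 * ((yyc h D) ^ 2 * nuc g D) := mul_le_mul_of_nonneg_right h5 hy
  · rw [redc_zero p g h Q k D hD]
    have h2 : 0 ≤ δ ^ 2 * ((yyc h D) ^ 2 * nuc g D) := mul_nonneg (sq_nonneg _) hy
    split_ifs
    · nlinarith
    · nlinarith

end Pool.Agent.H426R3.SQ
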