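import Pool.Agent.H426R3.SQ.Defs
import Pool.Agent.H256R2.SC.E

set_option autoImplicit false
set_option linter.unusedSectionVars false

/-! # The covering sieve with colour dependent densities, task E5: tail bound (helper77) -/

namespace Pool.Agent.H426R3.SQ

open Finset Pool.Agent.H256R2.SC

variable {n : ℕ} {κ : Type} [Fintype κ] [DecidableEq κ]

theorem E5_nuc_er (g : Fin n → κ → ℝ) (k : κ) (D : Col n κ) :
    nuc g D = (∏ i ∈ fib D k, g i k) * nuc g (er k D) := by
  unfold nuc fib
  rw [Finset.prod_filter, ← Finset.prod_mul_distrib]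
  refine Finset.prod_congr rfl fun i _ => ?_
  unfold er
  by_cases h : D i = some k
  · rw [if_pos h, if_pos h, h]
    simp [nuc1]
  · rw [if_neg h, if_neg h, one_mul]

theorem E5_nuc_nonneg {g : Fin n → κ → ℝ} (hg : ∀ i k, 0 ≤ g i k) (D : Col n κ) :
    0 ≤ nuc g D := by
  unfold nuc
  refine Finset.prod_nonneg fun i _ => ?_
  cases D i with
  | none => simp [nuc1]
  | some l => simpa [nuc1] using hg i l

/-- weighted sums with one weight per colour -/
noncomputable def E5_Z (g : Fin n → κ → ℝ) (W : κ → Finset (Fin n) → ℝ) : ℝ :=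
  ∑ D : Col n κ, nuc g D * ∏ k, W k (fib D k)

/-- changing the weight of one colour -/
theorem E5_step {g : Fin n → κ → ℝ} (hg : ∀ i k, 0 ≤ g i k) (W : κ → Finset (Fin n) → ℝ)
    (hW : ∀ k s, 0 ≤ W k s) (k : κ) (hk : W k ∅ = 1) (v : Finset (Fin n) → ℝ)
    (hv : ∀ s, 0 ≤ v s) (c : ℝ) (hc : ∑ s : Finset (Fin n), (∏ i ∈ s, g i k) * v s ≤ c) :
    E5_Z g (Function.update W k (fun s => W k s + v s)) ≤ (1 + c) * E5_Z g W := by
  classical
  -- the product over the other colours
  set rest : Col n κ → ℝ := fun D => ∏ l ∈ univ.erase k, W l (fib D l) with hrest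
  have hrest0 : ∀ D, 0 ≤ rest D := fun D => Finset.prod_nonneg fun l _ => hW _ _
  have hrest_er : ∀ D : Col n κ, rest (er k D) = rest D := by
    intro D
    simp only [hrest]
    refine Finset.prod_congr rfl fun l hl => ?_
    rw [E_fib_er_ne (Finset.ne_of_mem_erase hl)]
  have hsplit : ∀ D : Col n κ, ∏ l, W l (fib D l) = W k (fib D k) * rest D := by
    intro D
    rw [← Finset.mul_prod_erase univ _ (mem_univ k)]
  have hsplit' : ∀ D : Col n κ, ∏ l, (Function.update W k (fun s => W k s + v s)) l (fib D l) =
      (W k (fib D k) + v (fib D k)) * rest D := by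
    intro D
    rw [← Finset.mul_prod_erase univ _ (mem_univ k)]
    congr 1
    · simp
    · simp only [hrest]
      refine Finset.prod_congr rfl fun l hl => ?_
      rw [Function.update_of_ne (Finset.ne_of_mem_erase hl)]
  have hc0 : 0 ≤ ∑ s : Finset (Fin n), (∏ i ∈ s, g i k) * v s :=
    Finset.sum_nonneg fun s _ => mul_nonneg (Finset.prod_nonneg fun i _ => hg i k) (hv s)
  -- the sum over the colourings without `k`
  set N0 : Finset (Col n κ) := univ.filter (fun D => fib D k = ∅) with hN0
  have hA : ∑ D ∈ N0, nuc g D * rest D ≤ E5_Z g W := by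
    unfold E5_Z
    calc ∑ D ∈ N0, nuc g D * rest D = ∑ D ∈ N0, nuc g D * ∏ l, W l (fib D l) := by
          refine Finset.sum_congr rfl fun D hD => ?_
          rw [hsplit, (mem_filter.mp hD).2, hk, one_mul]
      _ ≤ _ := Finset.sum_le_sum_of_subset_of_nonneg (Finset.subset_univ _) fun D _ _ =>
          mul_nonneg (E5_nuc_nonneg hg D) (Finset.prod_nonneg fun l _ => hW _ _)
  have hB : ∑ D : Col n κ, nuc g D * (v (fib D k) * rest D) ≤
      (∑ D ∈ N0, nuc g D * rest D) * ∑ s : Finset (Fin n), (∏ i ∈ s, g i k) * v s := by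
    set F : Col n κ × Finset (Fin n) → ℝ :=
      fun q => (nuc g q.1 * rest q.1) * ((∏ i ∈ q.2, g i k) * v q.2) with hF
    have hF0 : ∀ q, 0 ≤ F q := fun q =>
      mul_nonneg (mul_nonneg (E5_nuc_nonneg hg _) (hrest0 _))
        (mul_nonneg (Finset.prod_nonneg fun i _ => hg i k) (hv _))
    calc ∑ D : Col n κ, nuc g D * (v (fib D k) * rest D)
        = ∑ D : Col n κ, F (er k D, fib D k) := by
          refine Finset.sum_congr rfl fun D _ => ?_
          simp only [hF]
          rw [E5_nuc_er g k D, hrest_er]
          ring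
      _ = ∑ q ∈ univ.image (fun D : Col n κ => (er k D, fib D k)), F q := by
          rw [Finset.sum_image]
          intro D _ D' _ h
          exact E_inj k h
      _ ≤ ∑ q ∈ N0 ×ˢ (univ : Finset (Finset (Fin n))), F q := by
          refine Finset.sum_le_sum_of_subset_of_nonneg ?_ fun q _ _ => hF0 q
          intro q hq
          obtain ⟨D, _, rfl⟩ := mem_image.mp hq
          rw [mem_product]
          refine ⟨?_, mem_univ _⟩
          rw [hN0, mem_filter]
          exact ⟨mem_univ _, E_fib_er_self k D⟩
      _ = _ := by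
          rw [Finset.sum_product, Finset.sum_mul]
          refine Finset.sum_congr rfl fun D _ => ?_
          rw [Finset.mul_sum]
  have hZ0 : 0 ≤ E5_Z g W := Finset.sum_nonneg fun D _ =>
    mul_nonneg (E5_nuc_nonneg hg D) (Finset.prod_nonneg fun l _ => hW _ _)
  have hmain : E5_Z g (Function.update W k (fun s => W k s + v s)) =
      E5_Z g W + ∑ D : Col n κ, nuc g D * (v (fib D k) * rest D) := by
    unfold E5_Z
    rw [← Finset.sum_add_distrib]
    refine Finset.sum_congr rfl fun D _ => ?_
    rw [hsplit, hsplit']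
    ring
  rw [hmain]
  have h1 := mul_le_mul hA hc hc0 hZ0
  have h2 := hB.trans h1
  linarith

theorem tail_bound_c {p : Fin n → ℝ} {g : Fin n → κ → ℝ} {h : κ → Finset (Fin n) → ℝ} {z K : ℝ}
    (H : Hypc p g h z K) (Q' : ℝ) (hQ' : 0 < Q') :
    ∑ D : Col n κ with Q' < qq p D, (yyc h D) ^ 2 * nuc g D ≤
      Real.exp (2 * (Fintype.card κ : ℝ) * K / Real.log z - Real.log Q' / Real.log z) *
        Zc g h := by
  classical
  have hlz : 0 < Real.log z := Real.log_pos H.z1
  have hg : ∀ i k, 0 ≤ g i k := H.g0
  have hp1 : ∀ s : Finset (Fin n), 1 ≤ ∏ i ∈ s, p i := fun s =>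
    Finset.prod_induction _ (fun x => 1 ≤ x) (fun _ _ ha hb => one_le_mul_of_one_le_of_one_le ha hb)
      le_rfl fun i _ => (H.p1 i).le
  have hlp : ∀ s : Finset (Fin n), 0 ≤ Real.log (∏ i ∈ s, p i) := fun s =>
    Real.log_nonneg (hp1 s)
  have he1 : ∀ s, 1 ≤ E_e p z s := fun s => Real.one_le_exp (div_nonneg (hlp s) hlz.le)
  -- weights
  set W : Finset κ → κ → Finset (Fin n) → ℝ := fun T k s =>
    (al (h k) s) ^ 2 * (if k ∈ T then E_e p z s else 1) with hW
  have hW0 : ∀ T k s, 0 ≤ W T k s := by
    intro T k s
    simp only [hW]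
    refine mul_nonneg (sq_nonneg _) ?_
    split_ifs
    · exact zero_le_one.trans (he1 s)
    · exact zero_le_one
  set v : κ → Finset (Fin n) → ℝ := fun k s => (al (h k) s) ^ 2 * (E_e p z s - 1) with hv
  have hv0 : ∀ k s, 0 ≤ v k s := fun k s => mul_nonneg (sq_nonneg _) (by linarith [he1 s])
  -- the cost of one colour
  have hcost : ∀ k, ∑ s : Finset (Fin n), (∏ i ∈ s, g i k) * v k s ≤ 2 * K / Real.log z := by
    intro k
    have hempty : ∀ s : Finset (Fin n), ¬ s.Nonempty → (∏ i ∈ s, g i k) * v k s = 0 := by
      intro s hs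
      rw [Finset.not_nonempty_iff_eq_empty] at hs
      subst hs
      simp [hv, E_e]
    calc ∑ s : Finset (Fin n), (∏ i ∈ s, g i k) * v k s
        = ∑ s : Finset (Fin n) with s.Nonempty, (∏ i ∈ s, g i k) * v k s := by
          rw [Finset.sum_filter]
          refine Finset.sum_congr rfl fun s _ => ?_
          split_ifs with hs
          · rfl
          · exact hempty s hs
      _ ≤ ∑ s : Finset (Fin n) with s.Nonempty,
            (2 / Real.log z) * ((h k s) ^ 2 * (∏ i ∈ s, g i k) * Real.log (∏ i ∈ s, p i)) := by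
          refine Finset.sum_le_sum fun s hs => ?_
          have hsne : s ≠ ∅ := (mem_filter.mp hs).2.ne_empty
          have hal : (al (h k) s) ^ 2 = (h k s) ^ 2 := by
            unfold al
            rw [if_neg hsne, neg_sq, mul_pow, ← pow_mul, mul_comm s.card 2, pow_mul]
            norm_num
          have hgs : 0 ≤ ∏ i ∈ s, g i k := Finset.prod_nonneg fun i _ => hg i k
          simp only [hv]
          rw [hal]
          by_cases hh : h k s = 0
          · rw [hh]
            simp
          · have hz := H.supp k s hh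
            have hx0 : 0 ≤ Real.log (∏ i ∈ s, p i) / Real.log z := div_nonneg (hlp s) hlz.le
            have hx1 : Real.log (∏ i ∈ s, p i) / Real.log z ≤ 1 := by
              rw [div_le_one hlz]
              exact Real.log_le_log (by linarith [hp1 s]) hz
            have hexp : E_e p z s - 1 ≤ 2 * (Real.log (∏ i ∈ s, p i) / Real.log z) := by
              unfold E_e
              have habs := Real.abs_exp_sub_one_le
                (x := Real.log (∏ i ∈ s, p i) / Real.log z) (by rw [abs_of_nonneg hx0]; exact hx1)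
              rw [abs_of_nonneg hx0] at habs
              exact (le_abs_self _).trans habs
            calc (∏ i ∈ s, g i k) * ((h k s) ^ 2 * (E_e p z s - 1))
                ≤ (∏ i ∈ s, g i k) * ((h k s) ^ 2 *
                  (2 * (Real.log (∏ i ∈ s, p i) / Real.log z))) := by
                  gcongr
              _ = _ := by ring
      _ = (2 / Real.log z) * ∑ s : Finset (Fin n) with s.Nonempty,
            (h k s) ^ 2 * (∏ i ∈ s, g i k) * Real.log (∏ i ∈ s, p i) := by
          rw [Finset.mul_sum]
      _ ≤ (2 / Real.log z) * K := by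
          have := H.cost k
          gcongr
      _ = 2 * K / Real.log z := by ring
  -- induction over the colours
  have hind : ∀ T : Finset κ, E5_Z g (W T) ≤ (1 + 2 * K / Real.log z) ^ T.card * E5_Z g (W ∅) := by
    intro T
    induction T using Finset.induction_on with
    | empty => simp
    | insert k T hkT ih =>
      have hupd : W (insert k T) = Function.update (W T) k (fun s => W T k s + v k s) := by
        funext l s
        by_cases hl : l = k
        · subst hl
          simp only [Function.update_self, hW, hv, mem_insert_self, if_true, if_neg hkT]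
          ring
        · rw [Function.update_of_ne hl]
          simp only [hW, mem_insert, hl, false_or]
      have hWk : W T k ∅ = 1 := by
        simp [hW, al, hkT]
      have h1 := E5_step hg (W T) (hW0 T) k hWk (v k) (hv0 k) _ (hcost k)
      rw [hupd, Finset.card_insert_of_notMem hkT, pow_succ']
      refine h1.trans ?_
      rw [mul_assoc]
      have hK : 0 ≤ 1 + 2 * K / Real.log z := by
        have := H.K0
        positivity
      exact mul_le_mul_of_nonneg_left ih hK
  have hZ0 : E5_Z g (W ∅) = Zc g h := by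
    unfold E5_Z Zc
    refine Finset.sum_congr rfl fun D _ => ?_
    have : ∏ k, W ∅ k (fib D k) = (yyc h D) ^ 2 := by
      unfold yyc
      rw [← Finset.prod_pow]
      refine Finset.prod_congr rfl fun k _ => ?_
      simp [hW]
    rw [this]
    ring
  have hZs0 : 0 ≤ Zc g h := by
    unfold Zc
    exact Finset.sum_nonneg fun D _ => mul_nonneg (sq_nonneg _) (E5_nuc_nonneg hg D)
  have hZu : E5_Z g (W univ) = ∑ D : Col n κ,
      (yyc h D) ^ 2 * nuc g D * Real.exp (Real.log (qq p D) / Real.log z) := by
    unfold E5_Z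
    refine Finset.sum_congr rfl fun D _ => ?_
    have h1 : ∏ k, W univ k (fib D k) =
        (yyc h D) ^ 2 * Real.exp (Real.log (qq p D) / Real.log z) := by
      have h2 : ∀ k, W univ k (fib D k) = (al (h k) (fib D k)) ^ 2 * E_e p z (fib D k) := by
        intro k
        simp [hW]
      simp_rw [h2]
      rw [Finset.prod_mul_distrib]
      unfold yyc
      rw [Finset.prod_pow]
      congr 1
      unfold E_e
      rw [← Real.exp_sum, ← Finset.sum_div, E_qq, Real.log_prod]
      intro k _
      have := hp1 (fib D k)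
      linarith
    rw [h1]
    ring
  have hu := hind univ
  rw [hZ0, hZu, Finset.card_univ] at hu
  -- Rankin
  have hR : ∑ D : Col n κ with Q' < qq p D, (yyc h D) ^ 2 * nuc g D ≤
      Real.exp (-(Real.log Q' / Real.log z)) * ∑ D : Col n κ,
        (yyc h D) ^ 2 * nuc g D * Real.exp (Real.log (qq p D) / Real.log z) := by
    rw [Finset.mul_sum]
    refine le_trans ?_ (Finset.sum_le_sum_of_subset_of_nonneg
      (Finset.filter_subset (fun D : Col n κ => Q' < qq p D) univ)
      fun D _ _ => mul_nonneg (Real.exp_pos _).le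
        (mul_nonneg (mul_nonneg (sq_nonneg _) (E5_nuc_nonneg hg D)) (Real.exp_pos _).le))
    refine Finset.sum_le_sum fun D hD => ?_
    have hQD : Q' < qq p D := (mem_filter.mp hD).2
    have h1 : 1 ≤ Real.exp (-(Real.log Q' / Real.log z)) *
        Real.exp (Real.log (qq p D) / Real.log z) := by
      rw [← Real.exp_add]
      apply Real.one_le_exp
      rw [neg_add_eq_sub, ← sub_div]
      apply div_nonneg _ hlz.le
      linarith [Real.log_le_log hQ' hQD.le]
    have h2 : 0 ≤ (yyc h D) ^ 2 * nuc g D := mul_nonneg (sq_nonneg _) (E5_nuc_nonneg hg D)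
    calc (yyc h D) ^ 2 * nuc g D = (yyc h D) ^ 2 * nuc g D * 1 := (mul_one _).symm
      _ ≤ (yyc h D) ^ 2 * nuc g D * (Real.exp (-(Real.log Q' / Real.log z)) *
          Real.exp (Real.log (qq p D) / Real.log z)) := mul_le_mul_of_nonneg_left h1 h2
      _ = _ := by ring
  have hpow : (1 + 2 * K / Real.log z) ^ Fintype.card κ ≤
      Real.exp (2 * (Fintype.card κ : ℝ) * K / Real.log z) := by
    have hK : 0 ≤ 1 + 2 * K / Real.log z := by
      have := H.K0
      positivity
    calc (1 + 2 * K / Real.log z) ^ Fintype.card κ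
        ≤ (Real.exp (2 * K / Real.log z)) ^ Fintype.card κ := by
          refine pow_le_pow_left₀ hK ?_ _
          rw [add_comm]
          exact Real.add_one_le_exp _
      _ = _ := by
          rw [← Real.exp_nat_mul]
          congr 1
          ring
  calc ∑ D : Col n κ with Q' < qq p D, (yyc h D) ^ 2 * nuc g D
      ≤ _ := hR
    _ ≤ Real.exp (-(Real.log Q' / Real.log z)) *
        ((1 + 2 * K / Real.log z) ^ Fintype.card κ * Zc g h) :=
        mul_le_mul_of_nonneg_left hu (Real.exp_pos _).le
    _ ≤ Real.exp (-(Real.log Q' / Real.log z)) *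
        (Real.exp (2 * (Fintype.card κ : ℝ) * K / Real.log z) * Zc g h) :=
        mul_le_mul_of_nonneg_left (mul_le_mul_of_nonneg_right hpow hZs0) (Real.exp_pos _).le
    _ = _ := by
        rw [← mul_assoc, ← Real.exp_add]
        congr 2
        ring

end Pool.Agent.H426R3.SQ
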