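import Pool.Agent.H426R3.SQ.Defs
import Pool.Agent.H256R2.SC.F

set_option autoImplicit false

/-! # Task E6: the weighted sum with colour dependent densities (helper338, after helper524) -/

namespace Pool.Agent.H426R3.SQ

open Finset Pool.Agent.H256R2.SC

variable {n : ℕ} {κ : Type} [Fintype κ] [DecidableEq κ]

namespace TaskE6

open Pool.Agent.H256R2.SC.TaskF

theorem yyc_sq_le {h : κ → Finset (Fin n) → ℝ} (h0 : ∀ k s, 0 ≤ h k s) (h1 : ∀ k s, h k s ≤ 1)
    (k : κ) (D : Col n κ) : (yyc h D) ^ 2 ≤ (yyc h (er k D)) ^ 2 := by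
  unfold yyc
  rw [← prod_pow, ← prod_pow]
  apply prod_le_prod
  · intro l _
    positivity
  · intro l _
    by_cases hl : l = k
    · subst hl
      rw [fib_er_self]
      simpa [al] using al_sq_le (h0 l) (h1 l) (fib D l)
    · rw [fib_er_ne hl]

end TaskE6

open Pool.Agent.H256R2.SC.TaskF TaskE6 in
theorem weighted_sum_c {p : Fin n → ℝ} {g : Fin n → κ → ℝ} {h : κ → Finset (Fin n) → ℝ} {z K : ℝ}
    (H : Hypc p g h z K) (t : ℝ) (ht : 0 ≤ t) (k₀ : κ) :
    ∑ D : Col n κ, (∏ i, betc (g i) t k₀ (D i)) * (yyc h D) ^ 2 ≤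
      Real.exp ((2 + 6 * t) * ∑ i, g i k₀) * Zc g h := by
  have g0 : ∀ i k, 0 ≤ g i k := H.g0
  set P : ℝ := ∏ i, (1 + 3 * t * g i k₀) with hP
  have hP0 : 0 ≤ P := prod_nonneg fun i _ => by have := g0 i k₀; positivity
  let W : Finset (Fin n) → ℝ := fun s => ∏ i ∈ s, ((1 + 3 * t) * g i k₀)
  have hW0 : ∀ s, 0 ≤ W s := fun s => prod_nonneg fun i _ => by have := g0 i k₀; positivity
  let F : Col n κ → ℝ := fun D => (yyc h D) ^ 2 * nuc g D
  have hnu0 : ∀ D : Col n κ, 0 ≤ nuc g D := by
    intro D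
    refine prod_nonneg fun i _ => ?_
    unfold nuc1
    split
    · norm_num
    · exact g0 i _
  have hF0 : ∀ D, 0 ≤ F D := fun D => mul_nonneg (sq_nonneg _) (hnu0 D)
  -- termwise bound
  have hterm : ∀ D : Col n κ, (∏ i, betc (g i) t k₀ (D i)) * (yyc h D) ^ 2 ≤
      P * (F (er k₀ D) * W (fib D k₀)) := by
    intro D
    have hb : ∏ i, betc (g i) t k₀ (D i) ≤ P * (nuc g (er k₀ D) * W (fib D k₀)) := by
      have hWW : W (fib D k₀) = ∏ i, (if D i = some k₀ then (1 + 3 * t) * g i k₀ else 1) := by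
        simp only [W, fib]
        rw [prod_filter]
      rw [hWW, hP]
      unfold nuc
      rw [← prod_mul_distrib, ← prod_mul_distrib]
      apply prod_le_prod
      · intro i _
        have h1 := g0 i k₀
        unfold betc
        split
        · positivity
        · rename_i l _
          have h2 := g0 i l
          split <;> positivity
      · intro i _
        have hg := g0 i k₀
        have h3 : 0 ≤ 3 * t * g i k₀ := by positivity
        cases hD : D i with
        | none => simp [betc, er, hD, nuc1]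
        | some l =>
          by_cases hl : l = k₀
          · subst hl
            simp only [betc, if_true, er, hD, nuc1]
            have h4 : 0 ≤ (1 + 3 * t) * g i l := by positivity
            nlinarith
          · have hl' : ¬ (some l = some k₀) := fun e => hl (Option.some.inj e)
            simp only [betc, if_neg hl, er, hD, if_neg hl', nuc1]
            have h5 := g0 i l
            nlinarith [mul_nonneg h3 h5]
    have hbn : 0 ≤ P * (nuc g (er k₀ D) * W (fib D k₀)) :=
      mul_nonneg hP0 (mul_nonneg (hnu0 _) (hW0 _))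
    calc (∏ i, betc (g i) t k₀ (D i)) * (yyc h D) ^ 2
        ≤ (P * (nuc g (er k₀ D) * W (fib D k₀))) * (yyc h (er k₀ D)) ^ 2 :=
          mul_le_mul hb (yyc_sq_le H.h0 H.h1 k₀ D) (sq_nonneg _) hbn
      _ = P * (F (er k₀ D) * W (fib D k₀)) := by simp only [F]; ring
  -- sum
  have hsum : ∑ D : Col n κ, F (er k₀ D) * W (fib D k₀) ≤ (∑ D : Col n κ, F D) * ∑ s, W s := by
    rw [sum_mul_sum, ← sum_product']
    have e : ∑ D : Col n κ, F (er k₀ D) * W (fib D k₀) =
        ∑ x ∈ univ.image (fun D : Col n κ => (er k₀ D, fib D k₀)), F x.1 * W x.2 := by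
      rw [sum_image]
      intro a _ b _ hab
      exact inj k₀ hab
    rw [e]
    apply sum_le_sum_of_subset_of_nonneg
    · intro x _
      simp
    · intro x _ _
      exact mul_nonneg (hF0 _) (hW0 _)
  have hWs : ∑ s, W s = ∏ i, (1 + (1 + 3 * t) * g i k₀) := by
    rw [prod_one_add]
    simp [W]
  have e1 : P ≤ Real.exp (3 * t * ∑ i, g i k₀) := by
    rw [mul_sum, Real.exp_sum]
    apply prod_le_prod
    · intro i _
      have := g0 i k₀
      positivity
    · intro i _
      have := Real.add_one_le_exp (3 * t * g i k₀)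
      linarith
  have e2 : ∏ i, (1 + (1 + 3 * t) * g i k₀) ≤ Real.exp ((1 + 3 * t) * ∑ i, g i k₀) := by
    rw [mul_sum, Real.exp_sum]
    apply prod_le_prod
    · intro i _
      have := g0 i k₀
      positivity
    · intro i _
      have := Real.add_one_le_exp ((1 + 3 * t) * g i k₀)
      linarith
  have hZ0 : 0 ≤ Zc g h := sum_nonneg fun D _ => hF0 D
  have hG0 : 0 ≤ ∑ i, g i k₀ := sum_nonneg fun i _ => g0 i k₀
  calc ∑ D : Col n κ, (∏ i, betc (g i) t k₀ (D i)) * (yyc h D) ^ 2
      ≤ ∑ D : Col n κ, P * (F (er k₀ D) * W (fib D k₀)) := sum_le_sum fun D _ => hterm D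
    _ = P * ∑ D : Col n κ, F (er k₀ D) * W (fib D k₀) := by rw [mul_sum]
    _ ≤ P * (Zc g h * ∏ i, (1 + (1 + 3 * t) * g i k₀)) := by
        rw [← hWs]
        exact mul_le_mul_of_nonneg_left hsum hP0
    _ ≤ Real.exp (3 * t * ∑ i, g i k₀) * (Zc g h * Real.exp ((1 + 3 * t) * ∑ i, g i k₀)) := by
        apply mul_le_mul e1 _ _ (Real.exp_pos _).le
        · exact mul_le_mul_of_nonneg_left e2 hZ0
        · apply mul_nonneg hZ0
          refine prod_nonneg fun i _ => ?_
          have := g0 i k₀
          positivity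
    _ = Real.exp ((1 + 6 * t) * ∑ i, g i k₀) * Zc g h := by
        have : Real.exp ((1 + 6 * t) * ∑ i, g i k₀) =
            Real.exp (3 * t * ∑ i, g i k₀) * Real.exp ((1 + 3 * t) * ∑ i, g i k₀) := by
          rw [← Real.exp_add]
          ring_nf
        rw [this]
        ring
    _ ≤ Real.exp ((2 + 6 * t) * ∑ i, g i k₀) * Zc g h := by
        apply mul_le_mul_of_nonneg_right _ hZ0
        apply Real.exp_le_exp.mpr
        nlinarith

end Pool.Agent.H426R3.SQ
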