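import Pool.Agent.H256R2.SC.G
import Pool.Agent.H256R2.SC.H1
import Pool.Agent.H256R2.SC.H2
import Pool.Agent.H256R2.SC.H3
import Pool.Agent.H256R2.SC.I
import Pool.Agent.H256R2.SC.J
import Pool.Agent.H426R3.SQ.Defs
import Pool.Agent.H426R3.SQ.E1
import Pool.Agent.H426R3.SQ.E2
import Pool.Agent.H426R3.SQ.E3
import Pool.Agent.H426R3.SQ.E4
import Pool.Agent.H426R3.SQ.E5
import Pool.Agent.H426R3.SQ.E6
import Pool.Agent.H426R3.SQ.E7

set_option autoImplicit false
set_option linter.unusedSectionVars false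

/-! # The abstract covering sieve with colour dependent densities -/

namespace Pool.Agent.H426R3.SQ

open Finset Pool.Agent.H256R2.SC

variable {n : ℕ} {κ : Type} [Fintype κ] [DecidableEq κ]

namespace E8h

lemma sum_le_gm {g : κ → ℝ} {gm : ℝ} (h : ∀ k, g k ≤ gm) :
    ∑ k, g k ≤ (Fintype.card κ : ℝ) * gm := by
  refine (Finset.sum_le_sum fun k _ => h k).trans ?_
  rw [Finset.sum_const, Finset.card_univ, nsmul_eq_mul]

lemma wt_nonneg {g : κ → ℝ} (hg : ∀ k, 0 ≤ g k) (hu : ∑ k, g k ≤ 1) (c : Option κ) :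
    0 ≤ wtc g c := by
  cases c with
  | none => simp only [wtc]; linarith
  | some k => simpa only [wtc] using hg k

lemma EE_mono {g : Fin n → κ → ℝ} (hw : ∀ i (c : Option κ), 0 ≤ wtc (g i) c)
    {F G : Col n κ → ℝ} (h : ∀ x, F x ≤ G x) : EEc g F ≤ EEc g G := by
  unfold EEc
  apply Finset.sum_le_sum
  intro x _
  exact mul_le_mul_of_nonneg_left (h x) (Finset.prod_nonneg (fun i _ => hw i _))

lemma EE_sub (g : Fin n → κ → ℝ) (F G : Col n κ → ℝ) :
    EEc g (fun x => F x - G x) = EEc g F - EEc g G := by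
  unfold EEc
  rw [← Finset.sum_sub_distrib]
  apply Finset.sum_congr rfl
  intro x _
  ring

lemma EE_add (g : Fin n → κ → ℝ) (F G : Col n κ → ℝ) :
    EEc g (fun x => F x + G x) = EEc g F + EEc g G := by
  unfold EEc
  rw [← Finset.sum_add_distrib]
  apply Finset.sum_congr rfl
  intro x _
  ring

lemma EE_smul (g : Fin n → κ → ℝ) (c : ℝ) (F : Col n κ → ℝ) :
    EEc g (fun x => c * F x) = c * EEc g F := by
  unfold EEc
  rw [Finset.mul_sum]
  apply Finset.sum_congr rfl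
  intro x _
  ring

lemma EE_sum (g : Fin n → κ → ℝ) {ι : Type} (S : Finset ι) (F : ι → Col n κ → ℝ) :
    EEc g (fun x => ∑ j ∈ S, F j x) = ∑ j ∈ S, EEc g (F j) := by
  unfold EEc
  rw [Finset.sum_comm]
  apply Finset.sum_congr rfl
  intro x _
  rw [Finset.mul_sum]

lemma nuc1_nonneg {g : κ → ℝ} (hg : ∀ k, 0 ≤ g k) (c : Option κ) : 0 ≤ nuc1 g c := by
  cases c with
  | none => simp [nuc1]
  | some k => simpa only [nuc1] using hg k

lemma nu_nonneg {g : Fin n → κ → ℝ} (hg : ∀ i k, 0 ≤ g i k) (D : Col n κ) : 0 ≤ nuc g D := by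
  unfold nuc
  exact Finset.prod_nonneg (fun i _ => nuc1_nonneg (hg i) _)

lemma yy_abs_le {h : κ → Finset (Fin n) → ℝ} (h0 : ∀ k s, 0 ≤ h k s) (h1 : ∀ k s, h k s ≤ 1)
    (D : Col n κ) : |yyc h D| ≤ 1 := by
  unfold yyc
  rw [Finset.abs_prod]
  exact Finset.prod_le_one (fun k _ => abs_nonneg _) (fun k _ => al_abs_le (h0 k) (h1 k) _)

lemma Zs_ge_one {p : Fin n → ℝ} {g : Fin n → κ → ℝ} {h : κ → Finset (Fin n) → ℝ} {z K : ℝ}
    (H : Hypc p g h z K) : 1 ≤ Zc g h := by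
  unfold Zc
  have h1 : (yyc h (fun _ => none : Col n κ)) ^ 2 * nuc g (fun _ => none : Col n κ) = 1 := by
    have e1 : yyc h (fun _ => none : Col n κ) = 1 := by
      unfold yyc
      apply Finset.prod_eq_one
      intro k _
      have : fib (fun _ => none : Col n κ) k = ∅ := by
        unfold fib
        simp
      rw [this]
      simp [al]
    have e2 : nuc g (fun _ => none : Col n κ) = 1 := by
      unfold nuc
      apply Finset.prod_eq_one
      intro i _
      simp [nuc1]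
    rw [e1, e2]; norm_num
  rw [← h1]
  exact Finset.single_le_sum (f := fun D : Col n κ => (yyc h D) ^ 2 * nuc g D)
    (fun D _ => mul_nonneg (sq_nonneg _) (nu_nonneg H.g0 D)) (Finset.mem_univ _)

section
variable {p : Fin n → ℝ} {g : Fin n → κ → ℝ} {h : κ → Finset (Fin n) → ℝ} {z K : ℝ}

/-- lower bound of the second moment -/
theorem second_lower (H : Hypc p g h z K) (gm : Fin n → ℝ) (hgm : ∀ i k, g i k ≤ gm i)
    (Q δ T : ℝ)
    (hug : ∀ i, (Fintype.card κ : ℝ) * gm i ≤ 1)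
    (hδ : ∀ D : Col n κ, qq p D ≤ Q → 2 * ∑ i with D i ≠ none, gm i ≤ δ)
    (hug4 : (Fintype.card κ : ℝ) * δ ≤ 1 / 4) (hQ0 : 0 < Q)
    (hT : ∑ D : Col n κ with Q / z < qq p D, (yyc h D) ^ 2 * nuc g D ≤ T)
    (hT8 : T ≤ 1 / 8 * Zc g h) :
    3 / 4 * Zc g h ≤ EEc g (fun x => (VVc g (yTc p h Q : Col n κ → ℝ) x) ^ 2) := by
  have hsum1 : ∀ i, ∑ k, g i k ≤ 1 := fun i => (sum_le_gm (hgm i)).trans (hug i)
  have hw : ∀ i (c : Option κ), 0 ≤ wtc (g i) c := fun i c => wt_nonneg (H.g0 i) (hsum1 i) c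
  have h1 := tensor_lower_c (κ := κ) g
    (fun i c => nuc1 (g i) c * nu1 (1 - ∑ k, g i k) c) hw
    (by
      intro i c
      cases c with
      | none => simp [nuc1, nu1]
      | some k =>
        simp only [nuc1, nu1]
        exact mul_nonneg (H.g0 i k) (by linarith [hsum1 i]))
    (fun i Y => local_lower_c (g i) (H.g0 i) Y) (yTc p h Q)
  refine le_trans ?_ h1
  have h2 : ∀ D : Col n κ, (if qq p D ≤ Q then 7 / 8 * ((yyc h D) ^ 2 * nuc g D) else 0) ≤
      (∏ i, nuc1 (g i) (D i) * nu1 (1 - ∑ k, g i k) (D i)) *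
        (yTc p h Q D) ^ 2 := by
    intro D
    unfold yTc
    split_ifs with hD
    · rw [Finset.prod_mul_distrib]
      have e1 : ∏ i, nu1 (1 - ∑ k, g i k) (D i) =
          ∏ i ∈ supp D, (1 - ∑ k, g i k) := prod_nu1 _ D
      rw [e1]
      have e2 : 7 / 8 ≤ ∏ i ∈ supp D, (1 - ∑ k, g i k) := by
        refine le_trans ?_ (prod_ge_one_sub_sum (supp D) (fun i => ∑ k, g i k)
          (fun i => Finset.sum_nonneg fun k _ => H.g0 i k) hsum1)
        have e0 : ∑ i ∈ supp D, ∑ k, g i k ≤ ∑ i ∈ supp D, (Fintype.card κ : ℝ) * gm i :=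
          Finset.sum_le_sum fun i _ => sum_le_gm (hgm i)
        rw [← Finset.mul_sum] at e0
        have e3 := hδ D hD
        have e4 : ∑ i ∈ supp D, gm i ≤ δ / 2 := by
          unfold supp
          linarith
        have e5 : (Fintype.card κ : ℝ) * ∑ i ∈ supp D, gm i ≤ (Fintype.card κ : ℝ) * (δ / 2) :=
          mul_le_mul_of_nonneg_left e4 (Nat.cast_nonneg _)
        nlinarith
      have e6 : 0 ≤ (yyc h D) ^ 2 * nuc g D := mul_nonneg (sq_nonneg _) (nu_nonneg H.g0 D)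
      have e7 : ∏ i, nuc1 (g i) (D i) = nuc g D := rfl
      rw [e7]
      nlinarith
    · simp
  refine le_trans ?_ (Finset.sum_le_sum (fun D _ => h2 D))
  rw [← Finset.sum_filter, ← Finset.mul_sum]
  have h3 : Zc g h = ∑ D : Col n κ with qq p D ≤ Q, (yyc h D) ^ 2 * nuc g D +
      ∑ D : Col n κ with ¬ qq p D ≤ Q, (yyc h D) ^ 2 * nuc g D := by
    unfold Zc
    rw [Finset.sum_filter_add_sum_filter_not]
  have h4 : ∑ D : Col n κ with ¬ qq p D ≤ Q, (yyc h D) ^ 2 * nuc g D ≤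
      ∑ D : Col n κ with Q / z < qq p D, (yyc h D) ^ 2 * nuc g D := by
    apply Finset.sum_le_sum_of_subset_of_nonneg
    · intro D hD
      rw [Finset.mem_filter] at hD ⊢
      refine ⟨hD.1, lt_of_le_of_lt ?_ (not_le.mp hD.2)⟩
      exact div_le_self hQ0.le H.z1.le
    · intro D _ _
      exact mul_nonneg (sq_nonneg _) (nu_nonneg H.g0 D)
  have h5 := Zs_ge_one (κ := κ) H
  linarith

/-- upper bound of the sieve majorant part -/
theorem second_upper (H : Hypc p g h z K) (gm : Fin n → ℝ) (hgm : ∀ i k, g i k ≤ gm i)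
    (Q δ t T : ℝ) (J : ℕ) (hJ : Even J) (ht : 0 < t)
    (htg : ∀ i, 3 * t * gm i ≤ 1)
    (hug : ∀ i, (Fintype.card κ : ℝ) * gm i ≤ 1) (hQ0 : 0 < Q)
    (hδ : ∀ D : Col n κ, qq p D ≤ Q → 2 * ∑ i with D i ≠ none, gm i ≤ δ)
    (hT : ∑ D : Col n κ with Q / z < qq p D, (yyc h D) ^ 2 * nuc g D ≤ T) (k : κ) :
    EEc g (fun x => (VVc g (yTc p h Q : Col n κ → ℝ) x) ^ 2 * SS J k x) ≤
      δ ^ 2 * Zc g h + T + (1 / t) ^ J * (Real.exp ((2 + 6 * t) * ∑ i, gm i) * Zc g h) := by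
  have hsum1 : ∀ i, ∑ k, g i k ≤ 1 := fun i => (sum_le_gm (hgm i)).trans (hug i)
  have hw : ∀ i (c : Option κ), 0 ≤ wtc (g i) c := fun i c => wt_nonneg (H.g0 i) (hsum1 i) c
  have h1 : EEc g (fun x => (VVc g (yTc p h Q : Col n κ → ℝ) x) ^ 2 * SS J k x) ≤
      EEc g (fun x => (if ∀ i, x i ≠ some k then 1 else 0) *
        (VVc g (yTc p h Q : Col n κ → ℝ) x) ^ 2 +
        (1 / t) ^ J * ((∏ i, (if x i = some k then 1 + t else 1)) *
          (VVc g (yTc p h Q : Col n κ → ℝ) x) ^ 2)) := by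
    apply EE_mono hw
    intro x
    have := mul_le_mul_of_nonneg_left (SS_upper J hJ t ht k x)
      (sq_nonneg (VVc g (yTc p h Q : Col n κ → ℝ) x))
    refine this.trans (le_of_eq ?_)
    ring
  refine h1.trans ?_
  rw [EE_add, EE_smul]
  have hδk : ∀ D : Col n κ, qq p D ≤ Q → 2 * ∑ i with D i ≠ none, g i k ≤ δ := by
    intro D hD
    have e1 : ∑ i with D i ≠ none, g i k ≤ ∑ i with D i ≠ none, gm i :=
      Finset.sum_le_sum fun i _ => hgm i k
    linarith [hδ D hD]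
  have h2 : EEc g (fun x => (if ∀ i, x i ≠ some k then (1:ℝ) else 0) *
      (VVc g (yTc p h Q : Col n κ → ℝ) x) ^ 2) ≤ δ ^ 2 * Zc g h + T := by
    refine (rough_bound_c g H.g0 hw _ k).trans ?_
    refine (red_yT_c H Q δ hQ0 k hδk).trans ?_
    linarith
  have h3 : EEc g (fun x => (∏ i, (if x i = some k then 1 + t else 1)) *
      (VVc g (yTc p h Q : Col n κ → ℝ) x) ^ 2) ≤
      Real.exp ((2 + 6 * t) * ∑ i, gm i) * Zc g h := by
    have hZ0 : 0 ≤ Zc g h := by linarith [Zs_ge_one (κ := κ) H]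
    have hexp : Real.exp ((2 + 6 * t) * ∑ i, g i k) * Zc g h ≤
        Real.exp ((2 + 6 * t) * ∑ i, gm i) * Zc g h := by
      apply mul_le_mul_of_nonneg_right _ hZ0
      apply Real.exp_le_exp.2
      apply mul_le_mul_of_nonneg_left _ (by positivity)
      exact Finset.sum_le_sum fun i _ => hgm i k
    refine le_trans ?_ hexp
    refine le_trans ?_ (weighted_sum_c H t ht.le k)
    have hbet : ∀ i (c : Option κ), 0 ≤ betc (g i) t k c := by
      intro i c
      cases c with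
      | none =>
        simp only [betc]
        have := H.g0 i k
        positivity
      | some l =>
        simp only [betc]
        have := H.g0 i l
        split_ifs
        · positivity
        · exact this
    have h4 := tensor_upper_c (κ := κ) g (fun _ c => if c = some k then 1 + t else 1)
      (fun i c => betc (g i) t k c) hw
      (by intro i c; split_ifs <;> linarith) hbet
      (fun i Y => local_wt_c (g i) t (H.g0 i) ht.le k
        (le_trans (mul_le_mul_of_nonneg_left (hgm i k) (by positivity)) (htg i)) Y)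
      (yTc p h Q)
    refine h4.trans ?_
    apply Finset.sum_le_sum
    intro D _
    apply mul_le_mul_of_nonneg_left
    · unfold yTc
      split_ifs
      · exact le_rfl
      · simpa using sq_nonneg (yyc h D)
    · exact Finset.prod_nonneg fun i _ => hbet i _
  have h5 : (0:ℝ) ≤ (1 / t) ^ J := by positivity
  have h6 := mul_le_mul_of_nonneg_left h3 h5
  linarith

end

end E8h

open E8h

theorem core_c {α : Type} [DecidableEq α] (𝒜 : Finset α) (col : α → Col n κ)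
    {p : Fin n → ℝ} {g : Fin n → κ → ℝ} {h : κ → Finset (Fin n) → ℝ} {z K : ℝ}
    (H : Hypc p g h z K) (gm : Fin n → ℝ) (hgm0 : ∀ i, 0 ≤ gm i) (hgm : ∀ i k, g i k ≤ gm i)
    (Q δ t N Err : ℝ) (J : ℕ) (hJ : Even J) (ht : 0 < t) (hN : 0 < N) (hErr : 0 ≤ Err)
    (hQz : 1 ≤ Q)
    (hpz : ∀ i, p i ≤ z) (hg1 : ∀ i, gm i ≤ 1) (htg : ∀ i, 3 * t * gm i ≤ 1)
    (hug : ∀ i, (Fintype.card κ : ℝ) * gm i ≤ 1)
    (hδ : ∀ D : Col n κ, qq p D ≤ Q → 2 * ∑ i with D i ≠ none, gm i ≤ δ)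
    (hug4 : (Fintype.card κ : ℝ) * δ ≤ 1 / 4)
    (hs : 2 * (Fintype.card κ : ℝ) * ∑ i, 1 / (p i) ^ 2 ≤ 1)
    (htail : (Fintype.card κ + 1 : ℝ) * (δ ^ 2 + Real.exp (2 * (Fintype.card κ : ℝ) * K / Real.log z
      - Real.log (Q / z) / Real.log z)) ≤ 1 / 8)
    (hmom : (Fintype.card κ : ℝ) * (1 / t) ^ J * Real.exp ((2 + 6 * t) * ∑ i, gm i) ≤ 1 / 8)
    (hcnt : ∀ D : Col n κ, qq p D ≤ Q ^ 2 * z ^ J →
      |((𝒜.filter (fun a => ∀ i, D i ≠ none → col a i = D i)).card : ℝ) - N * nuc g D| ≤ Err)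
    (hfin : Err * (9 * Q ^ 4 * (1 + Fintype.card κ * (n + 1) ^ J)) < N / 8) :
    ∃ a ∈ 𝒜, ∀ k, ∃ i, col a i = some k := by
  set u : ℝ := (Fintype.card κ : ℝ) with hu
  have hu0 : 0 ≤ u := Nat.cast_nonneg _
  have hQ0 : 0 < Q := by linarith
  have hz0 : 0 < z := by linarith [H.z1]
  set E : ℝ := Real.exp (2 * u * K / Real.log z - Real.log (Q / z) / Real.log z) with hE
  set Z : ℝ := Zc g h with hZ
  have hZ1 : 1 ≤ Z := E8h.Zs_ge_one H
  have hE0 : 0 < E := Real.exp_pos _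
  have hp1 : ∀ i, 1 ≤ p i := fun i => (H.p1 i).le
  have hT : ∑ D : Col n κ with Q / z < qq p D, (yyc h D) ^ 2 * nuc g D ≤ E * Z :=
    tail_bound_c H (Q / z) (by positivity)
  have hE8 : E ≤ 1 / 8 := by
    have : δ ^ 2 + E ≤ (u + 1) * (δ ^ 2 + E) := by nlinarith [sq_nonneg δ]
    nlinarith [sq_nonneg δ]
  have hT8 : E * Z ≤ 1 / 8 * Z := by nlinarith
  set V : Col n κ → ℝ := VVc g (yTc p h Q) with hV
  have hlow : 3 / 4 * Z ≤ EEc g (fun x => (V x) ^ 2) :=
    E8h.second_lower H gm hgm Q δ (E * Z) hug hδ hug4 hQ0 hT hT8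
  have hup : ∀ k, EEc g (fun x => (V x) ^ 2 * SS J k x) ≤
      δ ^ 2 * Z + E * Z + (1 / t) ^ J * (Real.exp ((2 + 6 * t) * ∑ i, gm i) * Z) := fun k =>
    E8h.second_upper H gm hgm Q δ t (E * Z) J hJ ht htg hug hQ0 hδ hT k
  set F : Col n κ → ℝ := fun x => V x ^ 2 * (1 - ∑ k, SS J k x) with hF
  have hEF : Z / 2 ≤ EEc g F := by
    have e1 : EEc g F = EEc g (fun x => (V x) ^ 2) - ∑ k, EEc g (fun x => (V x) ^ 2 * SS J k x) := by
      rw [← E8h.EE_sum, ← E8h.EE_sub]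
      congr 1
      funext x
      rw [hF]
      simp only
      rw [← Finset.mul_sum]
      ring
    rw [e1]
    have e2 : ∑ k : κ, EEc g (fun x => (V x) ^ 2 * SS J k x) ≤
        u * (δ ^ 2 * Z + E * Z + (1 / t) ^ J * (Real.exp ((2 + 6 * t) * ∑ i, gm i) * Z)) := by
      refine (Finset.sum_le_sum (fun k _ => hup k)).trans ?_
      rw [Finset.sum_const, Finset.card_univ, nsmul_eq_mul]
    have e3 : u * (δ ^ 2 * Z + E * Z) ≤ 1 / 8 * Z := by
      have : u * (δ ^ 2 + E) ≤ 1 / 8 := by nlinarith [sq_nonneg δ]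
      nlinarith
    have e4 : u * ((1 / t) ^ J * (Real.exp ((2 + 6 * t) * ∑ i, gm i) * Z)) ≤ 1 / 8 * Z := by
      nlinarith
    nlinarith
  -- level of `F`
  have hzJ : (1:ℝ) ≤ z ^ J := one_le_pow₀ H.z1.le
  have hVL : Lv p Q (3 * Q ^ 2) V := by
    refine Lv_mono le_rfl (count_assign (κ := κ) p hp1 hs Q hQ0) ?_
    refine Lv_VV_c p g hp1 H.g0 (fun i k => (hgm i k).trans (hg1 i)) (yTc p h Q) ?_ Q ?_
    · intro D
      unfold yTc
      split_ifs
      · exact E8h.yy_abs_le H.h0 H.h1 D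
      · simp
    · intro D hD
      by_contra hc
      exact hD (by unfold yTc; rw [if_neg hc])
  have hSL : Lv p (z ^ J) (1 + u * (n + 1) ^ J) (fun x : Col n κ => 1 - ∑ k, SS J k x) := by
    have e1 : Lv p (z ^ J) 1 (fun _ : Col n κ => (1:ℝ)) :=
      Lv_mono hzJ (by simp) (Lv_const p 1)
    have e2 := Lv_sum (p := p) (Q := z ^ J) (univ : Finset κ) (fun _ => ((n:ℝ) + 1) ^ J)
      (fun k => (SS J k : Col n κ → ℝ)) (fun k _ => Lv_SS p hp1 z hpz H.z1.le J k)
    have e3 := Lv_sub e1 e2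
    refine Lv_mono le_rfl ?_ e3
    rw [Finset.sum_const, Finset.card_univ, nsmul_eq_mul]
  have hFL : Lv p (Q ^ 2 * z ^ J) (9 * Q ^ 4 * (1 + u * (n + 1) ^ J)) F := by
    have e1 := Lv_mul hp1 (Lv_mul hp1 hVL hVL) hSL
    have e2 : F = fun x => V x * V x * (1 - ∑ k, SS J k x) := by
      rw [hF]; funext x; ring
    rw [e2]
    refine Lv_mono (le_of_eq (by ring)) (le_of_eq (by ring)) e1
  have htr := transfer_c 𝒜 col p g N Err _ _ hErr hcnt F hFL
  have hpos : 0 < ∑ a ∈ 𝒜, F (col a) := by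
    have e1 := (abs_le.mp htr).1
    have e2 : N / 2 ≤ N * EEc g F := by nlinarith
    linarith
  obtain ⟨a, ha, hFa⟩ : ∃ a ∈ 𝒜, 0 < F (col a) := by
    by_contra hc
    push Not at hc
    exact absurd (Finset.sum_nonpos hc) (not_le.mpr hpos)
  refine ⟨a, ha, fun k => ?_⟩
  by_contra hk
  push Not at hk
  have hV0 : 0 ≤ V (col a) ^ 2 := sq_nonneg _
  have h1 : 0 < 1 - ∑ k, SS J k (col a) := by
    by_contra hc
    push Not at hc
    have : F (col a) ≤ 0 := mul_nonpos_of_nonneg_of_nonpos hV0 hc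
    linarith
  have hSS0 : ∀ l, 0 ≤ SS J l (col a) := by
    intro l
    refine le_trans ?_ (SS_lower J hJ l (col a))
    split_ifs <;> norm_num
  have h2 : SS J k (col a) ≤ ∑ l, SS J l (col a) :=
    Finset.single_le_sum (fun l _ => hSS0 l) (Finset.mem_univ k)
  have h3 := SS_lower J hJ k (col a)
  rw [if_pos hk] at h3
  linarith

end Pool.Agent.H426R3.SQ
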