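import Pool.Agent.H426R3.SQ.Defs
import Pool.Agent.Helper112.MultLS

set_option autoImplicit false

/-! # Task N1 (helper926): large sieve for primitive characters over dyadic blocks of primes -/

namespace Pool.Agent.H426R3.SQ

open Finset
open scoped Classical

namespace N1

/-- dyadic block of primes -/
noncomputable def P (L : ℝ) (j : ℕ) : Finset ℕ :=
  (Finset.Ico (2 ^ j) (2 ^ (j + 1))).filter (fun p => p.Prime ∧ L ^ 3 < (p : ℝ))

/-- character sum over a block -/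
noncomputable def S (L : ℝ) (j : ℕ) {q : ℕ} (χ : DirichletCharacter ℂ q) : ℂ :=
  ∑ p ∈ P L j, χ (p : ZMod q) / (p : ℂ)

lemma card_P_le (L : ℝ) (j : ℕ) : (P L j).card ≤ 2 ^ j := by
  refine (card_filter_le _ _).trans ?_
  rw [Nat.card_Ico, pow_succ]; omega

lemma mem_P {L : ℝ} {j p : ℕ} (h : p ∈ P L j) :
    2 ^ j ≤ p ∧ p < 2 ^ (j + 1) ∧ p.Prime ∧ L ^ 3 < (p : ℝ) := by
  unfold P at h
  rw [mem_filter, mem_Ico] at h
  exact ⟨h.1.1, h.1.2, h.2.1, h.2.2⟩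

lemma sum_inv_sq (L : ℝ) (j : ℕ) : ∑ p ∈ P L j, (1 / (p : ℝ)) ^ 2 ≤ 1 / 2 ^ j := by
  have h : ∀ p ∈ P L j, (1 / (p : ℝ)) ^ 2 ≤ (1 / 2 ^ j) ^ 2 := by
    intro p hp
    have h1 := (mem_P hp).1
    have h2 : ((2 : ℝ) ^ j) ≤ p := by exact_mod_cast h1
    have h3 : (0 : ℝ) < 2 ^ j := by positivity
    have : 1 / (p : ℝ) ≤ 1 / 2 ^ j := one_div_le_one_div_of_le h3 h2
    exact pow_le_pow_left₀ (by positivity) this 2
  refine (sum_le_sum h).trans ?_
  rw [sum_const, nsmul_eq_mul]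
  have h1 : ((P L j).card : ℝ) ≤ 2 ^ j := by exact_mod_cast card_P_le L j
  have h3 : (0 : ℝ) < 2 ^ j := by positivity
  calc ((P L j).card : ℝ) * (1 / 2 ^ j) ^ 2 ≤ 2 ^ j * (1 / 2 ^ j) ^ 2 := by
        exact mul_le_mul_of_nonneg_right h1 (by positivity)
    _ = 1 / 2 ^ j := by field_simp

lemma norm_term_le {q : ℕ} (χ : DirichletCharacter ℂ q) (p : ℕ) :
    ‖χ (p : ZMod q) / (p : ℂ)‖ ≤ 1 / (p : ℝ) := by
  rw [norm_div, Complex.norm_natCast]
  exact div_le_div_of_nonneg_right (DirichletCharacter.norm_le_one χ _) (by positivity)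

lemma norm_partial_le {q : ℕ} (χ : DirichletCharacter ℂ q) (L : ℝ) (j : ℕ) (A : Finset ℕ)
    (hA : A ⊆ P L j) : ‖∑ p ∈ A, χ (p : ZMod q) / (p : ℂ)‖ ≤ 1 := by
  refine (norm_sum_le _ _).trans ?_
  have h3 : (0 : ℝ) < 2 ^ j := by positivity
  have h : ∀ p ∈ A, ‖χ (p : ZMod q) / (p : ℂ)‖ ≤ 1 / 2 ^ j := by
    intro p hp
    refine (norm_term_le χ p).trans ?_
    have h1 := (mem_P (hA hp)).1
    have h2 : ((2 : ℝ) ^ j) ≤ p := by exact_mod_cast h1
    exact one_div_le_one_div_of_le h3 h2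
  refine (sum_le_sum h).trans ?_
  rw [sum_const, nsmul_eq_mul]
  have h1 : (A.card : ℝ) ≤ 2 ^ j := by
    exact_mod_cast (card_le_card hA).trans (card_P_le L j)
  calc (A.card : ℝ) * (1 / 2 ^ j) ≤ 2 ^ j * (1 / 2 ^ j) :=
        mul_le_mul_of_nonneg_right h1 (by positivity)
    _ = 1 := by field_simp

lemma block_ls (L : ℝ) (F : ℕ) (hF : (F : ℝ) ^ 2 ≤ L ^ 3) (j : ℕ) :
    ∑ q ∈ Icc 1 F, ∑ χ ∈ (univ : Finset (DirichletCharacter ℂ q)).filter
      (fun χ => χ.IsPrimitive), ‖S L j χ‖ ^ 2 ≤ 24 := by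
  rcases (P L j).eq_empty_or_nonempty with h0 | ⟨p₀, hp₀⟩
  · have : ∀ q : ℕ, ∀ χ : DirichletCharacter ℂ q, S L j χ = 0 := by
      intro q χ
      unfold S
      rw [h0, sum_empty]
    simp [this]
  · have h1 : (F : ℝ) ^ 2 ≤ 2 ^ (j + 1) := by
      refine hF.trans ((mem_P hp₀).2.2.2.le.trans ?_)
      exact_mod_cast (mem_P hp₀).2.1.le
    set α : ℕ → ℂ := fun n => if n ∈ P L j then 1 / (n : ℂ) else 0 with hα
    have hsub : P L j ⊆ Icc 1 (2 ^ (j + 1)) := by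
      intro p hp
      have := mem_P hp
      rw [mem_Icc]
      exact ⟨this.2.2.1.one_lt.le, this.2.1.le⟩
    have key := Pool.Agent.Helper112.mult_large_sieve (2 ^ (j + 1)) F α
    have e1 : ∀ q : ℕ, ∀ χ : DirichletCharacter ℂ q,
        ∑ n ∈ Icc 1 (2 ^ (j + 1)), α n * χ (n : ZMod q) = S L j χ := by
      intro q χ
      unfold S
      symm
      refine (sum_congr rfl ?_).trans (sum_subset hsub ?_)
      · intro n hn
        simp only [hα, if_pos hn]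
        rw [one_div, mul_comm, div_eq_mul_inv]
      · intro n _ hn
        simp only [hα, if_neg hn, zero_mul]
    have e2 : ∑ n ∈ Icc 1 (2 ^ (j + 1)), ‖α n‖ ^ 2 = ∑ p ∈ P L j, (1 / (p : ℝ)) ^ 2 := by
      symm
      refine (sum_congr rfl ?_).trans (sum_subset hsub ?_)
      · intro n hn
        simp only [hα, if_pos hn]
        rw [norm_div, norm_one, Complex.norm_natCast]
      · intro n _ hn
        simp only [hα, if_neg hn, norm_zero]
        norm_num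
    rw [e2] at key
    simp only [e1] at key
    have h2 : ∑ q ∈ Icc 1 F, ∑ χ ∈ (univ : Finset (DirichletCharacter ℂ q)).filter
        (fun χ => χ.IsPrimitive), ‖S L j χ‖ ^ 2 ≤
        ∑ f ∈ Icc 1 F, ((f : ℝ) / (Nat.totient f : ℝ)) *
          ∑ χ ∈ (univ : Finset (DirichletCharacter ℂ f)).filter (fun χ => χ.IsPrimitive),
            ‖S L j χ‖ ^ 2 := by
      refine sum_le_sum ?_
      intro f hf
      rw [mem_Icc] at hf
      have hf1 : 0 < Nat.totient f := Nat.totient_pos.mpr (by omega)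
      have hf2 : (Nat.totient f : ℝ) ≤ f := by exact_mod_cast Nat.totient_le f
      have hf3 : (0 : ℝ) < Nat.totient f := by exact_mod_cast hf1
      have hf4 : 1 ≤ (f : ℝ) / (Nat.totient f : ℝ) := by
        rw [one_le_div hf3]; exact hf2
      have hnn : 0 ≤ ∑ χ ∈ (univ : Finset (DirichletCharacter ℂ f)).filter
          (fun χ => χ.IsPrimitive), ‖S L j χ‖ ^ 2 := sum_nonneg (fun _ _ => by positivity)
      nlinarith
    refine h2.trans (key.trans ?_)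
    have h3 := sum_inv_sq L j
    have h5 : (0 : ℝ) < 2 ^ j := by positivity
    have hcast : ((2 ^ (j + 1) : ℕ) : ℝ) = 2 ^ (j + 1) := by push_cast; rfl
    rw [hcast]
    have h4 : 6 * ((2 : ℝ) ^ (j + 1) + (F : ℝ) ^ 2) ≤ 24 * 2 ^ j := by
      have : (2 : ℝ) ^ (j + 1) = 2 * 2 ^ j := by rw [pow_succ]; ring
      rw [this] at h1 ⊢
      nlinarith
    calc 6 * ((2 : ℝ) ^ (j + 1) + (F : ℝ) ^ 2) * ∑ p ∈ P L j, (1 / (p : ℝ)) ^ 2
        ≤ (24 * 2 ^ j) * (1 / 2 ^ j) :=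
          mul_le_mul h4 h3 (sum_nonneg (fun _ _ => by positivity)) (by positivity)
      _ = 24 := by field_simp

lemma bad_count (L : ℝ) (F : ℕ) (hF : (F : ℝ) ^ 2 ≤ L ^ 3) (j : ℕ) (hj : 1 ≤ j) :
    ∑ q ∈ Icc 1 F, (((univ : Finset (DirichletCharacter ℂ q)).filter
      (fun χ => χ.IsPrimitive ∧ 1 / (j : ℝ) ^ 2 < ‖S L j χ‖)).card : ℝ) ≤ 24 * (j : ℝ) ^ 4 := by
  have hj0 : (0 : ℝ) < j := by exact_mod_cast hj
  have h := block_ls L F hF j
  have h1 : ∑ q ∈ Icc 1 F, (((univ : Finset (DirichletCharacter ℂ q)).filter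
      (fun χ => χ.IsPrimitive ∧ 1 / (j : ℝ) ^ 2 < ‖S L j χ‖)).card : ℝ) * (1 / (j : ℝ) ^ 4) ≤
      ∑ q ∈ Icc 1 F, ∑ χ ∈ (univ : Finset (DirichletCharacter ℂ q)).filter
        (fun χ => χ.IsPrimitive), ‖S L j χ‖ ^ 2 := by
    refine sum_le_sum ?_
    intro q _
    have hsub : (univ : Finset (DirichletCharacter ℂ q)).filter
        (fun χ => χ.IsPrimitive ∧ 1 / (j : ℝ) ^ 2 < ‖S L j χ‖) ⊆
        (univ : Finset (DirichletCharacter ℂ q)).filter (fun χ => χ.IsPrimitive) := by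
      intro χ hχ
      rw [mem_filter] at hχ ⊢
      exact ⟨hχ.1, hχ.2.1⟩
    refine le_trans ?_ (sum_le_sum_of_subset_of_nonneg hsub (fun _ _ _ => by positivity))
    rw [← nsmul_eq_mul]
    refine card_nsmul_le_sum _ _ _ ?_
    intro χ hχ
    rw [mem_filter] at hχ
    have := hχ.2.2
    calc 1 / (j : ℝ) ^ 4 = (1 / (j : ℝ) ^ 2) ^ 2 := by field_simp
      _ ≤ ‖S L j χ‖ ^ 2 := pow_le_pow_left₀ (by positivity) this.le 2
  rw [← sum_mul] at h1
  have h2 := h1.trans h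
  rw [mul_one_div, div_le_iff₀ (by positivity)] at h2
  exact h2

/-- the bad characters -/
noncomputable def bad (L : ℝ) (J : ℕ) (q : ℕ) : Finset (DirichletCharacter ℂ q) :=
  (univ : Finset (DirichletCharacter ℂ q)).filter
    (fun χ => χ.IsPrimitive ∧ ∃ j ∈ Icc 1 J, 1 / (j : ℝ) ^ 2 < ‖S L j χ‖)

lemma card_bad_le (L : ℝ) (J : ℕ) (q : ℕ) :
    ((bad L J q).card : ℝ) ≤ ∑ j ∈ Icc 1 J, (((univ : Finset (DirichletCharacter ℂ q)).filter
      (fun χ => χ.IsPrimitive ∧ 1 / (j : ℝ) ^ 2 < ‖S L j χ‖)).card : ℝ) := by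
  have h : bad L J q ⊆ (Icc 1 J).biUnion (fun j => (univ : Finset (DirichletCharacter ℂ q)).filter
      (fun χ => χ.IsPrimitive ∧ 1 / (j : ℝ) ^ 2 < ‖S L j χ‖)) := by
    intro χ hχ
    unfold bad at hχ
    rw [mem_filter] at hχ
    obtain ⟨_, hp, j, hj, h⟩ := hχ
    rw [mem_biUnion]
    exact ⟨j, hj, by rw [mem_filter]; exact ⟨mem_univ _, hp, h⟩⟩
  exact_mod_cast (card_le_card h).trans card_biUnion_le

lemma sum_bad_le (L : ℝ) (F : ℕ) (hF : (F : ℝ) ^ 2 ≤ L ^ 3) (J : ℕ) :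
    ∑ q ∈ Icc 1 F, ((bad L J q).card : ℝ) ≤ 24 * (J : ℝ) ^ 5 := by
  calc ∑ q ∈ Icc 1 F, ((bad L J q).card : ℝ)
      ≤ ∑ q ∈ Icc 1 F, ∑ j ∈ Icc 1 J, (((univ : Finset (DirichletCharacter ℂ q)).filter
        (fun χ => χ.IsPrimitive ∧ 1 / (j : ℝ) ^ 2 < ‖S L j χ‖)).card : ℝ) :=
        sum_le_sum (fun q _ => card_bad_le L J q)
    _ = ∑ j ∈ Icc 1 J, ∑ q ∈ Icc 1 F, (((univ : Finset (DirichletCharacter ℂ q)).filter
        (fun χ => χ.IsPrimitive ∧ 1 / (j : ℝ) ^ 2 < ‖S L j χ‖)).card : ℝ) := sum_comm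
    _ ≤ ∑ j ∈ Icc 1 J, 24 * (J : ℝ) ^ 4 := by
        refine sum_le_sum ?_
        intro j hj
        rw [mem_Icc] at hj
        refine (bad_count L F hF j hj.1).trans ?_
        have : (j : ℝ) ≤ J := by exact_mod_cast hj.2
        have := pow_le_pow_left₀ (by positivity : (0 : ℝ) ≤ j) this 4
        linarith
    _ = 24 * (J : ℝ) ^ 5 := by
        rw [sum_const, Nat.card_Icc, nsmul_eq_mul]
        simp only [add_tsub_cancel_right]
        ring

lemma sum_inv_sq_le (J : ℕ) : ∑ j ∈ Icc 1 J, 1 / (j : ℝ) ^ 2 ≤ 2 := by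
  have h : ∀ J : ℕ, ∑ j ∈ Icc 1 (J + 1), 1 / (j : ℝ) ^ 2 ≤ 2 - 1 / ((J : ℝ) + 1) := by
    intro J
    induction J with
    | zero => norm_num
    | succ J ih =>
      rw [sum_Icc_succ_top (by omega)]
      have hJ : (0 : ℝ) < (J : ℝ) + 1 := by positivity
      have hJ2 : (0 : ℝ) < (J : ℝ) + 1 + 1 := by positivity
      have e : 1 / ((J : ℝ) + 1 + 1) ^ 2 ≤ 1 / ((J : ℝ) + 1) - 1 / ((J : ℝ) + 1 + 1) := by
        rw [div_sub_div _ _ hJ.ne' hJ2.ne', div_le_div_iff₀ (by positivity) (by positivity)]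
        nlinarith
      push_cast
      linarith
  rcases J with _ | J
  · norm_num
  · have h1 := h J
    have : (0 : ℝ) ≤ 1 / ((J : ℝ) + 1) := by positivity
    linarith

/-- the decomposition of `SP` in blocks -/
lemma SP_eq (L w : ℝ) (J : ℕ) (hJ : Nat.log 2 ⌊w⌋₊ = J) (f : ℕ → ℂ) :
    ∑ p ∈ SP (L ^ 3) w ∅, f p =
      (∑ j ∈ range J, ∑ p ∈ P L j, f p) + ∑ p ∈ (P L J).filter (fun p => p ≤ ⌊w⌋₊), f p := by
  have hdis : ∀ i ∈ range J, ∀ j ∈ range J, i ≠ j → Disjoint (P L i) (P L j) := by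
    intro i _ j _ hij
    rw [disjoint_left]
    intro p hp hp'
    have h1 := mem_P hp
    have h2 := mem_P hp'
    have e1 : Nat.log 2 p = i := Nat.log_eq_of_pow_le_of_lt_pow h1.1 h1.2.1
    have e2 : Nat.log 2 p = j := Nat.log_eq_of_pow_le_of_lt_pow h2.1 h2.2.1
    exact hij (e1.symm.trans e2)
  rw [← sum_biUnion hdis, ← sum_union]
  · refine sum_congr ?_ (fun _ _ => rfl)
    ext p
    rw [mem_union, mem_biUnion]
    unfold SP
    simp only [mem_filter, mem_Icc, notMem_empty, not_false_eq_true, and_true, mem_range]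
    constructor
    · rintro ⟨⟨h1, h2⟩, h3, h4⟩
      have hp0 : p ≠ 0 := by omega
      have hle : Nat.log 2 p ≤ J := by rw [← hJ]; exact Nat.log_mono_right h2
      have hmem : p ∈ P L (Nat.log 2 p) := by
        unfold P
        rw [mem_filter, mem_Ico]
        exact ⟨⟨Nat.pow_log_le_self 2 hp0, Nat.lt_pow_succ_log_self (by norm_num) p⟩, h3, h4⟩
      rcases hle.lt_or_eq with h | h
      · left; exact ⟨_, h, hmem⟩
      · right; rw [h] at hmem; exact ⟨hmem, h2⟩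
    · rintro (⟨j, hj, hp⟩ | ⟨hp, h⟩)
      · have h1 := mem_P hp
        refine ⟨⟨h1.2.2.1.one_lt.le, ?_⟩, h1.2.2.1, h1.2.2.2⟩
        by_contra hlt
        push Not at hlt
        have : J ≤ j := by
          have h5 : Nat.log 2 ⌊w⌋₊ ≤ Nat.log 2 p := Nat.log_mono_right hlt.le
          have e1 : Nat.log 2 p = j := Nat.log_eq_of_pow_le_of_lt_pow h1.1 h1.2.1
          rw [hJ, e1] at h5
          exact h5
        omega
      · have h1 := mem_P hp
        exact ⟨⟨h1.2.2.1.one_lt.le, h⟩, h1.2.2.1, h1.2.2.2⟩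
  · rw [disjoint_left]
    intro p hp hp'
    rw [mem_biUnion] at hp
    obtain ⟨j, hj, hp⟩ := hp
    rw [mem_filter] at hp'
    rw [mem_range] at hj
    have h1 := mem_P hp
    have h2 := mem_P hp'.1
    have e1 : Nat.log 2 p = j := Nat.log_eq_of_pow_le_of_lt_pow h1.1 h1.2.1
    have e2 : Nat.log 2 p = J := Nat.log_eq_of_pow_le_of_lt_pow h2.1 h2.2.1
    omega

lemma P_zero (L : ℝ) : P L 0 = ∅ := by
  rw [eq_empty_iff_forall_notMem]
  intro p hp
  have := mem_P hp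
  have h := this.2.2.1.one_lt
  have h2 := this.2.1
  norm_num at h2
  omega

end N1

theorem char_blocks : ∃ C : ℝ, ∃ L₀ : ℝ, ∀ L : ℝ, L₀ ≤ L → ∀ F : ℕ, (F : ℝ) ^ 2 ≤ L ^ 3 →
    ∃ bad : (q : ℕ) → Finset (DirichletCharacter ℂ q),
      (∑ q ∈ Finset.Icc 1 F, ((bad q).card : ℝ)) ≤ L ^ (3 / 10 : ℝ) ∧
      ∀ q ∈ Finset.Icc 1 F, ∀ χ : DirichletCharacter ℂ q, χ.IsPrimitive → χ ∉ bad q →
        ∀ w : ℝ, L ^ 3 ≤ w → w ≤ Real.exp (L ^ (1 / 20 : ℝ)) →
          ‖∑ p ∈ SP (L ^ 3) w ∅, χ (p : ZMod q) / (p : ℂ)‖ ≤ C := by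
  refine ⟨3, (183 : ℝ) ^ 20, ?_⟩
  intro L hL F hF
  have hL1 : (1 : ℝ) ≤ L := le_trans (by norm_num) hL
  have hL0 : (0 : ℝ) ≤ L := by linarith
  set x : ℝ := L ^ (1 / 20 : ℝ) with hx
  have hx183 : 183 ≤ x := by
    have h1 : ((183 : ℝ) ^ 20) ^ (1 / 20 : ℝ) = 183 := by
      rw [← Real.rpow_natCast, ← Real.rpow_mul (by norm_num)]
      norm_num
    rw [← h1, hx]
    exact Real.rpow_le_rpow (by norm_num) hL (by norm_num)
  have hx6 : L ^ (3 / 10 : ℝ) = x ^ 6 := by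
    rw [hx, ← Real.rpow_natCast, ← Real.rpow_mul hL0]
    norm_num
  set J : ℕ := ⌊(3 / 2 : ℝ) * x⌋₊ with hJdef
  have hJle : (J : ℝ) ≤ 3 / 2 * x := Nat.floor_le (by linarith)
  refine ⟨N1.bad L J, ?_, ?_⟩
  · refine (N1.sum_bad_le L F hF J).trans ?_
    rw [hx6]
    have h1 : (J : ℝ) ^ 5 ≤ (3 / 2 * x) ^ 5 := pow_le_pow_left₀ (by positivity) hJle 5
    have h2 : (0 : ℝ) ≤ x ^ 5 := by positivity
    calc 24 * (J : ℝ) ^ 5 ≤ 24 * (3 / 2 * x) ^ 5 := by linarith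
      _ = 182.25 * x ^ 5 := by ring
      _ ≤ x * x ^ 5 := by nlinarith
      _ = x ^ 6 := by ring
  · intro q hq χ hχ hbad w hw1 hw2
    have hw0 : 0 < w := lt_of_lt_of_le (by positivity) hw1
    have hgood : ∀ j ∈ Icc 1 J, ‖N1.S L j χ‖ ≤ 1 / (j : ℝ) ^ 2 := by
      intro j hj
      by_contra hcon
      push Not at hcon
      apply hbad
      unfold N1.bad
      rw [mem_filter]
      exact ⟨mem_univ _, hχ, j, hj, hcon⟩
    set M : ℕ := Nat.log 2 ⌊w⌋₊ with hM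
    have hMJ : M ≤ J := by
      rw [hJdef]
      refine Nat.le_floor ?_
      have hw1' : (1 : ℝ) ≤ w := by
        have : (1 : ℝ) ≤ L ^ 3 := one_le_pow₀ hL1
        linarith
      have hfl : ⌊w⌋₊ ≠ 0 := by
        have := (Nat.one_le_floor_iff w).mpr hw1'
        omega
      have h1 : 2 ^ M ≤ ⌊w⌋₊ := Nat.pow_log_le_self 2 hfl
      have h2 : ((2 : ℝ) ^ M) ≤ w := by
        have h3 : ((2 ^ M : ℕ) : ℝ) ≤ (⌊w⌋₊ : ℝ) := by exact_mod_cast h1
        push_cast at h3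
        exact h3.trans (Nat.floor_le hw0.le)
      have h3 : (M : ℝ) * Real.log 2 ≤ x := by
        rw [← Real.log_pow]
        have h4 : Real.log ((2 : ℝ) ^ M) ≤ Real.log (Real.exp x) :=
          Real.log_le_log (by positivity) (h2.trans hw2)
        rwa [Real.log_exp] at h4
      have h5 := Real.log_two_gt_d9
      have hM0 : (0 : ℝ) ≤ M := by positivity
      nlinarith
    rw [N1.SP_eq L w M hM.symm]
    have hsum : ‖∑ j ∈ range M, ∑ p ∈ N1.P L j, χ (p : ZMod q) / (p : ℂ)‖ ≤ 2 := by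
      refine (norm_sum_le _ _).trans ?_
      have h1 : ∑ j ∈ range M, ‖∑ p ∈ N1.P L j, χ (p : ZMod q) / (p : ℂ)‖ ≤
          ∑ j ∈ Icc 1 M, 1 / (j : ℝ) ^ 2 := by
        rcases M.eq_zero_or_pos with h0 | hpos
        · rw [h0]; simp
        · have hr : range M = insert 0 (Ico 1 M) := by
            ext i; rw [mem_range, mem_insert, mem_Ico]; omega
          rw [hr, sum_insert (by simp)]
          rw [N1.P_zero, sum_empty, norm_zero, zero_add]
          refine (sum_le_sum (f := fun j => ‖∑ p ∈ N1.P L j, χ (p : ZMod q) / (p : ℂ)‖)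
            (g := fun j : ℕ => 1 / (j : ℝ) ^ 2) ?_).trans
            (sum_le_sum_of_subset_of_nonneg ?_ (fun _ _ _ => by positivity))
          · intro j hj
            rw [mem_Ico] at hj
            exact hgood j (by rw [mem_Icc]; omega)
          · intro j hj
            rw [mem_Ico] at hj
            rw [mem_Icc]; omega
      exact h1.trans (N1.sum_inv_sq_le M)
    have hpart := N1.norm_partial_le χ L M ((N1.P L M).filter (fun p => p ≤ ⌊w⌋₊))
      (filter_subset _ _)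
    calc _ ≤ _ := norm_add_le _ _
      _ ≤ 2 + 1 := add_le_add hsum hpart
      _ = 3 := by norm_num

end Pool.Agent.H426R3.SQ
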