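import Pool.Agent.H426R3.SQ.Defs
import Pool.Agent.Helper919.Char

set_option autoImplicit false

/-! # N2: the primitive character of `-u` -/

namespace Pool.Agent.H426R3.SQ

open Finset Pool.Agent.Helper919

theorem N2_rho (u : ℤ) (p : ℕ) (hp : p.Prime) (h2 : p ≠ 2) :
    haveI : Fact p.Prime := ⟨hp⟩
    ((rho u p : ℕ) : ℤ) = legendreSym p (-u) + 1 := by
  haveI : Fact p.Prime := ⟨hp⟩
  rw [← legendreSym.card_sqrts p h2 (-u)]
  congr 1
  unfold rho
  refine Finset.card_bij' (fun x _ => (x : ZMod p)) (fun x _ => x.val) ?_ ?_ ?_ ?_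
  · intro x hx
    rw [Finset.mem_filter] at hx
    rw [Set.mem_toFinset, Set.mem_setOf_eq]
    have h3 := (ZMod.intCast_zmod_eq_zero_iff_dvd _ p).2 hx.2
    push_cast at h3 ⊢
    linear_combination h3
  · intro x hx
    rw [Set.mem_toFinset, Set.mem_setOf_eq] at hx
    rw [Finset.mem_filter, Finset.mem_range]
    refine ⟨ZMod.val_lt x, ?_⟩
    rw [← ZMod.intCast_zmod_eq_zero_iff_dvd]
    push_cast at hx ⊢
    rw [ZMod.natCast_zmod_val, hx]
    ring
  · intro x hx
    rw [Finset.mem_filter, Finset.mem_range] at hx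
    exact ZMod.val_cast_of_lt hx.1
  · intro x _
    exact ZMod.natCast_zmod_val x

theorem exists_char (u : ℤ) (hu : u ≠ 0) : ∃ q : ℕ, 1 ≤ q ∧ q ≤ 4 * u.natAbs ∧
    ∃ χ : DirichletCharacter ℂ q, χ.IsPrimitive ∧
      ∀ p : ℕ, p.Prime → ¬ p ∣ 2 * u.natAbs → χ (p : ZMod q) = (rho u p : ℂ) - 1 := by
  have hn : -u ≠ 0 := neg_ne_zero.2 hu
  have hpos : 0 < 4 * (-u).natAbs := by have := Int.natAbs_pos.2 hn; omega
  have hdvd := (psi (-u) hn).conductor_dvd_level
  refine ⟨(psi (-u) hn).conductor, Nat.pos_of_dvd_of_pos hdvd hpos, ?_,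
    (psi (-u) hn).primitiveCharacter, (psi (-u) hn).primitiveCharacter_isPrimitive, ?_⟩
  · exact (Nat.le_of_dvd hpos hdvd).trans (le_of_eq (by rw [Int.natAbs_neg]))
  · intro p hp hpu
    haveI : Fact p.Prime := ⟨hp⟩
    have hp2 : p ≠ 2 := fun h => hpu (h ▸ Dvd.intro _ rfl)
    have hcop : IsCoprime (p : ℤ) ((4 * (-u).natAbs : ℕ) : ℤ) := by
      rw [Nat.isCoprime_iff_coprime]
      rw [hp.coprime_iff_not_dvd]
      intro h
      apply hpu
      rw [Int.natAbs_neg] at h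
      have h3 : p ∣ 2 * (2 * u.natAbs) := by
        have : 2 * (2 * u.natAbs) = 4 * u.natAbs := by ring
        rwa [this]
      rcases (hp.dvd_mul).1 h3 with h4 | h4
      · exact Dvd.dvd.mul_right h4 _
      · exact h4
    have h1 := (psi (-u) hn).primitiveCharacter_apply_of_isCoprime hcop
    push_cast at h1
    rw [h1]
    have h2 := psi_apply (-u) hn p
    rw [h2, XX_apply, if_pos (hp.odd_of_ne_two hp2)]
    have h3 := N2_rho u p hp hp2
    rw [← jacobiSym.legendreSym.to_jacobiSym]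
    have h4 : (rho u p : ℂ) = ((legendreSym p (-u) + 1 : ℤ) : ℂ) := by
      rw [← h3]; push_cast; rfl
    rw [h4]
    push_cast
    ring

end Pool.Agent.H426R3.SQ
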