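import Mathlib
import Pool.Agent.H426R3.SQ.Defs
import Pool.Agent.H374R2.V.ZD

/-! # Task N3: the same character only for `u = d s ^ 2` (helper896) -/

set_option autoImplicit false

namespace Pool.Agent.H426R3.SQ

open Finset Pool.Agent.H256R2.SC

theorem rho_pos_iff (u : ℤ) (p : ℕ) [Fact p.Prime] :
    0 < rho u p ↔ IsSquare (((-u : ℤ)) : ZMod p) := by
  unfold rho
  rw [Finset.card_pos]
  constructor
  · rintro ⟨x, hx⟩
    rw [Finset.mem_filter] at hx
    obtain ⟨-, hx⟩ := hx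
    rw [← ZMod.intCast_zmod_eq_zero_iff_dvd] at hx
    refine ⟨(x : ZMod p), ?_⟩
    push_cast at hx ⊢
    linear_combination -hx
  · rintro ⟨r, hr⟩
    refine ⟨r.val, ?_⟩
    rw [Finset.mem_filter, Finset.mem_range]
    refine ⟨ZMod.val_lt r, ?_⟩
    rw [← ZMod.intCast_zmod_eq_zero_iff_dvd]
    push_cast at hr ⊢
    rw [ZMod.natCast_zmod_val]
    linear_combination -hr

theorem isSquare_mul_of_rho (u v : ℤ) (p : ℕ) (hp : p.Prime) (hpu : ¬ (p : ℤ) ∣ u)
    (hpv : ¬ (p : ℤ) ∣ v) (h : rho u p = rho v p) : IsSquare (((u * v : ℤ)) : ZMod p) := by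
  have := Fact.mk hp
  have hu0 : (((-u : ℤ)) : ZMod p) ≠ 0 := by
    rw [Ne, ZMod.intCast_zmod_eq_zero_iff_dvd, dvd_neg]; exact hpu
  have hv0 : (((-v : ℤ)) : ZMod p) ≠ 0 := by
    rw [Ne, ZMod.intCast_zmod_eq_zero_iff_dvd, dvd_neg]; exact hpv
  have huv0 : (((u * v : ℤ)) : ZMod p) ≠ 0 := by
    have : (((u * v : ℤ)) : ZMod p) = (((-u : ℤ)) : ZMod p) * (((-v : ℤ)) : ZMod p) := by
      push_cast; ring
    rw [this]; exact mul_ne_zero hu0 hv0
  rw [← legendreSym.eq_one_iff p huv0]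
  have hm : legendreSym p (u * v) = legendreSym p (-u) * legendreSym p (-v) := by
    rw [← legendreSym.mul]; congr 1; ring
  have hiff : IsSquare (((-u : ℤ)) : ZMod p) ↔ IsSquare (((-v : ℤ)) : ZMod p) := by
    rw [← rho_pos_iff, ← rho_pos_iff, h]
  rw [hm]
  by_cases hs : IsSquare (((-u : ℤ)) : ZMod p)
  · rw [(legendreSym.eq_one_iff p hu0).2 hs, (legendreSym.eq_one_iff p hv0).2 (hiff.1 hs)]
    norm_num
  · rw [(legendreSym.eq_neg_one_iff p).2 hs,
      (legendreSym.eq_neg_one_iff p).2 (fun h2 => hs (hiff.2 h2))]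
    norm_num

theorem isSquare_mul_of_same (u v : ℤ) (hu : u ≠ 0) (hv : v ≠ 0)
    (h : ∀ p : ℕ, p.Prime → ¬ p ∣ 2 * u.natAbs * v.natAbs → rho u p = rho v p) :
    IsSquare (u * v) := by
  by_contra hns
  obtain ⟨M, c, hM, hcop, hcl⟩ := Pool.Agent.H374R2.V.ZD.nonres_class (u * v) hns
  obtain ⟨p, hpgt, hp, hpc⟩ :=
    Nat.forall_exists_prime_gt_and_modEq (2 * u.natAbs * v.natAbs) hM.ne' hcop
  have hun := Int.natAbs_pos.2 hu
  have hvn := Int.natAbs_pos.2 hv
  have hnd : ¬ p ∣ 2 * u.natAbs * v.natAbs := by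
    intro hd
    have := Nat.le_of_dvd (by positivity) hd
    omega
  refine hcl p hp hpc (isSquare_mul_of_rho u v p hp ?_ ?_ (h p hp hnd))
  · intro hd
    apply hnd
    rw [← Int.natCast_dvd_natCast]
    push_cast
    exact Dvd.dvd.mul_right (Dvd.dvd.mul_left ((dvd_abs _ _).2 hd) 2) _
  · intro hd
    apply hnd
    rw [← Int.natCast_dvd_natCast]
    push_cast
    exact Dvd.dvd.mul_left ((dvd_abs _ _).2 hd) _

theorem same_rho_count (T : ℕ) (U : Finset ℤ) (hU : ∀ u ∈ U, u ≠ 0 ∧ |u| ≤ (T : ℤ))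
    (h : ∀ u ∈ U, ∀ v ∈ U, ∀ p : ℕ, p.Prime → ¬ p ∣ 2 * u.natAbs * v.natAbs → rho u p = rho v p) :
    (U.card : ℝ) ≤ Real.sqrt T := by
  rcases U.eq_empty_or_nonempty with rfl | ⟨u0, hu0⟩
  · simp
  obtain ⟨a, b, hab, hsf⟩ := Nat.sq_mul_squarefree u0.natAbs
  have hu0n := Int.natAbs_pos.2 (hU u0 hu0).1
  have hb : 0 < b := by
    rcases Nat.eq_zero_or_pos b with rfl | hb
    · simp at hab; omega
    · exact hb
  have ha : 0 < a := by
    rcases Nat.eq_zero_or_pos a with rfl | ha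
    · simp at hab; omega
    · exact ha
  -- every u in U is `a s²` up to sign
  have key : ∀ u ∈ U, 0 < u * u0 ∧ ∃ s : ℕ, 0 < s ∧ u.natAbs = a * s ^ 2 := by
    intro u hu
    have hu' := (hU u hu).1
    obtain ⟨w, hw⟩ := isSquare_mul_of_same u u0 hu' (hU u0 hu0).1 (h u hu u0 hu0)
    have hne : u * u0 ≠ 0 := mul_ne_zero hu' (hU u0 hu0).1
    have hpos : 0 < u * u0 := by
      rcases lt_or_gt_of_ne hne with hlt | hgt
      · rw [hw] at hlt
        nlinarith [mul_self_nonneg w]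
      · exact hgt
    refine ⟨hpos, ?_⟩
    have h1 : u.natAbs * (b ^ 2 * a) = w.natAbs ^ 2 := by
      rw [hab, ← Int.natAbs_mul, hw, Int.natAbs_mul, sq]
    have hbw : b ∣ w.natAbs := by
      rw [← Nat.pow_dvd_pow_iff (two_ne_zero)]
      exact ⟨u.natAbs * a, by rw [← h1]; ring⟩
    obtain ⟨w', hw'⟩ := hbw
    have h2 : u.natAbs * a = w' ^ 2 := by
      have hb2 : 0 < b ^ 2 := by positivity
      apply Nat.eq_of_mul_eq_mul_left hb2
      rw [hw'] at h1
      nlinarith [h1]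
    have haw : a ∣ w' := by
      have : a ∣ w' ^ 2 := ⟨u.natAbs, by rw [← h2]; ring⟩
      exact (hsf.dvd_pow_iff_dvd two_ne_zero).1 this
    obtain ⟨s, hs⟩ := haw
    have h3 : u.natAbs = a * s ^ 2 := by
      apply Nat.eq_of_mul_eq_mul_left ha
      rw [hs] at h2
      nlinarith [h2]
    refine ⟨s, ?_, h3⟩
    rcases Nat.eq_zero_or_pos s with rfl | hs0
    · have := Int.natAbs_pos.2 hu'
      simp at h3
      exact absurd h3 hu'
    · exact hs0
  choose! hpos s hs hsu using key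
  have hcard : U.card ≤ (Finset.Icc 1 (Nat.sqrt T)).card := by
    apply Finset.card_le_card_of_injOn s
    · intro u hu
      have hu := Finset.mem_coe.1 hu
      rw [Finset.mem_coe, Finset.mem_Icc]
      refine ⟨hs u hu, ?_⟩
      rw [Nat.le_sqrt']
      have h1 : (u.natAbs : ℤ) ≤ T := by
        rw [Int.natCast_natAbs]; exact (hU u hu).2
      have h2 : u.natAbs ≤ T := by exact_mod_cast h1
      have h3 := hsu u hu
      nlinarith [Nat.zero_le (s u ^ 2)]
    · intro u hu v hv huv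
      have hu := Finset.mem_coe.1 hu
      have hv := Finset.mem_coe.1 hv
      have h1 : u.natAbs = v.natAbs := by rw [hsu u hu, hsu v hv, huv]
      rcases Int.natAbs_eq_natAbs_iff.1 h1 with h2 | h2
      · exact h2
      · have p1 := hpos u hu
        have p2 := hpos v hv
        rw [h2] at p1
        nlinarith
  rw [Nat.card_Icc, Nat.add_sub_cancel] at hcard
  calc (U.card : ℝ) ≤ (Nat.sqrt T : ℝ) := by exact_mod_cast hcard
    _ ≤ Real.sqrt T := Real.nat_sqrt_le_real_sqrt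

end Pool.Agent.H426R3.SQ
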