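import Pool.Agent.H426R3.SQ.Defs
import Pool.Agent.Helper256.KM.Mertens

set_option autoImplicit false

/-! Task N4 (helper268): all but few shifts have the full Mertens sum. -/

namespace Pool.Agent.H426R3.SQ

open Finset Pool.Agent.H256R2.SC

theorem mertens_SP : ∃ C : ℝ, 0 ≤ C ∧ ∀ y w : ℝ, 4 ≤ y → y ≤ w →
    Real.log (Real.log w) - Real.log (Real.log y) - C ≤ ∑ p ∈ SP y w ∅, (1 : ℝ) / p := by
  obtain ⟨C, hC⟩ := Pool.Agent.Helper256.KM.mertens_inv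
  have hC0 : 0 ≤ C := (abs_nonneg _).trans (hC 3 le_rfl)
  refine ⟨2 * C + 1, by linarith, fun y w hy hyw => ?_⟩
  have hy0 : (0:ℝ) ≤ y := by linarith
  have hw0 : (0:ℝ) ≤ w := by linarith
  have hfy : 4 ≤ ⌊y⌋₊ := Nat.le_floor (by exact_mod_cast hy)
  have hfw : 4 ≤ ⌊w⌋₊ := Nat.le_floor (by exact_mod_cast hy.trans hyw)
  have h1 := (abs_le.mp (hC ⌊y⌋₊ (by omega))).2
  have h2 := (abs_le.mp (hC ⌊w⌋₊ (by omega))).1
  -- the sum over SP
  have hsplit : ∑ p ∈ (Finset.Icc 1 ⌊w⌋₊).filter Nat.Prime, (1 : ℝ) / p =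
      ∑ p ∈ (Finset.Icc 1 ⌊y⌋₊).filter Nat.Prime, (1 : ℝ) / p + ∑ p ∈ SP y w ∅, (1 : ℝ) / p := by
    rw [← Finset.sum_union]
    · refine Finset.sum_congr ?_ fun _ _ => rfl
      ext p
      simp only [SP, mem_union, mem_filter, mem_Icc, notMem_empty, not_false_eq_true, and_true]
      constructor
      · rintro ⟨⟨h3, h4⟩, h5⟩
        by_cases h6 : p ≤ ⌊y⌋₊
        · exact Or.inl ⟨⟨h3, h6⟩, h5⟩
        · refine Or.inr ⟨⟨h3, h4⟩, h5, ?_⟩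
          exact (Nat.floor_lt hy0).mp (by omega)
      · rintro (⟨⟨h3, h4⟩, h5⟩ | ⟨⟨h3, h4⟩, h5, _⟩)
        · exact ⟨⟨h3, h4.trans (Nat.floor_le_floor hyw)⟩, h5⟩
        · exact ⟨⟨h3, h4⟩, h5⟩
    · rw [Finset.disjoint_left]
      intro p hp hp'
      simp only [SP, mem_filter, mem_Icc] at hp hp'
      have := (Nat.le_floor_iff hy0).mp hp.1.2
      linarith [hp'.2.2.1]
  -- log log at the floors
  have hly : Real.log (Real.log ⌊y⌋₊) ≤ Real.log (Real.log y) := by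
    have hf : (⌊y⌋₊ : ℝ) ≤ y := Nat.floor_le hy0
    have hf4 : (4:ℝ) ≤ ⌊y⌋₊ := by exact_mod_cast hfy
    have : 0 < Real.log ⌊y⌋₊ := Real.log_pos (by linarith)
    exact Real.log_le_log this (Real.log_le_log (by linarith) hf)
  have hlw : Real.log (Real.log w) ≤ Real.log (Real.log ⌊w⌋₊) + 1 := by
    have hf : w < ⌊w⌋₊ + 1 := Nat.lt_floor_add_one w
    have hf4 : (4:ℝ) ≤ ⌊w⌋₊ := by exact_mod_cast hfw
    have hfp : (0:ℝ) < ⌊w⌋₊ := by linarith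
    have hlog : 1 ≤ Real.log ⌊w⌋₊ := by
      rw [Real.le_log_iff_exp_le hfp]
      have := Real.exp_one_lt_d9
      linarith
    have h3 : Real.log w ≤ Real.log ⌊w⌋₊ * Real.exp 1 := by
      have h4 : Real.log w ≤ Real.log (⌊w⌋₊ * 2) :=
        Real.log_le_log (by linarith) (by linarith)
      rw [Real.log_mul hfp.ne' (by norm_num)] at h4
      have h5 : Real.log 2 ≤ 1 := by
        have := Real.log_two_lt_d9
        linarith
      have h6 : 2 ≤ Real.exp 1 := by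
        have := Real.exp_one_gt_d9
        linarith
      nlinarith
    calc Real.log (Real.log w) ≤ Real.log (Real.log ⌊w⌋₊ * Real.exp 1) := by
          refine Real.log_le_log (Real.log_pos (by linarith)) h3
      _ = Real.log (Real.log ⌊w⌋₊) + 1 := by
          rw [Real.log_mul (by linarith) (Real.exp_pos 1).ne', Real.log_exp]
  linarith

/-- Task N4 from the tasks N1, N2, N3. -/
theorem few_bad_of
    (N1 : ∃ C : ℝ, ∃ L₀ : ℝ, ∀ L : ℝ, L₀ ≤ L → ∀ F : ℕ, (F : ℝ) ^ 2 ≤ L ^ 3 →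
      ∃ bad : (q : ℕ) → Finset (DirichletCharacter ℂ q),
        (∑ q ∈ Finset.Icc 1 F, ((bad q).card : ℝ)) ≤ L ^ (3 / 10 : ℝ) ∧
        ∀ q ∈ Finset.Icc 1 F, ∀ χ : DirichletCharacter ℂ q, χ.IsPrimitive → χ ∉ bad q →
          ∀ w : ℝ, L ^ 3 ≤ w → w ≤ Real.exp (L ^ (1 / 20 : ℝ)) →
            ‖∑ p ∈ SP (L ^ 3) w ∅, χ (p : ZMod q) / (p : ℂ)‖ ≤ C)
    (N2 : ∀ (u : ℤ) (hu : u ≠ 0), ∃ q : ℕ, 1 ≤ q ∧ q ≤ 4 * u.natAbs ∧
      ∃ χ : DirichletCharacter ℂ q, χ.IsPrimitive ∧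
        ∀ p : ℕ, p.Prime → ¬ p ∣ 2 * u.natAbs → χ (p : ZMod q) = (rho u p : ℂ) - 1)
    (N3 : ∀ (T : ℕ) (U : Finset ℤ) (hU : ∀ u ∈ U, u ≠ 0 ∧ |u| ≤ (T : ℤ))
      (h : ∀ u ∈ U, ∀ v ∈ U, ∀ p : ℕ, p.Prime → ¬ p ∣ 2 * u.natAbs * v.natAbs →
        rho u p = rho v p), (U.card : ℝ) ≤ Real.sqrt T) :
    ∃ C : ℝ, 0 ≤ C ∧ ∃ L₀ : ℝ, ∀ L : ℝ, L₀ ≤ L → ∀ T : ℕ,
    (T : ℝ) ≤ L ^ (11 / 10 : ℝ) →
    ∃ 𝓑 : Finset ℤ, (𝓑.card : ℝ) ≤ L ^ (9 / 10 : ℝ) ∧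
      ∀ u : ℤ, u ≠ 0 → |u| ≤ (T : ℤ) → u ∉ 𝓑 →
        ∀ w : ℝ, L ^ 3 ≤ w → w ≤ Real.exp (L ^ (1 / 20 : ℝ)) →
          Real.log (Real.log w) - Real.log (Real.log (L ^ 3)) - C ≤
            ∑ p ∈ SP (L ^ 3) w ∅, (rho u p : ℝ) / (p : ℝ) := by
  classical
  obtain ⟨C₁, L₁, h1⟩ := N1
  obtain ⟨C₂, hC2, hM⟩ := mertens_SP
  refine ⟨|C₁| + C₂, by positivity, max L₁ 32, fun L hL T hT => ?_⟩
  have hL1 : L₁ ≤ L := (le_max_left _ _).trans hL
  have hL32 : (32:ℝ) ≤ L := (le_max_right _ _).trans hL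
  have hL0 : (0:ℝ) < L := by linarith
  have hFL : ((4 * T : ℕ) : ℝ) ^ 2 ≤ L ^ 3 := by
    push_cast
    have e1 : ((T : ℝ)) ^ 2 ≤ (L ^ (11 / 10 : ℝ)) ^ 2 := pow_le_pow_left₀ (by positivity) hT 2
    have e2 : (16:ℝ) ≤ L ^ (4 / 5 : ℝ) := by
      have : (16:ℝ) = (32:ℝ) ^ (4 / 5 : ℝ) := by
        rw [show (32:ℝ) = 2 ^ (5:ℝ) by norm_num, ← Real.rpow_mul (by norm_num)]
        norm_num
      rw [this]
      exact Real.rpow_le_rpow (by norm_num) hL32 (by norm_num)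
    have e3 : (L ^ (11 / 10 : ℝ)) ^ 2 * L ^ (4 / 5 : ℝ) = L ^ 3 := by
      rw [← Real.rpow_natCast (L ^ (11 / 10 : ℝ)) 2, ← Real.rpow_mul hL0.le,
        ← Real.rpow_add hL0, ← Real.rpow_natCast L 3]
      norm_num
    calc (4 * (T : ℝ)) ^ 2 = (T : ℝ) ^ 2 * 16 := by ring
      _ ≤ (L ^ (11 / 10 : ℝ)) ^ 2 * L ^ (4 / 5 : ℝ) := by gcongr
      _ = L ^ 3 := e3
  obtain ⟨bad, hbad, hgood⟩ := h1 L hL1 (4 * T) hFL
  -- the characters
  choose q hq1 hq2 χ hχp hχ using N2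
  let cd : ℤ → (Σ q : ℕ, DirichletCharacter ℂ q) := fun u =>
    if hu : u ≠ 0 then ⟨q u hu, χ u hu⟩ else ⟨0, 1⟩
  have hcd : ∀ u (hu : u ≠ 0), cd u = ⟨q u hu, χ u hu⟩ := fun u hu => dif_pos hu
  let P : Finset (Σ q : ℕ, DirichletCharacter ℂ q) := (Finset.Icc 1 (4 * T)).sigma bad
  let 𝓑 : Finset ℤ := (Finset.Icc (-(T : ℤ)) T).filter (fun u => u ≠ 0 ∧ cd u ∈ P)
  refine ⟨𝓑, ?_, ?_⟩
  · -- size
    have hfib : ∀ b ∈ P, ((𝓑.filter (fun u => cd u = b)).card : ℝ) ≤ Real.sqrt T := by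
      intro b _
      refine N3 T _ ?_ ?_
      · intro u hu
        have h2 := (mem_filter.mp (mem_filter.mp hu).1)
        refine ⟨h2.2.1, ?_⟩
        rw [mem_Icc] at h2
        exact abs_le.mpr h2.1
      · intro u hu v hv p hp hpd
        have hu0 : u ≠ 0 := (mem_filter.mp (mem_filter.mp hu).1).2.1
        have hv0 : v ≠ 0 := (mem_filter.mp (mem_filter.mp hv).1).2.1
        have hub : cd u = b := (mem_filter.mp hu).2
        have hvb : cd v = b := (mem_filter.mp hv).2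
        have heq : (⟨q u hu0, χ u hu0⟩ : Σ q : ℕ, DirichletCharacter ℂ q) =
            ⟨q v hv0, χ v hv0⟩ := by
          rw [← hcd u hu0, ← hcd v hv0, hub, hvb]
        have hev := congrArg (fun s : Σ q : ℕ, DirichletCharacter ℂ q => s.2 (p : ZMod s.1)) heq
        simp only at hev
        rw [hχ u hu0 p hp (fun hd => hpd (Dvd.dvd.mul_right hd _)),
          hχ v hv0 p hp (fun hd => hpd (by
            rw [mul_right_comm]; exact Dvd.dvd.mul_right hd _))] at hev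
        simpa [sub_eq_add_neg] using hev
    have hmap : ∀ u ∈ 𝓑, cd u ∈ P := fun u hu => (mem_filter.mp hu).2.2
    have hcard : (𝓑.card : ℝ) = ∑ b ∈ P, ((𝓑.filter (fun u => cd u = b)).card : ℝ) := by
      exact_mod_cast Finset.card_eq_sum_card_fiberwise hmap
    have hP : (P.card : ℝ) ≤ L ^ (3 / 10 : ℝ) := by
      rw [Finset.card_sigma]
      push_cast
      exact hbad
    have hsT : Real.sqrt T ≤ L ^ (11 / 20 : ℝ) := by
      rw [Real.sqrt_eq_rpow]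
      calc (T : ℝ) ^ (1 / 2 : ℝ) ≤ (L ^ (11 / 10 : ℝ)) ^ (1 / 2 : ℝ) :=
            Real.rpow_le_rpow (by positivity) hT (by norm_num)
        _ = L ^ (11 / 20 : ℝ) := by
            rw [← Real.rpow_mul hL0.le]; norm_num
    calc (𝓑.card : ℝ) = ∑ b ∈ P, ((𝓑.filter (fun u => cd u = b)).card : ℝ) := hcard
      _ ≤ ∑ _b ∈ P, Real.sqrt T := Finset.sum_le_sum hfib
      _ = P.card * Real.sqrt T := by simp
      _ ≤ L ^ (3 / 10 : ℝ) * L ^ (11 / 20 : ℝ) := by gcongr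
      _ = L ^ (17 / 20 : ℝ) := by rw [← Real.rpow_add hL0]; norm_num
      _ ≤ L ^ (9 / 10 : ℝ) := Real.rpow_le_rpow_of_exponent_le (by linarith) (by norm_num)
  · intro u hu0 huT hub w hw1 hw2
    have huN : u.natAbs ≤ T := by
      have : (u.natAbs : ℤ) ≤ T := by rw [Int.natCast_natAbs]; exact huT
      exact_mod_cast this
    have hqI : q u hu0 ∈ Finset.Icc 1 (4 * T) :=
      mem_Icc.mpr ⟨hq1 u hu0, (hq2 u hu0).trans (Nat.mul_le_mul_left 4 huN)⟩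
    have hnb : χ u hu0 ∉ bad (q u hu0) := by
      intro h
      apply hub
      refine mem_filter.mpr ⟨mem_Icc.mpr (abs_le.mp huT), hu0, ?_⟩
      rw [hcd u hu0]
      exact mem_sigma.mpr ⟨hqI, h⟩
    have hsum := hgood _ hqI (χ u hu0) (hχp u hu0) hnb w hw1 hw2
    have hL3 : (4:ℝ) ≤ L ^ 3 := by
      have : (32:ℝ) ^ 3 ≤ L ^ 3 := pow_le_pow_left₀ (by norm_num) hL32 3
      linarith
    have hval : ∑ p ∈ SP (L ^ 3) w ∅, χ u hu0 (p : ZMod (q u hu0)) / (p : ℂ) =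
        ((∑ p ∈ SP (L ^ 3) w ∅, ((rho u p : ℝ) - 1) / (p : ℝ) : ℝ) : ℂ) := by
      push_cast
      refine Finset.sum_congr rfl fun p hp => ?_
      simp only [SP, mem_filter, mem_Icc] at hp
      rw [hχ u hu0 p hp.2.1]
      intro hd
      have h2 : p ≤ 2 * u.natAbs := Nat.le_of_dvd (by
        have := Int.natAbs_pos.mpr hu0
        omega) hd
      have h3 : (p : ℝ) ≤ L ^ 3 := by
        have hT1 : 1 ≤ T := (Int.natAbs_pos.mpr hu0).trans_le huN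
        have h4 : p ≤ (4 * T) ^ 2 := by nlinarith
        calc (p : ℝ) ≤ (((4 * T) ^ 2 : ℕ) : ℝ) := by exact_mod_cast h4
          _ = ((4 * T : ℕ) : ℝ) ^ 2 := by push_cast; ring
          _ ≤ L ^ 3 := hFL
      linarith [hp.2.2.1]
    rw [hval, Complex.norm_real, Real.norm_eq_abs] at hsum
    have h5 := (abs_le.mp hsum).1
    have h6 := hM (L ^ 3) w hL3 hw1
    have h7 : ∑ p ∈ SP (L ^ 3) w ∅, (rho u p : ℝ) / (p : ℝ) =
        ∑ p ∈ SP (L ^ 3) w ∅, (1 : ℝ) / p + ∑ p ∈ SP (L ^ 3) w ∅, ((rho u p : ℝ) - 1) / (p : ℝ) := by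
      rw [← Finset.sum_add_distrib]
      refine Finset.sum_congr rfl fun p _ => ?_
      ring
    rw [h7]
    have h8 := le_abs_self C₁
    linarith

end Pool.Agent.H426R3.SQ
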