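import Pool.Agent.Helper256.KM.Mertens

set_option autoImplicit false

/-! # Task N5: many primes above `y` for which `-u` is a square -/

namespace Pool.Agent.H426R3.SQ

open Finset

open scoped Classical

namespace N5

/-- `|u t^2 + 1|` -/
def nn (u : ℤ) (t : ℕ) : ℕ := (u * (t : ℤ) ^ 2 + 1).natAbs

theorem le_nn {u : ℤ} (hu : u ≠ 0) (hu1 : u ≠ -1) {t : ℕ} (ht : 1 ≤ t) : t ^ 2 ≤ nn u t := by
  have h1 : (1 : ℤ) ≤ (t : ℤ) ^ 2 := by
    have : (1 : ℤ) ≤ t := by exact_mod_cast ht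
    nlinarith
  have h2 : ((t : ℤ) ^ 2) ≤ |u * (t : ℤ) ^ 2 + 1| := by
    rcases lt_or_ge u 1 with h | h
    · have h3 : u ≤ -2 := by omega
      have h4 : u * (t : ℤ) ^ 2 ≤ -2 * (t : ℤ) ^ 2 := mul_le_mul_of_nonneg_right h3 (by positivity)
      rw [abs_of_nonpos (by linarith)]
      linarith
    · have h4 : 1 * (t : ℤ) ^ 2 ≤ u * (t : ℤ) ^ 2 := mul_le_mul_of_nonneg_right h (by positivity)
      rw [abs_of_nonneg (by linarith)]
      linarith
  unfold nn
  zify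
  exact h2

theorem nn_le (u : ℤ) (t : ℕ) : (nn u t : ℝ) ≤ (|u| : ℝ) * (t : ℝ) ^ 2 + 1 := by
  have h : (nn u t : ℝ) = |(u : ℝ) * (t : ℝ) ^ 2 + 1| := by
    unfold nn
    rw [Nat.cast_natAbs]
    push_cast
    rfl
  rw [h]
  calc |(u : ℝ) * (t : ℝ) ^ 2 + 1| ≤ |(u : ℝ) * (t : ℝ) ^ 2| + |(1 : ℝ)| := abs_add_le _ _
    _ = (|u| : ℝ) * (t : ℝ) ^ 2 + 1 := by
      rw [abs_mul, abs_one, abs_of_nonneg (by positivity : (0 : ℝ) ≤ (t : ℝ) ^ 2)]

/-- a set of integers in `[1, V]` whose doubles are congruent mod `q` -/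
theorem card_class (V q c : ℕ) (T : Finset ℕ) (hT : T ⊆ Icc 1 V)
    (h : ∀ t ∈ T, (2 * t) % q = c) : T.card ≤ 2 * V / q + 1 := by
  have h1 : T.card ≤ (Finset.range (2 * V / q + 1)).card := by
    refine Finset.card_le_card_of_injOn (fun t => 2 * t / q) ?_ ?_
    · intro t ht
      have h2 := Finset.mem_Icc.1 (hT ht)
      simp only [Finset.coe_range, Set.mem_Iio]
      exact Nat.lt_succ_of_le (Nat.div_le_div_right (by omega))
    · intro t ht t' ht' heq
      simp only at heq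
      have h2 := Nat.div_add_mod (2 * t) q
      have h3 := Nat.div_add_mod (2 * t') q
      rw [h t ht] at h2
      rw [h t' ht'] at h3
      rw [heq] at h2
      omega
  simpa using h1

/-- the congruence `u t^2 = -1` modulo a prime power -/
theorem two_classes {p k : ℕ} (hp : p.Prime) (u : ℤ) (t s : ℕ) (ht : p ^ k ∣ nn u t)
    (hs : p ^ k ∣ nn u s) :
    ((p : ℤ) ^ k) ∣ 2 * ((t : ℤ) - s) ∨ ((p : ℤ) ^ k) ∣ 2 * ((t : ℤ) + s) := by
  have ht' : ((p : ℤ) ^ k) ∣ u * (t : ℤ) ^ 2 + 1 := by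
    have := Int.natCast_dvd.2 ht
    push_cast at this
    exact this
  have hs' : ((p : ℤ) ^ k) ∣ u * (s : ℤ) ^ 2 + 1 := by
    have := Int.natCast_dvd.2 hs
    push_cast at this
    exact this
  have h1 : ((p : ℤ) ^ k) ∣ u * (((t : ℤ) - s) * ((t : ℤ) + s)) := by
    have := dvd_sub ht' hs'
    have h2 : u * (t : ℤ) ^ 2 + 1 - (u * (s : ℤ) ^ 2 + 1) = u * (((t : ℤ) - s) * ((t : ℤ) + s)) := by
      ring
    rwa [h2] at this
  have hcu : IsCoprime ((p : ℤ) ^ k) u := by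
    obtain ⟨c, hc⟩ := ht'
    exact ⟨c, -(t : ℤ) ^ 2, by linarith⟩
  have hct : IsCoprime ((p : ℤ) ^ k) (t : ℤ) := by
    obtain ⟨c, hc⟩ := ht'
    exact ⟨c, -u * (t : ℤ), by linarith⟩
  have h3 : ((p : ℤ) ^ k) ∣ ((t : ℤ) - s) * ((t : ℤ) + s) := hcu.dvd_of_dvd_mul_left h1
  obtain ⟨d, e, hd, he, hde⟩ := exists_dvd_and_dvd_of_dvd_mul h3
  have hd1 : d ∣ (p : ℤ) ^ k := ⟨e, hde⟩
  have he1 : e ∣ (p : ℤ) ^ k := ⟨d, by rw [hde, mul_comm]⟩
  have hpp : Prime (p : ℤ) := Nat.prime_iff_prime_int.1 hp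
  obtain ⟨i, -, hi⟩ := (dvd_prime_pow hpp k).1 hd1
  obtain ⟨j, -, hj⟩ := (dvd_prime_pow hpp k).1 he1
  have key : ∀ g : ℤ, g ∣ (p : ℤ) ^ k → g ∣ (t : ℤ) - s → g ∣ (t : ℤ) + s → g ∣ 2 := by
    intro g hg h4 h5
    have h6 : g ∣ (t : ℤ) * 2 := by
      have := dvd_add h4 h5
      have h7 : (t : ℤ) - s + ((t : ℤ) + s) = t * 2 := by ring
      rwa [h7] at this
    exact (hct.of_isCoprime_of_dvd_left hg).dvd_of_dvd_mul_left h6
  rcases le_total i j with hij | hij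
  · right
    have h4 : d ∣ e := (hi.dvd.trans (pow_dvd_pow _ hij)).trans hj.symm.dvd
    have h5 : d ∣ 2 := key d hd1 hd (h4.trans he)
    rw [hde]
    exact mul_dvd_mul h5 he
  · left
    have h4 : e ∣ d := (hj.dvd.trans (pow_dvd_pow _ hij)).trans hi.symm.dvd
    have h5 : e ∣ 2 := key e he1 (h4.trans hd) he
    rw [hde, mul_comm d e]
    exact mul_dvd_mul h5 hd

theorem card_sol {p k : ℕ} (hp : p.Prime) (u : ℤ) (V : ℕ) :
    (((Icc 1 V).filter (fun t => p ^ k ∣ nn u t)).card : ℝ) ≤ 4 * V / (p : ℝ) ^ k + 4 := by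
  rcases ((Icc 1 V).filter (fun t => p ^ k ∣ nn u t)).eq_empty_or_nonempty with h0 | ⟨s, hs⟩
  · rw [h0]
    simp only [Finset.card_empty, Nat.cast_zero]
    positivity
  · have hs2 := (Finset.mem_filter.1 hs).2
    set q := p ^ k with hq
    have hq0 : 0 < q := pow_pos hp.pos k
    set T1 := (Icc 1 V).filter (fun t : ℕ => (q : ℤ) ∣ 2 * ((t : ℤ) - s)) with hT1
    set T2 := (Icc 1 V).filter (fun t : ℕ => (q : ℤ) ∣ 2 * ((t : ℤ) + s)) with hT2
    have hsub : (Icc 1 V).filter (fun t => q ∣ nn u t) ⊆ T1 ∪ T2 := by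
      intro t ht
      obtain ⟨ht1, ht2⟩ := Finset.mem_filter.1 ht
      rw [Finset.mem_union, hT1, hT2, Finset.mem_filter, Finset.mem_filter]
      have := two_classes hp u t s ht2 hs2
      have hc : ((p : ℤ) ^ k) = (q : ℤ) := by rw [hq]; push_cast; rfl
      rw [hc] at this
      rcases this with h | h
      · exact Or.inl ⟨ht1, h⟩
      · exact Or.inr ⟨ht1, h⟩
    have h1 : T1.card ≤ 2 * V / q + 1 := by
      refine card_class V q ((2 * s) % q) T1 (Finset.filter_subset _ _) ?_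
      intro t ht
      have h2 := (Finset.mem_filter.1 ht).2
      have h3 : ((2 * s : ℕ) : ℤ) ≡ ((2 * t : ℕ) : ℤ) [ZMOD q] := by
        rw [Int.modEq_iff_dvd]
        push_cast
        have h4 : 2 * (t : ℤ) - 2 * s = 2 * ((t : ℤ) - s) := by ring
        rw [h4]
        exact h2
      exact (Int.natCast_modEq_iff.1 h3).symm
    have h2 : T2.card ≤ 2 * V / q + 1 := by
      refine card_class V q ((2 * (q * s - s)) % q) T2 (Finset.filter_subset _ _) ?_
      intro t ht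
      have h2 := (Finset.mem_filter.1 ht).2
      have hle : s ≤ q * s := Nat.le_mul_of_pos_left s hq0
      have h3 : ((2 * (q * s - s) : ℕ) : ℤ) ≡ ((2 * t : ℕ) : ℤ) [ZMOD q] := by
        rw [Int.modEq_iff_dvd]
        push_cast [Nat.cast_sub hle]
        have h4 : 2 * (t : ℤ) - 2 * ((q : ℤ) * s - s) = 2 * ((t : ℤ) + s) - q * (2 * s) := by ring
        rw [h4]
        exact dvd_sub h2 (dvd_mul_right _ _)
      exact (Int.natCast_modEq_iff.1 h3).symm
    have h3 : ((Icc 1 V).filter (fun t => q ∣ nn u t)).card ≤ 2 * (2 * V / q + 1) := by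
      refine (Finset.card_le_card hsub).trans ((Finset.card_union_le _ _).trans ?_)
      omega
    have h4 : ((2 * V / q : ℕ) : ℝ) ≤ (2 * V : ℕ) / (q : ℝ) := Nat.cast_div_le
    have h5 : (((Icc 1 V).filter (fun t => q ∣ nn u t)).card : ℝ) ≤ 2 * ((2 * V / q : ℕ) + 1) := by
      exact_mod_cast h3
    have h6 : (q : ℝ) = (p : ℝ) ^ k := by rw [hq]; push_cast; rfl
    rw [← h6]
    have h7 : (4 * V / (q : ℝ)) = 2 * ((2 * V : ℕ) / (q : ℝ)) := by push_cast; ring
    rw [h7]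
    linarith

theorem geom_le (p : ℝ) (hp : 1 < p) (K : ℕ) : ∑ i ∈ Icc 1 K, 1 / p ^ i ≤ 1 / (p - 1) := by
  have h : ∑ i ∈ Icc 1 K, 1 / p ^ i = (1 - 1 / p ^ K) / (p - 1) := by
    induction K with
    | zero => simp
    | succ K ih =>
      rw [Finset.sum_Icc_succ_top (by omega), ih]
      have h1 : p - 1 ≠ 0 := by linarith
      have h2 : p ≠ 0 := by linarith
      field_simp
      ring
  rw [h]
  have h1 : 0 < p - 1 := by linarith
  have h2 : 0 ≤ 1 / p ^ K := by positivity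
  gcongr
  linarith

theorem fact_card {p : ℕ} (hp : p.Prime) {n X : ℕ} (hn : n ≠ 0) (hX : n ≤ X) :
    n.factorization p = ((Icc 1 (Nat.log p X)).filter (fun i => p ^ i ∣ n)).card := by
  have h1 : (Icc 1 (Nat.log p X)).filter (fun i => p ^ i ∣ n) = Icc 1 (n.factorization p) := by
    ext i
    simp only [Finset.mem_filter, Finset.mem_Icc]
    constructor
    · rintro ⟨⟨h1, -⟩, h2⟩
      exact ⟨h1, (hp.pow_dvd_iff_le_factorization hn).1 h2⟩
    · rintro ⟨h1, h2⟩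
      have h3 := (hp.pow_dvd_iff_le_factorization hn).2 h2
      refine ⟨⟨h1, ?_⟩, h3⟩
      exact Nat.le_log_of_pow_le hp.one_lt ((Nat.le_of_dvd (Nat.pos_of_ne_zero hn) h3).trans hX)
  rw [h1]
  simp

theorem per_prime {p : ℕ} (hp : p.Prime) (u : ℤ) (V X : ℕ) (hX1 : 1 ≤ X)
    (hn0 : ∀ t ∈ Icc 1 V, nn u t ≠ 0) (hX : ∀ t ∈ Icc 1 V, nn u t ≤ X) :
    ∑ t ∈ Icc 1 V, ((nn u t).factorization p : ℝ) * Real.log p ≤
      4 * V * (Real.log p / (p - 1)) + 4 * Real.log X := by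
  have hp1 : (1 : ℝ) < p := by exact_mod_cast hp.one_lt
  have hlp : 0 < Real.log p := Real.log_pos hp1
  set K := Nat.log p X with hK
  have h1 : ∑ t ∈ Icc 1 V, ((nn u t).factorization p : ℝ) =
      ∑ i ∈ Icc 1 K, (((Icc 1 V).filter (fun t => p ^ i ∣ nn u t)).card : ℝ) := by
    have h2 : ∀ t ∈ Icc 1 V, ((nn u t).factorization p : ℝ) =
        ∑ i ∈ Icc 1 K, (if p ^ i ∣ nn u t then (1 : ℝ) else 0) := by
      intro t ht
      rw [fact_card hp (hn0 t ht) (hX t ht), Finset.card_filter]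
      push_cast
      rfl
    rw [Finset.sum_congr rfl h2, Finset.sum_comm]
    refine Finset.sum_congr rfl fun i _ => ?_
    rw [Finset.card_filter]
    push_cast
    rfl
  have h3 : ∑ i ∈ Icc 1 K, (((Icc 1 V).filter (fun t => p ^ i ∣ nn u t)).card : ℝ) ≤
      4 * V * (1 / ((p : ℝ) - 1)) + 4 * K := by
    calc ∑ i ∈ Icc 1 K, (((Icc 1 V).filter (fun t => p ^ i ∣ nn u t)).card : ℝ) ≤
        ∑ i ∈ Icc 1 K, (4 * V * (1 / (p : ℝ) ^ i) + 4) := by
          refine Finset.sum_le_sum fun i _ => ?_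
          have := card_sol (k := i) hp u V
          rw [mul_one_div]
          exact this
      _ = 4 * V * ∑ i ∈ Icc 1 K, (1 / (p : ℝ) ^ i) + 4 * K := by
          rw [Finset.sum_add_distrib, ← Finset.mul_sum]
          simp
          ring
      _ ≤ _ := by
          have := geom_le p hp1 K
          gcongr
  have h4 : (K : ℝ) * Real.log p ≤ Real.log X := by
    have h5 : p ^ K ≤ X := Nat.pow_log_le_self p (by omega)
    have h6 : ((p : ℝ)) ^ K ≤ X := by exact_mod_cast h5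
    have h7 := Real.log_le_log (by positivity) h6
    rwa [Real.log_pow] at h7
  rw [← Finset.sum_mul, h1]
  calc (∑ i ∈ Icc 1 K, (((Icc 1 V).filter (fun t => p ^ i ∣ nn u t)).card : ℝ)) * Real.log p ≤
      (4 * V * (1 / ((p : ℝ) - 1)) + 4 * K) * Real.log p :=
        mul_le_mul_of_nonneg_right h3 hlp.le
    _ = 4 * V * (Real.log p / (p - 1)) + 4 * (K * Real.log p) := by ring
    _ ≤ _ := by gcongr

/-- the primes dividing some `nn u t`, `t ≤ V` -/
noncomputable def PS (u : ℤ) (V X : ℕ) : Finset ℕ :=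
  (Icc 1 X).filter (fun p => p.Prime ∧ ∃ t ∈ Icc 1 V, p ∣ nn u t)

theorem mem_PS {u : ℤ} {V X p : ℕ} : p ∈ PS u V X ↔
    (1 ≤ p ∧ p ≤ X) ∧ p.Prime ∧ ∃ t ∈ Icc 1 V, p ∣ nn u t := by
  unfold PS
  simp only [Finset.mem_filter, Finset.mem_Icc]

theorem sum_log (V : ℕ) : ∑ t ∈ Icc 1 V, Real.log t = Real.log (V.factorial) := by
  induction V with
  | zero => simp
  | succ V ih =>
    rw [Finset.sum_Icc_succ_top (by omega), ih, Nat.factorial_succ]
    push_cast
    rw [Real.log_mul (by positivity) (by positivity)]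
    ring

theorem main_ineq (u : ℤ) (hu : u ≠ 0) (hu1 : u ≠ -1) (V X : ℕ) (hV : 1 ≤ V) (hX1 : 1 ≤ X)
    (hX : ∀ t ∈ Icc 1 V, nn u t ≤ X) :
    2 * (V * Real.log V - V) ≤
      ∑ p ∈ PS u V X, (4 * V * (Real.log p / (p - 1)) + 4 * Real.log X) := by
  have hn0 : ∀ t ∈ Icc 1 V, nn u t ≠ 0 := by
    intro t ht
    have h1 := (Finset.mem_Icc.1 ht).1
    have := le_nn hu hu1 h1
    have h2 : 0 < t ^ 2 := by positivity
    omega
  have h1 : 2 * (V * Real.log V - V) ≤ ∑ t ∈ Icc 1 V, 2 * Real.log t := by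
    have h2 := sum_log V
    rw [← Finset.mul_sum, h2]
    have h3 := Real.pow_div_factorial_le_exp (V : ℝ) (by positivity) V
    have h4 : (0 : ℝ) < V := by exact_mod_cast hV
    have h5 : (0 : ℝ) < V.factorial := by exact_mod_cast V.factorial_pos
    have h6 := Real.log_le_log (by positivity) h3
    rw [Real.log_exp, Real.log_div (by positivity) (by positivity), Real.log_pow] at h6
    linarith
  have h2 : ∑ t ∈ Icc 1 V, 2 * Real.log t ≤ ∑ t ∈ Icc 1 V, Real.log (nn u t) := by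
    refine Finset.sum_le_sum fun t ht => ?_
    have h3 := (Finset.mem_Icc.1 ht).1
    have h4 := le_nn hu hu1 h3
    have h5 : ((t : ℝ)) ^ 2 ≤ nn u t := by exact_mod_cast h4
    have h6 : (0 : ℝ) < t := by exact_mod_cast h3
    have h7 := Real.log_le_log (by positivity) h5
    rw [Real.log_pow] at h7
    exact_mod_cast h7
  have h3 : ∀ t ∈ Icc 1 V, Real.log (nn u t) =
      ∑ p ∈ PS u V X, ((nn u t).factorization p : ℝ) * Real.log p := by
    intro t ht
    rw [Real.log_nat_eq_sum_factorization, Finsupp.sum]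
    refine Finset.sum_subset ?_ ?_
    · intro p hp
      rw [Nat.support_factorization, Nat.mem_primeFactors] at hp
      obtain ⟨h4, h5, h6⟩ := hp
      refine mem_PS.2 ⟨⟨h4.one_lt.le, (Nat.le_of_dvd (Nat.pos_of_ne_zero h6) h5).trans (hX t ht)⟩,
        h4, t, ht, h5⟩
    · intro p _ hp
      rw [Finsupp.notMem_support_iff] at hp
      rw [hp]
      simp
  calc 2 * (V * Real.log V - V) ≤ ∑ t ∈ Icc 1 V, Real.log (nn u t) := h1.trans h2
    _ = ∑ t ∈ Icc 1 V, ∑ p ∈ PS u V X, ((nn u t).factorization p : ℝ) * Real.log p :=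
        Finset.sum_congr rfl h3
    _ = ∑ p ∈ PS u V X, ∑ t ∈ Icc 1 V, ((nn u t).factorization p : ℝ) * Real.log p :=
        Finset.sum_comm
    _ ≤ _ := by
        refine Finset.sum_le_sum fun p hp => ?_
        have h4 : p.Prime := (mem_PS.1 hp).2.1
        exact per_prime h4 u V X hX1 hn0 hX

theorem mertens' : ∃ C : ℝ, 0 ≤ C ∧ ∀ N : ℕ, 1 ≤ N →
    ∑ p ∈ (Icc 1 N).filter Nat.Prime, Real.log p / (p - 1) ≤ Real.log N + C := by
  obtain ⟨C1, h1⟩ := Pool.Agent.Helper256.KM.mertens_log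
  obtain ⟨C2, h20, h2⟩ := Pool.Agent.Helper256.KM.Mert.sum_small_bound
  have hC1 : 0 ≤ C1 := (abs_nonneg _).trans (h1 1 le_rfl)
  refine ⟨C1 + C2, by positivity, fun N hN => ?_⟩
  have h3 : ∑ p ∈ (Icc 1 N).filter Nat.Prime, Real.log p / (p - 1) =
      ∑ p ∈ (Icc 1 N).filter Nat.Prime, Real.log p / p +
      ∑ p ∈ (Icc 1 N).filter Nat.Prime, Real.log p / (p * (p - 1)) := by
    rw [← Finset.sum_add_distrib]
    refine Finset.sum_congr rfl fun p hp => ?_
    have hp1 : (1 : ℝ) < p := by exact_mod_cast (Finset.mem_filter.1 hp).2.one_lt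
    have h4 : (p : ℝ) - 1 ≠ 0 := by linarith
    have h5 : (p : ℝ) ≠ 0 := by linarith
    field_simp
    ring
  rw [h3]
  have h4 := (abs_le.1 (h1 N hN)).2
  have h5 := h2 N
  linarith

end N5

open N5 in
theorem many_primes : ∃ y₀ : ℝ, ∀ y : ℝ, y₀ ≤ y → ∀ u : ℤ, u ≠ 0 → u ≠ -1 →
    (|u| : ℝ) ≤ y ^ 2 →
    y / 20 ≤ (((Finset.Icc 1 ⌊y ^ 9⌋₊).filter (fun p : ℕ => p.Prime ∧ y < (p : ℝ) ∧
      ∃ t : ℤ, (p : ℤ) ∣ t ^ 2 + u)).card : ℝ) := by
  obtain ⟨C, hC0, hC⟩ := mertens'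
  refine ⟨max 100 (Real.exp (2 + 3 * C)), fun y hy u hu hu1 huy => ?_⟩
  have hy100 : (100 : ℝ) ≤ y := (le_max_left _ _).trans hy
  have hy0 : (0 : ℝ) < y := by linarith
  have hyL : 2 + 3 * C ≤ Real.log y := by
    rw [Real.le_log_iff_exp_le hy0]
    exact (le_max_right _ _).trans hy
  set L := Real.log y with hL
  have hL0 : 0 < L := by linarith
  have hLy : L ≤ y := (Real.log_le_sub_one_of_pos hy0).trans (by linarith)
  set V : ℕ := ⌈y⌉₊ ^ 3 with hV
  set X : ℕ := ⌊y ^ 9⌋₊ with hX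
  have hc1 : y ≤ (⌈y⌉₊ : ℝ) := Nat.le_ceil y
  have hc2 : (⌈y⌉₊ : ℝ) ≤ 2 * y := by
    have := Nat.ceil_lt_add_one hy0.le
    linarith
  have hV1 : y ^ 3 ≤ (V : ℝ) := by
    rw [hV]; push_cast
    gcongr
  have hV2 : (V : ℝ) ≤ 8 * y ^ 3 := by
    rw [hV]; push_cast
    calc (⌈y⌉₊ : ℝ) ^ 3 ≤ (2 * y) ^ 3 := by gcongr
      _ = 8 * y ^ 3 := by ring
  have hVpos : (0 : ℝ) < V := lt_of_lt_of_le (by positivity) hV1
  have hVn : 1 ≤ V := by exact_mod_cast hVpos
  have hXr : (X : ℝ) ≤ y ^ 9 := Nat.floor_le (by positivity)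
  have hX1 : 1 ≤ X := by
    rw [hX, Nat.one_le_floor_iff]
    exact one_le_pow₀ (by linarith)
  have hnX : ∀ t ∈ Icc 1 V, nn u t ≤ X := by
    intro t ht
    apply Nat.le_floor
    have h1 : (t : ℝ) ≤ V := by exact_mod_cast (Finset.mem_Icc.1 ht).2
    calc (nn u t : ℝ) ≤ (|u| : ℝ) * (t : ℝ) ^ 2 + 1 := nn_le u t
      _ ≤ y ^ 2 * (8 * y ^ 3) ^ 2 + 1 := by
          have h2 : (t : ℝ) ^ 2 ≤ (8 * y ^ 3) ^ 2 := by
            gcongr
            exact h1.trans hV2
          gcongr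
      _ = 64 * y ^ 8 + 1 := by ring
      _ ≤ 65 * y ^ 8 := by
          have : (1 : ℝ) ≤ y ^ 8 := one_le_pow₀ (by linarith)
          linarith
      _ ≤ y * y ^ 8 := by gcongr; linarith
      _ = y ^ 9 := by ring
  have hlogX : Real.log X ≤ 9 * L := by
    have h1 := Real.log_le_log (by exact_mod_cast hX1) hXr
    rw [Real.log_pow] at h1
    exact_mod_cast h1
  have hlogX0 : 0 ≤ Real.log X := Real.log_nonneg (by exact_mod_cast hX1)
  have hmain := main_ineq u hu hu1 V X hVn hX1 hnX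
  have hlogV : 3 * L ≤ Real.log V := by
    have h1 := Real.log_le_log (by positivity) hV1
    rw [Real.log_pow] at h1
    exact_mod_cast h1
  set S := PS u V X with hS
  set S1 := S.filter (fun p : ℕ => (p : ℝ) ≤ y) with hS1
  set S2 := S.filter (fun p : ℕ => ¬ (p : ℝ) ≤ y) with hS2
  have hsplit := Finset.sum_filter_add_sum_filter_not S (fun p : ℕ => (p : ℝ) ≤ y)
    (fun p : ℕ => (4 * V * (Real.log p / (p - 1)) + 4 * Real.log X))
  rw [← hS1, ← hS2] at hsplit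
  -- small primes
  have hN1 : 1 ≤ ⌊y⌋₊ := by
    rw [Nat.one_le_floor_iff]; linarith
  have hsub1 : S1 ⊆ (Icc 1 ⌊y⌋₊).filter Nat.Prime := by
    intro p hp
    obtain ⟨h1, h2⟩ := Finset.mem_filter.1 hp
    obtain ⟨h3, h4, -⟩ := mem_PS.1 h1
    rw [Finset.mem_filter, Finset.mem_Icc]
    exact ⟨⟨h3.1, Nat.le_floor h2⟩, h4⟩
  have hb1 : ∑ p ∈ S1, (4 * V * (Real.log p / (p - 1)) + 4 * Real.log X) ≤
      4 * V * (L + C) + 36 * L * y := by
    have hnn : ∀ p : ℕ, p.Prime → 0 ≤ Real.log p / ((p : ℝ) - 1) := by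
      intro p hp
      have hp1 : (1 : ℝ) < p := by exact_mod_cast hp.one_lt
      exact div_nonneg (Real.log_nonneg hp1.le) (by linarith)
    calc ∑ p ∈ S1, (4 * V * (Real.log p / (p - 1)) + 4 * Real.log X) ≤
        ∑ p ∈ (Icc 1 ⌊y⌋₊).filter Nat.Prime,
          (4 * V * (Real.log p / (p - 1)) + 4 * Real.log X) := by
          refine Finset.sum_le_sum_of_subset_of_nonneg hsub1 ?_
          intro p hp _
          have := hnn p (Finset.mem_filter.1 hp).2
          positivity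
      _ = 4 * V * ∑ p ∈ (Icc 1 ⌊y⌋₊).filter Nat.Prime, (Real.log p / (p - 1)) +
          (((Icc 1 ⌊y⌋₊).filter Nat.Prime).card : ℝ) * (4 * Real.log X) := by
          rw [Finset.sum_add_distrib, ← Finset.mul_sum, Finset.sum_const, nsmul_eq_mul]
      _ ≤ 4 * V * (L + C) + y * (4 * (9 * L)) := by
          have h1 := hC ⌊y⌋₊ hN1
          have h2 : Real.log (⌊y⌋₊ : ℝ) ≤ L :=
            Real.log_le_log (by exact_mod_cast hN1) (Nat.floor_le hy0.le)
          have h3 : (((Icc 1 ⌊y⌋₊).filter Nat.Prime).card : ℝ) ≤ y := by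
            have h4 : ((Icc 1 ⌊y⌋₊).filter Nat.Prime).card ≤ ⌊y⌋₊ := by
              refine (Finset.card_filter_le _ _).trans ?_
              simp
            calc (((Icc 1 ⌊y⌋₊).filter Nat.Prime).card : ℝ) ≤ (⌊y⌋₊ : ℝ) := by exact_mod_cast h4
              _ ≤ y := Nat.floor_le hy0.le
          have h5 : ∑ p ∈ (Icc 1 ⌊y⌋₊).filter Nat.Prime, (Real.log p / ((p : ℝ) - 1)) ≤ L + C := by
            linarith
          gcongr
      _ = _ := by ring
  -- large primes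
  have hb2 : ∑ p ∈ S2, (4 * V * (Real.log p / (p - 1)) + 4 * Real.log X) ≤
      (S2.card : ℝ) * (9 * V * L / y) := by
    rw [← nsmul_eq_mul]
    refine Finset.sum_le_card_nsmul _ _ _ ?_
    intro p hp
    have h1 : y < (p : ℝ) := not_le.1 (Finset.mem_filter.1 hp).2
    have hp0 : (0 : ℝ) < p := by linarith
    have h2 : Real.log p / p ≤ L / y := by
      have he : Real.exp 1 ≤ y := by
        have := Real.exp_one_lt_d9
        linarith
      exact Real.log_div_self_antitoneOn he (he.trans h1.le) h1.le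
    have hlp : 0 ≤ Real.log p := Real.log_nonneg (by linarith)
    have h3 : Real.log p / (p - 1) ≤ 2 * (L / y) := by
      calc Real.log p / ((p : ℝ) - 1) ≤ Real.log p / ((p : ℝ) / 2) := by
            apply div_le_div_of_nonneg_left hlp (by positivity)
            linarith
        _ = 2 * (Real.log p / p) := by field_simp
        _ ≤ _ := by gcongr
    have h4 : 36 * L ≤ V * (L / y) := by
      have h5 : 36 * y ≤ (V : ℝ) := by
        refine le_trans ?_ hV1
        have : (36 : ℝ) ≤ y ^ 2 := by nlinarith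
        calc 36 * y ≤ y ^ 2 * y := by gcongr
          _ = y ^ 3 := by ring
      calc 36 * L = (36 * y) * (L / y) := by field_simp
        _ ≤ V * (L / y) := by gcongr
    calc 4 * V * (Real.log p / ((p : ℝ) - 1)) + 4 * Real.log X ≤
        4 * V * (2 * (L / y)) + 4 * (9 * L) := by gcongr
      _ = 8 * (V * (L / y)) + 36 * L := by ring
      _ ≤ 8 * (V * (L / y)) + V * (L / y) := by linarith
      _ = 9 * V * L / y := by ring
  have hsub2 : S2 ⊆ (Finset.Icc 1 X).filter (fun p : ℕ => p.Prime ∧ y < (p : ℝ) ∧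
      ∃ t : ℤ, (p : ℤ) ∣ t ^ 2 + u) := by
    intro p hp
    obtain ⟨h1, h2⟩ := Finset.mem_filter.1 hp
    obtain ⟨h3, h4, t, -, h5⟩ := mem_PS.1 h1
    rw [Finset.mem_filter, Finset.mem_Icc]
    refine ⟨h3, h4, not_le.1 h2, u * t, ?_⟩
    have h6 : (p : ℤ) ∣ u * (t : ℤ) ^ 2 + 1 := Int.natCast_dvd.2 h5
    have h7 : (u * (t : ℤ)) ^ 2 + u = u * (u * (t : ℤ) ^ 2 + 1) := by ring
    rw [h7]
    exact Dvd.dvd.mul_left h6 u
  have hcard : (S2.card : ℝ) ≤ (((Finset.Icc 1 X).filter (fun p : ℕ => p.Prime ∧ y < (p : ℝ) ∧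
      ∃ t : ℤ, (p : ℤ) ∣ t ^ 2 + u)).card : ℝ) := by
    exact_mod_cast Finset.card_le_card hsub2
  refine le_trans ?_ hcard
  have h1 : 2 * (V * (3 * L) - V) ≤ 4 * V * (L + C) + 36 * L * y + (S2.card : ℝ) * (9 * V * L / y) := by
    have h2 : 2 * (V * (3 * L) - V) ≤ 2 * (V * Real.log V - V) := by gcongr
    linarith
  have h2 : 36 * L * y ≤ V := by
    refine le_trans ?_ hV1
    calc 36 * L * y ≤ y * y * y := by
          have : 36 * L ≤ y * y := by nlinarith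
          gcongr
      _ = y ^ 3 := by ring
  have h3 : (V : ℝ) * (2 * L - 3 - 4 * C) ≤ V * ((S2.card : ℝ) * (9 * L / y)) := by
    have h4 : (S2.card : ℝ) * (9 * V * L / y) = V * ((S2.card : ℝ) * (9 * L / y)) := by ring
    rw [h4] at h1
    nlinarith
  have h4 : 2 * L - 3 - 4 * C ≤ (S2.card : ℝ) * (9 * L / y) := le_of_mul_le_mul_left h3 hVpos
  have h5 : (2 * L - 3 - 4 * C) * y ≤ (S2.card : ℝ) * (9 * L) := by
    have h6 : (S2.card : ℝ) * (9 * L / y) * y = (S2.card : ℝ) * (9 * L) := by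
      field_simp
    rw [← h6]
    gcongr
  have h6 : (9 / 20) * L ≤ 2 * L - 3 - 4 * C := by linarith
  have h7 : (9 / 20) * L * y ≤ (S2.card : ℝ) * (9 * L) := le_trans (by gcongr) h5
  have h8 : (9 * L) * (y / 20) ≤ (9 * L) * (S2.card : ℝ) := by linarith
  exact le_of_mul_le_mul_left h8 (by positivity)

end Pool.Agent.H426R3.SQ
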