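import Pool.Agent.H426R3.SQ.Defs
import Pool.Agent.H474R2.PG.Rough

set_option autoImplicit false

/-! # Task R1: rough sums, uniform version with weights (helper747, adapted from
H474R2/PG/Rough.lean) -/

namespace Pool.Agent.H426R3.SQ

open Finset Pool.Agent.H256R2.SC

open Pool.Agent.H474R2.PG (PR)
open Pool.Agent.H474R2.PG.RoughAux

theorem R1aux_mem_SP {y w : ℝ} {B : Finset ℕ} (hw : 0 ≤ w) {p : ℕ} :
    p ∈ SP y w B ↔ (p.Prime ∧ (p : ℝ) ≤ w) ∧ y < (p : ℝ) ∧ p ∉ B := by
  simp only [SP, mem_filter, mem_Icc, Nat.le_floor_iff hw]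
  exact ⟨fun h => ⟨⟨h.2.1, h.1.2⟩, h.2.2⟩, fun h => ⟨⟨h.1.1.one_lt.le, h.1.2⟩, h.1.1, h.2⟩⟩

theorem rough_lower_B (C : ℝ) : ∃ c₂ : ℝ, 0 < c₂ ∧ ∃ y₀ : ℝ, 3 ≤ y₀ ∧
    ∀ (y₁ z : ℝ) (B : Finset ℕ) (g : ℕ → ℝ), y₀ ≤ y₁ →
    (∀ p, 0 ≤ g p ∧ g p ≤ 2 / (p : ℝ)) →
    (∀ w : ℝ, y₁ ≤ w → w ≤ z →
      Real.log (Real.log w) - Real.log (Real.log y₁) - C ≤ ∑ p ∈ SP y₁ w B, g p) →
    ∀ x : ℝ, y₁ ≤ x → x ≤ z →
      c₂ * Real.log x / Real.log y₁ - 1 ≤
        ∑ s ∈ ((SP y₁ z B).powerset.filter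
            (fun s : Finset ℕ => s.Nonempty ∧ ∏ p ∈ s, (p : ℝ) ≤ x)), ∏ p ∈ s, g p := by
  classical
  obtain ⟨C', hC'0, hC'⟩ := log_sum_le
  obtain ⟨s, hs⟩ : ∃ s : ℝ, s = 2 * 2 * (1 + C') + 2 := ⟨_, rfl⟩
  have hs2 : 2 ≤ s := by
    rw [hs]
    have : 0 ≤ 2 * (2 : ℝ) * (1 + C') := by positivity
    linarith
  have hs0 : 0 < s := by linarith
  refine ⟨3 / 4 * (Real.exp (-(2 : ℝ) ^ 2) * Real.exp (-|C|)) / s, by positivity,
    3, le_rfl, fun y z B a hy3 hga hM x hyx hxz => ?_⟩
  have hx3 : 3 ≤ x := by linarith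
  have hx0 : 0 < x := by linarith
  have hlx : 0 < Real.log x := Real.log_pos (by linarith)
  have hly : 0 < Real.log y := Real.log_pos (by linarith)
  obtain ⟨w, hw⟩ : ∃ w : ℝ, w = x ^ (s⁻¹) := ⟨_, rfl⟩
  have hw0 : 0 < w := by rw [hw]; positivity
  have hlw : Real.log x = s * Real.log w := by
    rw [hw, Real.log_rpow hx0]
    field_simp
  have hv1 : Real.exp (-(2 : ℝ) ^ 2) ≤ 1 := Real.exp_le_one_iff.2 (by norm_num)
  have hv2 : Real.exp (-|C|) ≤ 1 := Real.exp_le_one_iff.2 (by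
    have := abs_nonneg C
    linarith)
  have ha0 : ∀ p, 0 ≤ a p := fun p => (hga p).1
  by_cases hwy : w ≤ y
  · -- trivial case
    have h1 : Real.log w ≤ Real.log y := Real.log_le_log hw0 hwy
    have h4 : 3 / 4 * (Real.exp (-(2 : ℝ) ^ 2) * Real.exp (-|C|)) / s * Real.log x /
        Real.log y ≤ 1 := by
      have e : 3 / 4 * (Real.exp (-(2 : ℝ) ^ 2) * Real.exp (-|C|)) / s * Real.log x /
        Real.log y = 3 / 4 * (Real.exp (-(2 : ℝ) ^ 2) * Real.exp (-|C|)) *
          (Real.log w / Real.log y) := by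
        rw [hlw]
        field_simp
      rw [e]
      have h5 : Real.log w / Real.log y ≤ 1 := (div_le_one hly).2 h1
      have h6 : 0 ≤ Real.exp (-(2 : ℝ) ^ 2) := (Real.exp_pos _).le
      have h6' : 0 ≤ Real.exp (-|C|) := (Real.exp_pos _).le
      have h7 : 0 ≤ Real.log w := by
        have : s * Real.log w > 0 := by rw [← hlw]; exact hlx
        exact ((mul_pos_iff_of_pos_left hs0).1 this).le
      have h8 : 0 ≤ Real.log w / Real.log y := by positivity
      have h9 : Real.exp (-(2 : ℝ) ^ 2) * Real.exp (-|C|) ≤ 1 := mul_le_one₀ hv1 h6' hv2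
      have h10 : 0 ≤ Real.exp (-(2 : ℝ) ^ 2) * Real.exp (-|C|) := by positivity
      calc 3 / 4 * (Real.exp (-(2 : ℝ) ^ 2) * Real.exp (-|C|)) * (Real.log w / Real.log y) ≤
            3 / 4 * 1 * 1 := by gcongr
        _ ≤ 1 := by norm_num
    refine le_trans (sub_nonpos.2 h4) (sum_nonneg fun s _ => prod_nonneg fun p _ => ha0 p)
  · push Not at hwy
    have hw3 : 3 ≤ w := by linarith
    have hlw1 : 1 ≤ Real.log w := by
      rw [Real.le_log_iff_exp_le hw0]
      have := Real.exp_one_lt_d9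
      linarith
    have hwx : w ≤ x := by
      rw [hw]
      calc x ^ (s⁻¹) ≤ x ^ (1 : ℝ) := Real.rpow_le_rpow_of_exponent_le (by linarith)
            (inv_le_one_of_one_le₀ (by linarith))
        _ = x := Real.rpow_one x
    have hPS : ∀ {v : ℝ}, 0 ≤ v → ∀ {p : ℕ}, p ∈ SP y v B ↔
        (p.Prime ∧ (p : ℝ) ≤ v) ∧ y < (p : ℝ) ∧ p ∉ B := fun {v} hv {p} => R1aux_mem_SP hv
    have hsub : SP y w B ⊆ SP y z B := by
      intro p hp
      rw [hPS (by linarith)] at hp ⊢
      exact ⟨⟨hp.1.1, by linarith [hp.1.2]⟩, hp.2⟩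
    have had : ∀ p ∈ SP y w B, a p ≤ 2 / p := fun p _ => (hga p).2
    have hp1 : ∀ p ∈ SP y w B, 1 ≤ (p : ℝ) := fun p hp => by
      rw [hPS (by linarith)] at hp
      linarith [hp.2.1]
    have hpw : ∀ p ∈ SP y w B, (p : ℝ) ≤ w := fun p hp => by
      rw [hPS (by linarith)] at hp
      exact hp.1.2
    have hη : 0 ≤ (Real.log w)⁻¹ := by positivity
    -- Rankin
    have hPi0 : 0 < ∏ p ∈ SP y w B, (1 + a p) := prod_pos fun p _ => by linarith [ha0 p]
    have hR := rankin (SP y w B) a (fun p _ => ha0 p) hx0 hη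
    have hR2 := prod_le' (SP y w B) a (fun p _ => ha0 p) hp1 hlw1 hpw
    have hxη : x ^ (-(Real.log w)⁻¹) = Real.exp (-s) := by
      rw [Real.rpow_def_of_pos hx0, hlw]
      congr 1
      have : Real.log w ≠ 0 := by linarith
      field_simp
    have hE : ∑ p ∈ SP y w B, 2 * a p * ((Real.log w)⁻¹ * Real.log p) ≤ 2 * 2 * (1 + C') := by
      have h1 : ∑ p ∈ SP y w B, 2 * a p * ((Real.log w)⁻¹ * Real.log p) ≤
          ∑ p ∈ SP y w B, 2 * 2 * (Real.log w)⁻¹ * (Real.log p / p) := by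
        refine sum_le_sum fun p hp => ?_
        have h2 : 0 ≤ Real.log p := Real.log_nonneg (hp1 p hp)
        have h3 := had p hp
        calc 2 * a p * ((Real.log w)⁻¹ * Real.log p) ≤
              2 * (2 / p) * ((Real.log w)⁻¹ * Real.log p) := by gcongr
          _ = _ := by ring
      have hsubPR : SP y w B ⊆ PR w := by
        intro p hp
        rw [hPS (by linarith)] at hp
        rw [mem_PR (by linarith)]
        exact hp.1
      have h4 : ∑ p ∈ SP y w B, Real.log p / p ≤ ∑ p ∈ PR w, Real.log p / p :=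
        sum_le_sum_of_subset_of_nonneg hsubPR fun p hp _ => by
          have := Real.log_natCast_nonneg p
          positivity
      have h5 := hC' w (by linarith)
      rw [← mul_sum] at h1
      refine h1.trans ?_
      calc 2 * 2 * (Real.log w)⁻¹ * ∑ p ∈ SP y w B, Real.log p / p ≤
            2 * 2 * (Real.log w)⁻¹ * (Real.log w + C') := by
              gcongr
              exact h4.trans h5
        _ = 2 * 2 * (1 + (Real.log w)⁻¹ * C') := by
              have : Real.log w ≠ 0 := by linarith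
              field_simp
        _ ≤ 2 * 2 * (1 + 1 * C') := by
              gcongr
              exact inv_le_one_of_one_le₀ hlw1
        _ = _ := by ring
    have hbad : ∑ t ∈ (SP y w B).powerset.filter (fun t : Finset ℕ => ¬ ∏ p ∈ t, (p : ℝ) ≤ x),
        ∏ p ∈ t, a p ≤ (∏ p ∈ SP y w B, (1 + a p)) * (1 / 4) := by
      refine hR.trans ?_
      rw [hxη]
      calc Real.exp (-s) * ∏ p ∈ SP y w B, (1 + a p * (p : ℝ) ^ (Real.log w)⁻¹) ≤
            Real.exp (-s) * ((∏ p ∈ SP y w B, (1 + a p)) * Real.exp (2 * 2 * (1 + C'))) := by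
              gcongr
              refine hR2.trans ?_
              gcongr
        _ = (∏ p ∈ SP y w B, (1 + a p)) * Real.exp (-2) := by
              have : Real.exp (-2) = Real.exp (-s) * Real.exp (2 * 2 * (1 + C')) := by
                rw [← Real.exp_add, hs]
                congr 1
                ring
              rw [this]
              ring
        _ ≤ _ := by
              gcongr
              exact exp_neg_two
    have hall : ∑ t ∈ (SP y w B).powerset.filter (fun t : Finset ℕ => ∏ p ∈ t, (p : ℝ) ≤ x),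
        ∏ p ∈ t, a p + ∑ t ∈ (SP y w B).powerset.filter
          (fun t : Finset ℕ => ¬ ∏ p ∈ t, (p : ℝ) ≤ x), ∏ p ∈ t, a p =
        ∏ p ∈ SP y w B, (1 + a p) := by
      rw [sum_filter_add_sum_filter_not, prod_one_add]
    -- remove the empty set
    have hmem : (∅ : Finset ℕ) ∈ (SP y w B).powerset.filter
        (fun t : Finset ℕ => ∏ p ∈ t, (p : ℝ) ≤ x) := by
      rw [mem_filter, prod_empty]
      exact ⟨empty_mem_powerset _, by linarith⟩
    have hge : ∑ t ∈ (SP y w B).powerset.filter (fun t : Finset ℕ => ∏ p ∈ t, (p : ℝ) ≤ x),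
        ∏ p ∈ t, a p - 1 ≤ ∑ t ∈ ((SP y z B).powerset.filter
            (fun s : Finset ℕ => s.Nonempty ∧ ∏ p ∈ s, (p : ℝ) ≤ x)), ∏ p ∈ t, a p := by
      rw [← add_sum_erase _ _ hmem, prod_empty, add_sub_cancel_left]
      refine sum_le_sum_of_subset_of_nonneg (fun t ht => ?_) fun t _ _ =>
        prod_nonneg fun p _ => ha0 p
      rw [mem_erase, mem_filter, mem_powerset] at ht
      rw [mem_filter, mem_powerset]
      exact ⟨ht.2.1.trans hsub, nonempty_iff_ne_empty.2 ht.1, ht.2.2⟩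
    -- lower bound of the product
    have hPi : Real.exp (∑ p ∈ SP y w B, a p - (2 : ℝ) ^ 2) ≤ ∏ p ∈ SP y w B, (1 + a p) := by
      calc Real.exp (∑ p ∈ SP y w B, a p - (2 : ℝ) ^ 2) ≤
            Real.exp (∑ p ∈ SP y w B, (a p - a p ^ 2)) := by
              rw [Real.exp_le_exp, sum_sub_distrib]
              have h2 : ∑ p ∈ SP y w B, a p ^ 2 ≤ (2 : ℝ) ^ 2 := by
                calc ∑ p ∈ SP y w B, a p ^ 2 ≤ ∑ p ∈ SP y w B, (2 : ℝ) ^ 2 * ((p : ℝ) ^ 2)⁻¹ := by
                      refine sum_le_sum fun p hp => ?_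
                      calc a p ^ 2 ≤ (2 / p) ^ 2 := pow_le_pow_left₀ (ha0 p) (had p hp) 2
                        _ = _ := by rw [div_pow, div_eq_mul_inv]
                  _ = (2 : ℝ) ^ 2 * ∑ p ∈ SP y w B, ((p : ℝ) ^ 2)⁻¹ := by rw [mul_sum]
                  _ ≤ (2 : ℝ) ^ 2 * 1 := by
                      gcongr
                      refine sum_inv_sq_le fun p hp => ?_
                      rw [hPS (by linarith)] at hp
                      exact hp.1.1.two_le
                  _ = _ := mul_one _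
              linarith
        _ = ∏ p ∈ SP y w B, Real.exp (a p - a p ^ 2) := Real.exp_sum _ _
        _ ≤ _ := prod_le_prod (fun p _ => (Real.exp_pos _).le) fun p _ => one_add_lower (ha0 p)
    have hM' : Real.exp (-|C|) * (Real.log w / Real.log y) ≤ Real.exp (∑ p ∈ SP y w B, a p) := by
      have hlw0 : 0 < Real.log w := by linarith
      have h1 := hM w hwy.le (hwx.trans hxz)
      have h2 : -|C| + (Real.log (Real.log w) - Real.log (Real.log y)) ≤ ∑ p ∈ SP y w B, a p := by
        have := le_abs_self C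
        linarith
      calc Real.exp (-|C|) * (Real.log w / Real.log y) =
            Real.exp (-|C| + (Real.log (Real.log w) - Real.log (Real.log y))) := by
            rw [Real.exp_add, Real.exp_sub, Real.exp_log hlw0, Real.exp_log hly]
        _ ≤ _ := Real.exp_le_exp.2 h2
    have hfin : 3 / 4 * (Real.exp (-(2 : ℝ) ^ 2) * Real.exp (-|C|)) / s * Real.log x /
        Real.log y ≤ 3 / 4 * ∏ p ∈ SP y w B, (1 + a p) := by
      have e : 3 / 4 * (Real.exp (-(2 : ℝ) ^ 2) * Real.exp (-|C|)) / s * Real.log x /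
        Real.log y = 3 / 4 * (Real.exp (-(2 : ℝ) ^ 2) *
          (Real.exp (-|C|) * (Real.log w / Real.log y))) := by
        rw [hlw]
        field_simp
      rw [e]
      gcongr
      refine le_trans ?_ hPi
      calc Real.exp (-(2 : ℝ) ^ 2) * (Real.exp (-|C|) * (Real.log w / Real.log y)) ≤
            Real.exp (-(2 : ℝ) ^ 2) * Real.exp (∑ p ∈ SP y w B, a p) := by gcongr
        _ = _ := by
            rw [← Real.exp_add]
            congr 1
            ring
    linarith

end Pool.Agent.H426R3.SQ
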