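import Pool.Agent.H426R3.SQ.Defs

set_option autoImplicit false

/-! # Task S1: an average of a multiplicative function -/

namespace Pool.Agent.H426R3.SQ

open Finset

theorem sum_inv_sq_le_two (A : ℕ) (hA : 1 ≤ A) :
    ∑ n ∈ Finset.Icc 1 A, 1 / ((n : ℝ)) ^ 2 ≤ 2 - 1 / (A : ℝ) := by
  induction A, hA using Nat.le_induction with
  | base => norm_num
  | succ n hn ih =>
    rw [Finset.sum_Icc_succ_top (by omega)]
    have hn0 : (0 : ℝ) < n := by exact_mod_cast hn
    have h1 : 1 / ((n + 1 : ℕ) : ℝ) ^ 2 ≤ 1 / (n : ℝ) - 1 / ((n + 1 : ℕ) : ℝ) := by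
      push_cast
      rw [div_sub_div _ _ hn0.ne' (by positivity), div_le_div_iff₀ (by positivity) (by positivity)]
      nlinarith
    linarith

theorem sum_mult_le (A d : ℕ) (hd : 1 ≤ d) :
    ∑ a ∈ (Finset.Icc 1 A).filter (fun a => d ∣ a), 1 / (a : ℝ) ≤
      (1 / (d : ℝ)) * ∑ b ∈ Finset.Icc 1 A, 1 / (b : ℝ) := by
  rw [Finset.mul_sum]
  have hd0 : (0 : ℝ) < d := by exact_mod_cast hd
  have hinj : Set.InjOn (fun a => a / d) ((Finset.Icc 1 A).filter (fun a => d ∣ a) : Finset ℕ) := by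
    intro a ha b hb hab
    simp only [Finset.coe_filter, Set.mem_setOf_eq] at ha hb
    obtain ⟨a', rfl⟩ := ha.2
    obtain ⟨b', rfl⟩ := hb.2
    simp only [Nat.mul_div_cancel_left _ (show 0 < d by omega)] at hab
    rw [hab]
  calc ∑ a ∈ (Finset.Icc 1 A).filter (fun a => d ∣ a), 1 / (a : ℝ)
      = ∑ a ∈ (Finset.Icc 1 A).filter (fun a => d ∣ a), 1 / (d : ℝ) * (1 / ((a / d : ℕ) : ℝ)) := by
        refine Finset.sum_congr rfl fun a ha => ?_
        obtain ⟨a', rfl⟩ := (Finset.mem_filter.mp ha).2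
        rw [Nat.mul_div_cancel_left _ (show 0 < d by omega)]
        push_cast
        rw [one_div_mul_one_div]
    _ = ∑ b ∈ ((Finset.Icc 1 A).filter (fun a => d ∣ a)).image (fun a => a / d),
          1 / (d : ℝ) * (1 / (b : ℝ)) := by
        rw [Finset.sum_image hinj]
    _ ≤ ∑ b ∈ Finset.Icc 1 A, 1 / (d : ℝ) * (1 / (b : ℝ)) := by
        refine Finset.sum_le_sum_of_subset_of_nonneg ?_ fun b _ _ => by positivity
        intro b hb
        obtain ⟨a, ha, rfl⟩ := Finset.mem_image.mp hb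
        rw [Finset.mem_filter, Finset.mem_Icc] at ha
        obtain ⟨a', rfl⟩ := ha.2
        rw [Nat.mul_div_cancel_left _ (show 0 < d by omega), Finset.mem_Icc]
        constructor
        · rcases Nat.eq_zero_or_pos a' with h | h
          · subst h; simp at ha
          · exact h
        · nlinarith [ha.1.2]

theorem mult_avg : ∃ C : ℝ, 0 < C ∧ ∀ A : ℕ, 1 ≤ A →
    ∑ a ∈ Finset.Icc 1 A, (1 / (a : ℝ)) * ∏ p ∈ a.primeFactors, (1 + 3 / (p : ℝ)) ≤
      C * (1 + Real.log A) := by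
  refine ⟨Real.exp 6, Real.exp_pos _, fun A hA => ?_⟩
  set P : Finset ℕ := (Finset.Icc 1 A).filter Nat.Prime with hP
  have hlog : 0 ≤ Real.log A := Real.log_nonneg (by exact_mod_cast hA)
  have hharm : ∑ b ∈ Finset.Icc 1 A, 1 / (b : ℝ) ≤ 1 + Real.log A := by
    have := harmonic_le_one_add_log A
    rw [harmonic_eq_sum_Icc] at this
    push_cast at this
    simpa [one_div] using this
  have h1 : ∀ a ∈ Finset.Icc 1 A, (1 / (a : ℝ)) * ∏ p ∈ a.primeFactors, (1 + 3 / (p : ℝ)) =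
      ∑ T ∈ P.powerset, if T ⊆ a.primeFactors then (1 / (a : ℝ)) * ∏ p ∈ T, (3 / (p : ℝ)) else 0 := by
    intro a ha
    rw [Finset.prod_one_add, Finset.mul_sum, ← Finset.sum_filter]
    refine Finset.sum_congr ?_ fun _ _ => rfl
    ext T
    simp only [Finset.mem_powerset, Finset.mem_filter]
    constructor
    · intro h
      refine ⟨fun p hp => ?_, h⟩
      have hpa := h hp
      rw [Nat.mem_primeFactors] at hpa
      rw [hP, Finset.mem_filter, Finset.mem_Icc]
      rw [Finset.mem_Icc] at ha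
      exact ⟨⟨hpa.1.one_le, (Nat.le_of_dvd (by omega) hpa.2.1).trans ha.2⟩, hpa.1⟩
    · exact fun h => h.2
  rw [Finset.sum_congr rfl h1, Finset.sum_comm]
  have h2 : ∀ T ∈ P.powerset, ∑ a ∈ Finset.Icc 1 A,
      (if T ⊆ a.primeFactors then (1 / (a : ℝ)) * ∏ p ∈ T, (3 / (p : ℝ)) else 0) ≤
      (1 + Real.log A) * ∏ p ∈ T, (3 / (p : ℝ) ^ 2) := by
    intro T hT
    rw [Finset.mem_powerset] at hT
    have hTp : ∀ p ∈ T, p.Prime := fun p hp => (Finset.mem_filter.mp (hT hp)).2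
    have hd1 : 1 ≤ ∏ p ∈ T, p := Finset.one_le_prod' fun p hp => (hTp p hp).one_le
    rw [← Finset.sum_filter, ← Finset.sum_mul]
    have hsub : (Finset.Icc 1 A).filter (fun a => T ⊆ a.primeFactors) ⊆
        (Finset.Icc 1 A).filter (fun a => (∏ p ∈ T, p) ∣ a) := by
      intro a ha
      rw [Finset.mem_filter] at ha ⊢
      refine ⟨ha.1, ?_⟩
      refine Finset.prod_primes_dvd a (fun p hp => (hTp p hp).prime) fun p hp => ?_
      exact Nat.dvd_of_mem_primeFactors (ha.2 hp)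
    have hs : ∑ a ∈ (Finset.Icc 1 A).filter (fun a => T ⊆ a.primeFactors), 1 / (a : ℝ) ≤
        (1 / ((∏ p ∈ T, p : ℕ) : ℝ)) * (1 + Real.log A) := by
      refine (Finset.sum_le_sum_of_subset_of_nonneg hsub fun _ _ _ => by positivity).trans ?_
      refine (sum_mult_le A _ hd1).trans ?_
      gcongr
    have hprod : (∏ p ∈ T, (3 / (p : ℝ) ^ 2)) =
        (1 / ((∏ p ∈ T, p : ℕ) : ℝ)) * ∏ p ∈ T, (3 / (p : ℝ)) := by
      push_cast
      rw [one_div, ← Finset.prod_inv_distrib, ← Finset.prod_mul_distrib]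
      refine Finset.prod_congr rfl fun p hp => ?_
      have : (p : ℝ) ≠ 0 := by exact_mod_cast (hTp p hp).ne_zero
      field_simp
    rw [hprod]
    have hnn : 0 ≤ ∏ p ∈ T, (3 / (p : ℝ)) := Finset.prod_nonneg fun p _ => by positivity
    calc _ ≤ ((1 / ((∏ p ∈ T, p : ℕ) : ℝ)) * (1 + Real.log A)) * ∏ p ∈ T, (3 / (p : ℝ)) :=
          mul_le_mul_of_nonneg_right hs hnn
      _ = _ := by ring
  refine (Finset.sum_le_sum h2).trans ?_
  rw [← Finset.mul_sum, ← Finset.prod_one_add]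
  have h3 : ∏ p ∈ P, (1 + 3 / (p : ℝ) ^ 2) ≤ Real.exp 6 := by
    calc ∏ p ∈ P, (1 + 3 / (p : ℝ) ^ 2) ≤ ∏ p ∈ P, Real.exp (3 / (p : ℝ) ^ 2) := by
          refine Finset.prod_le_prod (fun p _ => by positivity) fun p _ => ?_
          have := Real.add_one_le_exp (3 / (p : ℝ) ^ 2)
          linarith
      _ = Real.exp (∑ p ∈ P, 3 / (p : ℝ) ^ 2) := (Real.exp_sum _ _).symm
      _ ≤ Real.exp 6 := by
          apply Real.exp_le_exp.mpr
          calc ∑ p ∈ P, 3 / (p : ℝ) ^ 2 ≤ ∑ p ∈ Finset.Icc 1 A, 3 / (p : ℝ) ^ 2 :=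
                Finset.sum_le_sum_of_subset_of_nonneg (Finset.filter_subset _ _)
                  fun _ _ _ => by positivity
            _ = 3 * ∑ p ∈ Finset.Icc 1 A, 1 / (p : ℝ) ^ 2 := by
                rw [Finset.mul_sum]
                refine Finset.sum_congr rfl fun p _ => by ring
            _ ≤ 6 := by
                have := sum_inv_sq_le_two A hA
                have h0 : 0 ≤ 1 / (A : ℝ) := by positivity
                linarith
  calc _ ≤ (1 + Real.log A) * Real.exp 6 := mul_le_mul_of_nonneg_left h3 (by linarith)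
    _ = _ := by ring

end Pool.Agent.H426R3.SQ
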