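import Pool.Agent.H426R3.SQ.S3epre
import Pool.Agent.H426R3.SQ.S1
import Pool.Agent.H426R3.SQ.S2e

set_option autoImplicit false

/-! # S3e (helper255, after helper318): survivors of Rankin's choice for every nonzero shift -/

namespace Pool.Agent.H426R3.SQ

open Finset Pool.Agent.H256R2.SC

open scoped Classical

theorem survivors_e : ∃ C : ℝ, 0 < C ∧ ∃ y₀ : ℝ, ∀ y : ℝ, y₀ ≤ y → ∀ T : ℕ, y ≤ T →
    (T : ℝ) ≤ y * (Real.log y) ^ 2 → ∀ e : ℤ, e ≠ 0 →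
    (((Finset.Icc 1 T).filter (fun u : ℕ =>
      (∀ p : ℕ, p.Prime → zR y < (p : ℝ) → (p : ℝ) ≤ y → ¬ p ∣ u) ∧
      (∀ p : ℕ, p.Prime → (p : ℝ) ≤ zR y → ¬ (p : ℤ) ∣ (u : ℤ) + e))).card : ℝ) ≤
      C * T * (Real.log (Real.log y)) ^ 2 /
        ((Real.log y) ^ 2 * Real.log (Real.log (Real.log y))) *
        ∏ p ∈ e.natAbs.primeFactors, (1 + 3 / (p : ℝ)) :=
  survivors_e_of mult_avg sieve_lin_e

end Pool.Agent.H426R3.SQ
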