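import Pool.Agent.H426R3.SQ.M1a
import Pool.Agent.H426R3.SQ.Cnt

set_option autoImplicit false

/-! # The arithmetic core of the main theorem (helper426) -/

namespace Pool.Agent.H426R3.SQ

open Finset Pool.Agent.H256R2.SC

open scoped Classical

/-- density of the solutions of `x ^ 2 + u ≡ 0` modulo the prime `p` -/
noncomputable def gk (u : ℤ) (p : ℕ) : ℝ := if p.Prime then (rho u p : ℝ) / (p : ℝ) else 0

theorem gk_bound (u : ℤ) (p : ℕ) : 0 ≤ gk u p ∧ gk u p ≤ 2 / (p : ℝ) := by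
  unfold gk
  split_ifs with h
  · have h1 : (rho u p : ℝ) ≤ 2 := by exact_mod_cast rho_le_two u p h
    exact ⟨by positivity, div_le_div_of_nonneg_right h1 (Nat.cast_nonneg p)⟩
  · exact ⟨le_rfl, by positivity⟩

/-- the covering theorem at `X` -/
def CovAt (c₂ c X : ℝ) : Prop :=
    ∀ (B : Finset ℕ) (κ : Type) [Fintype κ] [DecidableEq κ] [Nonempty κ],
    (Fintype.card κ : ℝ) ≤ c * Real.log X →
    ∀ (hit : ℕ → ℤ → κ → Prop) (g : ℕ → κ → ℝ),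
    (∀ p k, 0 ≤ g p k ∧ g p k ≤ 2 / (p : ℝ)) →
    (∀ p : ℕ, p.Prime → (Real.log X) ^ 3 < p → ∀ a k l, hit p a k → hit p a l → k = l) →
    (∀ k, ∀ z x : ℝ, (Real.log X) ^ 3 ≤ x → x ≤ z → z ≤ Real.exp ((Real.log X) ^ (1 / 20 : ℝ)) →
      c₂ * Real.log x / Real.log (Real.log X) - 1 ≤
        ∑ s ∈ ((SP ((Real.log X) ^ 3) z B).powerset.filter
            (fun s : Finset ℕ => s.Nonempty ∧ ∏ p ∈ s, (p : ℝ) ≤ x)), ∏ p ∈ s, g p k) →
    ∀ (𝒜 : Finset ℤ) (N Err : ℝ), X ^ (1 / 2 : ℝ) ≤ N → 0 ≤ Err → Err ≤ X ^ (1 / 10 : ℝ) →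
    (∀ (T : Finset ℕ) (s : ℕ → κ), (∏ p ∈ T, (p : ℝ)) ≤ X ^ (1 / 4 : ℝ) →
      (∀ p ∈ T, p.Prime ∧ (Real.log X) ^ 3 < p ∧ p ∉ B) →
      |((𝒜.filter (fun a => ∀ p ∈ T, hit p a (s p))).card : ℝ) - N * ∏ p ∈ T, g p (s p)| ≤ Err) →
    ∃ a ∈ 𝒜, ∀ k : κ, ∃ p : ℕ, p.Prime ∧ (Real.log X) ^ 3 < p ∧
      (p : ℝ) ≤ Real.exp ((Real.log X) ^ (1 / 20 : ℝ)) ∧ p ∉ B ∧ hit p a k

/-- the shifts which are not killed before the covering step -/
noncomputable def GG (y : ℝ) (T : ℕ) (Bad : Finset ℤ) : Finset ℤ :=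
  (Icc (-(T : ℤ)) (T : ℤ)).filter (fun u => u ≠ 0 ∧ ¬ IsSquare (-u) ∧ u ∉ Bad ∧
    (∀ p : ℕ, p.Prime → zR y < (p : ℝ) → (p : ℝ) ≤ y → ¬ (p : ℤ) ∣ u) ∧
    (∀ p : ℕ, p.Prime → (p : ℝ) ≤ zR y → ¬ (p : ℤ) ∣ u + 1))

theorem two_pow_le {L : ℝ} (hL : 0 ≤ L) {T : Finset ℕ} (hT : ∀ p ∈ T, Real.exp 3 ≤ (p : ℝ))
    (hprod : ∏ p ∈ T, (p : ℝ) ≤ Real.exp (L / 4)) : (2 : ℝ) ^ T.card ≤ Real.exp (L / 10) := by
  have h1 : Real.exp (3 * T.card) ≤ ∏ p ∈ T, (p : ℝ) := by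
    have : Real.exp (3 * T.card) = ∏ p ∈ T, Real.exp 3 := by
      rw [Finset.prod_const, ← Real.exp_nat_mul, mul_comm]
    rw [this]
    exact Finset.prod_le_prod (fun _ _ => (Real.exp_pos _).le) hT
  have h2 : 3 * (T.card : ℝ) ≤ L / 4 := Real.exp_le_exp.mp (h1.trans hprod)
  have h3 : (2 : ℝ) ^ T.card = Real.exp (T.card * Real.log 2) := by
    rw [Real.exp_nat_mul, Real.exp_log (by norm_num)]
  rw [h3]
  apply Real.exp_le_exp.mpr
  have h4 := Real.log_two_lt_d9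
  have h5 : (0:ℝ) ≤ T.card := Nat.cast_nonneg _
  have h6 : (T.card : ℝ) * Real.log 2 ≤ T.card * 1 := mul_le_mul_of_nonneg_left (by linarith) h5
  linarith

theorem not_prime_of_square_diff {k : ℕ} {a v : ℤ} (hk : (k : ℤ) = a ^ 2 - v ^ 2) (hv : 0 ≤ v)
    (h : v + 2 ≤ a) : ¬ k.Prime := by
  intro hp
  have h1 : (k : ℤ) = (a - v) * (a + v) := by rw [hk]; ring
  obtain ⟨b, hb⟩ := Int.eq_ofNat_of_zero_le (show 0 ≤ a - v by linarith)
  obtain ⟨c, hc⟩ := Int.eq_ofNat_of_zero_le (show 0 ≤ a + v by linarith)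
  have h2 : k = b * c := by
    have : (k : ℤ) = ((b * c : ℕ) : ℤ) := by rw [h1, hb, hc]; push_cast; ring
    exact_mod_cast this
  have hb2 : 2 ≤ b := by
    have : (2 : ℤ) ≤ b := by rw [← hb]; linarith
    exact_mod_cast this
  have hc2 : 2 ≤ c := by
    have : (2 : ℤ) ≤ c := by rw [← hc]; linarith
    exact_mod_cast this
  exact Nat.not_prime_mul (by omega) (by omega) (h2 ▸ hp)

/-- the arithmetic core -/
theorem sq_arith {c₂ c Y : ℝ} (hcov : CovAt c₂ c Y) (hY : 1 ≤ Y) {y : ℝ} (hy0 : 0 ≤ y)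
    (hzy : zR y ≤ y) (hyL : y ≤ (Real.log Y) ^ 3) (hL3 : Real.exp 3 ≤ (Real.log Y) ^ 3)
    {T : ℕ} (hT : 2 * (T : ℝ) < (Real.log Y) ^ 3)
    (Bad : Finset ℤ) (pu : ℤ → ℕ) (P9 R : ℝ) (hP9 : 1 ≤ P9)
    (hpu : ∀ u ∈ Bad, (pu u).Prime ∧ y < (pu u : ℝ) ∧ (pu u : ℝ) ≤ P9 ∧
      ∃ t : ℤ, (pu u : ℤ) ∣ t ^ 2 + u)
    (hinj : Set.InjOn pu (Bad : Set ℤ))
    (hrough : ∀ u : ℤ, u ≠ 0 → ¬ IsSquare (-u) → |u| ≤ (T : ℤ) → u ∉ Bad →
      ∀ z x : ℝ, (Real.log Y) ^ 3 ≤ x →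
      x ≤ z → z ≤ Real.exp ((Real.log Y) ^ (1 / 20 : ℝ)) →
      c₂ * Real.log x / Real.log (Real.log Y) - 1 ≤
        ∑ s ∈ ((SP ((Real.log Y) ^ 3) z (Bad.image pu)).powerset.filter
            (fun s : Finset ℕ => s.Nonempty ∧ ∏ p ∈ s, (p : ℝ) ≤ x)), ∏ p ∈ s, gk u p)
    (hcard : ((GG y T Bad).card : ℝ) ≤ c * Real.log Y)
    (hW : 4 * ((primorial ⌊y⌋₊ : ℝ) * P9 ^ Bad.card) ≤ Y ^ (1 / 2 : ℝ))
    (hR1 : y ≤ R) (hR2 : P9 ≤ R) (hR3 : Real.exp ((Real.log Y) ^ (1 / 20 : ℝ)) ≤ R)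
    (hR4 : R + T < Y ^ 2) (hR5 : (T : ℝ) + 2 ≤ Y) (M : ℕ) (hM : Y ≤ (M : ℝ)) :
    ∃ m : ℕ, M < m ∧ (m : ℝ) ≤ M + Y ∧
      ∀ k : ℕ, |(k : ℤ) - (m : ℤ) ^ 2| ≤ (T : ℤ) → ¬ k.Prime := by
  have hY0 : 0 < Y := by linarith
  set L : ℝ := Real.log Y with hL
  have hL0 : 0 ≤ L := Real.log_nonneg hY
  have hYr : ∀ s : ℝ, Y ^ s = Real.exp (s * L) := by
    intro s
    rw [Real.rpow_def_of_pos hY0, mul_comm]
  -- the set of primes
  set S₁ : Finset ℕ := (range (⌊y⌋₊ + 1)).filter Nat.Prime with hS₁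
  set B : Finset ℕ := Bad.image pu with hB
  have hS₁mem : ∀ p : ℕ, p ∈ S₁ ↔ p.Prime ∧ (p : ℝ) ≤ y := by
    intro p
    rw [hS₁, mem_filter, mem_range, Nat.lt_succ_iff, Nat.le_floor_iff hy0]
    exact and_comm
  have hBmem : ∀ p ∈ B, p.Prime ∧ y < (p : ℝ) ∧ (p : ℝ) ≤ P9 := by
    intro p hp
    obtain ⟨u, hu, rfl⟩ := mem_image.mp hp
    exact ⟨(hpu u hu).1, (hpu u hu).2.1, (hpu u hu).2.2.1⟩
  have hdisj : Disjoint S₁ B := by
    rw [Finset.disjoint_left]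
    intro p h1 h2
    have h3 := ((hS₁mem p).mp h1).2
    have h4 := (hBmem p h2).2.1
    linarith
  set S : Finset ℕ := S₁ ∪ B with hS
  have hSp : ∀ p ∈ S, p.Prime := by
    intro p hp
    rcases mem_union.mp hp with h | h
    · exact ((hS₁mem p).mp h).1
    · exact (hBmem p h).1
  set W : ℕ := ∏ p ∈ S, p with hWdef
  have hWeq : W = primorial ⌊y⌋₊ * ∏ p ∈ B, p := by
    rw [hWdef, hS, prod_union hdisj]
    rfl
  have hWpos : 1 ≤ W := Nat.one_le_iff_ne_zero.mpr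
    (Finset.prod_ne_zero_iff.mpr fun p hp => (hSp p hp).ne_zero)
  have hWle : (W : ℝ) ≤ (primorial ⌊y⌋₊ : ℝ) * P9 ^ Bad.card := by
    rw [hWeq]
    push_cast
    apply mul_le_mul_of_nonneg_left _ (Nat.cast_nonneg _)
    calc ∏ p ∈ B, (p : ℝ) ≤ ∏ p ∈ B, P9 :=
          prod_le_prod (fun _ _ => Nat.cast_nonneg _) fun p hp => (hBmem p hp).2.2
      _ = P9 ^ B.card := by rw [prod_const]
      _ ≤ P9 ^ Bad.card := pow_le_pow_right₀ hP9 (by rw [hB]; exact card_image_le)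
  have hWr : (0 : ℝ) < W := by exact_mod_cast hWpos
  -- roots for the bad shifts
  have hroot : ∀ p : ℕ, ∃ t : ℤ, ∀ u ∈ Bad, pu u = p → (p : ℤ) ∣ t ^ 2 + u := by
    intro p
    by_cases h : ∃ u ∈ Bad, pu u = p
    · obtain ⟨u, hu, hup⟩ := h
      obtain ⟨t, ht⟩ := (hpu u hu).2.2.2
      refine ⟨t, fun v hv hvp => ?_⟩
      have : v = u := hinj hv hu (hvp.trans hup.symm)
      rw [this, ← hup]
      exact ht
    · exact ⟨0, fun u hu hup => absurd ⟨u, hu, hup⟩ h⟩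
  choose tt htt using hroot
  obtain ⟨r, hr⟩ := crt_int S (fun p => (p : ℤ)) (by
      intro i hi j hj hij
      exact Nat.isCoprime_iff_coprime.mpr ((Nat.coprime_primes (hSp i hi) (hSp j hj)).mpr hij))
    (fun p => if (p : ℝ) ≤ zR y then 1 else if (p : ℝ) ≤ y then 0 else tt p)
  set 𝒜 : Finset ℤ := (Ioc (M : ℤ) ((M : ℤ) + ⌊Y⌋₊)).filter (fun a => (W : ℤ) ∣ a - r) with h𝒜
  have hfl : Y / 2 ≤ (⌊Y⌋₊ : ℝ) := by
    have h1 := Nat.lt_floor_add_one Y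
    have h2 : (1 : ℝ) ≤ (⌊Y⌋₊ : ℝ) := by
      have : 1 ≤ ⌊Y⌋₊ := Nat.le_floor (by simpa using hY)
      exact_mod_cast this
    linarith
  set N : ℝ := (⌊Y⌋₊ : ℝ) / W with hNdef
  have hN : Y ^ (1 / 2 : ℝ) ≤ N := by
    rw [hNdef, le_div_iff₀ hWr]
    have h1 : (Y ^ (1 / 2 : ℝ)) * (Y ^ (1 / 2 : ℝ)) = Y := by
      rw [← Real.rpow_add hY0]; norm_num
    have h2 : 0 < Y ^ (1 / 2 : ℝ) := Real.rpow_pos_of_pos hY0 _
    have h3 : (W : ℝ) ≤ Y ^ (1 / 2 : ℝ) / 4 := by linarith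
    calc Y ^ (1 / 2 : ℝ) * W ≤ Y ^ (1 / 2 : ℝ) * (Y ^ (1 / 2 : ℝ) / 4) :=
          mul_le_mul_of_nonneg_left h3 h2.le
      _ = Y / 4 := by rw [← mul_div_assoc, h1]
      _ ≤ _ := by linarith
  -- the counts
  have hcount : ∀ (T' : Finset ℕ) (s : ℕ → ℤ), (∀ p ∈ T', p.Prime ∧ L ^ 3 < p ∧ p ∉ B) →
      |((𝒜.filter (fun a => ∀ p ∈ T', (p : ℤ) ∣ a ^ 2 + s p)).card : ℝ) -
        N * ∏ p ∈ T', gk (s p) p| ≤ 2 ^ T'.card := by
    intro T' s hT'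
    have hnd : ∀ p ∈ T', p.Prime ∧ ¬ p ∣ W := by
      intro p hp
      obtain ⟨h1, h2, h3⟩ := hT' p hp
      refine ⟨h1, fun h4 => ?_⟩
      rw [hWdef, Prime.dvd_finsetProd_iff h1.prime] at h4
      obtain ⟨q, hq, hpq⟩ := h4
      have h5 : p = q := (Nat.prime_dvd_prime_iff_eq h1 (hSp q hq)).mp hpq
      rw [← h5] at hq
      rcases mem_union.mp hq with h | h
      · have := ((hS₁mem p).mp h).2
        linarith
      · exact h3 h
    have h1 := count_sq (M : ℤ) ((M : ℤ) + ⌊Y⌋₊) (by omega) W hWpos r T' hnd s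
    have h2 : (𝒜.filter (fun a => ∀ p ∈ T', (p : ℤ) ∣ a ^ 2 + s p)) =
        (Ioc (M : ℤ) ((M : ℤ) + ⌊Y⌋₊)).filter (fun a : ℤ => (W : ℤ) ∣ a - r ∧
        ∀ p ∈ T', (p : ℤ) ∣ a ^ 2 + s p) := by
      rw [h𝒜, filter_filter]
    have h3 : ∏ p ∈ T', gk (s p) p = ∏ p ∈ T', (rho (s p) p : ℝ) / (p : ℝ) := by
      refine prod_congr rfl fun p hp => ?_
      unfold gk
      rw [if_pos (hT' p hp).1]
    have h4 : (((M : ℤ) + ⌊Y⌋₊ : ℤ) : ℝ) - ((M : ℤ) : ℝ) = (⌊Y⌋₊ : ℝ) := by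
      push_cast
      ring
    rw [h4] at h1
    rw [h2, h3, hNdef]
    have hfin : ∏ p ∈ T', (rho (s p) p : ℝ) ≤ 2 ^ T'.card := by
      calc ∏ p ∈ T', (rho (s p) p : ℝ) ≤ ∏ p ∈ T', (2 : ℝ) :=
            prod_le_prod (fun _ _ => Nat.cast_nonneg _) fun p hp => by
              exact_mod_cast rho_le_two (s p) p (hT' p hp).1
        _ = 2 ^ T'.card := by rw [prod_const]
    refine le_trans (le_of_eq ?_) (h1.trans hfin)
    congr!
  have hN2 : 4 ≤ N := by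
    refine le_trans ?_ hN
    refine le_trans ?_ hW
    have h1 : (1 : ℝ) ≤ (primorial ⌊y⌋₊ : ℝ) := by
      exact_mod_cast Nat.one_le_iff_ne_zero.mpr (primorial_pos _).ne'
    have h2 : (1 : ℝ) ≤ P9 ^ Bad.card := one_le_pow₀ hP9
    nlinarith
  -- the covering step
  have key : ∃ a ∈ 𝒜, ∀ u ∈ GG y T Bad, ∃ p : ℕ, p.Prime ∧
      (p : ℝ) ≤ Real.exp (L ^ (1 / 20 : ℝ)) ∧ (p : ℤ) ∣ a ^ 2 + u := by
    rcases (GG y T Bad).eq_empty_or_nonempty with hE | hE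
    · have h1 := hcount ∅ (fun _ => 0) (by simp)
      simp only [Finset.notMem_empty, IsEmpty.forall_iff, implies_true, filter_true, prod_empty,
        mul_one, card_empty, pow_zero] at h1
      have h2 : (0 : ℝ) < (𝒜.card : ℝ) := by
        have := (abs_le.mp h1).1
        linarith
      obtain ⟨a, ha⟩ := Finset.card_pos.mp (by exact_mod_cast h2)
      exact ⟨a, ha, fun u hu => by rw [hE] at hu; exact absurd hu (Finset.notMem_empty u)⟩
    · have hne : Nonempty (GG y T Bad) := ⟨⟨hE.choose, hE.choose_spec⟩⟩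
      have hG : ∀ u ∈ GG y T Bad, u ≠ 0 ∧ |u| ≤ (T : ℤ) ∧ u ∉ Bad ∧ ¬ IsSquare (-u) := by
        intro u hu
        unfold GG at hu
        rw [mem_filter, mem_Icc] at hu
        exact ⟨hu.2.1, abs_le.mpr hu.1, hu.2.2.2.1, hu.2.2.1⟩
      obtain ⟨a, ha, hcv⟩ := hcov B (GG y T Bad) (by simpa using hcard)
        (fun p a k => (p : ℤ) ∣ a ^ 2 + (k : ℤ)) (fun p k => gk (k : ℤ) p)
        (fun p k => gk_bound _ _)
        (by
          intro p hp hpL a k l h1 h2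
          have h3 : (p : ℤ) ∣ (k : ℤ) - (l : ℤ) := by
            have := dvd_sub h1 h2
            have e : a ^ 2 + (k : ℤ) - (a ^ 2 + (l : ℤ)) = (k : ℤ) - (l : ℤ) := by ring
            rwa [e] at this
          have hk := (hG k k.2).2.1
          have hl := (hG l l.2).2.1
          have h4 : (k : ℤ) - (l : ℤ) = 0 := by
            apply Int.eq_zero_of_abs_lt_dvd h3
            have h5 : |(k : ℤ) - (l : ℤ)| ≤ |(k : ℤ)| + |(l : ℤ)| := abs_sub _ _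
            have h6 : (2 * (T : ℤ)) < (p : ℤ) := by
              have : (2 * (T : ℝ)) < (p : ℝ) := hT.trans hpL
              exact_mod_cast this
            linarith
          exact Subtype.ext (by linarith))
        (fun k z x h1 h2 h3 => hrough k (hG k k.2).1 (hG k k.2).2.2.2 (hG k k.2).2.1
          (hG k k.2).2.2.1 z x h1 h2 h3)
        𝒜 N (Y ^ (1 / 10 : ℝ)) hN (Real.rpow_nonneg hY0.le _) le_rfl
        (by
          intro T' s hprod hT'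
          have h1 := hcount T' (fun p => ((s p : GG y T Bad) : ℤ)) hT'
          refine h1.trans ?_
          rw [hYr]
          have h2 := two_pow_le hL0 (T := T') (fun p hp => by
            have := (hT' p hp).2.1
            linarith) (by
              rw [hYr] at hprod
              refine hprod.trans (Real.exp_le_exp.mpr ?_)
              linarith)
          refine h2.trans (Real.exp_le_exp.mpr ?_)
          linarith)
      refine ⟨a, ha, fun u hu => ?_⟩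
      obtain ⟨p, hp1, _, hp3, _, hp5⟩ := hcv ⟨u, hu⟩
      exact ⟨p, hp1, hp3, hp5⟩
  obtain ⟨a, ha, hcv⟩ := key
  rw [h𝒜, mem_filter, mem_Ioc] at ha
  have ha0 : 0 < a := lt_of_le_of_lt (by positivity) ha.1.1
  obtain ⟨m, hm⟩ := Int.eq_ofNat_of_zero_le ha0.le
  have hmM : M < m := by
    have : (M : ℤ) < (m : ℤ) := by rw [← hm]; exact ha.1.1
    exact_mod_cast this
  have hmY : (m : ℝ) ≤ M + Y := by
    have h1 : (m : ℤ) ≤ (M : ℤ) + ⌊Y⌋₊ := by rw [← hm]; exact ha.1.2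
    have h2 : (m : ℝ) ≤ (M : ℝ) + (⌊Y⌋₊ : ℝ) := by exact_mod_cast h1
    have h3 := Nat.floor_le hY0.le
    linarith
  refine ⟨m, hmM, hmY, fun k hk hkp => ?_⟩
  have hmr : Y < (m : ℝ) := by
    have : (M : ℝ) < (m : ℝ) := by exact_mod_cast hmM
    linarith
  have hkR : R < (k : ℝ) := by
    have h1 := (abs_le.mp hk).1
    have h2 : (m : ℝ) ^ 2 - (T : ℝ) ≤ (k : ℝ) := by
      have : (m : ℤ) ^ 2 - (T : ℤ) ≤ (k : ℤ) := by linarith
      exact_mod_cast this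
    nlinarith
  have hnd : ∀ p : ℕ, p.Prime → (p : ℝ) ≤ R → ¬ (p : ℤ) ∣ (k : ℤ) := by
    intro p hp hpR h
    have h1 : p ∣ k := by exact_mod_cast h
    have h2 := (Nat.prime_dvd_prime_iff_eq hp hkp).mp h1
    rw [h2] at hpR
    linarith
  -- divisibility by the primes of S
  have hdiv : ∀ p ∈ S, (p : ℤ) ∣ a - (if (p : ℝ) ≤ zR y then 1 else if (p : ℝ) ≤ y then 0
      else tt p) := by
    intro p hp
    have h1 : (p : ℤ) ∣ a - r := by
      refine dvd_trans ?_ ha.2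
      exact_mod_cast Finset.dvd_prod_of_mem (fun p => p) hp
    have h2 := dvd_add h1 (hr p hp)
    have e : a - r + (r - (if (p : ℝ) ≤ zR y then 1 else if (p : ℝ) ≤ y then 0
      else tt p)) = a - (if (p : ℝ) ≤ zR y then 1 else if (p : ℝ) ≤ y then 0
      else tt p) := by ring
    rwa [e] at h2
  set u : ℤ := (k : ℤ) - (m : ℤ) ^ 2 with hu
  have hku : (k : ℤ) = a ^ 2 + u := by rw [hu, hm]; ring
  have hmT : (T : ℤ) + 2 ≤ (m : ℤ) := by
    have : (T : ℝ) + 2 ≤ (m : ℝ) := by linarith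
    exact_mod_cast this
  -- trivial factorisations
  by_cases hsq : IsSquare (-u)
  · obtain ⟨v, hv⟩ := hsq
    have hv2 : v * v ≤ T := by
      have := (abs_le.mp hk).1
      linarith
    refine not_prime_of_square_diff (k := k) (a := a) (v := |v|) ?_ (abs_nonneg v) ?_ hkp
    · rw [sq_abs, hku]
      have : v ^ 2 = v * v := by ring
      rw [this, ← hv]
      ring
    · rw [hm]
      have h1 : |v| ≤ v * v := by
        rcases eq_or_ne v 0 with h | h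
        · rw [h]; simp
        · have h2 : 1 ≤ |v| := Int.one_le_abs h
          have h3 : |v| * |v| = v * v := abs_mul_abs_self v
          nlinarith
      have h2 : ((m : ℕ) : ℤ) = (m : ℤ) := rfl
      change |v| + 2 ≤ (m : ℤ)
      linarith
  have hu0 : u ≠ 0 := by
    intro h
    apply hsq
    rw [h]
    exact ⟨0, by norm_num⟩
  by_cases hbad : u ∈ Bad
  · obtain ⟨h1, h2, h3, _⟩ := hpu u hbad
    have hpB : pu u ∈ B := mem_image.mpr ⟨u, hbad, rfl⟩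
    have hpS : pu u ∈ S := mem_union_right _ hpB
    have h4 := hdiv (pu u) hpS
    rw [if_neg (not_le.mpr (lt_of_le_of_lt hzy h2)), if_neg (not_le.mpr h2)] at h4
    have h5 := htt (pu u) u hbad rfl
    apply hnd (pu u) h1 (h3.trans hR2)
    have h6 : (k : ℤ) = (a - tt (pu u)) * (a + tt (pu u)) + (tt (pu u) ^ 2 + u) := by
      rw [hku]; ring
    rw [h6]
    exact dvd_add (Dvd.dvd.mul_right h4 _) h5
  by_cases hG : u ∈ GG y T Bad
  · obtain ⟨p, hp1, hp2, hp3⟩ := hcv u hG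
    apply hnd p hp1 (hp2.trans hR3)
    rw [hku]
    exact hp3
  · apply hG
    unfold GG
    rw [mem_filter, mem_Icc]
    refine ⟨abs_le.mp hk, hu0, hsq, hbad, ?_, ?_⟩
    · intro p hp hp1 hp2 hpu'
      have hpS : p ∈ S := mem_union_left _ ((hS₁mem p).mpr ⟨hp, hp2⟩)
      have h4 := hdiv p hpS
      rw [if_neg (not_le.mpr hp1), if_pos hp2, sub_zero] at h4
      apply hnd p hp (hp2.trans hR1)
      rw [hku]
      exact dvd_add (Dvd.dvd.pow h4 (by norm_num)) hpu'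
    · intro p hp hp1 hpu'
      have hp2 : (p : ℝ) ≤ y := hp1.trans hzy
      have hpS : p ∈ S := mem_union_left _ ((hS₁mem p).mpr ⟨hp, hp2⟩)
      have h4 := hdiv p hpS
      rw [if_pos hp1] at h4
      apply hnd p hp (hp2.trans hR1)
      have h6 : (k : ℤ) = (a - 1) * (a + 1) + (u + 1) := by rw [hku]; ring
      rw [h6]
      exact dvd_add (Dvd.dvd.mul_right h4 _) hpu'

end Pool.Agent.H426R3.SQ
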