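import Pool.Agent.H426R3.SQ.Defs

set_option autoImplicit false

/-! # Perfect squares inside record prime gaps: the passage to prime gaps (task M2, helper377) -/

namespace Pool.Agent.H426R3.SQ

namespace M2x

/-- the record function changes by a bounded factor when `X` is replaced by `X ^ (1/3)` -/
theorem ff_cbrt (Y : ℝ) (hY0 : 0 < Y)
    (hX : Real.exp (Real.exp (Real.exp (Real.exp 2))) ≤ Y ^ 3) :
    ff (Y ^ 3) / 24 ≤ ff Y := by
  set X : ℝ := Y ^ 3 with hXdef
  have ha : Real.exp (Real.exp (Real.exp 2)) ≤ Real.log X := by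
    have := Real.log_le_log (Real.exp_pos _) hX
    rwa [Real.log_exp] at this
  have hb : Real.exp (Real.exp 2) ≤ Real.log (Real.log X) := by
    have := Real.log_le_log (Real.exp_pos _) ha
    rwa [Real.log_exp] at this
  have hd : Real.exp 2 ≤ Real.log (Real.log (Real.log X)) := by
    have := Real.log_le_log (Real.exp_pos _) hb
    rwa [Real.log_exp] at this
  have he : 2 ≤ Real.log (Real.log (Real.log (Real.log X))) := by
    have := Real.log_le_log (Real.exp_pos _) hd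
    rwa [Real.log_exp] at this
  have hlogY : Real.log X = 3 * Real.log Y := by
    rw [hXdef, Real.log_pow]
    norm_num
  unfold ff
  set a := Real.log X with hadef
  have haY : Real.log Y = a / 3 := by linarith
  rw [haY]
  set b := Real.log a with hbdef
  set d := Real.log b with hddef
  set e := Real.log d with hedef
  have h7 : (4 : ℝ) ≤ Real.exp 2 := by
    have h1 := Real.quadratic_le_exp_of_nonneg (x := 2) (by norm_num)
    norm_num at h1
    linarith
  have hd4 : 4 ≤ d := h7.trans hd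
  have hb4 : 16 ≤ b := by
    have h1 : Real.exp 4 ≤ Real.exp (Real.exp 2) := Real.exp_le_exp.mpr h7
    have h2 : (16 : ℝ) ≤ Real.exp 4 := by
      have : Real.exp 4 = Real.exp 2 * Real.exp 2 := by rw [← Real.exp_add]; norm_num
      rw [this]
      nlinarith
    linarith
  have ha0 : 0 < a := lt_of_lt_of_le (Real.exp_pos _) ha
  have hlog3 : Real.log 3 ≤ 2 := by
    have := Real.log_le_sub_one_of_pos (x := 3) (by norm_num)
    linarith
  have hbY : Real.log (a / 3) = b - Real.log 3 := by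
    rw [Real.log_div ha0.ne' (by norm_num)]
  rw [hbY]
  have hb' : b / 2 ≤ b - Real.log 3 := by linarith
  have hb'0 : 0 < b - Real.log 3 := by linarith
  have hbb : b - Real.log 3 ≤ b := by
    have : 0 ≤ Real.log 3 := Real.log_nonneg (by norm_num)
    linarith
  have hd'up : Real.log (b - Real.log 3) ≤ d := Real.log_le_log hb'0 hbb
  have hd'lo : d - 1 ≤ Real.log (b - Real.log 3) := by
    have h1 : Real.log (b / 2) ≤ Real.log (b - Real.log 3) := Real.log_le_log (by linarith) hb'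
    rw [Real.log_div (by linarith) (by norm_num)] at h1
    have h2 : Real.log 2 ≤ 1 := by
      have := Real.log_le_sub_one_of_pos (x := 2) (by norm_num)
      linarith
    linarith
  have hsq : Real.sqrt d ≤ d - 1 := by
    have h1 : Real.sqrt d * Real.sqrt d = d := Real.mul_self_sqrt (by linarith)
    have h2 : 2 ≤ Real.sqrt d := Real.le_sqrt_of_sq_le (by linarith)
    nlinarith
  have hsq0 : 0 < Real.sqrt d := Real.sqrt_pos.mpr (by linarith)
  have he' : e / 2 ≤ Real.log (Real.log (b - Real.log 3)) := by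
    have h1 : Real.log (Real.sqrt d) ≤ Real.log (Real.log (b - Real.log 3)) :=
      Real.log_le_log hsq0 (hsq.trans hd'lo)
    rw [Real.log_sqrt (by linarith)] at h1
    exact h1
  set b' := b - Real.log 3 with hb'def
  set d' := Real.log b' with hd'def
  set e' := Real.log d' with he'def
  have hd'0 : 0 < d' := by linarith
  have he0 : 0 < e := by linarith
  have h1 : a / 3 * b' ^ 2 * e' / d' ^ 2 ≥ a / 3 * (b / 2) ^ 2 * (e / 2) / d ^ 2 := by
    have hnum : a / 3 * (b / 2) ^ 2 * (e / 2) ≤ a / 3 * b' ^ 2 * e' := by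
      apply mul_le_mul _ he' (by linarith) (by positivity)
      apply mul_le_mul_of_nonneg_left _ (by positivity)
      apply pow_le_pow_left₀ (by linarith) hb'
    have hden : d' ^ 2 ≤ d ^ 2 := pow_le_pow_left₀ hd'0.le hd'up 2
    have hnn : 0 ≤ a / 3 * (b / 2) ^ 2 * (e / 2) := by positivity
    exact div_le_div₀ (hnn.trans hnum) hnum (by positivity) hden
  calc a * b ^ 2 * e / d ^ 2 / 24 = a / 3 * (b / 2) ^ 2 * (e / 2) / d ^ 2 := by ring
    _ ≤ _ := h1


end M2x
open M2x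

/-- `squares_gaps` from `squares_main` -/
theorem squares_gaps_of
    (hmain : ∃ c : ℝ, 0 < c ∧ ∃ Y₀ : ℝ, ∀ Y : ℝ, Y₀ ≤ Y → ∀ M : ℕ, Y ≤ (M : ℝ) →
      ∃ m : ℕ, M < m ∧ (m : ℝ) ≤ M + Y ∧
        ∀ k : ℕ, |(k : ℝ) - (m : ℝ) ^ 2| ≤ c * ff Y → ¬ k.Prime) :
    ∃ c : ℝ, 0 < c ∧ ∃ X₀ : ℝ, ∀ X : ℝ, X₀ ≤ X →
      ∃ n m : ℕ, (Nat.nth Nat.Prime (n + 1) : ℝ) ≤ X ∧
        (Nat.nth Nat.Prime n : ℝ) + c * ff X ≤ (m : ℝ) ^ 2 ∧
        (m : ℝ) ^ 2 + c * ff X ≤ (Nat.nth Nat.Prime (n + 1) : ℝ) := by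
  obtain ⟨c, hc, Y₀, hmain⟩ := hmain
  refine ⟨c / 24, by positivity,
    max (Real.exp (Real.exp (Real.exp (Real.exp 2)))) ((max 18 Y₀) ^ 3), ?_⟩
  intro X hX
  have hX1 : Real.exp (Real.exp (Real.exp (Real.exp 2))) ≤ X := (le_max_left _ _).trans hX
  have hX2 : (max 18 Y₀) ^ 3 ≤ X := (le_max_right _ _).trans hX
  have hX0 : 0 < X := lt_of_lt_of_le (Real.exp_pos _) hX1
  set Y : ℝ := X ^ ((1 : ℝ) / 3) with hYdef
  have hY3 : Y ^ 3 = X := by
    rw [hYdef, ← Real.rpow_natCast, ← Real.rpow_mul hX0.le]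
    norm_num
  have hY0 : 0 < Y := Real.rpow_pos_of_pos hX0 _
  have h18 : (18 : ℝ) ≤ max 18 Y₀ := le_max_left _ _
  have hYge : max 18 Y₀ ≤ Y := by
    by_contra hlt
    push Not at hlt
    have : Y ^ 3 < (max 18 Y₀) ^ 3 := pow_lt_pow_left₀ hlt hY0.le (by norm_num)
    rw [hY3] at this
    linarith
  have hY18 : 18 ≤ Y := h18.trans hYge
  obtain ⟨m, hMm, hmM, hk⟩ := hmain Y ((le_max_right _ _).trans hYge) ⌈Y⌉₊ (Nat.le_ceil Y)
  have hceil : ((⌈Y⌉₊ : ℕ) : ℝ) ≤ Y + 1 := (Nat.ceil_lt_add_one hY0.le).le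
  have hm3 : (m : ℝ) ≤ 3 * Y := by linarith
  have hm18 : (18 : ℝ) < m := by
    have h1 : ((⌈Y⌉₊ : ℕ) : ℝ) < m := by exact_mod_cast hMm
    have h2 := Nat.le_ceil Y
    linarith
  have hm1 : 18 < m := by exact_mod_cast hm18
  have ht2 : 2 ≤ m ^ 2 := by nlinarith
  have ht0 : m ^ 2 ≠ 0 := by omega
  -- consecutive primes around `m ^ 2`
  set N := Nat.count Nat.Prime (m ^ 2 + 1) with hN
  have hNpos : 0 < N := by
    rw [hN]
    have h3 : Nat.count Nat.Prime 3 ≤ Nat.count Nat.Prime (m ^ 2 + 1) :=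
      Nat.count_monotone _ (by omega)
    have h4 : 0 < Nat.count Nat.Prime 3 := by
      rw [Nat.count_succ]
      have : Nat.Prime 2 := Nat.prime_two
      simp [this]
    omega
  obtain ⟨n, hn⟩ : ∃ n, N = n + 1 := ⟨N - 1, by omega⟩
  have hlow : Nat.nth Nat.Prime n < m ^ 2 + 1 := Nat.nth_lt_of_lt_count (by rw [← hN]; omega)
  have hup : m ^ 2 + 1 ≤ Nat.nth Nat.Prime (n + 1) := by
    rw [← hn]
    exact (Nat.count_le_iff_le_nth Nat.infinite_setOfPred_prime).mp le_rfl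
  have hp1 : (Nat.nth Nat.Prime n).Prime := Nat.prime_nth_prime n
  have hp2 : (Nat.nth Nat.Prime (n + 1)).Prime := Nat.prime_nth_prime (n + 1)
  have hbert : Nat.nth Nat.Prime (n + 1) ≤ 2 * m ^ 2 := by
    obtain ⟨p, hp, hlt, hle⟩ := Nat.exists_prime_lt_and_le_two_mul (m ^ 2) ht0
    have h1 : N ≤ Nat.count Nat.Prime p := Nat.count_monotone _ (by omega)
    have h2 : Nat.nth Nat.Prime N ≤ Nat.nth Nat.Prime (Nat.count Nat.Prime p) :=
      Nat.nth_monotone Nat.infinite_setOfPred_prime h1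
    rw [Nat.nth_count hp] at h2
    rw [← hn]
    exact h2.trans hle
  have hff : ff X / 24 ≤ ff Y := by
    have := ff_cbrt Y hY0 (by rw [hY3]; exact hX1)
    rwa [hY3] at this
  have hcff : c / 24 * ff X ≤ c * ff Y := by
    calc c / 24 * ff X = c * (ff X / 24) := by ring
      _ ≤ _ := mul_le_mul_of_nonneg_left hff hc.le
  refine ⟨n, m, ?_, ?_, ?_⟩
  · have h1 : (Nat.nth Nat.Prime (n + 1) : ℝ) ≤ 2 * (m : ℝ) ^ 2 := by exact_mod_cast hbert
    have h2 : (m : ℝ) ^ 2 ≤ (3 * Y) ^ 2 := pow_le_pow_left₀ (by positivity) hm3 2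
    have h3 : 18 * Y ^ 2 ≤ Y ^ 3 := by nlinarith [sq_nonneg Y]
    rw [hY3] at h3
    nlinarith
  · have h1 : (Nat.nth Nat.Prime n : ℝ) ≤ (m : ℝ) ^ 2 := by exact_mod_cast Nat.lt_succ_iff.mp hlow
    by_contra hcon
    push Not at hcon
    apply hk _ _ hp1
    rw [abs_sub_comm, abs_of_nonneg (by linarith)]
    linarith
  · have h1 : (m : ℝ) ^ 2 ≤ (Nat.nth Nat.Prime (n + 1) : ℝ) := by
      have : m ^ 2 ≤ Nat.nth Nat.Prime (n + 1) := by omega
      exact_mod_cast this
    by_contra hcon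
    push Not at hcon
    apply hk _ _ hp2
    rw [abs_of_nonneg (by linarith)]
    linarith

end Pool.Agent.H426R3.SQ
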