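import Pool.Agent.H426R3.SQ.M1b
import Pool.Agent.H426R3.SQ.C1e

set_option autoImplicit false

/-! # The arithmetic core for consecutive squares and pronic numbers (helper426) -/

namespace Pool.Agent.H426R3.SQ

open Finset Pool.Agent.H256R2.SC

open scoped Classical

/-- quarter squares -/
def qs (j : ℕ) : ℕ := j ^ 2 / 4

theorem four_qs (j : ℕ) : 4 * (qs j : ℤ) + ((j % 2 : ℕ) : ℤ) = (j : ℤ) ^ 2 := by
  have h : 4 * (qs j) + j % 2 = j ^ 2 := by
    unfold qs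
    rcases Nat.even_or_odd' j with ⟨i, rfl | rfl⟩
    · have : (2 * i) ^ 2 = 4 * i ^ 2 := by ring
      rw [this]
      omega
    · have : (2 * i + 1) ^ 2 = 4 * (i ^ 2 + i) + 1 := by ring
      rw [this]
      omega
  exact_mod_cast h

/-- the discriminant of the colour `(j, u)` -/
def wq (ju : ℕ × ℤ) : ℤ := 4 * ju.2 - ((ju.1 % 2 : ℕ) : ℤ)

theorem four_mul_form (a : ℤ) (j : ℕ) (u : ℤ) :
    4 * (a ^ 2 + (j : ℤ) * a + (qs j : ℤ) + u) = (2 * a + (j : ℤ)) ^ 2 + wq (j, u) := by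
  unfold wq
  have := four_qs j
  simp only
  linear_combination this

/-- the pairs (index of the quarter square, shift) which are not killed before the covering
step -/
noncomputable def GQ (y : ℝ) (J Z : ℕ) (Bad : Finset ℤ) : Finset (ℕ × ℤ) :=
  (range J ×ˢ Icc (-(Z : ℤ)) (Z : ℤ)).filter (fun ju => ¬ IsSquare (-(wq ju)) ∧ wq ju ∉ Bad ∧
    (∀ p : ℕ, p.Prime → zR y < (p : ℝ) → (p : ℝ) ≤ y → ¬ (p : ℤ) ∣ (qs ju.1 : ℤ) + ju.2) ∧
    (∀ p : ℕ, p.Prime → (p : ℝ) ≤ zR y → ¬ (p : ℤ) ∣ 1 + (ju.1 : ℤ) + (qs ju.1 : ℤ) + ju.2))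

/-- two different elements of the family are never hit at the same time by a large prime -/
theorem hit_unique {p : ℕ} {a i j u v : ℤ} {J T : ℤ} (hi0 : 0 ≤ i) (hi : i < J) (hj0 : 0 ≤ j)
    (hj : j < J) (hJT : J ^ 2 ≤ T) (hu : |u| ≤ T) (hv : |v| ≤ T) (hsq : ¬ IsSquare (-u))
    (hp : 13 * T ^ 2 < (p : ℤ)) (h1 : (p : ℤ) ∣ (a + j) ^ 2 + u) (h2 : (p : ℤ) ∣ (a + i) ^ 2 + v) :
    i = j ∧ u = v := by
  have hT0 : 0 ≤ T := (abs_nonneg u).trans hu
  have hJ0 : 0 < J := lt_of_le_of_lt hi0 hi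
  have hT1 : 1 ≤ T := by nlinarith
  set d : ℤ := i - j with hd
  have hR : (p : ℤ) ∣ (v - u + d ^ 2) ^ 2 + 4 * d ^ 2 * u := by
    have h3 : (p : ℤ) ∣ 2 * d * (a + j) + (v - u + d ^ 2) := by
      have h4 := dvd_sub h2 h1
      have e : (a + i) ^ 2 + v - ((a + j) ^ 2 + u) = 2 * d * (a + j) + (v - u + d ^ 2) := by
        rw [hd]; ring
      rwa [e] at h4
    have h5 : (p : ℤ) ∣ 4 * d ^ 2 * ((a + j) ^ 2 + u) -
        (2 * d * (a + j) + (v - u + d ^ 2)) * (2 * d * (a + j) - (v - u + d ^ 2)) :=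
      dvd_sub (Dvd.dvd.mul_left h1 _) (Dvd.dvd.mul_right h3 _)
    have e : 4 * d ^ 2 * ((a + j) ^ 2 + u) -
        (2 * d * (a + j) + (v - u + d ^ 2)) * (2 * d * (a + j) - (v - u + d ^ 2)) =
        (v - u + d ^ 2) ^ 2 + 4 * d ^ 2 * u := by ring
    rwa [e] at h5
  have hd2 : d ^ 2 ≤ T := by
    have h3 : |d| ≤ J := by
      rw [hd, abs_le]
      constructor <;> linarith
    calc d ^ 2 = |d| ^ 2 := (sq_abs d).symm
      _ ≤ J ^ 2 := pow_le_pow_left₀ (abs_nonneg d) h3 2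
      _ ≤ T := hJT
  obtain ⟨hu1, hu2⟩ := abs_le.mp hu
  obtain ⟨hv1, hv2⟩ := abs_le.mp hv
  have hz : (v - u + d ^ 2) ^ 2 + 4 * d ^ 2 * u = 0 := by
    apply Int.eq_zero_of_abs_lt_dvd hR
    refine lt_of_le_of_lt ?_ hp
    have h3 : |(v - u + d ^ 2)| ≤ 3 * T := by
      have := sq_nonneg d
      rw [abs_le]
      constructor <;> linarith
    have h4 : (v - u + d ^ 2) ^ 2 ≤ 9 * T ^ 2 := by
      calc (v - u + d ^ 2) ^ 2 = |(v - u + d ^ 2)| ^ 2 := (sq_abs _).symm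
        _ ≤ (3 * T) ^ 2 := pow_le_pow_left₀ (abs_nonneg _) h3 2
        _ = 9 * T ^ 2 := by ring
    have h5 : |4 * d ^ 2 * u| ≤ 4 * T ^ 2 := by
      rw [abs_mul, abs_of_nonneg (by positivity : (0:ℤ) ≤ 4 * d ^ 2)]
      calc 4 * d ^ 2 * |u| ≤ 4 * T * T := by
            apply mul_le_mul (by linarith) hu (abs_nonneg u) (by linarith)
        _ = 4 * T ^ 2 := by ring
    calc |(v - u + d ^ 2) ^ 2 + 4 * d ^ 2 * u| ≤ |(v - u + d ^ 2) ^ 2| + |4 * d ^ 2 * u| :=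
          abs_add_le _ _
      _ ≤ 9 * T ^ 2 + 4 * T ^ 2 := by
          rw [abs_of_nonneg (sq_nonneg (v - u + d ^ 2))]
          exact add_le_add h4 h5
      _ = 13 * T ^ 2 := by ring
  have hd0 : d = 0 := by
    by_contra hne
    apply hsq
    have h3 : (2 * d) ^ 2 * (-u) = (v - u + d ^ 2) ^ 2 := by linear_combination (-1 : ℤ) * hz
    have h4 : (2 * d) ^ 2 ∣ (v - u + d ^ 2) ^ 2 := ⟨-u, h3.symm⟩
    rw [Int.pow_dvd_pow_iff (by norm_num)] at h4
    obtain ⟨w, hw⟩ := h4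
    refine ⟨w, ?_⟩
    have h5 : (2 * d) ^ 2 ≠ 0 := pow_ne_zero 2 (by omega)
    apply mul_left_cancel₀ h5
    rw [h3, hw]
    ring
  rw [hd0] at hz
  refine ⟨by linarith, ?_⟩
  have h6 : (v - u) ^ 2 = 0 := by linear_combination hz
  have h7 : v - u = 0 := by
    exact pow_eq_zero_iff (by norm_num) |>.mp h6
  linarith

theorem odd_dvd {p : ℕ} (hp : p.Prime) (h2 : p ≠ 2) {k : ℤ} (h : (p : ℤ) ∣ 4 * k) :
    (p : ℤ) ∣ k := by
  rcases (Nat.prime_iff_prime_int.mp hp).dvd_or_dvd h with h1 | h1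
  · exfalso
    have h3 : p ∣ 4 := by exact_mod_cast h1
    have h4 : p ∣ 2 ^ 2 := by simpa using h3
    exact h2 ((Nat.prime_dvd_prime_iff_eq hp Nat.prime_two).mp (hp.dvd_of_dvd_pow h4))
  · exact h1

/-- half of `p + 1` -/
def hh (p : ℕ) : ℕ := (p + 1) / 2

theorem two_hh {p : ℕ} (hp : p.Prime) (h2 : p ≠ 2) : 2 * hh p = p + 1 := by
  unfold hh
  rcases hp.eq_two_or_odd with h | h
  · exact absurd h h2
  · omega

theorem scale_iff {p : ℕ} (hp : p.Prime) (h2 : p ≠ 2) (a j w : ℤ) :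
    (p : ℤ) ∣ (2 * a + j) ^ 2 + w ↔
      (p : ℤ) ∣ (a + (hh p : ℤ) * j) ^ 2 + (hh p : ℤ) ^ 2 * w := by
  have h3 : 2 * (hh p : ℤ) = (p : ℤ) + 1 := by exact_mod_cast two_hh hp h2
  have e : (hh p : ℤ) ^ 2 * ((2 * a + j) ^ 2 + w) - ((a + (hh p : ℤ) * j) ^ 2 +
      (hh p : ℤ) ^ 2 * w) = (p : ℤ) * (a * (2 * (a + (hh p : ℤ) * j) + (p : ℤ) * a)) := by
    have h4 : (p : ℤ) = 2 * (hh p : ℤ) - 1 := by linarith
    rw [h4]
    ring
  have h5 : (p : ℤ) ∣ (hh p : ℤ) ^ 2 * ((2 * a + j) ^ 2 + w) ↔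
      (p : ℤ) ∣ (a + (hh p : ℤ) * j) ^ 2 + (hh p : ℤ) ^ 2 * w := by
    refine dvd_iff_dvd_of_dvd_sub ?_
    rw [e]
    exact dvd_mul_right _ _
  rw [← h5]
  constructor
  · intro h
    exact Dvd.dvd.mul_left h _
  · intro h
    rcases (Nat.prime_iff_prime_int.mp hp).dvd_or_dvd h with h6 | h6
    · exfalso
      have h7 := (Nat.prime_iff_prime_int.mp hp).dvd_of_dvd_pow h6
      have h8 : (p : ℤ) ∣ 1 := by
        have h9 : (p : ℤ) ∣ 2 * (hh p : ℤ) - (p : ℤ) := dvd_sub (Dvd.dvd.mul_left h7 _) dvd_rfl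
        have e2 : 2 * (hh p : ℤ) - (p : ℤ) = 1 := by linarith
        rwa [e2] at h9
      have h10 : p ∣ 1 := by exact_mod_cast h8
      exact hp.one_lt.ne' (Nat.dvd_one.mp h10)
    · exact h6

theorem rho_scale {p : ℕ} (hp : p.Prime) (h2 : p ≠ 2) (w : ℤ) :
    rho ((hh p : ℤ) ^ 2 * w) p = rho w p := by
  have h3 := two_hh hp h2
  have h3' : 2 * (hh p : ℤ) = (p : ℤ) + 1 := by exact_mod_cast h3
  have hp0 : 0 < p := hp.pos
  have hsc := fun x : ℤ => scale_iff hp h2 x 0 w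
  unfold rho
  refine Finset.card_bij' (fun x _ => (2 * x) % p) (fun x _ => (hh p * x) % p) ?_ ?_ ?_ ?_
  · intro x hx
    rw [mem_filter, mem_range] at hx ⊢
    refine ⟨Nat.mod_lt _ hp0, ?_⟩
    have h4 := (hsc (x : ℤ)).mpr (by simpa using hx.2)
    rw [C1e_congr w p _ (2 * (x : ℤ) + 0)]
    · exact h4
    · have h5 : ((2 * x) % p + p * ((2 * x) / p) : ℕ) = 2 * x := Nat.mod_add_div _ _
      refine ⟨-(((2 * x) / p : ℕ) : ℤ), ?_⟩
      have h6 : (((2 * x) % p : ℕ) : ℤ) + (p : ℤ) * (((2 * x) / p : ℕ) : ℤ) = 2 * (x : ℤ) := by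
        exact_mod_cast h5
      linear_combination h6
  · intro x hx
    rw [mem_filter, mem_range] at hx ⊢
    refine ⟨Nat.mod_lt _ hp0, ?_⟩
    have h4 : (p : ℤ) ∣ (2 * ((hh p : ℤ) * x) + 0) ^ 2 + w := by
      rw [C1e_congr w p _ (x : ℤ)]
      · exact hx.2
      · refine ⟨(x : ℤ), ?_⟩
        linear_combination (x : ℤ) * h3'
    have h5 := (hsc ((hh p : ℤ) * x)).mp h4
    rw [C1e_congr _ p _ ((hh p : ℤ) * x)]
    · simpa using h5
    · have h5 : ((hh p * x) % p + p * ((hh p * x) / p) : ℕ) = hh p * x := Nat.mod_add_div _ _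
      refine ⟨-(((hh p * x) / p : ℕ) : ℤ), ?_⟩
      have h6 : (((hh p * x) % p : ℕ) : ℤ) + (p : ℤ) * (((hh p * x) / p : ℕ) : ℤ) =
          (hh p : ℤ) * (x : ℤ) := by
        exact_mod_cast h5
      linear_combination h6
  · intro x hx
    rw [mem_filter, mem_range] at hx
    simp only [Nat.mul_mod_mod]
    have e : hh p * (2 * x) = x + p * x := by
      calc hh p * (2 * x) = (2 * hh p) * x := by ring
        _ = x + p * x := by rw [h3]; ring
    rw [e, Nat.add_mul_mod_self_left, Nat.mod_eq_of_lt hx.1]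
  · intro x hx
    rw [mem_filter, mem_range] at hx
    simp only [Nat.mul_mod_mod]
    have e : 2 * (hh p * x) = x + p * x := by
      calc 2 * (hh p * x) = (2 * hh p) * x := by ring
        _ = x + p * x := by rw [h3]; ring
    rw [e, Nat.add_mul_mod_self_left, Nat.mod_eq_of_lt hx.1]

theorem not_prime_of_four_mul {k : ℕ} {x v : ℤ} (hk : 4 * (k : ℤ) = x ^ 2 - v ^ 2) (hv : 0 ≤ v)
    (h : v + 4 ≤ x) : ¬ k.Prime := by
  intro hp
  have h1 : Even (x - v) := by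
    have h2 : Even ((x - v) ^ 2) := by
      refine ⟨2 * k - v * (x - v), ?_⟩
      linear_combination (-1 : ℤ) * hk
    exact (Int.even_pow.mp h2).1
  obtain ⟨b, hb⟩ := h1
  obtain ⟨b', hb'⟩ := Int.eq_ofNat_of_zero_le (show 0 ≤ b by linarith)
  obtain ⟨c, hc⟩ := Int.eq_ofNat_of_zero_le (show 0 ≤ b + v by linarith)
  have h2 : k = b' * c := by
    have h3 : (k : ℤ) = b * (b + v) := by
      have h4 : x = v + (b + b) := by linarith
      rw [h4] at hk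
      linarith
    have : (k : ℤ) = ((b' * c : ℕ) : ℤ) := by rw [h3, hc, hb']; push_cast; ring
    exact_mod_cast this
  have hb2 : 2 ≤ b' := by
    have : (2 : ℤ) ≤ b' := by
      have e : (b' : ℤ) = b := hb'.symm
      linarith
    exact_mod_cast this
  have hc2 : 2 ≤ c := by
    have : (2 : ℤ) ≤ c := by
      have e : (c : ℤ) = b + v := hc.symm
      linarith
    exact_mod_cast this
  exact Nat.not_prime_mul (by omega) (by omega) (h2 ▸ hp)

end Pool.Agent.H426R3.SQ
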