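import Pool.Agent.H426R3.SQ.S1

set_option autoImplicit false

/-! # Task S1e: an average over the odd numbers -/

namespace Pool.Agent.H426R3.SQ

open Finset

theorem prod_sq_le_exp (A : ℕ) (P : Finset ℕ) (hP : P ⊆ Finset.Icc 1 A) :
    ∏ p ∈ P, (1 + 3 / (p : ℝ) ^ 2) ≤ Real.exp 6 := by
  rcases Nat.eq_zero_or_pos A with rfl | hA
  · have h0 : P = ∅ := by
      rw [← Finset.subset_empty]
      simpa using hP
    subst h0
    simp
  calc ∏ p ∈ P, (1 + 3 / (p : ℝ) ^ 2) ≤ ∏ p ∈ P, Real.exp (3 / (p : ℝ) ^ 2) := by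
        refine Finset.prod_le_prod (fun p _ => by positivity) fun p _ => ?_
        have := Real.add_one_le_exp (3 / (p : ℝ) ^ 2)
        linarith
    _ = Real.exp (∑ p ∈ P, 3 / (p : ℝ) ^ 2) := (Real.exp_sum _ _).symm
    _ ≤ Real.exp 6 := by
        apply Real.exp_le_exp.mpr
        calc ∑ p ∈ P, 3 / (p : ℝ) ^ 2 ≤ ∑ p ∈ Finset.Icc 1 A, 3 / (p : ℝ) ^ 2 :=
              Finset.sum_le_sum_of_subset_of_nonneg hP fun _ _ _ => by positivity
          _ = 3 * ∑ p ∈ Finset.Icc 1 A, 1 / (p : ℝ) ^ 2 := by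
              rw [Finset.mul_sum]
              refine Finset.sum_congr rfl fun p _ => by ring
          _ ≤ 6 := by
              have := sum_inv_sq_le_two A hA
              have h0 : 0 ≤ 1 / (A : ℝ) := by positivity
              linarith

theorem all_avg (A : ℕ) :
    ∑ a ∈ Finset.Icc 1 A, ∏ p ∈ a.primeFactors, (1 + 3 / (p : ℝ)) ≤ Real.exp 6 * A := by
  set P : Finset ℕ := (Finset.Icc 1 A).filter Nat.Prime with hP
  have h1 : ∀ a ∈ Finset.Icc 1 A, ∏ p ∈ a.primeFactors, (1 + 3 / (p : ℝ)) =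
      ∑ T ∈ P.powerset, if T ⊆ a.primeFactors then ∏ p ∈ T, (3 / (p : ℝ)) else 0 := by
    intro a ha
    rw [Finset.prod_one_add, ← Finset.sum_filter]
    refine Finset.sum_congr ?_ fun _ _ => rfl
    ext T
    simp only [Finset.mem_powerset, Finset.mem_filter]
    constructor
    · intro h
      refine ⟨fun p hp => ?_, h⟩
      have hpa := h hp
      rw [Nat.mem_primeFactors] at hpa
      rw [hP, Finset.mem_filter, Finset.mem_Icc]
      rw [Finset.mem_Icc] at ha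
      exact ⟨⟨hpa.1.one_le, (Nat.le_of_dvd (by omega) hpa.2.1).trans ha.2⟩, hpa.1⟩
    · exact fun h => h.2
  rw [Finset.sum_congr rfl h1, Finset.sum_comm]
  have h2 : ∀ T ∈ P.powerset, ∑ a ∈ Finset.Icc 1 A,
      (if T ⊆ a.primeFactors then ∏ p ∈ T, (3 / (p : ℝ)) else 0) ≤
      (A : ℝ) * ∏ p ∈ T, (3 / (p : ℝ) ^ 2) := by
    intro T hT
    rw [Finset.mem_powerset] at hT
    have hTp : ∀ p ∈ T, p.Prime := fun p hp => (Finset.mem_filter.mp (hT hp)).2
    have hd1 : 1 ≤ ∏ p ∈ T, p := Finset.one_le_prod' fun p hp => (hTp p hp).one_le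
    rw [← Finset.sum_filter, Finset.sum_const, nsmul_eq_mul]
    have hsub : (Finset.Icc 1 A).filter (fun a => T ⊆ a.primeFactors) ⊆
        (Finset.Ioc 0 A).filter (fun a => (∏ p ∈ T, p) ∣ a) := by
      intro a ha
      rw [Finset.mem_filter, Finset.mem_Icc] at ha
      rw [Finset.mem_filter, Finset.mem_Ioc]
      refine ⟨⟨by omega, ha.1.2⟩, ?_⟩
      refine Finset.prod_primes_dvd a (fun p hp => (hTp p hp).prime) fun p hp => ?_
      exact Nat.dvd_of_mem_primeFactors (ha.2 hp)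
    have hs : ((((Finset.Icc 1 A).filter (fun a => T ⊆ a.primeFactors)).card : ℕ) : ℝ) ≤
        (A : ℝ) * (1 / ((∏ p ∈ T, p : ℕ) : ℝ)) := by
      have e1 := Finset.card_le_card hsub
      rw [Nat.Ioc_filter_dvd_card_eq_div] at e1
      calc _ ≤ ((A / ∏ p ∈ T, p : ℕ) : ℝ) := by exact_mod_cast e1
        _ ≤ (A : ℝ) / ((∏ p ∈ T, p : ℕ) : ℝ) := Nat.cast_div_le
        _ = _ := by ring
    have hprod : (∏ p ∈ T, (3 / (p : ℝ) ^ 2)) =
        (1 / ((∏ p ∈ T, p : ℕ) : ℝ)) * ∏ p ∈ T, (3 / (p : ℝ)) := by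
      push_cast
      rw [one_div, ← Finset.prod_inv_distrib, ← Finset.prod_mul_distrib]
      refine Finset.prod_congr rfl fun p hp => ?_
      have : (p : ℝ) ≠ 0 := by exact_mod_cast (hTp p hp).ne_zero
      field_simp
    rw [hprod]
    have hnn : 0 ≤ ∏ p ∈ T, (3 / (p : ℝ)) := Finset.prod_nonneg fun p _ => by positivity
    calc _ ≤ ((A : ℝ) * (1 / ((∏ p ∈ T, p : ℕ) : ℝ))) * ∏ p ∈ T, (3 / (p : ℝ)) :=
          mul_le_mul_of_nonneg_right hs hnn
      _ = _ := by ring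
  refine (Finset.sum_le_sum h2).trans ?_
  rw [← Finset.mul_sum, ← Finset.prod_one_add]
  have h3 := prod_sq_le_exp A P (Finset.filter_subset _ _)
  calc _ ≤ (A : ℝ) * Real.exp 6 := mul_le_mul_of_nonneg_left h3 (by positivity)
    _ = _ := by ring

theorem odd_avg : ∃ C : ℝ, 0 < C ∧ ∀ J : ℕ,
    ∑ j ∈ Finset.range J, ∏ p ∈ (2 * j + 1).primeFactors, (1 + 3 / (p : ℝ)) ≤ C * J := by
  refine ⟨2 * Real.exp 6, by positivity, fun J => ?_⟩
  have hinj : Set.InjOn (fun j : ℕ => 2 * j + 1) (Finset.range J : Set ℕ) := by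
    intro a _ b _ h
    simp only at h
    omega
  have e1 : ∑ j ∈ Finset.range J, ∏ p ∈ (2 * j + 1).primeFactors, (1 + 3 / (p : ℝ)) =
      ∑ a ∈ (Finset.range J).image (fun j : ℕ => 2 * j + 1),
        ∏ p ∈ a.primeFactors, (1 + 3 / (p : ℝ)) := by
    rw [Finset.sum_image hinj]
  rw [e1]
  have e2 : ∑ a ∈ (Finset.range J).image (fun j : ℕ => 2 * j + 1),
        ∏ p ∈ a.primeFactors, (1 + 3 / (p : ℝ)) ≤
      ∑ a ∈ Finset.Icc 1 (2 * J), ∏ p ∈ a.primeFactors, (1 + 3 / (p : ℝ)) := by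
    refine Finset.sum_le_sum_of_subset_of_nonneg ?_ fun a _ _ =>
      Finset.prod_nonneg fun p _ => by positivity
    intro a ha
    obtain ⟨j, hj, rfl⟩ := Finset.mem_image.mp ha
    rw [Finset.mem_range] at hj
    rw [Finset.mem_Icc]
    omega
  refine e2.trans ((all_avg (2 * J)).trans (le_of_eq ?_))
  push_cast
  ring

end Pool.Agent.H426R3.SQ
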