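import Mathlib

set_option autoImplicit false

/-! # Sizes (helper426) -/

namespace Pool.Agent.H426R3.SQ

theorem mul_low (b n : ℝ) (hn : 0 ≤ n) : -(|b| * n) ≤ b * n := by
  have h := mul_le_mul_of_nonneg_right (neg_abs_le b) hn
  linarith

theorem size1 {a b g n Y T : ℝ} (ha : 1 ≤ a) (hn : Y < n)
    (hY : 1000 + 100 * (a + |b| + |g|) ≤ Y) (hT : T ≤ Y / 100) :
    Y + T < a * n ^ 2 + b * n + g := by
  have hb := abs_nonneg b
  have hg := abs_nonneg g
  have hn0 : 0 < n := by linarith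
  have h1 : 1 * n ^ 2 ≤ a * n ^ 2 := mul_le_mul_of_nonneg_right ha (by positivity)
  have h2 := mul_low b n hn0.le
  have h3 := neg_abs_le g
  have h4 : (100 * |b| + 100 * |g| + 1000) * n ≤ n * n :=
    mul_le_mul_of_nonneg_right (by linarith) hn0.le
  have h5 : |g| * 1 ≤ |g| * n := mul_le_mul_of_nonneg_left (by linarith) hg
  have h6 : 0 ≤ |b| * n := by positivity
  have h7 : (100 * |b| + 100 * |g| + 1000) * n = 100 * (|b| * n) + 100 * (|g| * n) + 1000 * n := by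
    ring
  have h8 : n ^ 2 = n * n := by ring
  rw [h7] at h4
  rw [h8] at h1 ⊢
  linarith

theorem size2 {a b g n Y T T' : ℝ} (ha : 1 ≤ a) (hn : Y < n)
    (hY : 1000 + 100 * (a + |b| + |g|) ≤ Y) (hT' : T' ≤ Y / 100) (hT : T ≤ T') :
    4 * a + T' < 2 * a * n + b ∧ 2 * a * n + b + T' + T < a * n ^ 2 + b * n + g := by
  have hb := abs_nonneg b
  have hg := abs_nonneg g
  have hn0 : 0 < n := by linarith
  have h2 := mul_low b n hn0.le
  have h3 := neg_abs_le g
  have h3' := neg_abs_le b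
  have h3'' := le_abs_self b
  have h4 : (100 * |b| + 100 * |g| + 1000) * n ≤ n * n :=
    mul_le_mul_of_nonneg_right (by linarith) hn0.le
  have h5 : |g| * 1 ≤ |g| * n := mul_le_mul_of_nonneg_left (by linarith) hg
  have h6 : 0 ≤ |b| * n := by positivity
  have h6' : |b| * 1 ≤ |b| * n := mul_le_mul_of_nonneg_left (by linarith) hb
  have h7 : (100 * |b| + 100 * |g| + 1000) * n = 100 * (|b| * n) + 100 * (|g| * n) + 1000 * n := by
    ring
  have h8 : 1 * (n * (n - 2)) ≤ a * (n * (n - 2)) :=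
    mul_le_mul_of_nonneg_right ha (mul_nonneg hn0.le (by linarith))
  have h9 : 1 * (2 * (n - 2)) ≤ a * (2 * (n - 2)) :=
    mul_le_mul_of_nonneg_right ha (by linarith)
  have e1 : a * (n * (n - 2)) = a * n ^ 2 - 2 * a * n := by ring
  have e2 : a * (2 * (n - 2)) = 2 * a * n - 4 * a := by ring
  have e3 : 1 * (n * (n - 2)) = n * n - 2 * n := by ring
  rw [h7] at h4
  rw [e1, e3] at h8
  rw [e2] at h9
  constructor
  · linarith
  · linarith

theorem size3 {a g b T T₀ : ℝ} (ha : 1 ≤ a) (hT : T ≤ T₀) (hT0 : 1 ≤ T₀) (hg : 0 ≤ g)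
    (hTn : 0 ≤ T) :
    4 * a * (g + T) + b ^ 2 ≤ (4 * a * (g + 1) + b ^ 2 + 1) * T₀ := by
  have h1 : g * 1 ≤ g * T₀ := mul_le_mul_of_nonneg_left hT0 hg
  have h3 : (g + T) ≤ (g + 1) * T₀ := by
    have : (g + 1) * T₀ = g * T₀ + T₀ := by ring
    linarith
  have h4 : 4 * a * (g + T) ≤ 4 * a * ((g + 1) * T₀) :=
    mul_le_mul_of_nonneg_left h3 (by linarith)
  have h5 : b ^ 2 * 1 ≤ b ^ 2 * T₀ := mul_le_mul_of_nonneg_left hT0 (by positivity)
  have h6 : (4 * a * (g + 1) + b ^ 2 + 1) * T₀ =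
      4 * a * ((g + 1) * T₀) + b ^ 2 * T₀ + T₀ := by ring
  rw [h6]
  linarith

end Pool.Agent.H426R3.SQ
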