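import Pool.Agent.H426R3.SQ.Q1

set_option autoImplicit false

/-! # The arithmetic core for a quadratic polynomial (helper426) -/

namespace Pool.Agent.H426R3.SQ

open Finset Pool.Agent.H256R2.SC

open scoped Classical

/-- `4 α` times the shifted polynomial is `(2 α n + β) ^ 2 + wf u` -/
def wf (α β γ u : ℤ) : ℤ := 4 * α * (γ + u) - β ^ 2

theorem four_mul_quad (α β γ a u : ℤ) :
    4 * α * (α * a ^ 2 + β * a + γ + u) = (2 * α * a + β) ^ 2 + wf α β γ u := by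
  unfold wf
  ring

/-- the surviving shifts -/
noncomputable def GF (α β γ n₁ : ℤ) (y : ℝ) (T : ℕ) (Bad : Finset ℤ) : Finset ℤ :=
  (Icc (-(T : ℤ)) (T : ℤ)).filter (fun u => ¬ IsSquare (-(wf α β γ u)) ∧ wf α β γ u ∉ Bad ∧
    (∀ p : ℕ, p.Prime → zR y < (p : ℝ) → (p : ℝ) ≤ y → ¬ (p : ℤ) ∣ γ + u) ∧
    (∀ p : ℕ, p.Prime → (p : ℝ) ≤ zR y → ¬ (p : ℤ) ∣ α * n₁ ^ 2 + β * n₁ + γ + u))

/-- inverse modulo `p` -/
def ginv (k : ℤ) (p : ℕ) : ℤ := Int.gcdA k p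

theorem ginv_spec {p : ℕ} (hp : p.Prime) {k : ℤ} (hk : ¬ (p : ℤ) ∣ k) :
    (p : ℤ) ∣ k * ginv k p - 1 := by
  have h1 : IsCoprime (p : ℤ) k := (Nat.prime_iff_prime_int.mp hp).coprime_iff_not_dvd.mpr hk
  have h2 : Int.gcd k p = 1 := by
    rw [Int.gcd_comm]
    exact Int.isCoprime_iff_gcd_eq_one.mp h1
  have h3 := Int.gcd_eq_gcd_ab k p
  rw [h2] at h3
  unfold ginv
  refine ⟨-(Int.gcdB k p), ?_⟩
  push_cast at h3
  linear_combination -h3

theorem gscale_iff {p : ℕ} (hp : p.Prime) {k h : ℤ} (hkh : (p : ℤ) ∣ k * h - 1) (a j w : ℤ) :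
    (p : ℤ) ∣ (k * a + j) ^ 2 + w ↔ (p : ℤ) ∣ (a + h * j) ^ 2 + h ^ 2 * w := by
  have h5 : (p : ℤ) ∣ h ^ 2 * ((k * a + j) ^ 2 + w) ↔
      (p : ℤ) ∣ (a + h * j) ^ 2 + h ^ 2 * w := by
    refine dvd_iff_dvd_of_dvd_sub ?_
    have e : h ^ 2 * ((k * a + j) ^ 2 + w) - ((a + h * j) ^ 2 + h ^ 2 * w) =
        (k * h - 1) * (a * (k * h * a + a + 2 * h * j)) := by ring
    rw [e]
    exact Dvd.dvd.mul_right hkh _
  rw [← h5]
  constructor
  · intro h
    exact Dvd.dvd.mul_left h _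
  · intro hd
    rcases (Nat.prime_iff_prime_int.mp hp).dvd_or_dvd hd with h6 | h6
    · exfalso
      have h7 := (Nat.prime_iff_prime_int.mp hp).dvd_of_dvd_pow h6
      have h8 : (p : ℤ) ∣ 1 := by
        have h9 : (p : ℤ) ∣ k * h - (k * h - 1) := dvd_sub (Dvd.dvd.mul_left h7 _) hkh
        have e2 : k * h - (k * h - 1) = 1 := by ring
        rwa [e2] at h9
      have h10 : p ∣ 1 := by exact_mod_cast h8
      exact hp.one_lt.ne' (Nat.dvd_one.mp h10)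
    · exact h6

theorem rho_le_scale {p : ℕ} (hp : p.Prime) {k h : ℤ} (hkh : (p : ℤ) ∣ k * h - 1) (w w' : ℤ)
    (hrel : ∀ x : ℤ, (p : ℤ) ∣ x ^ 2 + w → (p : ℤ) ∣ (k * x) ^ 2 + w') : rho w p ≤ rho w' p := by
  have hp0 : (0 : ℤ) < p := by exact_mod_cast hp.pos
  have hmod : ∀ x : ℕ, ((((k * x) % (p : ℤ)).toNat : ℕ) : ℤ) = (k * x) % (p : ℤ) := fun x =>
    Int.toNat_of_nonneg (Int.emod_nonneg _ hp0.ne')
  have hdv : ∀ x : ℕ, (p : ℤ) ∣ (k * x) % (p : ℤ) - k * x := by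
    intro x
    have := Int.emod_add_mul_ediv (k * x) (p : ℤ)
    exact ⟨-((k * x) / (p : ℤ)), by linarith⟩
  unfold rho
  refine Finset.card_le_card_of_injOn (fun x : ℕ => ((k * x) % (p : ℤ)).toNat) ?_ ?_
  · intro x hx
    rw [Finset.mem_coe, mem_filter, mem_range] at hx
    rw [Finset.mem_coe, mem_filter, mem_range]
    refine ⟨?_, ?_⟩
    · have h1 := Int.emod_lt_of_pos (k * x) hp0
      have h2 := hmod x
      change ((k * x) % (p : ℤ)).toNat < p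
      omega
    · rw [hmod x, C1e_congr w' p _ (k * x) (hdv x)]
      exact hrel x hx.2
  · intro x hx x' hx' heq
    rw [Finset.mem_coe, mem_filter, mem_range] at hx hx'
    simp only at heq
    have h1 : (k * x) % (p : ℤ) = (k * x') % (p : ℤ) := by
      rw [← hmod x, ← hmod x', heq]
    have h2 : (p : ℤ) ∣ k * x - k * x' :=
      Int.ModEq.dvd (show k * x' ≡ k * x [ZMOD (p : ℤ)] from h1.symm)
    have h3 : (p : ℤ) ∣ (x : ℤ) - x' := by
      have e : (x : ℤ) - x' = h * (k * x - k * x') - (k * h - 1) * ((x : ℤ) - x') := by ring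
      rw [e]
      exact dvd_sub (Dvd.dvd.mul_left h2 _) (Dvd.dvd.mul_right hkh _)
    have h4 : (x : ℤ) - x' = 0 := by
      apply Int.eq_zero_of_abs_lt_dvd h3
      rw [abs_lt]
      constructor <;> omega
    omega

theorem grho_scale {p : ℕ} (hp : p.Prime) {k h : ℤ} (hkh : (p : ℤ) ∣ k * h - 1) (w : ℤ) :
    rho (h ^ 2 * w) p = rho w p := by
  apply le_antisymm
  · refine rho_le_scale hp hkh _ _ fun x hx => ?_
    have e : (k * x) ^ 2 + w = k ^ 2 * (x ^ 2 + h ^ 2 * w) - (k * h - 1) * ((k * h + 1) * w) := by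
      ring
    rw [e]
    exact dvd_sub (Dvd.dvd.mul_left hx _) (Dvd.dvd.mul_right hkh _)
  · refine rho_le_scale hp (k := h) (h := k) (by rwa [mul_comm] at hkh) _ _ fun x hx => ?_
    have e : (h * x) ^ 2 + h ^ 2 * w = h ^ 2 * (x ^ 2 + w) := by ring
    rw [e]
    exact Dvd.dvd.mul_left hx _

/-- trivial factorisation -/
theorem not_prime_quad {k : ℕ} {α x v : ℤ} (hα : 0 < α) (hk : 4 * α * (k : ℤ) = x ^ 2 - v ^ 2)
    (h1 : 4 * α < x - |v|) (h2 : x + |v| < k) : ¬ k.Prime := by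
  intro hp
  have e : (x - v) * (x + v) = 4 * α * (k : ℤ) := by rw [hk]; ring
  have hv1 := le_abs_self v
  have hv2 := neg_abs_le v
  have hd : (k : ℤ) ∣ (x - v) * (x + v) := ⟨4 * α, by rw [e]; ring⟩
  rcases (Nat.prime_iff_prime_int.mp hp).dvd_or_dvd hd with h | h
  · have := Int.le_of_dvd (by linarith) h
    linarith
  · have := Int.le_of_dvd (by linarith) h
    linarith

theorem filter_helper2 (S : Finset ℤ) (P Q R : ℤ → Prop) (d1 : DecidablePred P)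
    (d2 : DecidablePred Q) (d3 : DecidablePred (fun a => P a ∧ R a)) (h : ∀ a, Q a ↔ R a) :
    (@Finset.filter ℤ Q d2 (@Finset.filter ℤ P d1 S)).card =
      (@Finset.filter ℤ (fun a => P a ∧ R a) d3 S).card := by
  have : (@Finset.filter ℤ Q d2 (@Finset.filter ℤ P d1 S)) =
      (@Finset.filter ℤ (fun a => P a ∧ R a) d3 S) := by
    ext a
    simp [h, and_assoc]
  rw [this]

/-- the arithmetic core -/
theorem quad_arith {α β γ n₁ : ℤ} (hα : 0 < α) {c₂ c Y : ℝ} (hcov : CovAt c₂ c Y) (hY : 1 ≤ Y) {y : ℝ} (hαy : ((2 * α : ℤ) : ℝ) ≤ y)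
    (hzy : zR y ≤ y) (hyL : y ≤ (Real.log Y) ^ 3) (hL3 : Real.exp 3 ≤ (Real.log Y) ^ 3)
    {T T' : ℕ} (hT : 2 * (((T' : ℕ)) : ℝ) < (Real.log Y) ^ 3)
    (hTT' : ∀ u : ℤ, |u| ≤ (T : ℤ) → |wf α β γ u| ≤ (T' : ℤ))
    (Bad : Finset ℤ) (pu : ℤ → ℕ) (P9 R : ℝ) (hP9 : 1 ≤ P9)
    (hpu : ∀ u ∈ Bad, (pu u).Prime ∧ y < (pu u : ℝ) ∧ (pu u : ℝ) ≤ P9 ∧
      ∃ t : ℤ, (pu u : ℤ) ∣ t ^ 2 + u)
    (hinj : Set.InjOn pu (Bad : Set ℤ))
    (hrough : ∀ u : ℤ, u ≠ 0 → ¬ IsSquare (-u) → |u| ≤ (T' : ℤ) → u ∉ Bad →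
      ∀ z x : ℝ, (Real.log Y) ^ 3 ≤ x →
      x ≤ z → z ≤ Real.exp ((Real.log Y) ^ (1 / 20 : ℝ)) →
      c₂ * Real.log x / Real.log (Real.log Y) - 1 ≤
        ∑ s ∈ ((SP ((Real.log Y) ^ 3) z (Bad.image pu)).powerset.filter
            (fun s : Finset ℕ => s.Nonempty ∧ ∏ p ∈ s, (p : ℝ) ≤ x)), ∏ p ∈ s, gk u p)
    (hcard : ((GF α β γ n₁ y T Bad).card : ℝ) ≤ c * Real.log Y)
    (hW : 4 * ((primorial ⌊y⌋₊ : ℝ) * P9 ^ Bad.card) ≤ Y ^ (1 / 2 : ℝ))
    (hR1 : y ≤ R) (hR2 : P9 ≤ R) (hR3 : Real.exp ((Real.log Y) ^ (1 / 20 : ℝ)) ≤ R)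
    (M : ℕ) (hM : Y ≤ (M : ℝ))
    (hR4 : ∀ n : ℤ, (M : ℤ) < n → R + T < (((α * n ^ 2 + β * n + γ : ℤ)) : ℝ))
    (hR5 : ∀ n : ℤ, (M : ℤ) < n → 4 * α + (T' : ℤ) < 2 * α * n + β ∧
      2 * α * n + β + (T' : ℤ) + T < α * n ^ 2 + β * n + γ) :
    ∃ m : ℕ, M < m ∧ (m : ℝ) ≤ M + Y ∧
      ∀ k : ℕ, |(k : ℤ) - (α * (m : ℤ) ^ 2 + β * (m : ℤ) + γ)| ≤ (T : ℤ) → ¬ k.Prime := by
  have hα1 : (0 : ℝ) < ((2 * α : ℤ) : ℝ) := by exact_mod_cast (by linarith : 0 < 2 * α)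
  have hy0 : 0 ≤ y := by linarith
  have hnd2 : ∀ p : ℕ, y < (p : ℝ) → ¬ (p : ℤ) ∣ 2 * α := by
    intro p hp hd
    have h1 := Int.le_of_dvd (by linarith) hd
    have h2 : (p : ℝ) ≤ ((2 * α : ℤ) : ℝ) := by exact_mod_cast h1
    linarith
  have hdiv4 : ∀ p : ℕ, p.Prime → y < (p : ℝ) → ∀ k : ℤ, (p : ℤ) ∣ 4 * α * k → (p : ℤ) ∣ k := by
    intro p hp hpy k hd
    have e : 4 * α * k = 2 * (2 * α * k) := by ring
    rw [e] at hd
    rcases (Nat.prime_iff_prime_int.mp hp).dvd_or_dvd hd with h | h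
    · exact absurd (Dvd.dvd.mul_right h α) (hnd2 p hpy)
    · rcases (Nat.prime_iff_prime_int.mp hp).dvd_or_dvd h with h' | h'
      · exact absurd h' (hnd2 p hpy)
      · exact h'
  have hY0 : 0 < Y := by linarith
  set L : ℝ := Real.log Y with hL
  have hL0 : 0 ≤ L := Real.log_nonneg hY
  have hYr : ∀ s : ℝ, Y ^ s = Real.exp (s * L) := by
    intro s
    rw [Real.rpow_def_of_pos hY0, mul_comm]
  -- the set of primes
  set S₁ : Finset ℕ := (range (⌊y⌋₊ + 1)).filter Nat.Prime with hS₁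
  set B : Finset ℕ := Bad.image pu with hB
  have hS₁mem : ∀ p : ℕ, p ∈ S₁ ↔ p.Prime ∧ (p : ℝ) ≤ y := by
    intro p
    rw [hS₁, mem_filter, mem_range, Nat.lt_succ_iff, Nat.le_floor_iff hy0]
    exact and_comm
  have hBmem : ∀ p ∈ B, p.Prime ∧ y < (p : ℝ) ∧ (p : ℝ) ≤ P9 := by
    intro p hp
    obtain ⟨u, hu, rfl⟩ := mem_image.mp hp
    exact ⟨(hpu u hu).1, (hpu u hu).2.1, (hpu u hu).2.2.1⟩
  have hdisj : Disjoint S₁ B := by
    rw [Finset.disjoint_left]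
    intro p h1 h2
    have h3 := ((hS₁mem p).mp h1).2
    have h4 := (hBmem p h2).2.1
    linarith
  set S : Finset ℕ := S₁ ∪ B with hS
  have hSp : ∀ p ∈ S, p.Prime := by
    intro p hp
    rcases mem_union.mp hp with h | h
    · exact ((hS₁mem p).mp h).1
    · exact (hBmem p h).1
  set W : ℕ := ∏ p ∈ S, p with hWdef
  have hWeq : W = primorial ⌊y⌋₊ * ∏ p ∈ B, p := by
    rw [hWdef, hS, prod_union hdisj]
    rfl
  have hWpos : 1 ≤ W := Nat.one_le_iff_ne_zero.mpr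
    (Finset.prod_ne_zero_iff.mpr fun p hp => (hSp p hp).ne_zero)
  have hWle : (W : ℝ) ≤ (primorial ⌊y⌋₊ : ℝ) * P9 ^ Bad.card := by
    rw [hWeq]
    push_cast
    apply mul_le_mul_of_nonneg_left _ (Nat.cast_nonneg _)
    calc ∏ p ∈ B, (p : ℝ) ≤ ∏ p ∈ B, P9 :=
          prod_le_prod (fun _ _ => Nat.cast_nonneg _) fun p hp => (hBmem p hp).2.2
      _ = P9 ^ B.card := by rw [prod_const]
      _ ≤ P9 ^ Bad.card := pow_le_pow_right₀ hP9 (by rw [hB]; exact card_image_le)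
  have hWr : (0 : ℝ) < W := by exact_mod_cast hWpos
  -- roots for the bad shifts
  have hroot : ∀ p : ℕ, ∃ t : ℤ, ∀ u ∈ Bad, pu u = p → (p : ℤ) ∣ (2 * α * t + β) ^ 2 + u := by
    intro p
    by_cases h : ∃ u ∈ Bad, pu u = p
    · obtain ⟨u, hu, hup⟩ := h
      obtain ⟨q1, q2, _, t, ht⟩ := hpu u hu
      refine ⟨ginv (2 * α) (pu u) * (t - β), fun v hv hvp => ?_⟩
      have : v = u := hinj hv hu (hvp.trans hup.symm)
      rw [this, ← hup]
      have h3 := ginv_spec q1 (hnd2 _ q2)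
      rw [C1e_congr u (pu u) _ t]
      · exact ht
      · have e : 2 * α * (ginv (2 * α) (pu u) * (t - β)) + β - t =
            (2 * α * ginv (2 * α) (pu u) - 1) * (t - β) := by ring
        rw [e]
        exact Dvd.dvd.mul_right h3 _
    · exact ⟨0, fun u hu hup => absurd ⟨u, hu, hup⟩ h⟩
  choose tt htt using hroot
  obtain ⟨r, hr⟩ := crt_int S (fun p => (p : ℤ)) (by
      intro i hi j hj hij
      exact Nat.isCoprime_iff_coprime.mpr ((Nat.coprime_primes (hSp i hi) (hSp j hj)).mpr hij))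
    (fun p => if (p : ℝ) ≤ zR y then n₁ else if (p : ℝ) ≤ y then 0 else tt p)
  set 𝒜 : Finset ℤ := (Ioc (M : ℤ) ((M : ℤ) + ⌊Y⌋₊)).filter (fun a => (W : ℤ) ∣ a - r) with h𝒜
  have hfl : Y / 2 ≤ (⌊Y⌋₊ : ℝ) := by
    have h1 := Nat.lt_floor_add_one Y
    have h2 : (1 : ℝ) ≤ (⌊Y⌋₊ : ℝ) := by
      have : 1 ≤ ⌊Y⌋₊ := Nat.le_floor (by simpa using hY)
      exact_mod_cast this
    linarith
  set N : ℝ := (⌊Y⌋₊ : ℝ) / W with hNdef
  have hN : Y ^ (1 / 2 : ℝ) ≤ N := by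
    rw [hNdef, le_div_iff₀ hWr]
    have h1 : (Y ^ (1 / 2 : ℝ)) * (Y ^ (1 / 2 : ℝ)) = Y := by
      rw [← Real.rpow_add hY0]; norm_num
    have h2 : 0 < Y ^ (1 / 2 : ℝ) := Real.rpow_pos_of_pos hY0 _
    have h3 : (W : ℝ) ≤ Y ^ (1 / 2 : ℝ) / 4 := by linarith
    calc Y ^ (1 / 2 : ℝ) * W ≤ Y ^ (1 / 2 : ℝ) * (Y ^ (1 / 2 : ℝ) / 4) :=
          mul_le_mul_of_nonneg_left h3 h2.le
      _ = Y / 4 := by rw [← mul_div_assoc, h1]
      _ ≤ _ := by linarith
  -- the counts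
  have hcount : ∀ (T'' : Finset ℕ) (s : ℕ → ℤ), (∀ p ∈ T'', p.Prime ∧ L ^ 3 < p ∧ p ∉ B) →
      |((𝒜.filter (fun a => ∀ p ∈ T'', (p : ℤ) ∣ (2 * α * a + β) ^ 2 + s p)).card : ℝ) -
        N * ∏ p ∈ T'', gk (s p) p| ≤ 2 ^ T''.card := by
    intro T'' s hT'
    have hnd : ∀ p ∈ T'', p.Prime ∧ ¬ p ∣ W := by
      intro p hp
      obtain ⟨h1, h2, h3⟩ := hT' p hp
      refine ⟨h1, fun h4 => ?_⟩
      rw [hWdef, Prime.dvd_finsetProd_iff h1.prime] at h4
      obtain ⟨q, hq, hpq⟩ := h4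
      have h5 : p = q := (Nat.prime_dvd_prime_iff_eq h1 (hSp q hq)).mp hpq
      rw [← h5] at hq
      rcases mem_union.mp hq with h | h
      · have := ((hS₁mem p).mp h).2
        linarith
      · exact h3 h
    have hgi : ∀ p ∈ T'', (p : ℤ) ∣ 2 * α * ginv (2 * α) p - 1 := fun p hp =>
      ginv_spec (hT' p hp).1 (hnd2 p (by
        have := (hT' p hp).2.1
        linarith))
    have h1 := count_sq_shift (M : ℤ) ((M : ℤ) + ⌊Y⌋₊) (by omega) W hWpos r T'' hnd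
      (fun p => ginv (2 * α) p * β) (fun p => (ginv (2 * α) p) ^ 2 * s p)
    have hiff : ∀ a : ℤ, (∀ p ∈ T'', (p : ℤ) ∣ (2 * α * a + β) ^ 2 + s p) ↔
        (∀ p ∈ T'', (p : ℤ) ∣ (a + ginv (2 * α) p * β) ^ 2 + (ginv (2 * α) p) ^ 2 * s p) := by
      intro a
      refine forall₂_congr fun p hp => ?_
      exact gscale_iff (hT' p hp).1 (hgi p hp) a β (s p)
    have h2 := filter_helper2 (Ioc (M : ℤ) ((M : ℤ) + ⌊Y⌋₊)) (fun a : ℤ => (W : ℤ) ∣ a - r) _ _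
      (fun a => inferInstance) (fun a => inferInstance) (fun a => inferInstance) hiff
    have h3 : ∏ p ∈ T'', gk (s p) p =
        ∏ p ∈ T'', (rho ((ginv (2 * α) p) ^ 2 * s p) p : ℝ) / (p : ℝ) := by
      refine prod_congr rfl fun p hp => ?_
      unfold gk
      rw [if_pos (hT' p hp).1, grho_scale (hT' p hp).1 (hgi p hp)]
    have h4 : (((M : ℤ) + ⌊Y⌋₊ : ℤ) : ℝ) - ((M : ℤ) : ℝ) = (⌊Y⌋₊ : ℝ) := by
      push_cast
      ring
    rw [h4] at h1
    have h5 : ((𝒜.filter (fun a => ∀ p ∈ T'', (p : ℤ) ∣ (2 * α * a + β) ^ 2 + s p)).card : ℝ) =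
        (((Ioc (M : ℤ) ((M : ℤ) + ⌊Y⌋₊)).filter (fun a : ℤ => (W : ℤ) ∣ a - r ∧
        ∀ p ∈ T'', (p : ℤ) ∣ (a + ginv (2 * α) p * β) ^ 2 +
          (ginv (2 * α) p) ^ 2 * s p)).card : ℝ) := by
      rw [h𝒜]
      norm_cast
    rw [h5, h3, hNdef]
    have hfin : ∏ p ∈ T'', (rho ((ginv (2 * α) p) ^ 2 * s p) p : ℝ) ≤ 2 ^ T''.card := by
      calc ∏ p ∈ T'', (rho ((ginv (2 * α) p) ^ 2 * s p) p : ℝ) ≤ ∏ p ∈ T'', (2 : ℝ) :=
            prod_le_prod (fun _ _ => Nat.cast_nonneg _) fun p hp => by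
              exact_mod_cast rho_le_two _ p (hT' p hp).1
        _ = 2 ^ T''.card := by rw [prod_const]
    refine le_trans (le_of_eq ?_) (h1.trans hfin)
    congr!
  have hN2 : 4 ≤ N := by
    refine le_trans ?_ hN
    refine le_trans ?_ hW
    have h1 : (1 : ℝ) ≤ (primorial ⌊y⌋₊ : ℝ) := by
      exact_mod_cast Nat.one_le_iff_ne_zero.mpr (primorial_pos _).ne'
    have h2 : (1 : ℝ) ≤ P9 ^ Bad.card := one_le_pow₀ hP9
    nlinarith
  -- the covering step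
  have key : ∃ a ∈ 𝒜, ∀ u ∈ GF α β γ n₁ y T Bad, ∃ p : ℕ, p.Prime ∧ y < (p : ℝ) ∧
      (p : ℝ) ≤ Real.exp (L ^ (1 / 20 : ℝ)) ∧ (p : ℤ) ∣ (2 * α * a + β) ^ 2 + wf α β γ u := by
    rcases (GF α β γ n₁ y T Bad).eq_empty_or_nonempty with hE | hE
    · have h1 := hcount ∅ (fun _ => 0) (by simp)
      simp only [Finset.notMem_empty, IsEmpty.forall_iff, implies_true, filter_true, prod_empty,
        mul_one, card_empty, pow_zero] at h1
      have h2 : (0 : ℝ) < (𝒜.card : ℝ) := by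
        have := (abs_le.mp h1).1
        linarith
      obtain ⟨a, ha⟩ := Finset.card_pos.mp (by exact_mod_cast h2)
      exact ⟨a, ha, fun u hu => by rw [hE] at hu; exact absurd hu (Finset.notMem_empty u)⟩
    · have hne : Nonempty (GF α β γ n₁ y T Bad) := ⟨⟨hE.choose, hE.choose_spec⟩⟩
      have hG : ∀ u ∈ GF α β γ n₁ y T Bad, |wf α β γ u| ≤ (T' : ℤ) ∧ wf α β γ u ∉ Bad ∧
          ¬ IsSquare (-(wf α β γ u)) := by
        intro u hu
        unfold GF at hu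
        rw [mem_filter, mem_Icc] at hu
        exact ⟨hTT' u (abs_le.mpr hu.1), hu.2.2.1, hu.2.1⟩
      have hG0 : ∀ u ∈ GF α β γ n₁ y T Bad, wf α β γ u ≠ 0 := by
        intro u hu h0
        apply (hG u hu).2.2
        rw [h0]
        exact ⟨0, by norm_num⟩
      obtain ⟨a, ha, hcv⟩ := hcov B (GF α β γ n₁ y T Bad) (by simpa using hcard)
        (fun p a k => (p : ℤ) ∣ (2 * α * a + β) ^ 2 + wf α β γ (k : ℤ))
        (fun p k => gk (wf α β γ (k : ℤ)) p)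
        (fun p k => gk_bound _ _)
        (by
          intro p hp hpL a k l h1 h2
          have h3 : (p : ℤ) ∣ wf α β γ (k : ℤ) - wf α β γ (l : ℤ) := by
            have := dvd_sub h1 h2
            have e : (2 * α * a + β) ^ 2 + wf α β γ (k : ℤ) -
                ((2 * α * a + β) ^ 2 + wf α β γ (l : ℤ)) =
                wf α β γ (k : ℤ) - wf α β γ (l : ℤ) := by ring
            rwa [e] at this
          have hk := (hG k k.2).1
          have hl := (hG l l.2).1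
          have h4 : wf α β γ (k : ℤ) - wf α β γ (l : ℤ) = 0 := by
            apply Int.eq_zero_of_abs_lt_dvd h3
            have h5 := abs_sub (wf α β γ (k : ℤ)) (wf α β γ (l : ℤ))
            have h6 : (2 * (T' : ℤ)) < (p : ℤ) := by
              have : (2 * (T' : ℝ)) < (p : ℝ) := hT.trans hpL
              exact_mod_cast this
            linarith
          have h7 : 4 * α * ((k : ℤ) - (l : ℤ)) = 0 := by
            unfold wf at h4
            linear_combination h4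
          have h8 : (k : ℤ) - (l : ℤ) = 0 := by
            rcases mul_eq_zero.mp h7 with h9 | h9
            · exfalso; linarith
            · exact h9
          exact Subtype.ext (by linarith))
        (fun k z x h1 h2 h3 => hrough _ (hG0 k k.2) (hG k k.2).2.2 (hG k k.2).1
          (hG k k.2).2.1 z x h1 h2 h3)
        𝒜 N (Y ^ (1 / 10 : ℝ)) hN (Real.rpow_nonneg hY0.le _) le_rfl
        (by
          intro T'' s hprod hT'
          have h1 := hcount T'' (fun p => wf α β γ ((s p : GF α β γ n₁ y T Bad) : ℤ)) hT'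
          refine h1.trans ?_
          rw [hYr]
          have h2 := two_pow_le hL0 (T := T'') (fun p hp => by
            have := (hT' p hp).2.1
            linarith) (by
              rw [hYr] at hprod
              refine hprod.trans (Real.exp_le_exp.mpr ?_)
              linarith)
          refine h2.trans (Real.exp_le_exp.mpr ?_)
          linarith)
      refine ⟨a, ha, fun u hu => ?_⟩
      obtain ⟨p, hp1, hp2, hp3, _, hp5⟩ := hcv ⟨u, hu⟩
      exact ⟨p, hp1, by linarith, hp3, hp5⟩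
  obtain ⟨a, ha, hcv⟩ := key
  rw [h𝒜, mem_filter, mem_Ioc] at ha
  have ha0 : 0 < a := lt_of_le_of_lt (by positivity) ha.1.1
  obtain ⟨m, hm⟩ := Int.eq_ofNat_of_zero_le ha0.le
  have hmM : M < m := by
    have : (M : ℤ) < (m : ℤ) := by rw [← hm]; exact ha.1.1
    exact_mod_cast this
  have hmY : (m : ℝ) ≤ M + Y := by
    have h1 : (m : ℤ) ≤ (M : ℤ) + ⌊Y⌋₊ := by rw [← hm]; exact ha.1.2
    have h2 : (m : ℝ) ≤ (M : ℝ) + (⌊Y⌋₊ : ℝ) := by exact_mod_cast h1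
    have h3 := Nat.floor_le hY0.le
    linarith
  refine ⟨m, hmM, hmY, fun k hk hkp => ?_⟩
  have hmM' : (M : ℤ) < (m : ℤ) := by exact_mod_cast hmM
  have hkR : R < (k : ℝ) := by
    have h1 := (abs_le.mp hk).1
    have h2 := hR4 m hmM'
    have h3 : (((α * (m : ℤ) ^ 2 + β * (m : ℤ) + γ : ℤ)) : ℝ) - (T : ℝ) ≤ (k : ℝ) := by
      have : (α * (m : ℤ) ^ 2 + β * (m : ℤ) + γ) - (T : ℤ) ≤ (k : ℤ) := by linarith
      exact_mod_cast this
    linarith
  have hnd : ∀ p : ℕ, p.Prime → (p : ℝ) ≤ R → ¬ (p : ℤ) ∣ (k : ℤ) := by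
    intro p hp hpR h
    have h1 : p ∣ k := by exact_mod_cast h
    have h2 := (Nat.prime_dvd_prime_iff_eq hp hkp).mp h1
    rw [h2] at hpR
    linarith
  -- divisibility by the primes of S
  have hdiv : ∀ p ∈ S, (p : ℤ) ∣ a - (if (p : ℝ) ≤ zR y then n₁ else if (p : ℝ) ≤ y then 0
      else tt p) := by
    intro p hp
    have h1 : (p : ℤ) ∣ a - r := by
      refine dvd_trans ?_ ha.2
      exact_mod_cast Finset.dvd_prod_of_mem (fun p => p) hp
    have h2 := dvd_add h1 (hr p hp)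
    have e : a - r + (r - (if (p : ℝ) ≤ zR y then n₁ else if (p : ℝ) ≤ y then 0
      else tt p)) = a - (if (p : ℝ) ≤ zR y then n₁ else if (p : ℝ) ≤ y then 0
      else tt p) := by ring
    rwa [e] at h2
  set u : ℤ := (k : ℤ) - (α * (m : ℤ) ^ 2 + β * (m : ℤ) + γ) with hu
  have hku : (k : ℤ) = α * a ^ 2 + β * a + γ + u := by rw [hu, hm]; ring
  have hku4 : 4 * α * (k : ℤ) = (2 * α * a + β) ^ 2 + wf α β γ u := by
    rw [hku, four_mul_quad]
  -- trivial factorisations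
  by_cases hsq : IsSquare (-(wf α β γ u))
  · obtain ⟨v, hv⟩ := hsq
    have hv2 : |v| ≤ (T' : ℤ) := by
      have h1 := (abs_le.mp (hTT' u hk)).1
      have h2 : |v| ≤ v * v := by
        rcases eq_or_ne v 0 with h | h
        · rw [h]; simp
        · have h2 : 1 ≤ |v| := Int.one_le_abs h
          have h3 : |v| * |v| = v * v := abs_mul_abs_self v
          nlinarith
      linarith
    obtain ⟨q1, q2⟩ := hR5 m hmM'
    refine not_prime_quad (k := k) (α := α) (x := 2 * α * a + β) (v := v) hα ?_ ?_ ?_ hkp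
    · rw [hku4]
      have : v ^ 2 = v * v := by ring
      rw [this, ← hv]
      ring
    · rw [hm]
      have : 4 * α + (T' : ℤ) < 2 * α * (m : ℤ) + β := q1
      change 4 * α < 2 * α * (m : ℤ) + β - |v|
      linarith
    · rw [hm]
      have h3 := (abs_le.mp hk).1
      change 2 * α * (m : ℤ) + β + |v| < (k : ℤ)
      linarith
  by_cases hbad : wf α β γ u ∈ Bad
  · obtain ⟨h1, h2, h3, _⟩ := hpu _ hbad
    set P : ℕ := pu (wf α β γ u) with hPdef
    have hpB : P ∈ B := mem_image.mpr ⟨_, hbad, rfl⟩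
    have hpS : P ∈ S := mem_union_right _ hpB
    have h4 := hdiv P hpS
    rw [if_neg (not_le.mpr (lt_of_le_of_lt hzy h2)), if_neg (not_le.mpr h2)] at h4
    have h5 := htt P (wf α β γ u) hbad rfl
    apply hnd P h1 (h3.trans hR2)
    apply hdiv4 P h1 h2
    rw [hku4, C1e_congr (wf α β γ u) P _ (2 * α * tt P + β)]
    · exact h5
    · have e : 2 * α * a + β - (2 * α * tt P + β) = 2 * α * (a - tt P) := by ring
      rw [e]
      exact Dvd.dvd.mul_left h4 _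
  by_cases hG : u ∈ GF α β γ n₁ y T Bad
  · obtain ⟨p, hp1, hp2, hp3, hp4⟩ := hcv u hG
    apply hnd p hp1 (hp3.trans hR3)
    apply hdiv4 p hp1 hp2
    rw [hku4]
    exact hp4
  · apply hG
    unfold GF
    rw [mem_filter, mem_Icc]
    refine ⟨abs_le.mp hk, hsq, hbad, ?_, ?_⟩
    · intro p hp hp1 hp2 hpu'
      have hpS : p ∈ S := mem_union_left _ ((hS₁mem p).mpr ⟨hp, hp2⟩)
      have h4 := hdiv p hpS
      rw [if_neg (not_le.mpr hp1), if_pos hp2, sub_zero] at h4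
      apply hnd p hp (hp2.trans hR1)
      have h6 : (k : ℤ) = a * (α * a + β) + (γ + u) := by rw [hku]; ring
      rw [h6]
      exact dvd_add (Dvd.dvd.mul_right h4 _) hpu'
    · intro p hp hp1 hpu'
      have hp2 : (p : ℝ) ≤ y := hp1.trans hzy
      have hpS : p ∈ S := mem_union_left _ ((hS₁mem p).mpr ⟨hp, hp2⟩)
      have h4 := hdiv p hpS
      rw [if_pos hp1] at h4
      apply hnd p hp (hp2.trans hR1)
      have h6 : (k : ℤ) = (a - n₁) * (α * (a + n₁) + β) +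
          (α * n₁ ^ 2 + β * n₁ + γ + u) := by rw [hku]; ring
      rw [h6]
      exact dvd_add (Dvd.dvd.mul_right h4 _) hpu'

end Pool.Agent.H426R3.SQ
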