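import Pool.Agent.H426R3.SQ.Quad1
import Pool.Agent.H426R3.SQ.Quad0
import Pool.Agent.H426R3.SQ.Q3
import Pool.Agent.H426R3.SQ.M1p
import Pool.Agent.H426R3.SQ.Cov
import Pool.Agent.H426R3.SQ.R1
import Pool.Agent.H426R3.SQ.N1
import Pool.Agent.H426R3.SQ.N2
import Pool.Agent.H426R3.SQ.N3
import Pool.Agent.H426R3.SQ.N4
import Pool.Agent.H426R3.SQ.N5
import Pool.Agent.H426R3.SQ.S3e

set_option autoImplicit false

/-! # Record gaps around the values of a quadratic polynomial (helper426) -/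

namespace Pool.Agent.H426R3.SQ

open Finset Pool.Agent.H256R2.SC

open scoped Classical

theorem GF_card (α β γ n₁ : ℤ) (y : ℝ) (T T₀ : ℕ) (hT : (T : ℤ) + |γ| ≤ T₀) (Bad : Finset ℤ) :
    ((GF α β γ n₁ y T Bad).card : ℝ) ≤ ((SV y T₀ (α * n₁ ^ 2 + β * n₁)).card : ℝ) +
      ((SV y T₀ (-(α * n₁ ^ 2 + β * n₁))).card : ℝ) + 1 := by
  set e : ℤ := α * n₁ ^ 2 + β * n₁ with he
  have hsub : GF α β γ n₁ y T Bad ⊆ ((SV y T₀ e).image (fun v : ℕ => (v : ℤ) - γ) ∪
      (SV y T₀ (-e)).image (fun v : ℕ => -(v : ℤ) - γ)) ∪ {-γ} := by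
    intro u hu
    unfold GF at hu
    rw [mem_filter, mem_Icc] at hu
    obtain ⟨⟨h1, h2⟩, h4, h5, h6, h7⟩ := hu
    have hg1 := le_abs_self γ
    have hg2 := neg_abs_le γ
    by_cases hne : γ + u = 0
    · apply mem_union_right
      rw [mem_singleton]
      linarith
    apply mem_union_left
    rcases lt_or_gt_of_ne hne with h | h
    · apply mem_union_right
      obtain ⟨v, hv⟩ := Int.eq_ofNat_of_zero_le (show 0 ≤ -(γ + u) by linarith)
      have hv' : u = -(v : ℤ) - γ := by linarith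
      refine mem_image.mpr ⟨v, ?_, hv'.symm⟩
      unfold SV
      rw [mem_filter, mem_Icc]
      refine ⟨⟨by omega, by omega⟩, fun p hp hp1 hp2 hd => h6 p hp hp1 hp2 ?_,
        fun p hp hp1 hd => h7 p hp hp1 ?_⟩
      · have e1 : γ + u = -(v : ℤ) := by rw [hv']; ring
        rw [e1]
        exact (Int.dvd_neg).mpr (by exact_mod_cast hd)
      · have e1 : α * n₁ ^ 2 + β * n₁ + γ + u = -((v : ℤ) + (-e)) := by rw [hv', he]; ring
        rw [e1]
        exact (Int.dvd_neg).mpr hd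
    · apply mem_union_left
      obtain ⟨v, hv⟩ := Int.eq_ofNat_of_zero_le h.le
      have hv' : u = (v : ℤ) - γ := by linarith
      refine mem_image.mpr ⟨v, ?_, hv'.symm⟩
      unfold SV
      rw [mem_filter, mem_Icc]
      refine ⟨⟨by omega, by omega⟩, fun p hp hp1 hp2 hd => h6 p hp hp1 hp2 ?_,
        fun p hp hp1 hd => h7 p hp hp1 ?_⟩
      · have e1 : γ + u = (v : ℤ) := by rw [hv']; ring
        rw [e1]
        exact_mod_cast hd
      · have e1 : α * n₁ ^ 2 + β * n₁ + γ + u = (v : ℤ) + e := by rw [hv', he]; ring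
        rw [e1]
        exact hd
  have h1 : (GF α β γ n₁ y T Bad).card ≤ (SV y T₀ e).card + (SV y T₀ (-e)).card + 1 := by
    refine (card_le_card hsub).trans ((card_union_le _ _).trans ?_)
    have h2 := card_union_le ((SV y T₀ e).image (fun v : ℕ => (v : ℤ) - γ))
      ((SV y T₀ (-e)).image (fun v : ℕ => -(v : ℤ) - γ))
    have h3 : ((SV y T₀ e).image (fun v : ℕ => (v : ℤ) - γ)).card ≤ (SV y T₀ e).card :=
      card_image_le
    have h4 : ((SV y T₀ (-e)).image (fun v : ℕ => -(v : ℤ) - γ)).card ≤ (SV y T₀ (-e)).card :=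
      card_image_le
    rw [card_singleton]
    omega
  exact_mod_cast h1

/-- a class with a different value -/
theorem exists_n1 {α β : ℤ} (hα : 0 < α) : ∃ n₁ : ℤ, α * n₁ ^ 2 + β * n₁ ≠ 0 := by
  by_cases h : α + β = 0
  · refine ⟨2, ?_⟩
    intro h2
    have : α = 0 := by linarith
    linarith
  · refine ⟨1, ?_⟩
    intro h2
    apply h
    linarith

theorem quad_main (α β γ : ℤ) (hα : 0 < α) : ∃ c : ℝ, 0 < c ∧ ∃ Y₀ : ℝ, ∀ Y : ℝ, Y₀ ≤ Y →
    ∀ M : ℕ, Y ≤ (M : ℝ) → ∃ m : ℕ, M < m ∧ (m : ℝ) ≤ M + Y ∧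
      ∀ q : ℕ, q.Prime → c * ff Y < |(q : ℝ) - (α * (m : ℝ) ^ 2 + β * m + γ)| := by
  obtain ⟨Cf, hCf, L₁, hfew⟩ := few_bad_of char_blocks exists_char same_rho_count
  obtain ⟨c₂, hc₂, y₁, hy₁, hRL⟩ := rough_lower_B (Cf + 1)
  obtain ⟨c, hc, X₁, hcov⟩ := covering_hit (c₂ / 3) (by positivity)
  obtain ⟨y₂, hmany⟩ := many_primes
  obtain ⟨Cs, hCs, y₃, hsur⟩ := survivors_e
  obtain ⟨n₁, hn₁⟩ := exists_n1 (β := β) hα
  set e₀ : ℤ := α * n₁ ^ 2 + β * n₁ with he₀
  set Pe : ℝ := ∏ p ∈ e₀.natAbs.primeFactors, (1 + 3 / (p : ℝ)) with hPe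
  have hPe0 : 0 < Pe := Finset.prod_pos fun p _ => by positivity
  set K : ℝ := 4 * (α : ℝ) * (|(γ : ℝ)| + 1) + (β : ℝ) ^ 2 + 1 with hK
  have hα1r : (1 : ℝ) ≤ α := by exact_mod_cast (by linarith : (1 : ℤ) ≤ α)
  have hγ0 : (0 : ℝ) ≤ |(γ : ℝ)| := abs_nonneg _
  have hβ0 : (0 : ℝ) ≤ |(β : ℝ)| := abs_nonneg _
  have hK1 : 1 ≤ K := by
    rw [hK]
    have : 0 ≤ 4 * (α : ℝ) * (|(γ : ℝ)| + 1) + (β : ℝ) ^ 2 := by positivity
    linarith
  obtain ⟨c', hc', X₂, hana⟩ := LG.ana (y₀ := max y₂ y₃) (half_pos hc)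
    (show 0 < 2 * Cs * Pe by positivity)
  obtain ⟨L₂, hL₂⟩ := ev_L (K * c') (max (max L₁ y₁)
    (max (2 / c) (1000 + 100 * (α + |(β : ℝ)| + |(γ : ℝ)|))))
  refine ⟨c' / 4, by positivity, max (max X₁ X₂) (Real.exp L₂), fun Y hY M hM => ?_⟩
  have hYX1 : X₁ ≤ Y := (le_max_left _ _).trans ((le_max_left _ _).trans hY)
  have hYX2 : X₂ ≤ Y := (le_max_right _ _).trans ((le_max_left _ _).trans hY)
  have hYL2 : Real.exp L₂ ≤ Y := (le_max_right _ _).trans hY
  obtain ⟨a1, a2, a3, a4, a5, a6, a7, a8, a9, a10, -, -, -, -, -, -, a17⟩ :=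
    hana Y hYX2 _ _ rfl rfl _ rfl
  have hY0 : 0 < Y := by linarith
  set L : ℝ := Real.log Y with hL
  have hLL2 : L₂ ≤ L := by
    rw [hL, Real.le_log_iff_exp_le hY0]
    exact hYL2
  obtain ⟨b1, b2, b3, b4, b5, b6, b7⟩ := hL₂ L hLL2
  have hLL1 : L₁ ≤ L := (le_max_left _ _).trans ((le_max_left _ _).trans b5)
  have hLy1 : y₁ ≤ L := (le_max_right _ _).trans ((le_max_left _ _).trans b5)
  have hLc : 2 / c ≤ L := (le_max_left _ _).trans ((le_max_right _ _).trans b5)
  have hLK : 1000 + 100 * (α + |(β : ℝ)| + |(γ : ℝ)|) ≤ L :=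
    (le_max_right _ _).trans ((le_max_right _ _).trans b5)
  set y : ℝ := L / 10 with hy
  set F : ℝ := c' * Pool.Agent.H256R2.SC.ff Y with hF
  set T₀ : ℕ := ⌊F⌋₊ with hT₀
  have hT₀y : 3 ≤ (T₀ : ℝ) := by linarith
  have hT₀n : 3 ≤ T₀ := by exact_mod_cast hT₀y
  set T : ℕ := T₀ / 2 with hT
  have hTT₀ : 2 * T ≤ T₀ := by omega
  have hTT₀2 : T₀ ≤ 2 * T + 1 := by omega
  have hTT₀r : 2 * (T : ℝ) ≤ (T₀ : ℝ) := by exact_mod_cast hTT₀
  have hTT₀r2 : (T₀ : ℝ) ≤ 2 * (T : ℝ) + 1 := by exact_mod_cast hTT₀2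
  set T' : ℕ := (4 * α * (|γ| + T) + β ^ 2).toNat with hT'
  have hT'z : ((T' : ℕ) : ℤ) = 4 * α * (|γ| + T) + β ^ 2 := by
    rw [hT']
    apply Int.toNat_of_nonneg
    positivity
  have hT'r : (T' : ℝ) = 4 * α * (|(γ : ℝ)| + T) + (β : ℝ) ^ 2 := by
    have : (((T' : ℕ) : ℤ) : ℝ) = ((4 * α * (|γ| + T) + β ^ 2 : ℤ) : ℝ) := by rw [hT'z]
    push_cast at this
    exact this
  have hT'K : (T' : ℝ) ≤ K * T₀ := by
    rw [hT'r, hK]
    have h2 : (T : ℝ) ≤ T₀ := by
      have : (0 : ℝ) ≤ T := Nat.cast_nonneg T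
      linarith
    exact size3 hα1r h2 (by linarith) hγ0 (Nat.cast_nonneg T)
  have hL0 : 0 < L := by linarith
  have hYexp : Y = Real.exp L := (Real.exp_log hY0).symm
  have hrp : 0 < L ^ (9 / 10 : ℝ) := Real.rpow_pos_of_pos hL0 _
  -- T is small
  have hTL : (T' : ℝ) ≤ L ^ (11 / 10 : ℝ) := by
    have hTF : (T' : ℝ) ≤ K * F :=
      hT'K.trans (mul_le_mul_of_nonneg_left a6 (by linarith))
    refine hTF.trans ?_
    have h1 : Pool.Agent.H256R2.SC.ff Y ≤ L * (Real.log L) ^ 3 := by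
      unfold Pool.Agent.H256R2.SC.ff
      rw [← hL]
      have hl0 : 0 < Real.log L := by linarith
      by_cases h3 : 1 ≤ Real.log (Real.log L)
      · have h4 : Real.log (Real.log (Real.log L)) ≤ Real.log L := by
          have e1 := Real.log_le_sub_one_of_pos (show 0 < Real.log (Real.log L) by linarith)
          have e2 := Real.log_le_sub_one_of_pos hl0
          linarith
        have h5 : 0 ≤ Real.log (Real.log (Real.log L)) := Real.log_nonneg h3
        rw [div_le_iff₀ (by positivity)]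
        have h6 : 1 ≤ (Real.log (Real.log L)) ^ 2 := one_le_pow₀ h3
        calc L * (Real.log L) ^ 2 * Real.log (Real.log (Real.log L)) ≤
              L * (Real.log L) ^ 2 * Real.log L := by gcongr
          _ = L * (Real.log L) ^ 3 * 1 := by ring
          _ ≤ _ := by gcongr
      · exfalso
        push Not at h3
        rw [Real.log_lt_iff_lt_exp hl0] at h3
        have := Real.exp_one_lt_d9
        linarith
    have h2 : L ^ (11 / 10 : ℝ) = L * L ^ (1 / 10 : ℝ) := by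
      rw [← Real.rpow_one_add' hL0.le (by norm_num)]
      norm_num
    rw [h2, hF]
    calc K * (c' * Pool.Agent.H256R2.SC.ff Y) ≤ K * (c' * (L * (Real.log L) ^ 3)) := by gcongr
      _ = L * (K * c' * (Real.log L) ^ 3) := by ring
      _ ≤ L * L ^ (1 / 10 : ℝ) := by gcongr
  have hTL2 : (T' : ℝ) ≤ L * L / 200 := by
    have h1 : L ^ (11 / 10 : ℝ) ≤ L * L ^ (9 / 10 : ℝ) := by
      rw [← Real.rpow_one_add' hL0.le (by norm_num)]
      exact Real.rpow_le_rpow_of_exponent_le (by linarith) (by norm_num)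
    have h2 : L * L ^ (9 / 10 : ℝ) ≤ L * (L / 200) := by
      apply mul_le_mul_of_nonneg_left _ hL0.le
      linarith
    linarith
  -- logarithms of y
  have hly0 : Real.log y = Real.log L - Real.log 10 := by
    rw [hy, Real.log_div hL0.ne' (by norm_num)]
  have hl10 := LG.log10_lt
  have hly : 97 ≤ Real.log y := by rw [hly0]; linarith
  have hly' : Real.log y ≤ Real.log L := by
    rw [hly0]
    have : 0 < Real.log 10 := Real.log_pos (by norm_num)
    linarith
  have hlly : 1 ≤ Real.log (Real.log y) := by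
    rw [Real.le_log_iff_exp_le (by linarith)]
    have := Real.exp_one_lt_d9
    linarith
  have hy0 : 0 < y := by positivity
  have hzy : zR y ≤ y := zR_le hy0 (by linarith) hlly
  -- powers
  have hL1 : 1 ≤ L := by linarith
  have hL3L : L ≤ L ^ 3 := le_self_pow₀ hL1 (by norm_num)
  have hexp3 : Real.exp 3 ≤ L ^ 3 := by
    have e1 : Real.exp 3 = (Real.exp 1) ^ 3 := by
      rw [← Real.exp_nat_mul]; norm_num
    rw [e1]
    have := Real.exp_one_lt_d9
    exact pow_le_pow_left₀ (Real.exp_pos _).le (by linarith) 3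
  -- the bad shifts
  obtain ⟨𝓑, h𝓑1, h𝓑2⟩ := hfew L hLL1 T' hTL
  set Bad : Finset ℤ := 𝓑.filter (fun u => u ≠ 0 ∧ u ≠ -1 ∧ |u| ≤ (T' : ℤ)) with hBad
  have hBadc : (Bad.card : ℝ) ≤ L ^ (9 / 10 : ℝ) := by
    refine le_trans ?_ h𝓑1
    exact_mod_cast card_le_card (filter_subset _ _)
  obtain ⟨pu, hpu, hinj⟩ := exists_inj_choice Bad
    (fun u => (Finset.Icc 1 ⌊y ^ 9⌋₊).filter (fun p : ℕ => p.Prime ∧ y < (p : ℝ) ∧
      ∃ t : ℤ, (p : ℤ) ∣ t ^ 2 + u)) (by
      intro u hu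
      rw [hBad, mem_filter] at hu
      have h1 : |(u : ℝ)| ≤ y ^ 2 := by
        have e1 : |(u : ℝ)| ≤ (T' : ℝ) := by exact_mod_cast hu.2.2.2
        refine e1.trans (hTL2.trans ?_)
        have e2 : y ^ 2 = L * L / 100 := by rw [hy]; ring
        rw [e2]
        have e3 : 0 < L * L := mul_pos hL0 hL0
        linarith
      have h2 := hmany y ((le_max_left _ _).trans a3) u hu.2.1 hu.2.2.1 h1
      have h3 : (Bad.card : ℝ) ≤ y / 20 := by
        rw [hy]
        linarith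
      exact_mod_cast h3.trans h2)
  have hpu' : ∀ u ∈ Bad, (pu u).Prime ∧ y < (pu u : ℝ) ∧ (pu u : ℝ) ≤ y ^ 9 ∧
      ∃ t : ℤ, (pu u : ℤ) ∣ t ^ 2 + u := by
    intro u hu
    have h1 := hpu u hu
    rw [mem_filter, mem_Icc] at h1
    refine ⟨h1.2.1, h1.2.2.1, ?_, h1.2.2.2⟩
    calc (pu u : ℝ) ≤ (⌊y ^ 9⌋₊ : ℝ) := by exact_mod_cast h1.1.2
      _ ≤ y ^ 9 := Nat.floor_le (by positivity)
  have hy1 : 1 ≤ y := by rw [hy]; linarith
  have hy9 : y ^ 9 ≤ Y := by
    have e1 : y ^ 9 = Real.exp (9 * Real.log y) := by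
      rw [show (9:ℝ) = ((9:ℕ):ℝ) by norm_num, Real.exp_nat_mul, Real.exp_log hy0]
    rw [e1, hYexp]
    apply Real.exp_le_exp.mpr
    have e2 : (1:ℝ) ≤ L ^ (9 / 10 : ℝ) := Real.one_le_rpow hL1 (by norm_num)
    have e3 : 900 * Real.log L * 1 ≤ 900 * Real.log L * L ^ (9 / 10 : ℝ) := by
      apply mul_le_mul_of_nonneg_left e2
      linarith
    linarith
  have hquad : (T' : ℝ) ≤ Y / 100 := by
    have h1 := Real.quadratic_le_exp_of_nonneg hL0.le
    rw [← hYexp] at h1
    have h2 : L ^ 2 = L * L := by ring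
    rw [h2] at h1
    linarith
  have hYbig : 1000 ≤ Y := by
    have h1 := Real.add_one_le_exp L
    rw [← hYexp] at h1
    linarith
  have hT'0 : (T : ℝ) ≤ (T' : ℝ) := by
    rw [hT'r]
    have h1 : (0 : ℝ) ≤ T := Nat.cast_nonneg T
    have h2 : (1 : ℝ) * T ≤ 4 * α * T := mul_le_mul_of_nonneg_right (by linarith) h1
    have h3 : 0 ≤ 4 * (α : ℝ) * |(γ : ℝ)| := by positivity
    have h4 : 0 ≤ (β : ℝ) ^ 2 := by positivity
    have h5 : 4 * (α : ℝ) * (|(γ : ℝ)| + T) = 4 * α * |(γ : ℝ)| + 4 * α * T := by ring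
    rw [h5]
    linarith
  have hLY : L + 1 ≤ Y := by
    have h1 := Real.add_one_le_exp L
    rwa [← hYexp] at h1
  -- apply the arithmetic core
  obtain ⟨m, hm1, hm2, hm3⟩ := quad_arith (α := α) (β := β) (γ := γ) (n₁ := n₁) hα
    (c₂ := c₂ / 3) (c := c) (Y := Y)
    (fun B κ _ _ _ => hcov Y hYX1 B κ) a1 (y := y)
    (by
      push_cast
      rw [hy]
      linarith) hzy
    (by
      rw [← hL]
      have : y ≤ L := by rw [hy]; linarith
      linarith)
    (by rw [← hL]; exact hexp3) (T := T) (T' := T')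
    (by
      rw [← hL]
      have h1 : 2 * (T' : ℝ) ≤ L * L / 100 := by linarith
      have h2 : L * L / 100 < L ^ 3 := by
        have : L ^ 3 = L * L * L := by ring
        rw [this]
        have h3 : 0 < L * L := by positivity
        have h4 : L * L * 1 ≤ L * L * L := mul_le_mul_of_nonneg_left hL1 h3.le
        linarith
      linarith)
    (by
      intro u hu
      rw [hT'z]
      unfold wf
      have h1 := abs_sub (4 * α * (γ + u)) (β ^ 2)
      have h2 : |4 * α * (γ + u)| ≤ 4 * α * (|γ| + T) := by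
        rw [abs_mul, abs_of_pos (by linarith : (0:ℤ) < 4 * α)]
        apply mul_le_mul_of_nonneg_left _ (by linarith)
        exact (abs_add_le _ _).trans (by linarith)
      have h3 : |β ^ 2| = β ^ 2 := abs_of_nonneg (sq_nonneg β)
      linarith)
    Bad pu (y ^ 9) Y (one_le_pow₀ hy1) hpu' hinj
    (by
      intro u hu0 husq huT huB z x hx hxz hz
      rw [← hL] at hx hz ⊢
      have hu1 : u ≠ -1 := by
        rintro rfl
        exact husq ⟨1, by norm_num⟩
      have huB' : u ∉ 𝓑 := fun h => huB (by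
        rw [hBad, mem_filter]
        exact ⟨h, hu0, hu1, huT⟩)
      have h1 := hRL (L ^ 3) z (Bad.image pu) (gk u) (hLy1.trans hL3L) (gk_bound u) (by
        intro w hw1 hw2
        have h2 := h𝓑2 u hu0 huT huB' w hw1 (hw2.trans hz)
        have h3 := sum_remove u (Y3 := L ^ 3) (w := w) (by positivity) (Bad.image pu) (by
          have e1 : ((Bad.image pu).card : ℝ) ≤ (Bad.card : ℝ) := by
            exact_mod_cast card_image_le
          have e2 : 2 * (Bad.card : ℝ) ≤ L := by linarith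
          linarith)
        linarith) x hx hxz
      have h2 : Real.log (L ^ 3) = 3 * Real.log L := by
        rw [Real.log_pow]
        norm_num
      rw [h2] at h1
      have h3 : c₂ / 3 * Real.log x / Real.log L = c₂ * Real.log x / (3 * Real.log L) := by
        have : Real.log L ≠ 0 := by linarith
        field_simp
      rw [h3]
      exact h1)
    (by
      rw [← hL]
      have hγT : (T : ℤ) + |γ| ≤ T₀ := by
        have h1 : (T : ℝ) + |(γ : ℝ)| ≤ T₀ := by
          have h2 : L / 10 ≤ T₀ := a5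
          linarith
        exact_mod_cast h1
      refine (GF_card α β γ n₁ y T T₀ hγT Bad).trans ?_
      have hne' : -e₀ ≠ 0 := neg_ne_zero.mpr hn₁
      have h1 := hsur y ((le_max_right _ _).trans a3) T₀ a5 a7 e₀ hn₁
      have h2 := hsur y ((le_max_right _ _).trans a3) T₀ a5 a7 (-e₀) hne'
      rw [Int.natAbs_neg] at h2
      have h1' : ((SV y T₀ e₀).card : ℝ) ≤ Cs * T₀ * (Real.log (Real.log y)) ^ 2 /
          ((Real.log y) ^ 2 * Real.log (Real.log (Real.log y))) * Pe := h1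
      have h2' : ((SV y T₀ (-e₀)).card : ℝ) ≤ Cs * T₀ * (Real.log (Real.log y)) ^ 2 /
          ((Real.log y) ^ 2 * Real.log (Real.log (Real.log y))) * Pe := h2
      have h3 : 2 * Cs * Pe * (T₀ : ℝ) * (Real.log (Real.log y)) ^ 2 /
          ((Real.log y) ^ 2 * Real.log (Real.log (Real.log y))) =
          Cs * T₀ * (Real.log (Real.log y)) ^ 2 /
          ((Real.log y) ^ 2 * Real.log (Real.log (Real.log y))) * Pe +
          Cs * T₀ * (Real.log (Real.log y)) ^ 2 /
          ((Real.log y) ^ 2 * Real.log (Real.log (Real.log y))) * Pe := by ring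
      rw [h3] at a8
      have h4 : 1 ≤ c / 2 * L := by
        rw [div_le_iff₀ hc] at hLc
        linarith
      linarith)
    (by
      have h1 := primorial_le_exp a4
      have h2 : (y ^ 9) ^ Bad.card ≤ Real.exp (L / 100) := by
        have e1 : (y ^ 9) ^ Bad.card = Real.exp (Bad.card * (9 * Real.log y)) := by
          rw [Real.exp_nat_mul, show (9:ℝ) = ((9:ℕ):ℝ) by norm_num, Real.exp_nat_mul,
            Real.exp_log hy0]
        rw [e1]
        apply Real.exp_le_exp.mpr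
        have e2 : (Bad.card : ℝ) * (9 * Real.log y) ≤ L ^ (9 / 10 : ℝ) * (9 * Real.log L) := by
          apply mul_le_mul hBadc (by linarith) (by linarith) hrp.le
        have e3 : L ^ (9 / 10 : ℝ) * (9 * Real.log L) =
            (900 * Real.log L * L ^ (9 / 10 : ℝ)) / 100 := by ring
        rw [e3] at e2
        linarith
      have h3 : Y ^ (1 / 2 : ℝ) = Real.exp (L / 2) := by
        rw [Real.rpow_def_of_pos hY0]
        congr 1
        ring
      rw [h3]
      have h4 : (4 : ℝ) ≤ Real.exp 3 := by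
        have := Real.add_one_le_exp (3 : ℝ)
        linarith
      calc 4 * ((primorial ⌊y⌋₊ : ℝ) * (y ^ 9) ^ Bad.card) ≤
            Real.exp 3 * (Real.exp (2 * y) * Real.exp (L / 100)) := by
              apply mul_le_mul h4 _ (by positivity) (Real.exp_pos _).le
              exact mul_le_mul h1 h2 (by positivity) (Real.exp_pos _).le
        _ = Real.exp (3 + (2 * y + L / 100)) := by rw [Real.exp_add, Real.exp_add]
        _ ≤ Real.exp (L / 2) := by
              apply Real.exp_le_exp.mpr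
              rw [hy]
              linarith)
    (by
      rw [hy]
      linarith) hy9
    (by
      rw [← hL]
      have h1 : L ^ (1 / 20 : ℝ) ≤ L := by
        have : 0 ≤ L ^ (1 / 20 : ℝ) := Real.rpow_nonneg hL0.le _
        linarith
      exact (Real.exp_le_exp.mpr h1).trans hYexp.symm.le)
    M hM
    (by
      intro n hn
      push_cast
      have hnr : (M : ℝ) < (n : ℝ) := by exact_mod_cast hn
      exact size1 hα1r (hM.trans_lt hnr) (hLK.trans (by linarith)) (hT'0.trans hquad))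
    (by
      intro n hn
      have hnr : (M : ℝ) < (n : ℝ) := by exact_mod_cast hn
      obtain ⟨q1, q2⟩ := size2 hα1r (hM.trans_lt hnr) (hLK.trans (by linarith)) hquad hT'0
      constructor
      · exact_mod_cast q1
      · exact_mod_cast q2)
  refine ⟨m, hm1, hm2, fun q hq => ?_⟩
  by_contra hcon
  push Not at hcon
  refine hm3 q ?_ hq
  have h1 : |(q : ℝ) - (α * (m : ℝ) ^ 2 + β * m + γ)| =
      ((((q : ℤ) - (α * (m : ℤ) ^ 2 + β * (m : ℤ) + γ)).natAbs : ℕ) : ℝ) := by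
    rw [Nat.cast_natAbs]
    push_cast
    rfl
  have h0 : c' / 4 * ff Y = F / 4 := by rw [ff_eq, hF]; ring
  rw [h0, h1] at hcon
  have h2 : ((q : ℤ) - (α * (m : ℤ) ^ 2 + β * (m : ℤ) + γ)).natAbs ≤ T := by
    have h3 : F < (T₀ : ℝ) + 1 := Nat.lt_floor_add_one F
    have h4 : ((((q : ℤ) - (α * (m : ℤ) ^ 2 + β * (m : ℤ) + γ)).natAbs : ℕ) : ℝ) <
        (T : ℝ) + 1 := by
      have : (0 : ℝ) ≤ T := Nat.cast_nonneg T
      linarith
    have h5 : ((q : ℤ) - (α * (m : ℤ) ^ 2 + β * (m : ℤ) + γ)).natAbs < T + 1 := by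
      exact_mod_cast h4
    omega
  rw [Int.abs_eq_natAbs]
  exact_mod_cast h2

end Pool.Agent.H426R3.SQ
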