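import Pool.Agent.H426R3.SQ.Defs
import Pool.Agent.H483R2.ED_BHK
import Pool.Agent.H483R2.ED_CountCRT
import Pool.Agent.Helper256.KM.E1

/-!
S2 (helper195): upper bound sieve for `q` prime, `a q + e` without small prime factors, from the
Brun-Hooley sieve.
-/

set_option autoImplicit false

open Finset

namespace Pool.Agent.H426R3.SQ

namespace S2A

open Pool.Agent.H410R2.ED (Pr BHK CountCRT)

/-- the sifting condition -/
def P (a : ℕ) (e : ℤ) (z : ℝ) (l n : ℕ) : Prop :=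
  l ∣ n ∨ ((l : ℝ) ≤ z ∧ ¬ l ∣ a ∧ (l : ℤ) ∣ (a : ℤ) * n + e)

theorem P_shift (a : ℕ) (e : ℤ) (z : ℝ) (l n : ℕ) : P a e z l (n + l) ↔ P a e z l n := by
  unfold P
  refine or_congr ?_ (and_congr_right fun _ => and_congr_right fun _ => ?_)
  · exact (Nat.dvd_add_left (dvd_refl l))
  · push_cast
    rw [show (a : ℤ) * ((n : ℤ) + l) + e = (l : ℤ) * a + ((a : ℤ) * n + e) by ring]
    exact dvd_add_right (dvd_mul_right _ _)

open Classical in
theorem count_le (a : ℕ) (e : ℤ) (z : ℝ) {l : ℕ} (hl : l.Prime) :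
    ((range l).filter (P a e z l)).card ≤ 2 := by
  by_cases hla : l ∣ a
  · have h1 : (range l).filter (P a e z l) ⊆ {0} := by
      intro n hn
      rw [mem_filter, mem_range] at hn
      obtain ⟨hn1, h | h⟩ := hn
      · rw [mem_singleton]
        exact Nat.eq_zero_of_dvd_of_lt h hn1
      · exact absurd hla h.2.1
    exact (card_le_card h1).trans (by simp)
  · have h1 : (range l).filter (P a e z l) ⊆
        {0} ∪ (range l).filter (fun n : ℕ => (l : ℤ) ∣ (a : ℤ) * n + e) := by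
      intro n hn
      rw [mem_filter, mem_range] at hn
      obtain ⟨hn1, h | h⟩ := hn
      · rw [mem_union, mem_singleton]
        exact Or.inl (Nat.eq_zero_of_dvd_of_lt h hn1)
      · rw [mem_union]
        exact Or.inr (mem_filter.2 ⟨mem_range.2 hn1, h.2.2⟩)
    have h2 : ((range l).filter (fun n : ℕ => (l : ℤ) ∣ (a : ℤ) * n + e)).card ≤ 1 := by
      rw [card_le_one]
      intro r hr r' hr'
      rw [mem_filter, mem_range] at hr hr'
      have hpr : Prime (l : ℤ) := Nat.prime_iff_prime_int.1 hl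
      have h2 : (l : ℤ) ∣ (a : ℤ) * ((r : ℤ) - r') := by
        have := dvd_sub hr.2 hr'.2
        rwa [show (a : ℤ) * (r : ℤ) + e - ((a : ℤ) * (r' : ℤ) + e)
          = (a : ℤ) * ((r : ℤ) - r') by ring] at this
      have h3 : (l : ℤ) ∣ (r : ℤ) - r' := (hpr.dvd_or_dvd h2).resolve_left
        (fun h => hla (by exact_mod_cast h))
      have h4 : (r' : ℤ) ≡ r [ZMOD l] := (Int.modEq_iff_dvd).2 h3
      have h5 : r' ≡ r [MOD l] := (Int.natCast_modEq_iff).1 h4
      exact (Nat.ModEq.eq_of_lt_of_lt h5 hr'.1 hr.1).symm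
    calc ((range l).filter (P a e z l)).card
        ≤ ({0} ∪ (range l).filter (fun n : ℕ => (l : ℤ) ∣ (a : ℤ) * n + e)).card :=
          card_le_card h1
      _ ≤ ({0} : Finset ℕ).card +
          ((range l).filter (fun n : ℕ => (l : ℤ) ∣ (a : ℤ) * n + e)).card := card_union_le _ _
      _ ≤ 2 := by rw [card_singleton]; omega

open Classical in
theorem one_le_count (a : ℕ) (e : ℤ) (z : ℝ) {l : ℕ} (hl : l.Prime) :
    1 ≤ ((range l).filter (P a e z l)).card := by
  rw [Nat.one_le_iff_ne_zero, Finset.card_ne_zero]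
  exact ⟨0, mem_filter.2 ⟨mem_range.2 hl.pos, Or.inl (dvd_zero l)⟩⟩

open Classical in
theorem two_le_count (a : ℕ) (e : ℤ) (he : e = 1 ∨ e = -1) (z : ℝ) {l : ℕ} (hl : l.Prime)
    (hla : ¬ l ∣ a) (hlz : (l : ℝ) ≤ z) :
    2 ≤ ((range l).filter (P a e z l)).card := by
  have hpr : Prime (l : ℤ) := Nat.prime_iff_prime_int.1 hl
  have hcop : IsCoprime (a : ℤ) (l : ℤ) := by
    rw [Nat.isCoprime_iff_coprime]
    exact ((Nat.Prime.coprime_iff_not_dvd hl).2 hla).symm
  obtain ⟨u, v, huv⟩ := hcop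
  -- a * u = 1 - v * l
  set r : ℤ := (-(e * u)) % (l : ℤ) with hr
  have hl0 : (0 : ℤ) < l := by exact_mod_cast hl.pos
  have hr0 : 0 ≤ r := Int.emod_nonneg _ hl0.ne'
  have hrl : r < l := Int.emod_lt_of_pos _ hl0
  have hdvd : (l : ℤ) ∣ (a : ℤ) * r + e := by
    have h1 : (l : ℤ) ∣ -(e * u) - r := Int.dvd_self_sub_emod
    have h2 : (a : ℤ) * r + e = (l : ℤ) * (e * v) - (a : ℤ) * (-(e * u) - r) := by
      linear_combination (-e) * huv
    rw [h2]
    exact dvd_sub (dvd_mul_right _ _) (h1.mul_left _)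
  have hne : r ≠ 0 := by
    intro h
    rw [h, mul_zero, zero_add] at hdvd
    have hunit : IsUnit (l : ℤ) := by
      rcases he with h1 | h1
      · rw [h1] at hdvd
        exact isUnit_of_dvd_one hdvd
      · rw [h1] at hdvd
        exact isUnit_of_dvd_one ((dvd_neg).1 hdvd)
    exact hpr.not_isUnit hunit
  have hrn : ((r.toNat : ℕ) : ℤ) = r := Int.toNat_of_nonneg hr0
  have hsub : ({0, r.toNat} : Finset ℕ) ⊆ (range l).filter (P a e z l) := by
    intro n hn
    rw [mem_insert, mem_singleton] at hn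
    rw [mem_filter, mem_range]
    rcases hn with rfl | rfl
    · exact ⟨hl.pos, Or.inl (dvd_zero l)⟩
    · refine ⟨by omega, Or.inr ⟨hlz, hla, ?_⟩⟩
      rw [hrn]
      exact hdvd
  have hcard : ({0, r.toNat} : Finset ℕ).card = 2 := by
    rw [card_insert_of_notMem, card_singleton]
    rw [mem_singleton]
    omega
  rw [← hcard]
  exact card_le_card hsub

theorem prime_of_mem_Pr {k J l : ℕ} (h : l ∈ Pr k J) : l.Prime := by
  unfold Pr at h
  exact (mem_filter.1 h).2.1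

/-- the modulus attached to `n` -/
noncomputable def nn (a : ℕ) (e : ℤ) (z : ℝ) (k J n : ℕ) : ℕ :=
  open Classical in ∏ l ∈ (Pr k J).filter (fun l => P a e z l n), l

theorem dvd_nn (a : ℕ) (e : ℤ) (z : ℝ) {k J l : ℕ} (n : ℕ) (hl : l ∈ Pr k J) :
    l ∣ nn a e z k J n ↔ P a e z l n := by
  classical
  unfold nn
  rw [Prime.dvd_finsetProd_iff (prime_of_mem_Pr hl).prime]
  constructor
  · rintro ⟨p, hp, hlp⟩
    rw [mem_filter] at hp
    have : l = p := (Nat.prime_dvd_prime_iff_eq (prime_of_mem_Pr hl) (prime_of_mem_Pr hp.1)).1 hlp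
    subst this
    exact hp.2
  · intro h
    exact ⟨l, mem_filter.2 ⟨hl, by convert h⟩, dvd_rfl⟩

/-- choice of the level -/
theorem exists_J {t : ℝ} (ht : 2 ≤ t) : ∃ J : ℕ, (2 : ℝ) ^ 2 ^ J ≤ t ∧ t < ((2 : ℝ) ^ 2 ^ J) ^ 2 := by
  classical
  have hex : ∃ J : ℕ, t < (2 : ℝ) ^ 2 ^ J := by
    obtain ⟨n, hn⟩ := pow_unbounded_of_one_lt t (by norm_num : (1 : ℝ) < 2)
    refine ⟨n, hn.trans_le ?_⟩
    exact pow_le_pow_right₀ (by norm_num) Nat.lt_two_pow_self.le
  have h0 : Nat.find hex ≠ 0 := by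
    intro h
    have := Nat.find_spec hex
    rw [h] at this
    norm_num at this
    linarith
  obtain ⟨j, hj⟩ := Nat.exists_eq_succ_of_ne_zero h0
  refine ⟨j, ?_, ?_⟩
  · have h1 : ¬ t < (2 : ℝ) ^ 2 ^ j := Nat.find_min hex (by omega)
    exact not_lt.1 h1
  · have h2 := Nat.find_spec hex
    rw [hj, Nat.succ_eq_add_one] at h2
    rwa [← pow_mul, ← pow_succ]

theorem exp_le {t : ℝ} (h0 : 0 ≤ t) (h1 : t ≤ 1 / 2) : Real.exp t ≤ 1 + 3 * t := by
  have h2 : 1 - t ≤ Real.exp (-t) := by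
    have := Real.add_one_le_exp (-t)
    linarith
  have h3 : Real.exp t * Real.exp (-t) = 1 := by
    rw [← Real.exp_add]; simp
  have h4 := Real.exp_pos t
  have h5 : Real.exp t * (1 - t) ≤ Real.exp t * Real.exp (-t) :=
    mul_le_mul_of_nonneg_left h2 h4.le
  rw [h3] at h5
  have h6 : 1 ≤ (1 + 3 * t) * (1 - t) := by nlinarith
  by_contra hcon
  push Not at hcon
  have h7 : (1 + 3 * t) * (1 - t) < Real.exp t * (1 - t) :=
    mul_lt_mul_of_pos_right hcon (by linarith)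
  linarith

theorem sum_union_le_inv (A B : Finset ℕ) :
    ∑ p ∈ A ∪ B, (1 : ℝ) / (p : ℝ) ≤ ∑ p ∈ A, (1 : ℝ) / (p : ℝ) + ∑ p ∈ B, (1 : ℝ) / (p : ℝ) := by
  have h := sum_union_inter (s₁ := A) (s₂ := B) (f := fun p : ℕ => (1 : ℝ) / (p : ℝ))
  have h0 : (0 : ℝ) ≤ ∑ p ∈ A ∩ B, (1 : ℝ) / (p : ℝ) := sum_nonneg fun p _ => by positivity
  linarith

open Classical in
theorem prod_le (C₂ : ℝ) (hM : ∀ y : ℝ, 2 ≤ y → Real.log (Real.log y) - C₂ ≤
      ∑ p ∈ (Finset.Icc 1 ⌊y⌋₊).filter Nat.Prime, (1 : ℝ) / p)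
    (a : ℕ) (ha : 1 ≤ a) (e : ℤ) (he : e = 1 ∨ e = -1) (z : ℝ) (hz : 2 ≤ z) (J : ℕ) :
    ∏ l ∈ Pr 2 J, (1 - (((range l).filter (P a e z l)).card : ℝ) / l) ≤
      Real.exp (2 + 2 * C₂) / (Real.log ((2 : ℝ) ^ 2 ^ J) * Real.log (min ((2 : ℝ) ^ 2 ^ J) z)) *
        ∏ p ∈ a.primeFactors, (1 + 3 / (p : ℝ)) := by
  set y : ℝ := (2 : ℝ) ^ 2 ^ J with hy
  have hy2 : 2 ≤ y := by
    rw [hy]
    calc (2 : ℝ) = 2 ^ 1 := by norm_num
      _ ≤ 2 ^ 2 ^ J := pow_le_pow_right₀ (by norm_num) Nat.one_le_two_pow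
  set m : ℝ := min y z with hm
  have hm2 : 2 ≤ m := le_min hy2 hz
  have hmy : m ≤ y := min_le_left _ _
  have hmz : m ≤ z := min_le_right _ _
  have hfl : ⌊y⌋₊ = 2 ^ 2 ^ J := by
    rw [hy]
    have : ((2 : ℝ) ^ 2 ^ J) = ((2 ^ 2 ^ J : ℕ) : ℝ) := by push_cast; rfl
    rw [this, Nat.floor_natCast]
  set g : ℕ → ℝ := fun l => (((range l).filter (P a e z l)).card : ℝ) / l with hg
  have hlog1 : 0 < Real.log y := Real.log_pos (by linarith)
  have hlog2 : 0 < Real.log m := Real.log_pos (by linarith)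
  -- a prime at most `y` is in `Pr 2 J` or `2` or `3`
  have hmem : ∀ p : ℕ, p.Prime → p ≤ 2 ^ 2 ^ J → p ∉ Pr 2 J → p = 2 ∨ p = 3 := by
    intro p hp hpy hpP
    unfold Pr at hpP
    rw [mem_filter, mem_range] at hpP
    by_cases h4 : p ≤ 4
    · have h2 := hp.two_le
      interval_cases p
      · exact Or.inl rfl
      · exact Or.inr rfl
      · norm_num at hp
    · exfalso
      have hlt : p < 2 ^ 2 ^ J := by
        rcases Nat.lt_or_eq_of_le hpy with h | h
        · exact h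
        · exfalso
          have h5 : p ∣ 2 := hp.dvd_of_dvd_pow (h ▸ dvd_refl p : p ∣ 2 ^ 2 ^ J)
          have h6 := Nat.le_of_dvd (by norm_num) h5
          omega
      exact hpP ⟨hlt, hp, by omega⟩
  have hinv : ∀ p : ℕ, (0 : ℝ) ≤ 1 / (p : ℝ) := fun p => by positivity
  have hS1 : ∑ p ∈ (Finset.Icc 1 ⌊y⌋₊).filter Nat.Prime, (1 : ℝ) / p ≤
      ∑ l ∈ Pr 2 J, (1 : ℝ) / l + 1 := by
    have hsub : (Finset.Icc 1 ⌊y⌋₊).filter Nat.Prime ⊆ Pr 2 J ∪ {2, 3} := by
      intro p hp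
      rw [mem_filter, mem_Icc, hfl] at hp
      rw [mem_union, mem_insert, mem_singleton]
      by_cases h : p ∈ Pr 2 J
      · exact Or.inl h
      · exact Or.inr (hmem p hp.2 hp.1.2 h)
    refine (sum_le_sum_of_subset_of_nonneg hsub (fun _ _ _ => hinv _)).trans ?_
    refine (sum_union_le_inv _ _).trans ?_
    have : ∑ p ∈ ({2, 3} : Finset ℕ), (1 : ℝ) / p ≤ 1 := by
      rw [sum_pair (by norm_num)]; norm_num
    linarith
  have hS2 : ∑ p ∈ (Finset.Icc 1 ⌊m⌋₊).filter Nat.Prime, (1 : ℝ) / p ≤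
      ∑ l ∈ (Pr 2 J).filter (fun l : ℕ => (l : ℝ) ≤ z ∧ ¬ l ∣ a), (1 : ℝ) / l + 1 +
        ∑ p ∈ a.primeFactors, (1 : ℝ) / p := by
    have hsub : (Finset.Icc 1 ⌊m⌋₊).filter Nat.Prime ⊆
        ((Pr 2 J).filter (fun l : ℕ => (l : ℝ) ≤ z ∧ ¬ l ∣ a) ∪ {2, 3}) ∪ a.primeFactors := by
      intro p hp
      rw [mem_filter, mem_Icc] at hp
      have hpm : (p : ℝ) ≤ m := (Nat.le_floor_iff (by linarith)).1 hp.1.2
      rw [mem_union, mem_union, mem_insert, mem_singleton, mem_filter, Nat.mem_primeFactors]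
      by_cases hpa : p ∣ a
      · exact Or.inr ⟨hp.2, hpa, by omega⟩
      · by_cases h : p ∈ Pr 2 J
        · exact Or.inl (Or.inl ⟨h, hpm.trans hmz, hpa⟩)
        · refine Or.inl (Or.inr (hmem p hp.2 ?_ h))
          rw [← hfl]
          exact Nat.le_floor (hpm.trans hmy)
    refine (sum_le_sum_of_subset_of_nonneg hsub (fun _ _ _ => hinv _)).trans ?_
    refine (sum_union_le_inv _ _).trans ?_
    have h1 : ∑ p ∈ ({2, 3} : Finset ℕ), (1 : ℝ) / p ≤ 1 := by
      rw [sum_pair (by norm_num)]; norm_num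
    have h2 := sum_union_le_inv ((Pr 2 J).filter (fun l : ℕ => (l : ℝ) ≤ z ∧ ¬ l ∣ a))
      ({2, 3} : Finset ℕ)
    linarith
  have hgsum : ∑ l ∈ Pr 2 J, (1 : ℝ) / l +
      ∑ l ∈ (Pr 2 J).filter (fun l : ℕ => (l : ℝ) ≤ z ∧ ¬ l ∣ a), (1 : ℝ) / l ≤
        ∑ l ∈ Pr 2 J, g l := by
    rw [sum_filter, ← sum_add_distrib]
    refine sum_le_sum fun l hl => ?_
    have hlp := prime_of_mem_Pr hl
    have hl0 : (0 : ℝ) < l := by exact_mod_cast hlp.pos
    simp only [hg]
    split_ifs with h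
    · have h2 : (2 : ℝ) ≤ (((range l).filter (P a e z l)).card : ℝ) := by
        exact_mod_cast two_le_count a e he z hlp h.2 h.1
      rw [← add_div, div_le_div_iff_of_pos_right hl0]
      linarith
    · have h2 : (1 : ℝ) ≤ (((range l).filter (P a e z l)).card : ℝ) := by
        exact_mod_cast one_le_count a e z hlp
      rw [add_zero, div_le_div_iff_of_pos_right hl0]
      exact h2
  have hprod : ∏ l ∈ Pr 2 J, (1 - g l) ≤ Real.exp (- ∑ l ∈ Pr 2 J, g l) := by
    rw [← sum_neg_distrib, Real.exp_sum]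
    refine prod_le_prod (fun l hl => ?_) (fun l hl => ?_)
    · have hlp := prime_of_mem_Pr hl
      have hl4 : 2 * 2 < l := by
        unfold Pr at hl
        exact (mem_filter.1 hl).2.2
      have hl0 : (0 : ℝ) < l := by exact_mod_cast hlp.pos
      have h2 : (((range l).filter (P a e z l)).card : ℝ) ≤ 2 := by
        exact_mod_cast count_le a e z hlp
      have h3 : (4 : ℝ) < l := by exact_mod_cast hl4
      have h4 : g l ≤ 1 := by
        simp only [hg]
        rw [div_le_one hl0]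
        linarith
      linarith
    · have := Real.add_one_le_exp (-(g l))
      linarith
  refine hprod.trans ?_
  have hM1 := hM y hy2
  have hM2 := hM m hm2
  have hexpo : - ∑ l ∈ Pr 2 J, g l ≤ (2 + 2 * C₂) - Real.log (Real.log y) -
      Real.log (Real.log m) + ∑ p ∈ a.primeFactors, (1 : ℝ) / p := by linarith
  refine (Real.exp_le_exp.2 hexpo).trans ?_
  rw [Real.exp_add, Real.exp_sub, Real.exp_sub, Real.exp_log hlog1, Real.exp_log hlog2,
    Real.exp_sum, div_div]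
  refine mul_le_mul_of_nonneg_left ?_ (by positivity)
  refine prod_le_prod (fun _ _ => (Real.exp_pos _).le) fun p hp => ?_
  have hpp := (Nat.mem_primeFactors.1 hp).1
  have hp2 : (2 : ℝ) ≤ p := by exact_mod_cast hpp.two_le
  have := exp_le (t := 1 / (p : ℝ)) (by positivity) (by
    apply one_div_le_one_div_of_le (by norm_num) hp2)
  rwa [mul_one_div] at this

end S2A

open S2A Pool.Agent.H410R2.ED in
open scoped Classical in
theorem sieve_lin : ∃ C : ℝ, 0 < C ∧ ∃ x₀ : ℝ, ∀ x : ℝ, x₀ ≤ x → ∀ z : ℝ, 2 ≤ z →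
    z ≤ Real.sqrt x → ∀ a : ℕ, 1 ≤ a → ∀ e : ℤ, (e = 1 ∨ e = -1) →
    (((Finset.Icc 1 ⌊x⌋₊).filter (fun q : ℕ => q.Prime ∧
      ∀ l : ℕ, l.Prime → (l : ℝ) ≤ z → ¬ (l : ℤ) ∣ (a : ℤ) * q + e)).card : ℝ) ≤
      C * x / (Real.log x * Real.log z) * ∏ p ∈ a.primeFactors, (1 + 3 / (p : ℝ)) := by
  classical
  obtain ⟨c₀, hc₀, hB⟩ := Pool.Agent.H483R2.bhk
  obtain ⟨C₂, hC₂, hM⟩ := Pool.Agent.Helper256.KM.mertens_lower
  have hc1 : (1 : ℝ) ≤ c₀ := by exact_mod_cast hc₀
  refine ⟨16 + 4 * Real.exp (2 + 2 * C₂) * (32 * (c₀ : ℝ) ^ 2), by positivity,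
    (2 : ℝ) ^ (4 * (c₀ : ℝ)), ?_⟩
  intro x hx z hz2 hzx a ha e he
  have hx16 : (16 : ℝ) ≤ x := by
    refine le_trans ?_ hx
    calc (16 : ℝ) = (2 : ℝ) ^ (4 : ℝ) := by norm_num
      _ ≤ (2 : ℝ) ^ (4 * (c₀ : ℝ)) := Real.rpow_le_rpow_of_exponent_le (by norm_num) (by linarith)
  have hx0 : (0 : ℝ) < x := by linarith
  set t : ℝ := x ^ (1 / (4 * (c₀ : ℝ))) with ht
  have ht2 : 2 ≤ t := by
    have h1 : ((2 : ℝ) ^ (4 * (c₀ : ℝ))) ^ (1 / (4 * (c₀ : ℝ))) ≤ t :=
      Real.rpow_le_rpow (by positivity) hx (by positivity)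
    rwa [← Real.rpow_mul (by norm_num), mul_one_div_cancel (by positivity), Real.rpow_one] at h1
  obtain ⟨J, hJ1, hJ2⟩ := exists_J ht2
  set y : ℝ := (2 : ℝ) ^ 2 ^ J with hy
  have hy2 : 2 ≤ y := by
    rw [hy]
    calc (2 : ℝ) = 2 ^ 1 := by norm_num
      _ ≤ 2 ^ 2 ^ J := pow_le_pow_right₀ (by norm_num) Nat.one_le_two_pow
  have hsq : y ^ (c₀ * 2) ≤ Real.sqrt x := by
    have h1 : y ^ (c₀ * 2) ≤ t ^ (c₀ * 2) := pow_le_pow_left₀ (by linarith) hJ1 _
    refine h1.trans (le_of_eq ?_)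
    rw [ht, ← Real.rpow_natCast, ← Real.rpow_mul hx0.le, Real.sqrt_eq_rpow]
    congr 1
    push_cast
    field_simp
    norm_num
  have hysq : y ≤ Real.sqrt x := by
    refine le_trans ?_ hsq
    exact le_self_pow₀ (by linarith) (by omega)
  have hlogx : 0 < Real.log x := Real.log_pos (by linarith)
  have hlogz : 0 < Real.log z := Real.log_pos (by linarith)
  have hlogy : 0 < Real.log y := Real.log_pos (by linarith)
  have hlogt : Real.log t = Real.log x / (4 * c₀) := by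
    rw [ht, Real.log_rpow hx0]
    ring
  have hly : Real.log x / (8 * c₀) ≤ Real.log y := by
    have h1 : Real.log t ≤ Real.log (y ^ 2) := Real.log_le_log (by linarith) hJ2.le
    rw [Real.log_pow, hlogt] at h1
    push_cast at h1
    have h2 : Real.log x / (8 * c₀) = Real.log x / (4 * c₀) / 2 := by
      rw [div_div]; congr 1; ring
    rw [h2]
    linarith
  have hlzx : Real.log z ≤ Real.log x / 2 := by
    have h1 : Real.log z ≤ Real.log (Real.sqrt x) := Real.log_le_log (by linarith) hzx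
    rwa [Real.log_sqrt hx0.le] at h1
  set m : ℝ := min y z with hm
  have hm2 : 2 ≤ m := le_min hy2 hz2
  have hlogm : 0 < Real.log m := Real.log_pos (by linarith)
  have hlm : Real.log z / (4 * c₀) ≤ Real.log m := by
    rcases min_choice y z with h | h
    · rw [hm, h]
      refine le_trans ?_ hly
      rw [div_le_div_iff₀ (by positivity) (by positivity)]
      nlinarith
    · rw [hm, h]
      exact div_le_self hlogz.le (by linarith)
  -- the sieve
  set g : ℕ → ℝ := fun l => (((range l).filter (P a e z l)).card : ℝ) / l with hg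
  have hcnt : ∀ l : ℕ, l.Prime → (((range l).filter (P a e z l)).card : ℝ) ≤ 2 := by
    intro l hl
    exact_mod_cast count_le a e z hl
  have hg0 : ∀ l, l.Prime → 0 ≤ g l ∧ g l ≤ ((2 : ℕ) : ℝ) / l := by
    intro l hl
    refine ⟨by simp only [hg]; positivity, ?_⟩
    simp only [hg]
    refine div_le_div_of_nonneg_right ?_ (Nat.cast_nonneg _)
    push_cast
    exact hcnt l hl
  set N : ℕ := ⌊x⌋₊ + 1 with hN
  have hNx : (N : ℝ) ≤ 2 * x := by
    rw [hN]; push_cast
    have := Nat.floor_le hx0.le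
    linarith
  have hmain := (hB 2 (by norm_num) g hg0 J ℕ (Ico 0 (0 + N)) (nn a e z 2 J) N 1
    (Nat.cast_nonneg _) zero_le_one (by
      intro D hD
      have h1 := Pool.Agent.H483R2.countCRT D (P a e z) (fun l hl => prime_of_mem_Pr (hD hl))
        (fun l _ n => P_shift a e z l n) 0 N
      have hset : (Ico 0 (0 + N)).filter (fun ω => ∀ l ∈ D, l ∣ nn a e z 2 J ω) =
          (Ico 0 (0 + N)).filter (fun n => ∀ l ∈ D, P a e z l n) := by
        apply filter_congr
        intro n _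
        exact forall₂_congr fun l hl => dvd_nn a e z n (hD hl)
      rw [hset, mul_one]
      refine h1.trans ?_
      calc ∏ l ∈ D, (((range l).filter (P a e z l)).card : ℝ)
          ≤ ∏ l ∈ D, ((2 : ℕ) : ℝ) := by
            refine prod_le_prod (fun _ _ => Nat.cast_nonneg _) fun l hl => ?_
            push_cast
            exact hcnt l (prime_of_mem_Pr (hD hl))
        _ = ((2 : ℕ) : ℝ) ^ D.card := by rw [prod_const])).2
  have hprod := prod_le C₂ hM a ha e he z hz2 J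
  set Pa : ℝ := ∏ p ∈ a.primeFactors, (1 + 3 / (p : ℝ)) with hPa
  have hPa1 : 1 ≤ Pa := by
    rw [hPa]
    have : ∏ p ∈ a.primeFactors, (1 : ℝ) ≤ ∏ p ∈ a.primeFactors, (1 + 3 / (p : ℝ)) :=
      prod_le_prod (fun _ _ => zero_le_one) fun p _ => by
        have : (0 : ℝ) ≤ 3 / (p : ℝ) := by positivity
        linarith
    rwa [prod_const_one] at this
  -- transfer
  have htr : (((Finset.Icc 1 ⌊x⌋₊).filter (fun q : ℕ => q.Prime ∧
      ∀ l : ℕ, l.Prime → (l : ℝ) ≤ z → ¬ (l : ℤ) ∣ (a : ℤ) * q + e)).card : ℝ) ≤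
      y + (((Ico 0 (0 + N)).filter (fun ω => ∀ l ∈ Pr 2 J, ¬ l ∣ nn a e z 2 J ω)).card : ℝ) := by
    have hsub : (Finset.Icc 1 ⌊x⌋₊).filter (fun q : ℕ => q.Prime ∧
        ∀ l : ℕ, l.Prime → (l : ℝ) ≤ z → ¬ (l : ℤ) ∣ (a : ℤ) * q + e) ⊆
        range (2 ^ 2 ^ J) ∪
          (Ico 0 (0 + N)).filter (fun ω => ∀ l ∈ Pr 2 J, ¬ l ∣ nn a e z 2 J ω) := by
      intro q hq
      rw [mem_filter, mem_Icc] at hq
      rw [mem_union, mem_range, mem_filter, mem_Ico]
      by_cases hqy : q < 2 ^ 2 ^ J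
      · exact Or.inl hqy
      · refine Or.inr ⟨by omega, ?_⟩
        intro l hl hdvd
        have hlp := prime_of_mem_Pr hl
        rw [dvd_nn a e z q hl] at hdvd
        rcases hdvd with h | h
        · have h1 : l = q := (Nat.prime_dvd_prime_iff_eq hlp hq.2.1).1 h
          unfold Pool.Agent.H410R2.ED.Pr at hl
          rw [mem_filter, mem_range] at hl
          omega
        · exact hq.2.2 l hlp h.1 h.2.2
    have h1 := (card_le_card hsub).trans (card_union_le _ _)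
    rw [card_range] at h1
    have h2 : (((Finset.Icc 1 ⌊x⌋₊).filter (fun q : ℕ => q.Prime ∧
        ∀ l : ℕ, l.Prime → (l : ℝ) ≤ z → ¬ (l : ℤ) ∣ (a : ℤ) * q + e)).card : ℝ) ≤
        ((2 ^ 2 ^ J + ((Ico 0 (0 + N)).filter
          (fun ω => ∀ l ∈ Pr 2 J, ¬ l ∣ nn a e z 2 J ω)).card : ℕ) : ℝ) := by exact_mod_cast h1
    push_cast at h2
    rw [hy]
    exact h2
  refine htr.trans ?_
  have h3 : y + (2 * (N : ℝ) * ∏ l ∈ Pr 2 J, (1 - g l) + y ^ (c₀ * 2) * 1) ≤
      (16 + 4 * Real.exp (2 + 2 * C₂) * (32 * (c₀ : ℝ) ^ 2)) * x / (Real.log x * Real.log z) *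
        Pa := by
    -- error terms
    have hE : y + y ^ (c₀ * 2) * 1 ≤ 16 * x / (Real.log x * Real.log z) * Pa := by
      have h4 : y + y ^ (c₀ * 2) * 1 ≤ 2 * Real.sqrt x := by linarith
      refine h4.trans ?_
      have h5 : Real.log x ≤ 4 * Real.sqrt (Real.sqrt x) := by
        have h6 : Real.log (Real.sqrt (Real.sqrt x)) = Real.log x / 4 := by
          rw [Real.log_sqrt (Real.sqrt_nonneg _), Real.log_sqrt hx0.le]; ring
        have h7 : Real.log (Real.sqrt (Real.sqrt x)) ≤ Real.sqrt (Real.sqrt x) := by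
          have h8 : 0 < Real.sqrt (Real.sqrt x) := Real.sqrt_pos.2 (Real.sqrt_pos.2 hx0)
          have := Real.log_le_sub_one_of_pos h8
          linarith
        linarith
      have h6 : Real.log x * Real.log z ≤ 8 * Real.sqrt x := by
        have h7 : Real.log x * Real.log z ≤ Real.log x * (Real.log x / 2) :=
          mul_le_mul_of_nonneg_left hlzx hlogx.le
        have h8 : Real.log x * Real.log x ≤
            (4 * Real.sqrt (Real.sqrt x)) * (4 * Real.sqrt (Real.sqrt x)) :=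
          mul_le_mul h5 h5 hlogx.le (by positivity)
        have h9 : Real.sqrt (Real.sqrt x) * Real.sqrt (Real.sqrt x) = Real.sqrt x :=
          Real.mul_self_sqrt (Real.sqrt_nonneg _)
        nlinarith
      have h10 : 2 * Real.sqrt x ≤ 16 * x / (Real.log x * Real.log z) := by
        rw [le_div_iff₀ (by positivity)]
        have h11 : Real.sqrt x * Real.sqrt x = x := Real.mul_self_sqrt hx0.le
        have h12 : 0 ≤ Real.sqrt x := Real.sqrt_nonneg _
        have h13 := mul_le_mul_of_nonneg_left h6 (by positivity : (0 : ℝ) ≤ 2 * Real.sqrt x)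
        nlinarith
      refine h10.trans ?_
      exact le_mul_of_one_le_right (by positivity) hPa1
    -- main term
    have hMn : 2 * (N : ℝ) * ∏ l ∈ Pr 2 J, (1 - g l) ≤
        (4 * Real.exp (2 + 2 * C₂) * (32 * (c₀ : ℝ) ^ 2)) * x / (Real.log x * Real.log z) *
          Pa := by
      have h4 : Real.exp (2 + 2 * C₂) / (Real.log y * Real.log m) ≤
          Real.exp (2 + 2 * C₂) * (32 * (c₀ : ℝ) ^ 2) / (Real.log x * Real.log z) := by
        have h5 : Real.log x / (8 * c₀) * (Real.log z / (4 * c₀)) ≤ Real.log y * Real.log m :=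
          mul_le_mul hly hlm (by positivity) hlogy.le
        rw [div_le_div_iff₀ (by positivity) (by positivity)]
        have h6 : Real.log x / (8 * c₀) * (Real.log z / (4 * c₀)) =
            Real.log x * Real.log z / (32 * (c₀ : ℝ) ^ 2) := by
          rw [div_mul_div_comm]; congr 1; ring
        rw [h6, div_le_iff₀ (by positivity)] at h5
        have h7 := mul_le_mul_of_nonneg_left h5 (Real.exp_pos (2 + 2 * C₂)).le
        linarith
      have h5 : ∏ l ∈ Pr 2 J, (1 - g l) ≤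
          Real.exp (2 + 2 * C₂) * (32 * (c₀ : ℝ) ^ 2) / (Real.log x * Real.log z) * Pa :=
        hprod.trans (mul_le_mul_of_nonneg_right h4 (by linarith))
      have h6 : 2 * (N : ℝ) * ∏ l ∈ Pr 2 J, (1 - g l) ≤ (4 * x) *
          (Real.exp (2 + 2 * C₂) * (32 * (c₀ : ℝ) ^ 2) / (Real.log x * Real.log z) * Pa) := by
        refine (mul_le_mul_of_nonneg_left h5 (by positivity)).trans ?_
        refine mul_le_mul_of_nonneg_right (by linarith) ?_
        positivity
      refine h6.trans (le_of_eq ?_)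
      ring
    calc y + (2 * (N : ℝ) * ∏ l ∈ Pr 2 J, (1 - g l) + y ^ (c₀ * 2) * 1)
        = (y + y ^ (c₀ * 2) * 1) + 2 * (N : ℝ) * ∏ l ∈ Pr 2 J, (1 - g l) := by ring
      _ ≤ _ := add_le_add hE hMn
      _ = _ := by ring
  exact (add_le_add_right hmain y).trans h3

end Pool.Agent.H426R3.SQ
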