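import Pool.Agent.H426R3.SQ.S3pre
import Pool.Agent.H426R3.SQ.S1
import Pool.Agent.H426R3.SQ.S2

set_option autoImplicit false

/-! # S3 (helper318): survivors of Rankin's choice -/

namespace Pool.Agent.H426R3.SQ

open Finset Pool.Agent.H256R2.SC

open scoped Classical

theorem survivors_sq : ∃ C : ℝ, 0 < C ∧ ∃ y₀ : ℝ, ∀ y : ℝ, y₀ ≤ y → ∀ T : ℕ, y ≤ T →
    (T : ℝ) ≤ y * (Real.log y) ^ 2 → ∀ e : ℤ, (e = 1 ∨ e = -1) →
    (((Finset.Icc 1 T).filter (fun u : ℕ =>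
      (∀ p : ℕ, p.Prime → zR y < (p : ℝ) → (p : ℝ) ≤ y → ¬ p ∣ u) ∧
      (∀ p : ℕ, p.Prime → (p : ℝ) ≤ zR y → ¬ (p : ℤ) ∣ (u : ℤ) + e))).card : ℝ) ≤
      C * T * (Real.log (Real.log y)) ^ 2 /
        ((Real.log y) ^ 2 * Real.log (Real.log (Real.log y))) :=
  survivors_sq_of mult_avg sieve_lin

end Pool.Agent.H426R3.SQ
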