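import Pool.Agent.H426R3.SQ.S3pre

set_option autoImplicit false

/-! # S3e (helper255, after helper318): survivors of Rankin's choice for every nonzero shift,
from S1 and S2e -/

namespace Pool.Agent.H426R3.SQ

open Finset Pool.Agent.H256R2.SC Filter Topology

open scoped Classical

open S3h in
/-- S3e from S1 (`h1`) and S2e (`h2`) -/
theorem survivors_e_of
    (h1 : ∃ C : ℝ, 0 < C ∧ ∀ A : ℕ, 1 ≤ A →
      ∑ a ∈ Finset.Icc 1 A, (1 / (a : ℝ)) * ∏ p ∈ a.primeFactors, (1 + 3 / (p : ℝ)) ≤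
        C * (1 + Real.log A))
    (h2 : ∃ C : ℝ, 0 < C ∧ ∃ x₀ : ℝ, ∀ x : ℝ, x₀ ≤ x → ∀ z : ℝ, 2 ≤ z →
      z ≤ Real.sqrt x → ∀ a : ℕ, 1 ≤ a → ∀ e : ℤ, e ≠ 0 →
      (((Finset.Icc 1 ⌊x⌋₊).filter (fun q : ℕ => q.Prime ∧
        ∀ l : ℕ, l.Prime → (l : ℝ) ≤ z → ¬ (l : ℤ) ∣ (a : ℤ) * q + e)).card : ℝ) ≤
        C * x / (Real.log x * Real.log z) * (∏ p ∈ a.primeFactors, (1 + 3 / (p : ℝ))) *
          ∏ p ∈ e.natAbs.primeFactors, (1 + 3 / (p : ℝ))) :
    ∃ C : ℝ, 0 < C ∧ ∃ y₀ : ℝ, ∀ y : ℝ, y₀ ≤ y → ∀ T : ℕ, y ≤ T →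
    (T : ℝ) ≤ y * (Real.log y) ^ 2 → ∀ e : ℤ, e ≠ 0 →
    (((Finset.Icc 1 T).filter (fun u : ℕ =>
      (∀ p : ℕ, p.Prime → zR y < (p : ℝ) → (p : ℝ) ≤ y → ¬ p ∣ u) ∧
      (∀ p : ℕ, p.Prime → (p : ℝ) ≤ zR y → ¬ (p : ℤ) ∣ (u : ℤ) + e))).card : ℝ) ≤
      C * T * (Real.log (Real.log y)) ^ 2 /
        ((Real.log y) ^ 2 * Real.log (Real.log (Real.log y))) *
        ∏ p ∈ e.natAbs.primeFactors, (1 + 3 / (p : ℝ)) := by
  obtain ⟨C1, hC1, hm⟩ := h1
  obtain ⟨C2', hC2', x₀, hs'⟩ := h2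
  obtain ⟨y1, hsm⟩ := smooth_count
  obtain ⟨y2, hy2⟩ := Filter.eventually_atTop.1 ev_large
  refine ⟨30 * C1 * C2' + 1, by positivity, max (max x₀ y1) y2, ?_⟩
  intro y hy T hT1 hT2 e he
  set P : ℝ := ∏ p ∈ e.natAbs.primeFactors, (1 + 3 / (p : ℝ)) with hP
  have hP1 : 1 ≤ P := by
    rw [hP]
    have h3 : ∀ p ∈ e.natAbs.primeFactors, (1 : ℝ) ≤ 1 + 3 / (p : ℝ) := fun p _ => by
      have : (0 : ℝ) ≤ 3 / (p : ℝ) := by positivity
      linarith
    calc (1 : ℝ) = ∏ p ∈ e.natAbs.primeFactors, (1 : ℝ) := by simp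
      _ ≤ _ := Finset.prod_le_prod (fun p _ => zero_le_one) h3
  have hP0 : 0 < P := lt_of_lt_of_le one_pos hP1
  obtain ⟨C2, hC2e⟩ : ∃ C2 : ℝ, C2 = C2' * P := ⟨_, rfl⟩
  have hC2 : 0 < C2 := by rw [hC2e]; positivity
  have hs : ∀ x : ℝ, x₀ ≤ x → ∀ z : ℝ, 2 ≤ z → z ≤ Real.sqrt x → ∀ a : ℕ, 1 ≤ a →
      (((Finset.Icc 1 ⌊x⌋₊).filter (fun q : ℕ => q.Prime ∧
        ∀ l : ℕ, l.Prime → (l : ℝ) ≤ z → ¬ (l : ℤ) ∣ (a : ℤ) * q + e)).card : ℝ) ≤
        C2 * x / (Real.log x * Real.log z) * ∏ p ∈ a.primeFactors, (1 + 3 / (p : ℝ)) := by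
    intro x hx z hz hzx a ha
    refine (hs' x hx z hz hzx a ha e he).trans (le_of_eq ?_)
    rw [hC2e]
    ring
  have hyx : x₀ ≤ y := (le_max_left _ _).trans ((le_max_left _ _).trans hy)
  have hyy1 : y1 ≤ y := (le_max_right _ _).trans ((le_max_left _ _).trans hy)
  obtain ⟨l3, l2, l1, l12, l23, hy1⟩ := hy2 y ((le_max_right _ _).trans hy)
  set LL := Real.log y with hLL
  set L2 := Real.log LL with hL2
  set L3 := Real.log L2 with hL3
  have hy0 : 0 < y := by linarith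
  have hzlog : Real.log (zR y) = LL * L3 / (10 * L2) := by
    unfold zR
    rw [Real.log_exp]
  have hz0 : 0 < zR y := Real.exp_pos _
  have hlz0 : 1 ≤ LL * L3 / (10 * L2) := by
    rw [le_div_iff₀ (by positivity)]
    nlinarith
  have hz2 : 2 ≤ zR y := by
    rw [← Real.log_le_log_iff (by norm_num) hz0, hzlog]
    have : Real.log 2 ≤ 1 := by
      have := Real.log_two_lt_d9
      linarith
    linarith
  have hlz1 : LL * L3 / (10 * L2) ≤ LL / 2 := by
    rw [div_le_iff₀ (by positivity)]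
    nlinarith
  have hzs : ∀ x : ℝ, y ≤ x → zR y ≤ Real.sqrt x := by
    intro x hx
    have h3 : zR y ≤ Real.sqrt y := by
      rw [← Real.log_le_log_iff hz0 (Real.sqrt_pos.2 hy0), hzlog, Real.log_sqrt hy0.le]
      exact hlz1
    exact h3.trans (Real.sqrt_le_sqrt hx)
  set A : ℕ := ⌊LL ^ 2⌋₊ with hA
  have hA1 : 1 ≤ A := by
    rw [hA, Nat.one_le_floor_iff]
    nlinarith
  set Q : ℕ → Finset ℕ := fun a => (Finset.Icc 1 ⌊(T : ℝ) / a⌋₊).filter (fun q : ℕ => q.Prime ∧ y < (q : ℝ) ∧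
        ∀ l : ℕ, l.Prime → (l : ℝ) ≤ zR y → ¬ (l : ℤ) ∣ (a : ℤ) * q + e) with hQ
  set Sm := (Finset.Icc 1 T).filter (fun m => ∀ p : ℕ, p.Prime → p ∣ m →
      Real.log p ≤ LL * L3 / (10 * L2)) with hSm
  set S := (Finset.Icc 1 T).filter (fun u : ℕ =>
      (∀ p : ℕ, p.Prime → zR y < (p : ℝ) → (p : ℝ) ≤ y → ¬ p ∣ u) ∧
      (∀ p : ℕ, p.Prime → (p : ℝ) ≤ zR y → ¬ (p : ℤ) ∣ (u : ℤ) + e)) with hS
  have hcov : S ⊆ Sm ∪ (Finset.Icc 1 A).biUnion (fun a => (Q a).image (fun q => a * q)) := by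
    intro u hu
    rw [hS, Finset.mem_filter, Finset.mem_Icc] at hu
    obtain ⟨⟨hu1, huT⟩, hu2, hu3⟩ := hu
    rw [Finset.mem_union]
    by_cases hsmooth : ∀ p : ℕ, p.Prime → p ∣ u → Real.log p ≤ LL * L3 / (10 * L2)
    · left
      rw [hSm, Finset.mem_filter, Finset.mem_Icc]
      exact ⟨⟨hu1, huT⟩, hsmooth⟩
    · right
      push Not at hsmooth
      obtain ⟨p, hp, hpu, hpl⟩ := hsmooth
      have hp0 : (0 : ℝ) < p := by exact_mod_cast hp.pos
      have hzp : zR y < (p : ℝ) := by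
        rw [← Real.log_lt_log_iff hz0 hp0, hzlog]
        exact hpl
      have hpy : y < (p : ℝ) := by
        by_contra h
        exact hu2 p hp hzp (not_lt.1 h) hpu
      obtain ⟨a, ha⟩ := hpu
      have ha0 : 1 ≤ a := by
        rcases Nat.eq_zero_or_pos a with h0 | h0
        · rw [h0, mul_zero] at ha; omega
        · exact h0
      have ha0' : (1 : ℝ) ≤ a := by exact_mod_cast ha0
      have huT' : (a : ℝ) * p ≤ T := by
        have : p * a ≤ T := by rw [← ha]; exact huT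
        have : ((p * a : ℕ) : ℝ) ≤ T := by exact_mod_cast this
        push_cast at this
        linarith
      have haA : a ≤ A := by
        rw [hA, Nat.le_floor_iff (by positivity)]
        have h4 : (a : ℝ) * y ≤ y * LL ^ 2 := by
          calc (a : ℝ) * y ≤ a * p := by
                apply mul_le_mul_of_nonneg_left hpy.le; linarith
            _ ≤ T := huT'
            _ ≤ _ := hT2
        nlinarith
      rw [Finset.mem_biUnion]
      refine ⟨a, Finset.mem_Icc.2 ⟨ha0, haA⟩, ?_⟩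
      rw [Finset.mem_image]
      refine ⟨p, ?_, by rw [ha]; ring⟩
      rw [hQ, Finset.mem_filter, Finset.mem_Icc]
      refine ⟨⟨hp.one_lt.le, ?_⟩, hp, hpy, ?_⟩
      · rw [Nat.le_floor_iff (by positivity), le_div_iff₀ (by linarith)]
        linarith
      · intro l hl hlz
        have := hu3 l hl hlz
        rw [ha] at this
        push_cast at this
        rw [mul_comm (a : ℤ)]
        exact this
  have hcard : (S.card : ℝ) ≤ Sm.card + ∑ a ∈ Finset.Icc 1 A, ((Q a).card : ℝ) := by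
    have h5 : S.card ≤ Sm.card + ∑ a ∈ Finset.Icc 1 A, (Q a).card := by
      refine (Finset.card_le_card hcov).trans ((Finset.card_union_le _ _).trans ?_)
      apply Nat.add_le_add_left
      refine Finset.card_biUnion_le.trans ?_
      exact Finset.sum_le_sum fun a _ => Finset.card_image_le
    exact_mod_cast h5
  have hsmT : (Sm.card : ℝ) ≤ T / LL ^ 3 := hsm y hyy1 T hT1
  have hT0 : (0 : ℝ) ≤ T := by positivity
  set lz := LL * L3 / (10 * L2) with hlz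
  have hq : ∀ a ∈ Finset.Icc 1 A, ((Q a).card : ℝ) ≤
      C2 * T / (LL * lz) * ((1 / (a : ℝ)) * ∏ p ∈ a.primeFactors, (1 + 3 / (p : ℝ))) := by
    intro a ha
    rw [Finset.mem_Icc] at ha
    have ha0 : (1 : ℝ) ≤ a := by exact_mod_cast ha.1
    have hprod : 0 ≤ ∏ p ∈ a.primeFactors, (1 + 3 / (p : ℝ)) :=
      Finset.prod_nonneg fun p _ => by positivity
    by_cases hya : y < (T : ℝ) / a
    · have h6 := hs ((T : ℝ) / a) (hyx.trans hya.le) (zR y) hz2 (hzs _ hya.le) a ha.1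
      have h7 : ((Q a).card : ℝ) ≤ (((Finset.Icc 1 ⌊(T : ℝ) / a⌋₊).filter (fun q : ℕ => q.Prime ∧
          ∀ l : ℕ, l.Prime → (l : ℝ) ≤ zR y → ¬ (l : ℤ) ∣ (a : ℤ) * q + e)).card : ℝ) := by
        have : (Q a).card ≤ ((Finset.Icc 1 ⌊(T : ℝ) / a⌋₊).filter (fun q : ℕ => q.Prime ∧
          ∀ l : ℕ, l.Prime → (l : ℝ) ≤ zR y → ¬ (l : ℤ) ∣ (a : ℤ) * q + e)).card := by
          apply Finset.card_le_card
          intro q hq'
          rw [hQ, Finset.mem_filter] at hq'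
          rw [Finset.mem_filter]
          exact ⟨hq'.1, hq'.2.1, hq'.2.2.2⟩
        exact_mod_cast this
      refine h7.trans (h6.trans ?_)
      rw [hzlog]
      have h8 : LL ≤ Real.log ((T : ℝ) / a) := Real.log_le_log hy0 hya.le
      have h9 : C2 * ((T : ℝ) / a) / (Real.log ((T : ℝ) / a) * lz) ≤ C2 * ((T : ℝ) / a) / (LL * lz) := by
        apply div_le_div_of_nonneg_left (by positivity) (by positivity)
        exact mul_le_mul_of_nonneg_right h8 (by linarith)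
      calc _ ≤ C2 * ((T : ℝ) / a) / (LL * lz) * ∏ p ∈ a.primeFactors, (1 + 3 / (p : ℝ)) :=
            mul_le_mul_of_nonneg_right h9 hprod
        _ = _ := by
            field_simp
    · have h10 : (Q a) = ∅ := by
        rw [Finset.eq_empty_iff_forall_notMem]
        intro q hq'
        rw [hQ, Finset.mem_filter, Finset.mem_Icc, Nat.le_floor_iff (by positivity)] at hq'
        exact hya (lt_of_lt_of_le hq'.2.2.1 hq'.1.2)
      rw [h10, Finset.card_empty]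
      push_cast
      have : 0 ≤ lz := by linarith
      positivity
  have hsum : ∑ a ∈ Finset.Icc 1 A, ((Q a).card : ℝ) ≤ C2 * T / (LL * lz) * (C1 * (1 + Real.log A)) := by
    refine (Finset.sum_le_sum hq).trans ?_
    rw [← Finset.mul_sum]
    exact mul_le_mul_of_nonneg_left (hm A hA1) (by have : 0 ≤ lz := by linarith
                                                   positivity)
  have hlogA : Real.log A ≤ 2 * L2 := by
    have h11 : (A : ℝ) ≤ LL ^ 2 := Nat.floor_le (by positivity)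
    have h12 : (0 : ℝ) < A := by exact_mod_cast hA1
    refine (Real.log_le_log h12 h11).trans (le_of_eq ?_)
    rw [Real.log_pow]
    push_cast
    ring
  have hsum2 : ∑ a ∈ Finset.Icc 1 A, ((Q a).card : ℝ) ≤ 30 * C1 * C2 * T * L2 ^ 2 / (LL ^ 2 * L3) := by
    refine hsum.trans ?_
    have e1 : C2 * T / (LL * lz) * (C1 * (1 + Real.log A)) =
        10 * C1 * C2 * T * L2 * (1 + Real.log A) / (LL ^ 2 * L3) := by
      rw [hlz]
      have : LL ≠ 0 := by positivity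
      have : L2 ≠ 0 := by positivity
      have : L3 ≠ 0 := by positivity
      field_simp
    rw [e1]
    apply div_le_div_of_nonneg_right _ (by positivity)
    have e2 : 1 + Real.log A ≤ 3 * L2 := by linarith
    calc 10 * C1 * C2 * T * L2 * (1 + Real.log A) ≤ 10 * C1 * C2 * T * L2 * (3 * L2) :=
          mul_le_mul_of_nonneg_left e2 (by positivity)
      _ = 30 * C1 * C2 * T * L2 ^ 2 := by ring
  have hsm2 : (T : ℝ) / LL ^ 3 ≤ 1 * T * L2 ^ 2 / (LL ^ 2 * L3) := by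
    rw [div_le_div_iff₀ (by positivity) (by positivity)]
    have e3 : L3 ≤ LL * L2 ^ 2 := by
      have a1 : L3 ≤ L2 := l23
      have a2 : L2 ≤ L2 ^ 2 := by nlinarith
      have a3 : L2 ^ 2 ≤ LL * L2 ^ 2 := by nlinarith [sq_nonneg L2]
      linarith
    calc (T : ℝ) * (LL ^ 2 * L3) = T * LL ^ 2 * L3 := by ring
      _ ≤ T * LL ^ 2 * (LL * L2 ^ 2) := mul_le_mul_of_nonneg_left e3 (by positivity)
      _ = 1 * T * L2 ^ 2 * LL ^ 3 := by ring
  have e4 : (30 * C1 * C2' + 1) * T * L2 ^ 2 / (LL ^ 2 * L3) * P =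
      30 * C1 * C2 * T * L2 ^ 2 / (LL ^ 2 * L3) + 1 * T * L2 ^ 2 / (LL ^ 2 * L3) * P := by
    rw [hC2e]
    ring
  rw [e4]
  have e5 : 0 ≤ 1 * T * L2 ^ 2 / (LL ^ 2 * L3) := by positivity
  have e6 : 1 * T * L2 ^ 2 / (LL ^ 2 * L3) ≤ 1 * T * L2 ^ 2 / (LL ^ 2 * L3) * P :=
    le_mul_of_one_le_right e5 hP1
  linarith

end Pool.Agent.H426R3.SQ
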