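import Pool.Agent.H426R3.SQ.Defs

set_option autoImplicit false
set_option linter.unusedVariables false

/-! # Perfect squares inside record prime gaps: stubs of all tasks (never import this file in a hand-in)

Prove each theorem with the same name and statement in namespace `Pool.Agent.H426R3.SQ`
in the file `Pool/Agent/H426R3/SQ/<Task>.lean` (import Defs and the files of the tasks you use).
Most engine tasks (E1 - E9, V1, R1, C1) are adaptations of finished files of helper256 / helper474. -/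

namespace Pool.Agent.H426R3.SQ.Stubs

open Finset Pool.Agent.H256R2.SC Pool.Agent.H426R3.SQ

section engine

variable {n : ℕ} {κ : Type} [Fintype κ] [DecidableEq κ]

/-! ## Task E1 (adapt H256R2/SC/A.lean) -/

theorem tensor_upper_c (g : Fin n → κ → ℝ) (G β : Fin n → Option κ → ℝ)
    (hw : ∀ i (c : Option κ), 0 ≤ wtc (g i) c) (hG : ∀ i c, 0 ≤ G i c) (hβ : ∀ i c, 0 ≤ β i c)
    (hloc : ∀ i (Y : Option κ → ℝ),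
      ∑ c, wtc (g i) c * G i c * (∑ a, psic1 (g i) a c * Y a) ^ 2 ≤ ∑ a, β i a * (Y a) ^ 2)
    (y : Col n κ → ℝ) :
    EEc g (fun x => (∏ i, G i (x i)) * (VVc g y x) ^ 2) ≤ ∑ D, (∏ i, β i (D i)) * (y D) ^ 2 := by
  sorry

theorem tensor_lower_c (g : Fin n → κ → ℝ) (β : Fin n → Option κ → ℝ)
    (hw : ∀ i (c : Option κ), 0 ≤ wtc (g i) c) (hβ : ∀ i c, 0 ≤ β i c)
    (hloc : ∀ i (Y : Option κ → ℝ),
      ∑ a, β i a * (Y a) ^ 2 ≤ ∑ c, wtc (g i) c * (∑ a, psic1 (g i) a c * Y a) ^ 2)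
    (y : Col n κ → ℝ) :
    ∑ D, (∏ i, β i (D i)) * (y D) ^ 2 ≤ EEc g (fun x => (VVc g y x) ^ 2) := by
  sorry

/-! ## Task E2 (adapt H256R2/SC/B.lean) -/

theorem local_id_c (g : κ → ℝ) (Y : Option κ → ℝ) :
    ∑ c, wtc g c * (∑ a, psic1 g a c * Y a) ^ 2 =
      (Y none) ^ 2 + ∑ k, g k * (Y (some k)) ^ 2 - (∑ k, g k * Y (some k)) ^ 2 := by
  sorry

theorem local_upper_c (g : κ → ℝ) (Y : Option κ → ℝ) :
    ∑ c, wtc g c * (∑ a, psic1 g a c * Y a) ^ 2 ≤ ∑ a, nuc1 g a * (Y a) ^ 2 := by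
  sorry

/-- Cauchy-Schwarz: `(∑ g k * Y k) ^ 2 ≤ (∑ g k) * ∑ g k * Y k ^ 2` -/
theorem local_lower_c (g : κ → ℝ) (hg : ∀ k, 0 ≤ g k) (Y : Option κ → ℝ) :
    ∑ a, nuc1 g a * nu1 (1 - ∑ k, g k) a * (Y a) ^ 2 ≤
      ∑ c, wtc g c * (∑ a, psic1 g a c * Y a) ^ 2 := by
  sorry

theorem local_wt_c (g : κ → ℝ) (t : ℝ) (hg : ∀ k, 0 ≤ g k) (ht : 0 ≤ t) (k₀ : κ)
    (htg : 3 * t * g k₀ ≤ 1) (Y : Option κ → ℝ) :
    ∑ c, wtc g c * (if c = some k₀ then 1 + t else 1) * (∑ a, psic1 g a c * Y a) ^ 2 ≤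
      ∑ a, betc g t k₀ a * (Y a) ^ 2 := by
  sorry

/-! ## Task E3 (adapt H256R2/SC/C.lean; uses E1, E2) -/

theorem VV_red_c (g : Fin n → κ → ℝ) (y : Col n κ → ℝ) (k : κ) (x : Col n κ)
    (hx : ∀ i, x i ≠ some k) : VVc g y x = VVc g (redc g y k) x := by
  sorry

theorem rough_bound_c (g : Fin n → κ → ℝ) (hg : ∀ i k, 0 ≤ g i k)
    (hw : ∀ i (c : Option κ), 0 ≤ wtc (g i) c) (y : Col n κ → ℝ) (k : κ) :
    EEc g (fun x => (if ∀ i, x i ≠ some k then 1 else 0) * (VVc g y x) ^ 2) ≤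
      ∑ D, nuc g D * (redc g y k D) ^ 2 := by
  sorry

/-! ## Task E4 (adapt H256R2/SC/D.lean) -/

theorem red_yT_c {p : Fin n → ℝ} {g : Fin n → κ → ℝ} {h : κ → Finset (Fin n) → ℝ} {z K : ℝ}
    (H : Hypc p g h z K) (Q δ : ℝ) (hQ : 0 < Q) (k : κ)
    (hδ : ∀ D : Col n κ, qq p D ≤ Q → 2 * ∑ i with D i ≠ none, g i k ≤ δ) :
    ∑ D : Col n κ, nuc g D * (redc g (yTc p h Q) k D) ^ 2 ≤
      δ ^ 2 * Zc g h + ∑ D : Col n κ with Q / z < qq p D, (yyc h D) ^ 2 * nuc g D := by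
  sorry

/-! ## Task E5 (adapt H256R2/SC/E.lean) -/

theorem tail_bound_c {p : Fin n → ℝ} {g : Fin n → κ → ℝ} {h : κ → Finset (Fin n) → ℝ} {z K : ℝ}
    (H : Hypc p g h z K) (Q' : ℝ) (hQ' : 0 < Q') :
    ∑ D : Col n κ with Q' < qq p D, (yyc h D) ^ 2 * nuc g D ≤
      Real.exp (2 * (Fintype.card κ : ℝ) * K / Real.log z - Real.log Q' / Real.log z) *
        Zc g h := by
  sorry

/-! ## Task E6 (adapt H256R2/SC/F.lean) -/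

theorem weighted_sum_c {p : Fin n → ℝ} {g : Fin n → κ → ℝ} {h : κ → Finset (Fin n) → ℝ} {z K : ℝ}
    (H : Hypc p g h z K) (t : ℝ) (ht : 0 ≤ t) (k₀ : κ) :
    ∑ D : Col n κ, (∏ i, betc (g i) t k₀ (D i)) * (yyc h D) ^ 2 ≤
      Real.exp ((2 + 6 * t) * ∑ i, g i k₀) * Zc g h := by
  sorry

/-! ## Task E7 (adapt H256R2/SC/H2.lean and H3.lean) -/

theorem Lv_VV_c (p : Fin n → ℝ) (g : Fin n → κ → ℝ) (hp : ∀ i, 1 ≤ p i) (hg0 : ∀ i k, 0 ≤ g i k)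
    (hg1 : ∀ i k, g i k ≤ 1) (y : Col n κ → ℝ) (hy : ∀ D, |y D| ≤ 1) (Q : ℝ)
    (hQ : ∀ D, y D ≠ 0 → qq p D ≤ Q) :
    Lv p Q (∑ D : Col n κ with qq p D ≤ Q, 2 ^ (univ.filter (fun i => D i ≠ none)).card)
      (VVc g y) := by
  sorry

theorem transfer_c {α : Type} [DecidableEq α] (𝒜 : Finset α) (col : α → Col n κ) (p : Fin n → ℝ)
    (g : Fin n → κ → ℝ) (N Err Q B : ℝ) (hErr : 0 ≤ Err)
    (hcnt : ∀ D : Col n κ, qq p D ≤ Q →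
      |((𝒜.filter (fun a => ∀ i, D i ≠ none → col a i = D i)).card : ℝ) - N * nuc g D| ≤ Err)
    (F : Col n κ → ℝ) (hF : Lv p Q B F) :
    |∑ a ∈ 𝒜, F (col a) - N * EEc g F| ≤ Err * B := by
  sorry

/-! ## Task E8 (adapt H256R2/SC/J.lean; uses E1 - E7) -/

theorem core_c {α : Type} [DecidableEq α] (𝒜 : Finset α) (col : α → Col n κ)
    {p : Fin n → ℝ} {g : Fin n → κ → ℝ} {h : κ → Finset (Fin n) → ℝ} {z K : ℝ}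
    (H : Hypc p g h z K) (gm : Fin n → ℝ) (hgm0 : ∀ i, 0 ≤ gm i) (hgm : ∀ i k, g i k ≤ gm i)
    (Q δ t N Err : ℝ) (J : ℕ) (hJ : Even J) (ht : 0 < t) (hN : 0 < N) (hErr : 0 ≤ Err)
    (hQz : 1 ≤ Q)
    (hpz : ∀ i, p i ≤ z) (hg1 : ∀ i, gm i ≤ 1) (htg : ∀ i, 3 * t * gm i ≤ 1)
    (hug : ∀ i, (Fintype.card κ : ℝ) * gm i ≤ 1)
    (hδ : ∀ D : Col n κ, qq p D ≤ Q → 2 * ∑ i with D i ≠ none, gm i ≤ δ)
    (hug4 : (Fintype.card κ : ℝ) * δ ≤ 1 / 4)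
    (hs : 2 * (Fintype.card κ : ℝ) * ∑ i, 1 / (p i) ^ 2 ≤ 1)
    (htail : (Fintype.card κ + 1 : ℝ) * (δ ^ 2 + Real.exp (2 * (Fintype.card κ : ℝ) * K / Real.log z
      - Real.log (Q / z) / Real.log z)) ≤ 1 / 8)
    (hmom : (Fintype.card κ : ℝ) * (1 / t) ^ J * Real.exp ((2 + 6 * t) * ∑ i, gm i) ≤ 1 / 8)
    (hcnt : ∀ D : Col n κ, qq p D ≤ Q ^ 2 * z ^ J →
      |((𝒜.filter (fun a => ∀ i, D i ≠ none → col a i = D i)).card : ℝ) - N * nuc g D| ≤ Err)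
    (hfin : Err * (9 * Q ^ 4 * (1 + Fintype.card κ * (n + 1) ^ J)) < N / 8) :
    ∃ a ∈ 𝒜, ∀ k, ∃ i, col a i = some k := by
  sorry

/-! ## Task E9 (adapt H256R2/SC/S.lean: the same proof with `0 ≤ g i` instead of `0 < g i`) -/

theorem exists_h0 (p g : Fin n → ℝ) (hp : ∀ i, 1 < p i) (hg : ∀ i, 0 ≤ g i) (J : ℕ) (hJ : 1 ≤ J)
    (z₀ lam : ℝ) (hz₀ : 1 < z₀) (hlam : 0 < lam)
    (hA : ∀ j < J, 1 ≤ Asum p g (z₀ ^ (2 ^ j)) ∧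
      lam * (2 ^ j * Real.log z₀) ≤ Asum p g (z₀ ^ (2 ^ j))) :
    ∃ h : Finset (Fin n) → ℝ, (∀ s, 0 ≤ h s) ∧ (∀ s, h s ≤ 1) ∧
      (∀ s t, s.Nonempty → s ⊆ t → h t ≤ h s) ∧
      (∀ s, h s ≠ 0 → ∏ i ∈ s, p i ≤ z₀ ^ (2 ^ (J - 1))) ∧
      (∑ s : Finset (Fin n) with s.Nonempty, h s * ∏ i ∈ s, g i = 1) ∧
      (∑ s : Finset (Fin n) with s.Nonempty,
        (h s) ^ 2 * (∏ i ∈ s, g i) * Real.log (∏ i ∈ s, p i) ≤ 4 / (lam * J)) := by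
  sorry

end engine

open scoped Classical

/-! ## Task V1 (adapt H474R2/PG/Cover.lean and CovA.lean; uses E8, E9): the covering theorem -/

theorem covering_hit (c₂ : ℝ) (hc₂ : 0 < c₂) : ∃ c : ℝ, 0 < c ∧ ∃ X₀ : ℝ, ∀ X : ℝ, X₀ ≤ X →
    ∀ (B : Finset ℕ) (κ : Type) [Fintype κ] [DecidableEq κ] [Nonempty κ],
    (Fintype.card κ : ℝ) ≤ c * Real.log X →
    ∀ (hit : ℕ → ℤ → κ → Prop) (g : ℕ → κ → ℝ),
    (∀ p k, 0 ≤ g p k ∧ g p k ≤ 2 / (p : ℝ)) →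
    (∀ p : ℕ, p.Prime → (Real.log X) ^ 3 < p → ∀ a k l, hit p a k → hit p a l → k = l) →
    (∀ k, ∀ z x : ℝ, (Real.log X) ^ 3 ≤ x → x ≤ z → z ≤ Real.exp ((Real.log X) ^ (1 / 20 : ℝ)) →
      c₂ * Real.log x / Real.log (Real.log X) - 1 ≤
        ∑ s ∈ ((SP ((Real.log X) ^ 3) z B).powerset.filter
            (fun s : Finset ℕ => s.Nonempty ∧ ∏ p ∈ s, (p : ℝ) ≤ x)), ∏ p ∈ s, g p k) →
    ∀ (𝒜 : Finset ℤ) (N Err : ℝ), X ^ (1 / 2 : ℝ) ≤ N → 0 ≤ Err → Err ≤ X ^ (1 / 10 : ℝ) →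
    (∀ (T : Finset ℕ) (s : ℕ → κ), (∏ p ∈ T, (p : ℝ)) ≤ X ^ (1 / 4 : ℝ) →
      (∀ p ∈ T, p.Prime ∧ (Real.log X) ^ 3 < p ∧ p ∉ B) →
      |((𝒜.filter (fun a => ∀ p ∈ T, hit p a (s p))).card : ℝ) - N * ∏ p ∈ T, g p (s p)| ≤ Err) →
    ∃ a ∈ 𝒜, ∀ k : κ, ∃ p : ℕ, p.Prime ∧ (Real.log X) ^ 3 < p ∧
      (p : ℝ) ≤ Real.exp ((Real.log X) ^ (1 / 20 : ℝ)) ∧ p ∉ B ∧ hit p a k := by
  sorry

/-! ## Task R1 (adapt H474R2/PG/Rough.lean): rough sums, uniform version with weights -/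

theorem rough_lower_B (C : ℝ) : ∃ c₂ : ℝ, 0 < c₂ ∧ ∃ y₀ : ℝ, 3 ≤ y₀ ∧
    ∀ (y₁ z : ℝ) (B : Finset ℕ) (g : ℕ → ℝ), y₀ ≤ y₁ →
    (∀ p, 0 ≤ g p ∧ g p ≤ 2 / (p : ℝ)) →
    (∀ w : ℝ, y₁ ≤ w → w ≤ z →
      Real.log (Real.log w) - Real.log (Real.log y₁) - C ≤ ∑ p ∈ SP y₁ w B, g p) →
    ∀ x : ℝ, y₁ ≤ x → x ≤ z →
      c₂ * Real.log x / Real.log y₁ - 1 ≤
        ∑ s ∈ ((SP y₁ z B).powerset.filter
            (fun s : Finset ℕ => s.Nonempty ∧ ∏ p ∈ s, (p : ℝ) ≤ x)), ∏ p ∈ s, g p := by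
  sorry

/-! ## Task C1 (adapt H474R2/PG/Count.lean): counting solutions of `a ^ 2 + s p ≡ 0` -/

theorem rho_le_two (u : ℤ) (p : ℕ) (hp : p.Prime) : rho u p ≤ 2 := by
  sorry

theorem count_sq (A B : ℤ) (hAB : A ≤ B) (W : ℕ) (hW : 1 ≤ W) (r : ℤ)
    (T : Finset ℕ) (hT : ∀ p ∈ T, p.Prime ∧ ¬ p ∣ W) (s : ℕ → ℤ) :
    |(((Finset.Ioc A B).filter (fun a : ℤ => (W : ℤ) ∣ a - r ∧
        ∀ p ∈ T, (p : ℤ) ∣ a ^ 2 + s p)).card : ℝ) -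
      ((B : ℝ) - A) / W * ∏ p ∈ T, (rho (s p) p : ℝ) / (p : ℝ)| ≤
        ∏ p ∈ T, (rho (s p) p : ℝ) := by
  sorry

/-! ## Task N1: large sieve for primitive characters over dyadic blocks of primes

Use `Pool.Agent.Helper112.mult_large_sieve` (file Helper112/MultLS.lean) on each block
`[2^j, 2^(j+1))` with `α n = 1/n` for primes `n > L^3` of the block: since `F^2 ≤ L^3 ≤ 2^(j+1)`,
at most `24 j^4` primitive characters have `|∑_block χ(p)/p| > 1/j^2`.  Blocks: `j ≤ 1.5 L^(1/20)`,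
so at most `L^(3/10)` characters are bad for some block; for the others the full blocks give
`∑ 1/j^2 ≤ 2` and the last (partial) block at most `1` trivially. -/

theorem char_blocks : ∃ C : ℝ, ∃ L₀ : ℝ, ∀ L : ℝ, L₀ ≤ L → ∀ F : ℕ, (F : ℝ) ^ 2 ≤ L ^ 3 →
    ∃ bad : (q : ℕ) → Finset (DirichletCharacter ℂ q),
      (∑ q ∈ Finset.Icc 1 F, ((bad q).card : ℝ)) ≤ L ^ (3 / 10 : ℝ) ∧
      ∀ q ∈ Finset.Icc 1 F, ∀ χ : DirichletCharacter ℂ q, χ.IsPrimitive → χ ∉ bad q →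
        ∀ w : ℝ, L ^ 3 ≤ w → w ≤ Real.exp (L ^ (1 / 20 : ℝ)) →
          ‖∑ p ∈ SP (L ^ 3) w ∅, χ (p : ZMod q) / (p : ℂ)‖ ≤ C := by
  sorry

/-! ## Task N2: the primitive character of `-u` (Jacobi symbol character `Helper919.psi (-u)`,
then `DirichletCharacter.primitiveCharacter`) -/

theorem exists_char (u : ℤ) (hu : u ≠ 0) : ∃ q : ℕ, 1 ≤ q ∧ q ≤ 4 * u.natAbs ∧
    ∃ χ : DirichletCharacter ℂ q, χ.IsPrimitive ∧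
      ∀ p : ℕ, p.Prime → ¬ p ∣ 2 * u.natAbs → χ (p : ZMod q) = (rho u p : ℂ) - 1 := by
  sorry

/-! ## Task N3: the same character only for `u = d s ^ 2` (if `u * v` is not a square then
`(u v | p) = -1` for some large prime by Dirichlet's theorem) -/

theorem same_rho_count (T : ℕ) (U : Finset ℤ) (hU : ∀ u ∈ U, u ≠ 0 ∧ |u| ≤ (T : ℤ))
    (h : ∀ u ∈ U, ∀ v ∈ U, ∀ p : ℕ, p.Prime → ¬ p ∣ 2 * u.natAbs * v.natAbs → rho u p = rho v p) :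
    (U.card : ℝ) ≤ Real.sqrt T := by
  sorry

/-! ## Task N4 (uses N1, N2, N3 and Mertens `Pool.Agent.Helper256.KM.mertens_inv`) -/

theorem few_bad : ∃ C : ℝ, 0 ≤ C ∧ ∃ L₀ : ℝ, ∀ L : ℝ, L₀ ≤ L → ∀ T : ℕ,
    (T : ℝ) ≤ L ^ (11 / 10 : ℝ) →
    ∃ 𝓑 : Finset ℤ, (𝓑.card : ℝ) ≤ L ^ (9 / 10 : ℝ) ∧
      ∀ u : ℤ, u ≠ 0 → |u| ≤ (T : ℤ) → u ∉ 𝓑 →
        ∀ w : ℝ, L ^ 3 ≤ w → w ≤ Real.exp (L ^ (1 / 20 : ℝ)) →
          Real.log (Real.log w) - Real.log (Real.log (L ^ 3)) - C ≤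
            ∑ p ∈ SP (L ^ 3) w ∅, (rho u p : ℝ) / (p : ℝ) := by
  sorry

/-! ## Task N5: many primes above `y` for which `-u` is a square (elementary)

Consider `∏_{t ≤ V} |u t^2 + 1|` with `V = ⌈y⌉^3`; its logarithm is at least `2 log V! ≥ 6 V log y -
O(V)`; write `log n = ∑_{d ∣ n} Λ(d)`; the congruence `u t^2 ≡ -1` has at most 4 solutions modulo a
prime power, so the primes `≤ y` contribute at most `4 V (log y + O(1)) + O(y log y)` and a prime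
`p > y` at most `9 V log y / y`.  If `p ∣ u t^2 + 1` then `p ∣ (u t)^2 + u`. -/

theorem many_primes : ∃ y₀ : ℝ, ∀ y : ℝ, y₀ ≤ y → ∀ u : ℤ, u ≠ 0 → u ≠ -1 →
    (|u| : ℝ) ≤ y ^ 2 →
    y / 20 ≤ (((Finset.Icc 1 ⌊y ^ 9⌋₊).filter (fun p : ℕ => p.Prime ∧ y < (p : ℝ) ∧
      ∃ t : ℤ, (p : ℤ) ∣ t ^ 2 + u)).card : ℝ) := by
  sorry

/-! ## Task S1: an average of a multiplicative function -/

theorem mult_avg : ∃ C : ℝ, 0 < C ∧ ∀ A : ℕ, 1 ≤ A →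
    ∑ a ∈ Finset.Icc 1 A, (1 / (a : ℝ)) * ∏ p ∈ a.primeFactors, (1 + 3 / (p : ℝ)) ≤
      C * (1 + Real.log A) := by
  sorry

/-! ## Task S2: upper bound sieve for `q` prime, `a q + e` without small prime factors

Use `Pool.Agent.H483R2.bhk` (Brun-Hooley, interface H410R2/EDIface.lean) with `κ = 2` and
`Pool.Agent.H483R2.countCRT`; a class `q ≡ 0` for all sifting primes, and a second class for the
primes `l ≤ z`, `l ∤ a`. -/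

theorem sieve_lin : ∃ C : ℝ, 0 < C ∧ ∃ x₀ : ℝ, ∀ x : ℝ, x₀ ≤ x → ∀ z : ℝ, 2 ≤ z →
    z ≤ Real.sqrt x → ∀ a : ℕ, 1 ≤ a → ∀ e : ℤ, (e = 1 ∨ e = -1) →
    (((Finset.Icc 1 ⌊x⌋₊).filter (fun q : ℕ => q.Prime ∧
      ∀ l : ℕ, l.Prime → (l : ℝ) ≤ z → ¬ (l : ℤ) ∣ (a : ℤ) * q + e)).card : ℝ) ≤
      C * x / (Real.log x * Real.log z) * ∏ p ∈ a.primeFactors, (1 + 3 / (p : ℝ)) := by
  sorry

/-! ## Task S3 (uses S1, S2, `Pool.Agent.H256R2.SC.smooth_count`): survivors of Rankin's choice -/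

theorem survivors_sq : ∃ C : ℝ, 0 < C ∧ ∃ y₀ : ℝ, ∀ y : ℝ, y₀ ≤ y → ∀ T : ℕ, y ≤ T →
    (T : ℝ) ≤ y * (Real.log y) ^ 2 → ∀ e : ℤ, (e = 1 ∨ e = -1) →
    (((Finset.Icc 1 T).filter (fun u : ℕ =>
      (∀ p : ℕ, p.Prime → zR y < (p : ℝ) → (p : ℝ) ≤ y → ¬ p ∣ u) ∧
      (∀ p : ℕ, p.Prime → (p : ℝ) ≤ zR y → ¬ (p : ℤ) ∣ (u : ℤ) + e))).card : ℝ) ≤
      C * T * (Real.log (Real.log y)) ^ 2 /
        ((Real.log y) ^ 2 * Real.log (Real.log (Real.log y))) := by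
  sorry

/-! ## Task M1 (uses V1, R1, C1, N4, N5, S3): the main theorem -/

theorem squares_main : ∃ c : ℝ, 0 < c ∧ ∃ Y₀ : ℝ, ∀ Y : ℝ, Y₀ ≤ Y → ∀ M : ℕ, Y ≤ (M : ℝ) →
    ∃ m : ℕ, M < m ∧ (m : ℝ) ≤ M + Y ∧
      ∀ k : ℕ, |(k : ℝ) - (m : ℝ) ^ 2| ≤ c * ff Y → ¬ k.Prime := by
  sorry

/-! ## Task M2 (uses M1): prime gaps -/

theorem squares_gaps : ∃ c : ℝ, 0 < c ∧ ∃ X₀ : ℝ, ∀ X : ℝ, X₀ ≤ X →
    ∃ n m : ℕ, (Nat.nth Nat.Prime (n + 1) : ℝ) ≤ X ∧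
      (Nat.nth Nat.Prime n : ℝ) + c * ff X ≤ (m : ℝ) ^ 2 ∧
      (m : ℝ) ^ 2 + c * ff X ≤ (Nat.nth Nat.Prime (n + 1) : ℝ) := by
  sorry

end Pool.Agent.H426R3.SQ.Stubs
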