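import Pool.Agent.H426R3.SQ.Defs

set_option autoImplicit false
set_option linter.unusedVariables false

/-! # Consecutive squares in record prime gaps: additional stubs (never import in a hand-in) -/

namespace Pool.Agent.H426R3.SQ.Stubs2

open Finset Pool.Agent.H256R2.SC Pool.Agent.H426R3.SQ

open scoped Classical

/-! ## Task S2e: `sieve_lin` (S2.lean) for every nonzero `e`: second class only for the primes
`l ≤ z` with `l ∤ a * e` -/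

theorem sieve_lin_e : ∃ C : ℝ, 0 < C ∧ ∃ x₀ : ℝ, ∀ x : ℝ, x₀ ≤ x → ∀ z : ℝ, 2 ≤ z →
    z ≤ Real.sqrt x → ∀ a : ℕ, 1 ≤ a → ∀ e : ℤ, e ≠ 0 →
    (((Finset.Icc 1 ⌊x⌋₊).filter (fun q : ℕ => q.Prime ∧
      ∀ l : ℕ, l.Prime → (l : ℝ) ≤ z → ¬ (l : ℤ) ∣ (a : ℤ) * q + e)).card : ℝ) ≤
      C * x / (Real.log x * Real.log z) * (∏ p ∈ a.primeFactors, (1 + 3 / (p : ℝ))) *
        ∏ p ∈ e.natAbs.primeFactors, (1 + 3 / (p : ℝ)) := by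
  sorry

/-! ## Task S3e (uses S1, S2e): survivors for every nonzero `e` (adapt S3pre.lean) -/

theorem survivors_e : ∃ C : ℝ, 0 < C ∧ ∃ y₀ : ℝ, ∀ y : ℝ, y₀ ≤ y → ∀ T : ℕ, y ≤ T →
    (T : ℝ) ≤ y * (Real.log y) ^ 2 → ∀ e : ℤ, e ≠ 0 →
    (((Finset.Icc 1 T).filter (fun u : ℕ =>
      (∀ p : ℕ, p.Prime → zR y < (p : ℝ) → (p : ℝ) ≤ y → ¬ p ∣ u) ∧
      (∀ p : ℕ, p.Prime → (p : ℝ) ≤ zR y → ¬ (p : ℤ) ∣ (u : ℤ) + e))).card : ℝ) ≤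
      C * T * (Real.log (Real.log y)) ^ 2 /
        ((Real.log y) ^ 2 * Real.log (Real.log (Real.log y))) *
        ∏ p ∈ e.natAbs.primeFactors, (1 + 3 / (p : ℝ)) := by
  sorry

/-! ## Task S1e: average over the odd numbers -/

theorem odd_avg : ∃ C : ℝ, 0 < C ∧ ∀ J : ℕ,
    ∑ j ∈ Finset.range J, ∏ p ∈ (2 * j + 1).primeFactors, (1 + 3 / (p : ℝ)) ≤ C * J := by
  sorry

/-! ## Task C1e: `count_sq` (C1.lean) with a shift for every prime -/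

theorem count_sq_shift (A B : ℤ) (hAB : A ≤ B) (W : ℕ) (hW : 1 ≤ W) (r : ℤ)
    (T : Finset ℕ) (hT : ∀ p ∈ T, p.Prime ∧ ¬ p ∣ W) (t s : ℕ → ℤ) :
    |(((Finset.Ioc A B).filter (fun a : ℤ => (W : ℤ) ∣ a - r ∧
        ∀ p ∈ T, (p : ℤ) ∣ (a + t p) ^ 2 + s p)).card : ℝ) -
      ((B : ℝ) - A) / W * ∏ p ∈ T, (rho (s p) p : ℝ) / (p : ℝ)| ≤
        ∏ p ∈ T, (rho (s p) p : ℝ) := by
  sorry

end Pool.Agent.H426R3.SQ.Stubs2
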