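import Pool.Agent.H426R3.SQ.Tot1
import Pool.Agent.H426R3.SQ.Q3
import Pool.Agent.H426R3.SQ.N4

set_option autoImplicit false

/-! # Survivors and the totient (helper426) -/

namespace Pool.Agent.H426R3.SQ

open Finset Pool.Agent.H256R2.SC

open scoped Classical

theorem GT_card (y : ℝ) (T T₀ : ℕ) (hT : T + 1 ≤ T₀) (Bad : Finset ℤ) :
    ((GT y T Bad).card : ℝ) ≤ ((SV y T₀ (-1)).card : ℝ) + ((SV y T₀ 1).card : ℝ) := by
  have hsub : GT y T Bad ⊆ (SV y T₀ (-1)).image (fun v : ℕ => (v : ℤ) - 1) ∪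
      (SV y T₀ 1).image (fun v : ℕ => -(v : ℤ) - 1) := by
    intro u hu
    unfold GT at hu
    rw [mem_filter, mem_Icc] at hu
    obtain ⟨⟨h1, h2⟩, h3, h4, h5, h6, h7⟩ := hu
    have hne : u + 1 ≠ 0 := by
      intro h
      apply h4
      refine ⟨1, ?_⟩
      linarith
    rcases lt_or_gt_of_ne hne with h | h
    · apply mem_union_right
      obtain ⟨v, hv⟩ := Int.eq_ofNat_of_zero_le (show 0 ≤ -(u + 1) by linarith)
      have hv' : u = -(v : ℤ) - 1 := by linarith
      refine mem_image.mpr ⟨v, ?_, hv'.symm⟩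
      unfold SV
      rw [mem_filter, mem_Icc]
      refine ⟨⟨by omega, by omega⟩, fun p hp hp1 hp2 hd => h6 p hp hp1 hp2 ?_,
        fun p hp hp1 hd => h7 p hp hp1 ?_⟩
      · have e : u + 1 = -(v : ℤ) := by rw [hv']; ring
        rw [e]
        exact (Int.dvd_neg).mpr (by exact_mod_cast hd)
      · have e : u = -((v : ℤ) + 1) := by rw [hv']; ring
        rw [e]
        exact (Int.dvd_neg).mpr hd
    · apply mem_union_left
      obtain ⟨v, hv⟩ := Int.eq_ofNat_of_zero_le h.le
      have hv' : u = (v : ℤ) - 1 := by linarith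
      refine mem_image.mpr ⟨v, ?_, hv'.symm⟩
      unfold SV
      rw [mem_filter, mem_Icc]
      refine ⟨⟨by omega, by omega⟩, fun p hp hp1 hp2 hd => h6 p hp hp1 hp2 ?_,
        fun p hp hp1 hd => h7 p hp hp1 ?_⟩
      · have e : u + 1 = (v : ℤ) := by rw [hv']; ring
        rw [e]
        exact_mod_cast hd
      · have e : u = (v : ℤ) + (-1) := by rw [hv']; ring
        rw [e]
        exact hd
  have h1 : (GT y T Bad).card ≤ (SV y T₀ (-1)).card + (SV y T₀ 1).card := by
    calc (GT y T Bad).card ≤ _ := Finset.card_le_card hsub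
      _ ≤ _ := Finset.card_union_le _ _
      _ ≤ _ := Nat.add_le_add Finset.card_image_le Finset.card_image_le
  exact_mod_cast h1

/-- a number divisible by all primes up to `z` has a small totient -/
theorem tot_bound : ∃ C : ℝ, 0 < C ∧ ∀ z : ℝ, 4 ≤ z → ∀ n : ℕ, 1 ≤ n →
    (∀ p : ℕ, p.Prime → (p : ℝ) ≤ z → p ∣ n) → (Nat.totient n : ℝ) ≤ C * n / Real.log z := by
  obtain ⟨C, hC0, hM⟩ := mertens_SP
  refine ⟨Real.exp (C + Real.log (Real.log 4)), Real.exp_pos _, fun z hz n hn h => ?_⟩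
  have hlz : 0 < Real.log z := Real.log_pos (by linarith)
  have h1 := hM 4 z le_rfl hz
  have h2 : (Nat.totient n : ℝ) = n * ∏ p ∈ n.primeFactors, (1 - (p : ℝ)⁻¹) := by
    have := Nat.totient_eq_mul_prod_factors n
    have h3 : ((Nat.totient n : ℚ) : ℝ) = (((n : ℚ) * ∏ p ∈ n.primeFactors,
      (1 - (p : ℚ)⁻¹) : ℚ) : ℝ) := by rw [this]
    push_cast at h3
    exact h3
  have hsub : SP 4 z ∅ ⊆ n.primeFactors := by
    intro p hp
    unfold SP at hp
    rw [mem_filter, mem_Icc] at hp
    rw [Nat.mem_primeFactors]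
    have h4 : (p : ℝ) ≤ z := by
      have h5 : (p : ℝ) ≤ (⌊z⌋₊ : ℝ) := by exact_mod_cast hp.1.2
      exact h5.trans (Nat.floor_le (by linarith))
    exact ⟨hp.2.1, h p hp.2.1 h4, by omega⟩
  have h01 : ∀ p ∈ n.primeFactors, 0 ≤ 1 - (p : ℝ)⁻¹ ∧ 1 - (p : ℝ)⁻¹ ≤ 1 := by
    intro p hp
    have h4 : (1 : ℝ) ≤ p := by exact_mod_cast (Nat.prime_of_mem_primeFactors hp).one_le
    have h5 : (p : ℝ)⁻¹ ≤ 1 := inv_le_one_of_one_le₀ h4
    have h6 : 0 ≤ (p : ℝ)⁻¹ := by positivity
    constructor <;> linarith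
  have h3 : ∏ p ∈ n.primeFactors, (1 - (p : ℝ)⁻¹) ≤ ∏ p ∈ SP 4 z ∅, (1 - (p : ℝ)⁻¹) := by
    rw [← Finset.prod_sdiff hsub]
    refine mul_le_of_le_one_left ?_ ?_
    · exact Finset.prod_nonneg fun p hp => (h01 p (hsub hp)).1
    · exact Finset.prod_le_one (fun p hp => (h01 p (mem_sdiff.mp hp).1).1)
        fun p hp => (h01 p (mem_sdiff.mp hp).1).2
  have h4 : ∏ p ∈ SP 4 z ∅, (1 - (p : ℝ)⁻¹) ≤ Real.exp (-∑ p ∈ SP 4 z ∅, (1 : ℝ) / p) := by
    rw [← Finset.sum_neg_distrib, Real.exp_sum]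
    refine Finset.prod_le_prod (fun p hp => (h01 p (hsub hp)).1) fun p hp => ?_
    have := Real.add_one_le_exp (-((1 : ℝ) / p))
    rw [one_div] at this ⊢
    linarith
  have h5 : Real.exp (-∑ p ∈ SP 4 z ∅, (1 : ℝ) / p) ≤
      Real.exp (C + Real.log (Real.log 4)) / Real.log z := by
    have h6 : Real.exp (C + Real.log (Real.log 4)) / Real.log z =
        Real.exp (C + Real.log (Real.log 4) - Real.log (Real.log z)) := by
      rw [Real.exp_sub, Real.exp_log hlz]
    rw [h6]
    apply Real.exp_le_exp.mpr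
    linarith
  rw [h2]
  calc (n : ℝ) * ∏ p ∈ n.primeFactors, (1 - (p : ℝ)⁻¹) ≤
        n * (Real.exp (C + Real.log (Real.log 4)) / Real.log z) :=
        mul_le_mul_of_nonneg_left ((h3.trans h4).trans h5) (Nat.cast_nonneg n)
    _ = _ := by ring

/-- size of `log (zR y)` -/
theorem log_zR (y : ℝ) : Real.log (zR y) =
    Real.log y * Real.log (Real.log (Real.log y)) / (10 * Real.log (Real.log y)) := by
  unfold zR
  rw [Real.log_exp]

theorem log_zR_lower {L : ℝ} (hL : 1000 ≤ L) (h1 : 100 ≤ Real.log L)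
    (h2 : 4 ≤ Real.log (Real.log L)) (h3 : 2 ≤ Real.log (Real.log (Real.log L))) :
    Real.log L * Real.log (Real.log (Real.log L)) / (40 * Real.log (Real.log L)) ≤
      Real.log (zR (L / 10)) := by
  rw [log_zR]
  have hL0 : 0 < L := by linarith
  have hl0 : Real.log (L / 10) = Real.log L - Real.log 10 := by
    rw [Real.log_div hL0.ne' (by norm_num)]
  have hl10 := LG.log10_lt
  have hl10' : 0 < Real.log 10 := Real.log_pos (by norm_num)
  have a1 : Real.log L / 2 ≤ Real.log (L / 10) := by rw [hl0]; linarith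
  have a2 : Real.log (L / 10) ≤ Real.log L := by rw [hl0]; linarith
  have hlog2 : Real.log 2 < 1 := by
    have := Real.log_two_lt_d9
    linarith
  have hpos1 : 0 < Real.log L / 2 := by linarith
  have b1 : Real.log (Real.log L) / 2 ≤ Real.log (Real.log (L / 10)) := by
    have e1 : Real.log (Real.log L / 2) ≤ Real.log (Real.log (L / 10)) :=
      Real.log_le_log hpos1 a1
    rw [Real.log_div (by linarith) (by norm_num)] at e1
    linarith
  have b2 : Real.log (Real.log (L / 10)) ≤ Real.log (Real.log L) :=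
    Real.log_le_log (by linarith) a2
  have hpos2 : 0 < Real.log (Real.log L) / 2 := by linarith
  have c1 : Real.log (Real.log (Real.log L)) / 2 ≤ Real.log (Real.log (Real.log (L / 10))) := by
    have e1 : Real.log (Real.log (Real.log L) / 2) ≤ Real.log (Real.log (Real.log (L / 10))) :=
      Real.log_le_log hpos2 b1
    rw [Real.log_div (by linarith) (by norm_num)] at e1
    linarith
  have d1 : 0 < Real.log (Real.log (L / 10)) := by linarith
  rw [div_le_div_iff₀ (by positivity) (by positivity)]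
  have e1 : Real.log L * Real.log (Real.log (Real.log L)) ≤
      4 * (Real.log (L / 10) * Real.log (Real.log (Real.log (L / 10)))) := by
    have : (Real.log L / 2) * (Real.log (Real.log (Real.log L)) / 2) ≤
        Real.log (L / 10) * Real.log (Real.log (Real.log (L / 10))) :=
      mul_le_mul a1 c1 (by linarith) (by linarith)
    linarith
  have e2 : 0 ≤ Real.log (L / 10) * Real.log (Real.log (Real.log (L / 10))) :=
    mul_nonneg (by linarith) (by linarith)
  calc Real.log L * Real.log (Real.log (Real.log L)) * (10 * Real.log (Real.log (L / 10))) ≤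
        (4 * (Real.log (L / 10) * Real.log (Real.log (Real.log (L / 10))))) *
          (10 * Real.log (Real.log L)) :=
        mul_le_mul e1 (by linarith) (by linarith) (by positivity)
    _ = _ := by ring

end Pool.Agent.H426R3.SQ
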